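import Pool.Agent.SF.Lang

/-!
Module A4, A5 of the counterexample to stable forking: formulas true of an algebraic element do
not fork, and formulas with boundedly many solutions are stable.
-/

set_option autoImplicit false

namespace Pool.Agent.SF

open FirstOrder FirstOrder.Language

variable {M : Type} {X : TypeSpace M}

open TypeSpace in
/-- in every model the type of an algebraic element has finitely many realisations -/
theorem algfork_finite (D : ForkData X) {N : Type} [X.lang.Structure N] (hN : N ⊨ X.th)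
    {l : ℕ} (c : Fin l → N) {a₀ : M} {c₀ : Fin l → M} (hA : D.Alg c₀ a₀) :
    {x : N | X.Same (Sum.elim c₀ fun _ : Unit => a₀) (Sum.elim c fun _ : Unit => x)}.Finite := by
  by_contra hinf
  obtain ⟨K, hK⟩ := D.alg_fin (Fin l)
  obtain ⟨s, hs, hcard⟩ := Set.Infinite.exists_subset_card_eq hinf (K + 1)
  let x : Fin (K + 1) → N := fun i => (s.equivFinOfCardEq hcard).symm i
  have hx : ∀ i, X.Same (Sum.elim c₀ fun _ : Unit => a₀) (Sum.elim c fun _ : Unit => x i) :=
    fun i => hs (Finset.coe_mem _)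
  have hxi : Function.Injective x :=
    Subtype.val_injective.comp (s.equivFinOfCardEq hcard).symm.injective
  obtain ⟨u, hu⟩ := exists_same (X := X) hN (N' := M) model_self (Sum.elim c x)
  have h1 : ∀ i, D.Alg (u ∘ Sum.inl) (u (Sum.inr i)) := by
    intro i
    have h2 := hu.comp (Sum.map id (fun _ : Unit => i) : Fin l ⊕ Unit → Fin l ⊕ Fin (K + 1))
    have e1 : u ∘ (Sum.map id (fun _ : Unit => i) : Fin l ⊕ Unit → Fin l ⊕ Fin (K + 1)) =
        Sum.elim (u ∘ Sum.inl) fun _ : Unit => u (Sum.inr i) := by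
      funext j; rcases j with j | j <;> rfl
    have e2 : (Sum.elim c x) ∘ (Sum.map id (fun _ : Unit => i) : Fin l ⊕ Unit → Fin l ⊕ Fin (K + 1)) =
        Sum.elim c fun _ : Unit => x i := by
      funext j; rcases j with j | j <;> rfl
    rw [e1, e2] at h2
    exact D.alg_inv (same_iff.1 ((hx i).trans h2.symm)) hA
  have h3 : Function.Injective fun i : Fin (K + 1) => u (Sum.inr i) := by
    intro i j hij
    exact hxi ((Same.eq (N := M) (N' := N) model_self hN hu (Sum.inr i) (Sum.inr j)).1 hij)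
  have h4 : (Set.range fun i : Fin (K + 1) => u (Sum.inr i)) ⊆ {a | D.Alg (u ∘ Sum.inl) a} := by
    rintro _ ⟨i, rfl⟩
    exact h1 i
  have h5 := Set.ncard_le_ncard h4 (hK (u ∘ Sum.inl)).1
  rw [← Set.image_univ, Set.ncard_image_of_injective _ h3, Set.ncard_univ, Nat.card_fin] at h5
  have h6 := (hK (u ∘ Sum.inl)).2
  omega

open TypeSpace in
theorem ForkData.not_forks_of_alg (D : ForkData X) {N : Type} [X.lang.Structure N]
    (hN : N ⊨ X.th) {m l : ℕ} {φ : X.lang.Formula (Fin 1 ⊕ Fin m)} {b : Fin m → N} {A : Set N}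
    {a : N} {c : Fin l → N} (hc : ∀ j, c j ∈ A) {a₀ : M} {c₀ : Fin l → M} (hA : D.Alg c₀ a₀)
    (hs : X.Same (Sum.elim c₀ fun _ : Unit => a₀) (Sum.elim c fun _ : Unit => a))
    (h : φ.Realize (Sum.elim (fun _ => a) b)) : ¬ Forks φ b A := by
  rintro ⟨N', iN', e, r, l', ψ', c', hdiv, hcov⟩
  have hN' : N' ⊨ X.th := model_of_elementary hN e
  -- one of the formulas is true of `a`
  have h1 : φ.Realize (Sum.elim (fun _ => e a) (e ∘ b)) := by
    have := (e.map_formula φ (Sum.elim (fun _ => a) b)).2 h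
    have e1 : e ∘ (Sum.elim (fun _ => a) b : Fin 1 ⊕ Fin m → N) =
        Sum.elim (fun _ => e a) (e ∘ b) := by
      funext j; rcases j with j | j <;> rfl
    rwa [e1] at this
  obtain ⟨j, hj⟩ := hcov _ h1
  obtain ⟨N'', iN'', e', k, d, hd, hk⟩ := hdiv j
  have hN'' : N'' ⊨ X.th := model_of_elementary hN' e'
  -- the isolating formula of `(c, a)`
  obtain ⟨θ, hθ⟩ := exists_isolating X (Sum.elim c₀ fun _ : Unit => a₀)
  -- the formula `∃ x, θ(z, x) ∧ ψ(x, y)`
  let χ' : X.lang.Formula ((Fin (l' j) ⊕ Fin l) ⊕ Unit) :=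
    θ.relabel (Sum.elim (fun i => Sum.inl (Sum.inr i)) fun u => Sum.inr u) ⊓
      (ψ' j).relabel (Sum.elim (fun _ => Sum.inr ()) fun i => Sum.inl (Sum.inl i))
  have hχ' : ∀ (P : Type) [X.lang.Structure P] (_ : P ⊨ X.th) (y : Fin (l' j) → P)
      (z : Fin l → P), (Formula.iExs Unit χ').Realize (Sum.elim y z) ↔
      ∃ x : P, X.Same (Sum.elim c₀ fun _ : Unit => a₀) (Sum.elim z fun _ : Unit => x) ∧
        (ψ' j).Realize (Sum.elim (fun _ => x) y) := by
    intro P _ hP y z
    rw [Formula.realize_iExs]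
    constructor
    · rintro ⟨x, hx⟩
      rw [Formula.realize_inf, Formula.realize_relabel, Formula.realize_relabel, hθ P hP] at hx
      refine ⟨x (), ?_, ?_⟩
      · convert hx.1 using 1
        funext i; rcases i with i | i <;> rfl
      · convert hx.2 using 1
        funext i; rcases i with i | i <;> rfl
    · rintro ⟨x, hx1, hx2⟩
      refine ⟨fun _ => x, ?_⟩
      rw [Formula.realize_inf, Formula.realize_relabel, Formula.realize_relabel, hθ P hP]
      constructor
      · convert hx1 using 1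
        funext i; rcases i with i | i <;> rfl
      · convert hx2 using 1
        funext i; rcases i with i | i <;> rfl
  have h2 : (Formula.iExs Unit χ').Realize (Sum.elim (c' j) (e ∘ c)) := by
    rw [hχ' N' hN']
    refine ⟨e a, ?_, hj⟩
    refine hs.trans ?_
    have := same_elementary e (Sum.elim c fun _ : Unit => a)
    convert this using 1
    funext i; rcases i with i | i <;> rfl
  have h3 : ∀ i, ∃ x : N'', X.Same (Sum.elim c₀ fun _ : Unit => a₀)
      (Sum.elim (e' ∘ (e ∘ c)) fun _ : Unit => x) ∧ (ψ' j).Realize (Sum.elim (fun _ => x) (d i)) := by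
    intro i
    rw [← hχ' N'' hN'']
    exact (hd i l (Formula.iExs Unit χ') (e ∘ c) (fun t => ⟨c t, hc t, rfl⟩)).2 h2
  choose x hx1 hx2 using h3
  have hfin := algfork_finite D hN'' (e' ∘ (e ∘ c)) hA
  -- infinite pigeonhole
  haveI : Finite {x : N'' | X.Same (Sum.elim c₀ fun _ : Unit => a₀)
      (Sum.elim (e' ∘ (e ∘ c)) fun _ : Unit => x)} := hfin
  obtain ⟨y, hy⟩ := Finite.exists_infinite_fiber
    (fun i : ℕ => (⟨x i, hx1 i⟩ : {x : N'' | X.Same (Sum.elim c₀ fun _ : Unit => a₀)
      (Sum.elim (e' ∘ (e ∘ c)) fun _ : Unit => x)}))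
  rw [Set.infinite_coe_iff] at hy
  obtain ⟨I, hI, hIk⟩ := hy.exists_subset_card_eq k
  refine hk I hIk ⟨fun _ => y.1, fun i hi => ?_⟩
  have h4 := hI hi
  have h5 : x i = y.1 := congrArg Subtype.val h4
  rw [← h5]
  exact hx2 i

theorem stable_of_bounded {L : FirstOrder.Language.{0, 0}} {T : L.Theory} {m : ℕ}
    (φ : L.Formula (Fin 1 ⊕ Fin m)) (K : ℕ)
    (h : ∀ (N : FirstOrder.Language.Theory.ModelType.{0, 0, 0} T) (b : Fin m → N)
      (s : Finset N), (∀ a ∈ s, φ.Realize (Sum.elim (fun _ => a) b)) → s.card ≤ K) :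
    StableFormula T φ := by
  classical
  rintro ⟨N, a, b, hab⟩
  have ha : ∀ i, a i = fun _ => a i 0 := by
    intro i; funext t; rw [Subsingleton.elim t 0]
  have hinj : Function.Injective fun i => a i 0 := by
    have key : ∀ i j, i < j → a i 0 ≠ a j 0 := by
      intro i j hij he
      have h1 := (hab i j).2 hij
      rw [ha i, he, ← ha j] at h1
      exact lt_irrefl j ((hab j j).1 h1)
    intro i j hij
    rcases lt_trichotomy i j with hlt | heq | hlt
    · exact absurd hij (key i j hlt)
    · exact heq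
    · exact absurd hij.symm (key j i hlt)
  have h1 := h N (b (K + 1)) ((Finset.range (K + 1)).image fun i => a i 0) (by
    intro y hy
    obtain ⟨i, hi, rfl⟩ := Finset.mem_image.1 hy
    rw [← ha i]
    exact (hab i (K + 1)).2 (Finset.mem_range.1 hi))
  rw [Finset.card_image_of_injective _ hinj, Finset.card_range] at h1
  omega

end Pool.Agent.SF
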