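import Pool.Agent.SF.GenDefs

/-!
# Module M1 DELTA: basic computations with the predimension
-/

set_option autoImplicit false
set_option linter.unusedSectionVars false
set_option linter.unusedSimpArgs false

namespace Pool.Agent.SF

variable {V : Type*} [DecidableEq V]

namespace Geo

section Delta
variable (G : Geo V)

namespace DeltaAux

open scoped Classical in
/-- the oriented cost of a pair -/
noncomputable def w (u v : V) : ℤ :=
  if G.adj u v ∧ (G.kind u).idx < (G.kind v).idx then Kind.cost (G.kind u) (G.kind v) else 0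

open scoped Classical in
/-- the indicator of a proposition -/
noncomputable def ind (p : Prop) : ℤ := if p then 1 else 0

open scoped Classical in
/-- the indicator of a triangle -/
noncomputable def t (x z c : V) : ℤ := if G.Tri x z c then 1 else 0

lemma delta_eq (A : Finset V) :
    G.delta A = ∑ v ∈ A, (G.kind v).wt - ∑ u ∈ A, ∑ v ∈ A, w G u v
      + ∑ x ∈ A, ∑ z ∈ A, ∑ c ∈ A, t G x z c := by
  classical
  unfold Geo.delta w t
  rw [Finset.sum_filter, Finset.sum_product, Finset.card_filter, Finset.sum_product]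
  push_cast
  simp only [Finset.sum_product]

lemma w_self (v : V) : w G v v = 0 := by
  unfold w
  simp

lemma t_eq (x z c : V) : t G x z c = ind (G.Tri x z c) := rfl

lemma delta_insert {v : V} {A : Finset V} (hv : v ∉ A) :
    G.delta (insert v A) = G.delta A + (G.kind v).wt - ∑ u ∈ A, (w G u v + w G v u)
      + (∑ z ∈ A, ∑ c ∈ A, t G v z c + ∑ x ∈ A, ∑ c ∈ A, t G x v c
        + ∑ x ∈ A, ∑ z ∈ A, t G x z v) := by
  have h1 : ∀ c, t G v v c = 0 := by
    intro c
    unfold t Tri
    rw [if_neg]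
    rintro ⟨a, b, _⟩
    rw [a] at b
    cases b
  have h2 : ∀ z, t G v z v = 0 := by
    intro c
    unfold t Tri
    rw [if_neg]
    rintro ⟨a, _, b, _⟩
    rw [a] at b
    cases b
  have h3 : ∀ x, t G x v v = 0 := by
    intro c
    unfold t Tri
    rw [if_neg]
    rintro ⟨_, a, b, _⟩
    rw [a] at b
    cases b
  simp only [delta_eq, Finset.sum_insert hv, Finset.sum_add_distrib, w_self, h1, h2, h3,
    Finset.sum_const_zero]
  ring

lemma card_filter_ind (p : V → Prop) [DecidablePred p] (A : Finset V) :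
    ((A.filter p).card : ℤ) = ∑ u ∈ A, ind (p u) := by
  rw [Finset.card_filter]
  push_cast
  apply Finset.sum_congr rfl
  intro u _
  unfold ind
  by_cases h : p u <;> simp [h]

lemma card_nbB (σ : Bool) (v : V) (A : Finset V) :
    ((G.nbB σ v A).card : ℤ) = ∑ u ∈ A, ind (G.adj v u ∧ G.kind u = .B σ) := by
  classical
  unfold nbB
  rw [card_filter_ind]

lemma card_nbP (v : V) (A : Finset V) :
    ((G.nbP v A).card : ℤ) = ∑ u ∈ A, ind (G.adj v u ∧ G.kind u = .P) := by
  classical
  unfold nbP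
  rw [card_filter_ind]

lemma card_nbC (v : V) (A : Finset V) :
    ((G.nbC v A).card : ℤ) = ∑ u ∈ A, ind (G.adj v u ∧ G.kind u = .C) := by
  classical
  unfold nbC
  rw [card_filter_ind]

lemma ed_eq (S T : Finset V) : (G.ed S T : ℤ) = ∑ x ∈ S, ∑ z ∈ T, ind (G.adj x z) := by
  classical
  unfold ed
  rw [Finset.card_filter, Finset.sum_product]
  push_cast
  rfl

lemma ed_filter (p q : V → Prop) [DecidablePred p] [DecidablePred q] (A B : Finset V) :
    (G.ed (A.filter p) (B.filter q) : ℤ) = ∑ x ∈ A, ∑ z ∈ B, ind (p x ∧ q z ∧ G.adj x z) := by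
  rw [ed_eq, Finset.sum_filter]
  apply Finset.sum_congr rfl
  intro x _
  by_cases hx : p x
  · rw [if_pos hx, Finset.sum_filter]
    apply Finset.sum_congr rfl
    intro z _
    unfold ind
    by_cases hz : q z
    · rw [if_pos hz]
      by_cases ha : G.adj x z
      · rw [if_pos ha, if_pos ⟨hx, hz, ha⟩]
      · rw [if_neg ha, if_neg (fun h => ha h.2.2)]
    · rw [if_neg hz, if_neg (fun h => hz h.2.1)]
  · rw [if_neg hx]
    symm
    apply Finset.sum_eq_zero
    intro z _
    unfold ind
    simp [hx]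

lemma adj_comm' (u v : V) : G.adj u v ↔ G.adj v u := ⟨G.symm u v, G.symm v u⟩

lemma t_P1 {v : V} (hk : G.kind v = .P) (z c : V) : t G v z c = 0 := by
  unfold t Tri; simp [hk]
lemma t_P2 {v : V} (hk : G.kind v = .P) (z c : V) : t G z v c = 0 := by
  unfold t Tri; simp [hk]
lemma t_P3 {v : V} (hk : G.kind v = .P) (z c : V) : t G z c v = 0 := by
  unfold t Tri; simp [hk]

lemma w_P {v : V} (hk : G.kind v = .P) (u : V) : w G u v + w G v u =
    ind (G.adj v u ∧ G.kind u = .B false) + ind (G.adj v u ∧ G.kind u = .B true)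
      + ind (G.adj v u ∧ G.kind u = .C) := by
  unfold w ind
  rw [adj_comm' G u v, hk]
  generalize G.kind u = k
  by_cases ha : G.adj v u
  · rcases k with _ | s | _
    · simp [ha, Kind.idx, Kind.cost]
    · cases s <;> simp [ha, Kind.idx, Kind.cost]
    · simp [ha, Kind.idx, Kind.cost]
  · simp [ha]

lemma w_C {v : V} (hk : G.kind v = .C) (u : V) : w G u v + w G v u =
    ind (G.adj v u ∧ G.kind u = .P) + 10 * (ind (G.adj v u ∧ G.kind u = .B false)
      + ind (G.adj v u ∧ G.kind u = .B true)) := by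
  unfold w ind
  rw [adj_comm' G u v, hk]
  generalize G.kind u = k
  by_cases ha : G.adj v u
  · rcases k with _ | s | _
    · simp [ha, Kind.idx, Kind.cost]
    · cases s <;> simp [ha, Kind.idx, Kind.cost]
    · simp [ha, Kind.idx, Kind.cost]
  · simp [ha]

lemma w_B {v : V} (σ : Bool) (hk : G.kind v = .B σ) (u : V) : w G u v + w G v u =
    ind (G.adj v u ∧ G.kind u = .P) + 10 * ind (G.adj v u ∧ G.kind u = .C)
      + ind (G.adj v u ∧ G.kind u = .B (!σ)) := by
  unfold w ind
  rw [adj_comm' G u v, hk]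
  generalize G.kind u = k
  by_cases ha : G.adj v u
  · rcases k with _ | s | _
    · cases σ <;> simp [ha, Kind.idx, Kind.cost]
    · cases s <;> cases σ <;> simp [ha, Kind.idx, Kind.cost]
    · cases σ <;> simp [ha, Kind.idx, Kind.cost]
  · simp [ha]

open scoped Classical in
/-- number of triangles -/
noncomputable def tt (A : Finset V) : ℕ :=
  ((A ×ˢ A ×ˢ A).filter fun t => G.Tri t.1 t.2.1 t.2.2).card

lemma delta_eq' (A : Finset V) :
    G.delta A = ∑ v ∈ A, (G.kind v).wt - ∑ u ∈ A, ∑ v ∈ A, w G u v + (tt G A : ℤ) := by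
  classical
  unfold Geo.delta w tt
  rw [Finset.sum_filter, Finset.sum_product]

lemma card_incl_excl {α : Type*} (S : Finset α) (p q : α → Prop) [DecidablePred p]
    [DecidablePred q] :
    S.card + (S.filter fun a => p a ∧ q a).card =
      (S.filter p).card + (S.filter q).card + (S.filter fun a => ¬ p a ∧ ¬ q a).card := by
  classical
  rw [Finset.card_filter, Finset.card_filter, Finset.card_filter, Finset.card_filter,
    Finset.card_eq_sum_ones, ← Finset.sum_add_distrib, ← Finset.sum_add_distrib,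
    ← Finset.sum_add_distrib]
  apply Finset.sum_congr rfl
  intro a _
  by_cases hp : p a <;> by_cases hq : q a <;> simp [hp, hq]

lemma tt_union_inter (A B : Finset V) :
    tt G (A ∪ B) + tt G (A ∩ B) = tt G A + tt G B + G.crossTri A B := by
  classical
  have h := card_incl_excl (((A ∪ B) ×ˢ (A ∪ B) ×ˢ (A ∪ B)).filter
    fun t => G.Tri t.1 t.2.1 t.2.2) (fun t => t.1 ∈ A ∧ t.2.1 ∈ A ∧ t.2.2 ∈ A)
    (fun t => t.1 ∈ B ∧ t.2.1 ∈ B ∧ t.2.2 ∈ B)
  have e1 : (((A ∪ B) ×ˢ (A ∪ B) ×ˢ (A ∪ B)).filter fun t => G.Tri t.1 t.2.1 t.2.2).card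
      = tt G (A ∪ B) := by
    unfold tt
    congr!
  rw [e1] at h
  simp only [Finset.filter_filter] at h
  have e2 : tt G (A ∩ B) = (((A ∪ B) ×ˢ (A ∪ B) ×ˢ (A ∪ B)).filter
      fun t => G.Tri t.1 t.2.1 t.2.2 ∧ (t.1 ∈ A ∧ t.2.1 ∈ A ∧ t.2.2 ∈ A) ∧
        t.1 ∈ B ∧ t.2.1 ∈ B ∧ t.2.2 ∈ B).card := by
    unfold tt
    congr 1
    ext ⟨x, z, c⟩
    simp only [Finset.mem_filter, Finset.mem_product, Finset.mem_inter, Finset.mem_union]
    tauto
  have e3 : tt G A = (((A ∪ B) ×ˢ (A ∪ B) ×ˢ (A ∪ B)).filter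
      fun t => G.Tri t.1 t.2.1 t.2.2 ∧ (t.1 ∈ A ∧ t.2.1 ∈ A ∧ t.2.2 ∈ A)).card := by
    unfold tt
    congr 1
    ext ⟨x, z, c⟩
    simp only [Finset.mem_filter, Finset.mem_product, Finset.mem_union]
    tauto
  have e4 : tt G B = (((A ∪ B) ×ˢ (A ∪ B) ×ˢ (A ∪ B)).filter
      fun t => G.Tri t.1 t.2.1 t.2.2 ∧ (t.1 ∈ B ∧ t.2.1 ∈ B ∧ t.2.2 ∈ B)).card := by
    unfold tt
    congr 1
    ext ⟨x, z, c⟩
    simp only [Finset.mem_filter, Finset.mem_product, Finset.mem_union]
    tauto
  have e5 : G.crossTri A B = (((A ∪ B) ×ˢ (A ∪ B) ×ˢ (A ∪ B)).filter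
      fun t => G.Tri t.1 t.2.1 t.2.2 ∧ ¬ (t.1 ∈ A ∧ t.2.1 ∈ A ∧ t.2.2 ∈ A) ∧
        ¬ (t.1 ∈ B ∧ t.2.1 ∈ B ∧ t.2.2 ∈ B)).card := by
    unfold crossTri
    congr!
  rw [e2, e3, e4, e5]
  exact h

lemma w_cross (u v : V) : w G u v + w G v u =
    10 * ind (G.adj u v ∧ Kind.cost (G.kind u) (G.kind v) = 10)
      + ind (G.adj u v ∧ (G.kind u = .P ∨ G.kind v = .P))
      + ind (G.adj u v ∧ ∃ σ, G.kind u = .B σ ∧ G.kind v = .B (!σ)) := by
  have hc := G.compat u v
  unfold w ind
  rw [adj_comm' G v u]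
  revert hc
  generalize G.kind u = k
  generalize G.kind v = l
  by_cases ha : G.adj u v
  · intro hc
    have hc' := hc ha
    rcases k with _ | s | _
    · rcases l with _ | r | _
      · exact absurd rfl hc'
      · cases r <;> simp [ha, Kind.idx, Kind.cost]
      · simp [ha, Kind.idx, Kind.cost]
    · rcases l with _ | r | _
      · cases s <;> simp [ha, Kind.idx, Kind.cost]
      · cases s <;> cases r <;> first | exact absurd rfl hc' | simp [ha, Kind.idx, Kind.cost]
      · cases s <;> simp [ha, Kind.idx, Kind.cost]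
    · rcases l with _ | r | _
      · simp [ha, Kind.idx, Kind.cost]
      · cases r <;> simp [ha, Kind.idx, Kind.cost]
      · exact absurd rfl hc'
  · intro _
    simp [ha]

lemma card_filter_prod_ind (p : V × V → Prop) [DecidablePred p] (A B : Finset V) :
    (((A ×ˢ B).filter p).card : ℤ) = ∑ u ∈ A, ∑ v ∈ B, ind (p (u, v)) := by
  rw [Finset.card_filter, Finset.sum_product]
  push_cast
  apply Finset.sum_congr rfl
  intro u _
  apply Finset.sum_congr rfl
  intro v _
  unfold ind
  by_cases h : p (u, v) <;> simp [h]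

lemma sum_cross (A B : Finset V) :
    ∑ u ∈ A \ B, ∑ v ∈ B \ A, (w G u v + w G v u) =
      10 * (G.crossBC A B : ℤ) + G.crossP A B + G.crossR A B := by
  classical
  unfold crossBC crossP crossR
  rw [card_filter_prod_ind, card_filter_prod_ind, card_filter_prod_ind, Finset.mul_sum,
    ← Finset.sum_add_distrib, ← Finset.sum_add_distrib]
  apply Finset.sum_congr rfl
  intro u _
  rw [Finset.mul_sum, ← Finset.sum_add_distrib, ← Finset.sum_add_distrib]
  apply Finset.sum_congr rfl
  intro v _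
  exact w_cross G u v

lemma delta_same {A : Finset V} (k : Kind) (h : ∀ v ∈ A, G.kind v = k) :
    G.delta A = A.card * k.wt := by
  rw [delta_eq]
  have h1 : ∑ v ∈ A, (G.kind v).wt = A.card * k.wt := by
    rw [Finset.sum_congr rfl (fun v hv => by rw [h v hv])]
    simp
  have h2 : ∑ u ∈ A, ∑ v ∈ A, w G u v = 0 := by
    apply Finset.sum_eq_zero
    intro u hu
    apply Finset.sum_eq_zero
    intro v hv
    unfold w
    rw [h u hu, h v hv]
    simp
  have h3 : ∑ x ∈ A, ∑ z ∈ A, ∑ c ∈ A, t G x z c = 0 := by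
    apply Finset.sum_eq_zero
    intro x hx
    apply Finset.sum_eq_zero
    intro z hz
    apply Finset.sum_eq_zero
    intro c hc
    unfold t Tri
    rw [if_neg]
    rintro ⟨a, b, _⟩
    rw [h x hx] at a
    rw [h z hz, a] at b
    cases b
  rw [h1, h2, h3]
  ring

end DeltaAux

open DeltaAux

theorem delta_empty : G.delta ∅ = 0 := by
  rw [delta_eq]
  simp

theorem delta_insert_P {v : V} {A : Finset V} (hv : v ∉ A) (hk : G.kind v = .P) :
    G.delta (insert v A) = G.delta A + 1 - (G.nbB false v A).card - (G.nbB true v A).card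
      - (G.nbC v A).card := by
  rw [delta_insert G hv, card_nbB, card_nbB, card_nbC]
  simp only [w_P G hk, t_P1 G hk, t_P2 G hk, t_P3 G hk, Finset.sum_add_distrib,
    Finset.sum_const_zero]
  rw [hk]
  simp only [Kind.wt]
  ring

theorem delta_insert_C {v : V} {A : Finset V} (hv : v ∉ A) (hk : G.kind v = .C) :
    G.delta (insert v A) = G.delta A + 20 - (G.nbP v A).card
      - 10 * ((G.nbB false v A).card + (G.nbB true v A).card)
      + G.ed (G.nbB false v A) (G.nbB true v A) := by
  classical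
  rw [delta_insert G hv, card_nbB, card_nbB, card_nbP]
  have h1 : ∀ z c, t G v z c = 0 := fun z c => by unfold t Tri; simp [hk]
  have h2 : ∀ z c, t G z v c = 0 := fun z c => by unfold t Tri; simp [hk]
  have h3 : (G.ed (G.nbB false v A) (G.nbB true v A) : ℤ) = ∑ x ∈ A, ∑ z ∈ A, t G x z v := by
    unfold nbB
    rw [ed_filter]
    apply Finset.sum_congr rfl
    intro x _
    apply Finset.sum_congr rfl
    intro z _
    rw [t_eq]
    congr 1
    unfold Tri
    rw [adj_comm' G v x, adj_comm' G v z]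
    simp only [hk, true_and, eq_iff_iff]
    tauto
  rw [h3]
  simp only [w_C G hk, h1, h2, Finset.sum_add_distrib, ← Finset.mul_sum,
    Finset.sum_const_zero]
  rw [hk]
  simp only [Kind.wt]
  ring

theorem delta_insert_B {v : V} {A : Finset V} (σ : Bool) (hv : v ∉ A) (hk : G.kind v = .B σ) :
    G.delta (insert v A) = G.delta A + 11 - (G.nbP v A).card - 10 * (G.nbC v A).card
      - (G.nbB (!σ) v A).card + G.ed (G.nbC v A) (G.nbB (!σ) v A) := by
  classical
  rw [delta_insert G hv, card_nbB, card_nbC, card_nbP]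
  have h1 : ∀ z c, t G z c v = 0 := fun z c => by unfold t Tri; simp [hk]
  have h3 : (G.ed (G.nbC v A) (G.nbB (!σ) v A) : ℤ) =
      ∑ z ∈ A, ∑ c ∈ A, t G v z c + ∑ x ∈ A, ∑ c ∈ A, t G x v c := by
    unfold nbB nbC
    rw [ed_filter, Finset.sum_comm, ← Finset.sum_add_distrib]
    apply Finset.sum_congr rfl
    intro z _
    rw [← Finset.sum_add_distrib]
    apply Finset.sum_congr rfl
    intro c _
    rw [t_eq, t_eq]
    unfold Tri
    rw [adj_comm' G c z, adj_comm' G z v]
    cases σ
    · have e2 : ind (G.kind z = Kind.B false ∧ G.kind v = Kind.B true ∧ G.kind c = Kind.C ∧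
          G.adj v z ∧ G.adj z c ∧ G.adj v c) = 0 := by
        unfold ind; simp [hk]
      rw [e2, add_zero]
      congr 1
      simp only [hk, true_and, eq_iff_iff, Bool.not_false]
      tauto
    · have e2 : ind (G.kind v = Kind.B false ∧ G.kind z = Kind.B true ∧ G.kind c = Kind.C ∧
          G.adj v z ∧ G.adj v c ∧ G.adj z c) = 0 := by
        unfold ind; simp [hk]
      rw [e2, zero_add]
      congr 1
      simp only [hk, true_and, eq_iff_iff, Bool.not_true]
      tauto
  rw [h3]
  simp only [w_B G σ hk, h1, Finset.sum_add_distrib, ← Finset.mul_sum,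
    Finset.sum_const_zero]
  rw [hk]
  simp only [Kind.wt]
  ring

theorem delta_union_inter (A B : Finset V) :
    G.delta (A ∪ B) + G.delta (A ∩ B) = G.delta A + G.delta B - 10 * G.crossBC A B
      - G.crossP A B - G.crossR A B + G.crossTri A B := by
  have hA : ∀ f : V → ℤ, ∑ v ∈ A, f v = ∑ v ∈ A ∩ B, f v + ∑ v ∈ A \ B, f v := fun f =>
    (Finset.sum_inter_add_sum_sdiff A B f).symm
  have hB : ∀ f : V → ℤ, ∑ v ∈ B, f v = ∑ v ∈ A ∩ B, f v + ∑ v ∈ B \ A, f v := fun f => by
    rw [Finset.inter_comm]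
    exact (Finset.sum_inter_add_sum_sdiff B A f).symm
  have hU : ∀ f : V → ℤ, ∑ v ∈ A ∪ B, f v = ∑ v ∈ A ∩ B, f v + ∑ v ∈ A \ B, f v
      + ∑ v ∈ B \ A, f v := fun f => by
    have h1 := Finset.sum_union_inter (s₁ := A) (s₂ := B) (f := f)
    have h2 := hA f
    have h3 := hB f
    linarith
  have h3 : ((tt G (A ∪ B) : ℤ)) + tt G (A ∩ B) = tt G A + tt G B + G.crossTri A B := by
    exact_mod_cast tt_union_inter G A B
  have h4 := sum_cross G A B
  have h5 : ∑ u ∈ A \ B, ∑ v ∈ B \ A, w G v u = ∑ u ∈ B \ A, ∑ v ∈ A \ B, w G u v :=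
    Finset.sum_comm
  rw [delta_eq', delta_eq', delta_eq' G A, delta_eq' G B]
  simp only [Finset.sum_add_distrib] at h4
  rw [h5] at h4
  simp only [hA, hB, hU, Finset.sum_add_distrib]
  linarith

theorem delta_Cs_Bs {Cs Bs : Finset V} (σ : Bool) (hC : ∀ c ∈ Cs, G.kind c = .C)
    (hB : ∀ b ∈ Bs, G.kind b = .B σ) :
    G.delta (Cs ∪ Bs) = 20 * Cs.card + 11 * Bs.card - 10 * G.ed Cs Bs := by
  classical
  have hdis : Disjoint Cs Bs := by
    rw [Finset.disjoint_left]
    intro v hv hv'
    have h1 := hC v hv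
    rw [hB v hv'] at h1
    cases h1
  have h := delta_union_inter G Cs Bs
  have h1 : G.delta (Cs ∩ Bs) = 0 := by
    rw [Finset.disjoint_iff_inter_eq_empty.1 hdis]
    exact delta_empty G
  have h2 := delta_same G Kind.C hC
  have h3 := delta_same G (Kind.B σ) hB
  have e1 : Cs \ Bs = Cs := Finset.sdiff_eq_self_of_disjoint hdis
  have e2 : Bs \ Cs = Bs := Finset.sdiff_eq_self_of_disjoint hdis.symm
  have h4 : G.crossBC Cs Bs = G.ed Cs Bs := by
    unfold crossBC ed
    rw [e1, e2]
    congr 1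
    apply Finset.filter_congr
    rintro ⟨c, b⟩ hcb
    rw [Finset.mem_product] at hcb
    simp only [hC c hcb.1, hB b hcb.2, and_iff_left_iff_imp]
    intro _
    cases σ <;> rfl
  have h5 : G.crossP Cs Bs = 0 := by
    unfold crossP
    rw [e1, e2, Finset.card_eq_zero, Finset.filter_eq_empty_iff]
    rintro ⟨c, b⟩ hcb
    rw [Finset.mem_product] at hcb
    simp [hC c hcb.1, hB b hcb.2]
  have h6 : G.crossR Cs Bs = 0 := by
    unfold crossR
    rw [e1, e2, Finset.card_eq_zero, Finset.filter_eq_empty_iff]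
    rintro ⟨c, b⟩ hcb
    rw [Finset.mem_product] at hcb
    simp [hC c hcb.1]
  have h7 : G.crossTri Cs Bs = 0 := by
    unfold crossTri
    rw [Finset.card_eq_zero, Finset.filter_eq_empty_iff]
    rintro ⟨x, z, c⟩ hxz
    simp only [Finset.mem_product, Finset.mem_union] at hxz
    rintro ⟨⟨a, b, _⟩, _⟩
    have hx : x ∈ Bs := by
      rcases hxz.1 with h | h
      · have := hC x h
        rw [a] at this
        cases this
      · exact h
    have hz : z ∈ Bs := by
      rcases hxz.2.1 with h | h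
      · have := hC z h
        rw [b] at this
        cases this
      · exact h
    have i1 := hB x hx
    have i2 := hB z hz
    rw [a] at i1
    rw [b, ← i1] at i2
    cases i2
  rw [h1, h2, h3, h4, h5, h6, h7] at h
  simp only [Kind.wt] at h
  push_cast at h
  linarith

theorem delta_allP {A : Finset V} (h : ∀ v ∈ A, G.kind v = .P) : G.delta A = A.card := by
  rw [delta_same G Kind.P h]
  simp [Kind.wt]

end Delta

end Geo

end Pool.Agent.SF
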