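import Pool.Agent.SF.Delta

/-!
# M2 PROCESS: the closure process does not increase `delta` (helper86)
-/

set_option autoImplicit false

namespace Pool.Agent.SF

variable {V : Type*} [DecidableEq V]

namespace Geo

variable {G : Geo V} {W A B Q Y Z : Finset V}

omit [DecidableEq V] in
theorem good_of_nbB (h : ∀ c ∈ W, G.kind c = .C → c ∉ Y → ∀ σ, (G.nbB σ c Y).card ≤ 3) :
    G.Good W Y := fun c hc hk hcY => Or.inl (h c hc hk hcY false)

omit [DecidableEq V] in
theorem nbB_mono (σ : Bool) (v : V) (h : A ⊆ B) : G.nbB σ v A ⊆ G.nbB σ v B := by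
  intro u hu
  simp only [nbB, Finset.mem_filter] at hu ⊢
  exact ⟨h hu.1, hu.2⟩

omit [DecidableEq V] in
theorem nbC_mono (v : V) (h : A ⊆ B) : G.nbC v A ⊆ G.nbC v B := by
  intro u hu
  simp only [nbC, Finset.mem_filter] at hu ⊢
  exact ⟨h hu.1, hu.2⟩

theorem card_nbB_union_le (σ : Bool) (v : V) (A B : Finset V) :
    (G.nbB σ v (A ∪ B)).card ≤ (G.nbB σ v A).card + (G.nbB σ v B).card := by
  refine le_trans (Finset.card_le_card ?_) (Finset.card_union_le _ _)
  intro u hu
  simp only [nbB, Finset.mem_filter, Finset.mem_union] at hu ⊢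
  rcases hu with ⟨h1 | h1, h2⟩
  · exact Or.inl ⟨h1, h2⟩
  · exact Or.inr ⟨h1, h2⟩

theorem card_nbC_union_le (v : V) (A B : Finset V) :
    (G.nbC v (A ∪ B)).card ≤ (G.nbC v A).card + (G.nbC v B).card := by
  refine le_trans (Finset.card_le_card ?_) (Finset.card_union_le _ _)
  intro u hu
  simp only [nbC, Finset.mem_filter, Finset.mem_union] at hu ⊢
  rcases hu with ⟨h1 | h1, h2⟩
  · exact Or.inl ⟨h1, h2⟩
  · exact Or.inr ⟨h1, h2⟩

omit [DecidableEq V] in
theorem ClosedIn.card_nbB_le (h : G.ClosedIn W A) {c : V} (hc : c ∈ W) (hk : G.kind c = .C)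
    (hcA : c ∉ A) (σ : Bool) : (G.nbB σ c A).card ≤ 1 := by
  by_contra hcon
  exact hcA (h.pt c hc hk σ (by omega))

omit [DecidableEq V] in
theorem ClosedIn.card_nbC_le (h : G.ClosedIn W A) {b : V} {σ : Bool} (hb : b ∈ W)
    (hk : G.kind b = .B σ) (hbA : b ∉ A) : (G.nbC b A).card ≤ 1 := by
  by_contra hcon
  exact hbA (h.bl b hb σ hk (by omega))

omit [DecidableEq V] in
theorem ClosedIn.nice (h : G.ClosedIn W A) : G.Nice W A where
  sub := h.sub
  pt c hc hk hcA σ := (h.card_nbB_le hc hk hcA σ).trans (by norm_num)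
  bl b hb σ hk hbA := (h.card_nbC_le hb hk hbA).trans (by norm_num)

theorem ClosedIn.nice_union (hA : G.ClosedIn W A) (hB : G.ClosedIn W B) : G.Nice W (A ∪ B) where
  sub := Finset.union_subset hA.sub hB.sub
  pt c hc hk hcA σ := by
    rw [Finset.mem_union, not_or] at hcA
    have h1 := hA.card_nbB_le hc hk hcA.1 σ
    have h2 := hB.card_nbB_le hc hk hcA.2 σ
    have h3 := G.card_nbB_union_le σ c A B
    omega
  bl b hb σ hk hbA := by
    rw [Finset.mem_union, not_or] at hbA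
    have h1 := hA.card_nbC_le hb hk hbA.1
    have h2 := hB.card_nbC_le hb hk hbA.2
    have h3 := G.card_nbC_union_le b A B
    omega

theorem ClosedIn.good_union_nice (hQ : G.ClosedIn W Q) (hZ : G.Nice W Z) : G.Good W (Q ∪ Z) := by
  refine good_of_nbB fun c hc hk hcY σ => ?_
  rw [Finset.mem_union, not_or] at hcY
  have h1 := hQ.card_nbB_le hc hk hcY.1 σ
  have h2 := hZ.pt c hc hk hcY.2 σ
  have h3 := G.card_nbB_union_le σ c Q Z
  omega

omit [DecidableEq V] in
theorem ed_le_mul (S T : Finset V) : G.ed S T ≤ S.card * T.card := by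
  classical
  unfold ed
  rw [← Finset.card_product]
  exact Finset.card_le_card (Finset.filter_subset _ _)

theorem arith_pt (k l : ℕ) (h3 : k ≤ 3 ∨ l ≤ 3) (h2 : 2 ≤ k ∨ 2 ≤ l) :
    20 + k * l ≤ 10 * (k + l) := by
  rcases h3 with h3 | h3
  · interval_cases k <;> omega
  · interval_cases l <;> omega

open scoped Classical in
omit [DecidableEq V] in
theorem ed_eq_sum (S T : Finset V) :
    G.ed S T = ∑ z ∈ T, (S.filter fun c => G.adj c z).card := by
  unfold ed
  rw [Finset.card_filter, Finset.sum_product_right]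
  refine Finset.sum_congr rfl fun z _ => ?_
  rw [Finset.card_filter]

/-- inserting a forced point -/
theorem delta_insert_pt {c : V} (hk : G.kind c = .C) (hc : c ∉ Y)
    (h3 : (G.nbB false c Y).card ≤ 3 ∨ (G.nbB true c Y).card ≤ 3) {σ : Bool}
    (h2 : 2 ≤ (G.nbB σ c Y).card) : G.delta (insert c Y) ≤ G.delta Y := by
  rw [G.delta_insert_C hc hk]
  have he : (G.ed (G.nbB false c Y) (G.nbB true c Y) : ℤ) ≤
      (G.nbB false c Y).card * (G.nbB true c Y).card := by
    exact_mod_cast ed_le_mul _ _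
  have h2' : 2 ≤ (G.nbB false c Y).card ∨ 2 ≤ (G.nbB true c Y).card := by
    cases σ
    · exact Or.inl h2
    · exact Or.inr h2
  have hnn : (0 : ℤ) ≤ ((G.nbP c Y).card : ℤ) := by positivity
  have h4 := arith_pt _ _ h3 h2'
  zify at h4
  linarith

/-- inserting a forced block -/
theorem delta_insert_bl (hL : G.Loc W) (hYW : Y ⊆ W) {b : V} {σ : Bool} (hbW : b ∈ W)
    (hk : G.kind b = .B σ) (hb : b ∉ Y) (h2 : 2 ≤ (G.nbC b Y).card) :
    G.delta (insert b Y) ≤ G.delta Y := by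
  classical
  rw [G.delta_insert_B σ hb hk]
  set Cs := G.nbC b Y with hCs
  set Bs := G.nbB (!σ) b Y with hBs
  let d : V → ℕ := fun z => (Cs.filter fun c => G.adj c z).card
  have hd : ∀ T : Finset V, G.ed Cs T = ∑ z ∈ T, d z := by
    intro T
    rw [ed_eq_sum]
  let Bs' := Bs.filter fun z => 2 ≤ d z
  let Bs'' := Bs.filter fun z => ¬ 2 ≤ d z
  have h1 : G.ed Cs Bs = G.ed Cs Bs' + ∑ z ∈ Bs'', d z := by
    rw [hd, hd]
    exact (Finset.sum_filter_add_sum_filter_not Bs (fun z => 2 ≤ d z) d).symm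
  have h3 : ∑ z ∈ Bs'', d z ≤ Bs''.card := by
    rw [Finset.card_eq_sum_ones]
    refine Finset.sum_le_sum fun z hz => ?_
    have := (Finset.mem_filter.1 hz).2
    omega
  have h4 : 2 * Bs'.card ≤ G.ed Cs Bs' := by
    rw [hd, Finset.card_eq_sum_ones, Finset.mul_sum]
    refine Finset.sum_le_sum fun z hz => ?_
    have := (Finset.mem_filter.1 hz).2
    omega
  have h5 : Bs.card = Bs'.card + Bs''.card :=
    (Finset.card_filter_add_card_filter_not (s := Bs) (fun z => 2 ≤ d z)).symm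
  have h6 := hL.res b hbW σ hk Cs (nbC_mono b hYW) Bs'
    ((Finset.filter_subset _ _).trans (nbB_mono _ b hYW))
    (Or.inl (Finset.card_pos.1 (by omega)))
  have hnn : (0 : ℤ) ≤ ((G.nbP b Y).card : ℤ) := by positivity
  push_cast [h1, h5]
  zify at h3 h4 h2
  linarith

theorem exists_closure_aux (hL : G.Loc W) (n : ℕ) : ∀ Y : Finset V, (W \ Y).card = n → Y ⊆ W →
    G.Good W Y → ∃ E, G.ClosedIn W E ∧ Y ⊆ E ∧ G.delta E ≤ G.delta Y ∧
      ∀ Q, G.ClosedIn W Q → Y ⊆ Q → E ⊆ Q := by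
  induction n using Nat.strong_induction_on with
  | _ n ih =>
  intro Y hn hYW hY
  have hcard : ∀ v ∈ W, v ∉ Y → (W \ insert v Y).card < n := by
    intro v hv hvY
    rw [← hn]
    refine Finset.card_lt_card ?_
    rw [Finset.ssubset_iff_of_subset (Finset.sdiff_subset_sdiff le_rfl (Finset.subset_insert _ _))]
    exact ⟨v, Finset.mem_sdiff.2 ⟨hv, hvY⟩, by simp⟩
  by_cases ha : ∃ c ∈ W, G.kind c = .C ∧ c ∉ Y ∧ ∃ σ, 2 ≤ (G.nbB σ c Y).card
  · obtain ⟨c, hcW, hk, hcY, σ, h2⟩ := ha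
    have hgood : G.Good W (insert c Y) := by
      intro c' hc' hk' hcY'
      have h1 : ∀ τ, G.nbB τ c' (insert c Y) = G.nbB τ c' Y := by
        intro τ
        ext u
        simp only [nbB, Finset.mem_filter, Finset.mem_insert]
        constructor
        · rintro ⟨h | h, h2⟩
          · rw [h, hk] at h2; exact absurd h2.2 (by simp)
          · exact ⟨h, h2⟩
        · rintro ⟨h, h2⟩
          exact ⟨Or.inr h, h2⟩
      rw [h1, h1]
      exact hY c' hc' hk' fun h => hcY' (Finset.mem_insert_of_mem h)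
    obtain ⟨E, hE1, hE2, hE3, hE4⟩ := ih _ (hcard c hcW hcY) (insert c Y) rfl
      (Finset.insert_subset hcW hYW) hgood
    refine ⟨E, hE1, (Finset.subset_insert _ _).trans hE2,
      hE3.trans (delta_insert_pt hk hcY (hY c hcW hk hcY) h2), fun Q hQ hYQ => ?_⟩
    refine hE4 Q hQ (Finset.insert_subset ?_ hYQ)
    exact hQ.pt c hcW hk σ (h2.trans (Finset.card_le_card (nbB_mono σ c hYQ)))
  push Not at ha
  by_cases hb : ∃ b ∈ W, ∃ σ, G.kind b = .B σ ∧ b ∉ Y ∧ 2 ≤ (G.nbC b Y).card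
  · obtain ⟨b, hbW, σ, hk, hbY, h2⟩ := hb
    have hgood : G.Good W (insert b Y) := by
      refine good_of_nbB fun c hc hkc hcY τ => ?_
      have hcY' : c ∉ Y := fun h => hcY (Finset.mem_insert_of_mem h)
      have h1 := ha c hc hkc hcY' τ
      have h3 : G.nbB τ c (insert b Y) ⊆ insert b (G.nbB τ c Y) := by
        intro u hu
        simp only [nbB, Finset.mem_filter, Finset.mem_insert] at hu ⊢
        rcases hu with ⟨rfl | h, h2⟩
        · exact Or.inl rfl
        · exact Or.inr ⟨h, h2⟩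
      have h4 := (Finset.card_le_card h3).trans (Finset.card_insert_le _ _)
      omega
    obtain ⟨E, hE1, hE2, hE3, hE4⟩ := ih _ (hcard b hbW hbY) (insert b Y) rfl
      (Finset.insert_subset hbW hYW) hgood
    refine ⟨E, hE1, (Finset.subset_insert _ _).trans hE2,
      hE3.trans (delta_insert_bl hL hYW hbW hk hbY h2), fun Q hQ hYQ => ?_⟩
    refine hE4 Q hQ (Finset.insert_subset ?_ hYQ)
    exact hQ.bl b hbW σ hk (h2.trans (Finset.card_le_card (nbC_mono b hYQ)))
  · push Not at hb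
    refine ⟨Y, ⟨hYW, fun c hc hk σ h2 => ?_, fun b hb' σ hk h2 => ?_⟩, le_rfl, le_rfl,
      fun Q _ h => h⟩
    · by_contra hcY
      have := ha c hc hk hcY σ
      omega
    · by_contra hbY
      have := hb b hb' σ hk hbY
      omega

theorem exists_closure (hL : G.Loc W) (hYW : Y ⊆ W) (hY : G.Good W Y) :
    ∃ E, G.ClosedIn W E ∧ Y ⊆ E ∧ G.delta E ≤ G.delta Y ∧
      ∀ Q, G.ClosedIn W Q → Y ⊆ Q → E ⊆ Q :=
  exists_closure_aux hL _ Y rfl hYW hY

end Geo

end Pool.Agent.SF
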