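import Pool.Agent.SF.Delta
import Pool.Agent.SF.Process

/-!
# The crossing inequality
-/

set_option autoImplicit false
set_option linter.unusedSectionVars false

namespace Pool.Agent.SF

theorem Kind.cost_eq_ten (k k' : Kind) : Kind.cost k k' = 10 ↔
    ((∃ σ, k = .B σ) ∧ k' = .C) ∨ (k = .C ∧ ∃ σ, k' = .B σ) := by
  rcases k with _ | σ | _ <;> rcases k' with _ | τ | _ <;>
    (try cases σ) <;> (try cases τ) <;> simp [Kind.cost]

namespace Geo

variable {V : Type*} [DecidableEq V] {G : Geo V} {W A B Q Y Z : Finset V}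

/-! ### basic membership lemmas -/

omit [DecidableEq V] in
theorem mem_nbB {σ : Bool} {v u : V} {A : Finset V} :
    u ∈ G.nbB σ v A ↔ u ∈ A ∧ G.adj v u ∧ G.kind u = .B σ := by
  classical
  simp [nbB]

omit [DecidableEq V] in
theorem mem_nbC {v u : V} {A : Finset V} :
    u ∈ G.nbC v A ↔ u ∈ A ∧ G.adj v u ∧ G.kind u = .C := by
  classical
  simp [nbC]

theorem sparse (hK : G.InK W) {Cs Bs : Finset V} (σ : Bool) (hCW : Cs ⊆ W) (hBW : Bs ⊆ W)
    (hC : ∀ c ∈ Cs, G.kind c = .C) (hB : ∀ b ∈ Bs, G.kind b = .B σ) :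
    G.ed Cs Bs ≤ 2 * Cs.card + 2 * Bs.card := by
  classical
  rcases (Cs ∪ Bs).eq_empty_or_nonempty with h0 | hne
  · have h1 : Cs = ∅ := by
      apply Finset.subset_empty.1; rw [← h0]; exact Finset.subset_union_left
    subst h1
    simp [ed]
  · have hYW : Cs ∪ Bs ⊆ W := Finset.union_subset hCW hBW
    have hgood : G.Good W (Cs ∪ Bs) := by
      intro c _ _ _
      have key : ∀ τ, τ ≠ σ → (G.nbB τ c (Cs ∪ Bs)).card ≤ 3 := by
        intro τ hτ
        have : G.nbB τ c (Cs ∪ Bs) = ∅ := by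
          apply Finset.eq_empty_of_forall_notMem
          intro u hu
          rw [mem_nbB] at hu
          obtain ⟨hu1, -, hu2⟩ := hu
          rcases Finset.mem_union.1 hu1 with h | h
          · rw [hC u h] at hu2; exact absurd hu2 (by simp)
          · rw [hB u h] at hu2
            exact hτ (by simpa using hu2.symm)
        rw [this]; simp
      cases σ
      · exact Or.inr (key true (by simp))
      · exact Or.inl (key false (by simp))
    obtain ⟨E, hE, hYE, hδ, -⟩ := exists_closure hK.toLoc hYW hgood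
    have hpos := (hK.pos E hE (hne.mono hYE)).1
    rw [G.delta_Cs_Bs σ hC hB] at hδ
    have : (G.ed Cs Bs : ℤ) ≤ 2 * Cs.card + 2 * Bs.card := by
      have h1 : (0:ℤ) ≤ Bs.card := by positivity
      have h2 : (0:ℤ) ≤ Cs.card := by positivity
      linarith
    exact_mod_cast this

section CrossLe

open scoped Classical in
/-- block-point edges from `X` to `Y` -/
private noncomputable def E1 (G : Geo V) (X Y : Finset V) : Finset (V × V) :=
  (X ×ˢ Y).filter fun e => G.adj e.1 e.2 ∧ (∃ σ, G.kind e.1 = .B σ) ∧ G.kind e.2 = .C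

open scoped Classical in
/-- point-block edges from `X` to `Y` -/
private noncomputable def E2 (G : Geo V) (X Y : Finset V) : Finset (V × V) :=
  (X ×ˢ Y).filter fun e => G.adj e.1 e.2 ∧ G.kind e.1 = .C ∧ ∃ σ, G.kind e.2 = .B σ

open scoped Classical in
private noncomputable def RP (G : Geo V) (X Y : Finset V) : Finset (V × V) :=
  (X ×ˢ Y).filter fun e => G.adj e.1 e.2 ∧ ∃ σ, G.kind e.1 = .B σ ∧ G.kind e.2 = .B (!σ)

open scoped Classical in
/-- common points in `S` -/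
private noncomputable def CP (G : Geo V) (S : Finset V) (e : V × V) : Finset V :=
  S.filter fun c => G.kind c = .C ∧ G.adj e.1 c ∧ G.adj e.2 c

private theorem mem_E1 {X Y : Finset V} {e : V × V} : e ∈ E1 G X Y ↔
    e.1 ∈ X ∧ e.2 ∈ Y ∧ G.adj e.1 e.2 ∧ (∃ σ, G.kind e.1 = .B σ) ∧ G.kind e.2 = .C := by
  simp [E1, and_assoc]

private theorem mem_E2 {X Y : Finset V} {e : V × V} : e ∈ E2 G X Y ↔
    e.1 ∈ X ∧ e.2 ∈ Y ∧ G.adj e.1 e.2 ∧ G.kind e.1 = .C ∧ ∃ σ, G.kind e.2 = .B σ := by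
  simp [E2, and_assoc]

private theorem mem_RP {X Y : Finset V} {e : V × V} : e ∈ RP G X Y ↔
    e.1 ∈ X ∧ e.2 ∈ Y ∧ G.adj e.1 e.2 ∧ ∃ σ, G.kind e.1 = .B σ ∧ G.kind e.2 = .B (!σ) := by
  simp [RP, and_assoc]

private theorem mem_CP {S : Finset V} {e : V × V} {c : V} : c ∈ CP G S e ↔
    c ∈ S ∧ G.kind c = .C ∧ G.adj e.1 c ∧ G.adj e.2 c := by
  simp [CP]

private theorem crossBC_eq (Q Z : Finset V) :
    G.crossBC Q Z = (E1 G (Q \ Z) (Z \ Q)).card + (E2 G (Q \ Z) (Z \ Q)).card := by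
  classical
  rw [← Finset.card_union_of_disjoint]
  · unfold crossBC
    congr 1
    ext e
    rw [Finset.mem_union, mem_E1, mem_E2, Finset.mem_filter, Finset.mem_product]
    rw [Kind.cost_eq_ten]
    tauto
  · rw [Finset.disjoint_left]
    intro e h1 h2
    rw [mem_E1] at h1
    rw [mem_E2] at h2
    rw [h2.2.2.2.1] at h1
    obtain ⟨_, _, _, ⟨σ, h⟩, _⟩ := h1
    simp at h

private theorem crossR_eq (Q Z : Finset V) : G.crossR Q Z = (RP G (Q \ Z) (Z \ Q)).card := by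
  classical
  unfold crossR RP
  congr 1

private theorem crossU_eq (Q Z : Finset V) : G.crossU Q Z =
    ((RP G (Q \ Z) (Z \ Q)).filter fun e => (CP G (Q ∪ Z) e).card = 0).card := by
  classical
  unfold crossU
  congr 1
  ext e
  rw [Finset.mem_filter, Finset.mem_filter, Finset.mem_product, mem_RP, Finset.card_eq_zero]
  constructor
  · rintro ⟨⟨h1, h2⟩, h3, h4, h5⟩
    refine ⟨⟨h1, h2, h3, h4⟩, ?_⟩
    apply Finset.eq_empty_of_forall_notMem
    intro c hc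
    rw [mem_CP] at hc
    exact h5 c hc.1 hc.2.1 hc.2.2.1 hc.2.2.2
  · rintro ⟨⟨h1, h2, h3, h4⟩, h5⟩
    refine ⟨⟨h1, h2⟩, h3, h4, ?_⟩
    intro c hc1 hc2 hc3 hc4
    have : c ∈ CP G (Q ∪ Z) e := mem_CP.2 ⟨hc1, hc2, hc3, hc4⟩
    rw [h5] at this
    simp at this

theorem ClosedIn.uniq_bl (hQ : G.ClosedIn W Q) {c u u' : V} {σ : Bool} (hc : c ∈ W)
    (hk : G.kind c = .C) (hcQ : c ∉ Q) (hu : u ∈ Q) (hu' : u' ∈ Q) (h : G.adj c u)
    (h' : G.adj c u') (hku : G.kind u = .B σ) (hku' : G.kind u' = .B σ) : u = u' := by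
  by_contra hne
  apply hcQ
  apply hQ.pt c hc hk σ
  have : ({u, u'} : Finset V) ⊆ G.nbB σ c Q := by
    intro x hx
    rw [mem_nbB]
    simp only [Finset.mem_insert, Finset.mem_singleton] at hx
    rcases hx with rfl | rfl
    · exact ⟨hu, h, hku⟩
    · exact ⟨hu', h', hku'⟩
  calc 2 = ({u, u'} : Finset V).card := (Finset.card_pair hne).symm
    _ ≤ _ := Finset.card_le_card this

theorem ClosedIn.uniq_pt (hQ : G.ClosedIn W Q) {b c c' : V} {σ : Bool} (hb : b ∈ W)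
    (hk : G.kind b = .B σ) (hbQ : b ∉ Q) (hc : c ∈ Q) (hc' : c' ∈ Q) (h : G.adj b c)
    (h' : G.adj b c') (hkc : G.kind c = .C) (hkc' : G.kind c' = .C) : c = c' := by
  by_contra hne
  apply hbQ
  apply hQ.bl b hb σ hk
  have : ({c, c'} : Finset V) ⊆ G.nbC b Q := by
    intro x hx
    rw [mem_nbC]
    simp only [Finset.mem_insert, Finset.mem_singleton] at hx
    rcases hx with rfl | rfl
    · exact ⟨hc, h, hkc⟩
    · exact ⟨hc', h', hkc'⟩
  calc 2 = ({c, c'} : Finset V).card := (Finset.card_pair hne).symm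
    _ ≤ _ := Finset.card_le_card this

open scoped Classical in
/-- the crossing triangles -/
private noncomputable def TT (G : Geo V) (Q Z : Finset V) : Finset (V × V × V) :=
  ((Q ∪ Z) ×ˢ (Q ∪ Z) ×ˢ (Q ∪ Z)).filter fun t => G.Tri t.1 t.2.1 t.2.2 ∧
    ¬ (t.1 ∈ Q ∧ t.2.1 ∈ Q ∧ t.2.2 ∈ Q) ∧ ¬ (t.1 ∈ Z ∧ t.2.1 ∈ Z ∧ t.2.2 ∈ Z)

private theorem mem_TT {t : V × V × V} : t ∈ TT G Q Z ↔
    (t.1 ∈ Q ∪ Z ∧ t.2.1 ∈ Q ∪ Z ∧ t.2.2 ∈ Q ∪ Z) ∧ G.Tri t.1 t.2.1 t.2.2 ∧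
      ¬ (t.1 ∈ Q ∧ t.2.1 ∈ Q ∧ t.2.2 ∈ Q) ∧ ¬ (t.1 ∈ Z ∧ t.2.1 ∈ Z ∧ t.2.2 ∈ Z) := by
  classical
  unfold TT
  rw [Finset.mem_filter, Finset.mem_product, Finset.mem_product]

private theorem crossTri_eq : G.crossTri Q Z = (TT G Q Z).card := by
  classical
  unfold crossTri TT
  congr 1

open scoped Classical in
private theorem T1_le : ((TT G Q Z).filter fun t => (t.1 ∈ Q \ Z ∧ t.2.1 ∈ Z \ Q) ∨
    (t.1 ∈ Z \ Q ∧ t.2.1 ∈ Q \ Z)).card ≤ ∑ e ∈ RP G (Q \ Z) (Z \ Q), (CP G (Q ∪ Z) e).card := by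
  rw [← Finset.card_sigma]
  refine Finset.card_le_card_of_injOn
    (fun t => if t.1 ∈ Q \ Z then ⟨(t.1, t.2.1), t.2.2⟩ else ⟨(t.2.1, t.1), t.2.2⟩) ?_ ?_
  · rintro ⟨x, z, c⟩ ht
    simp only [Finset.coe_filter, Set.mem_ofPred_eq, mem_TT] at ht
    obtain ⟨⟨⟨h1, h2, h3⟩, ⟨k1, k2, k3, a1, a2, a3⟩, -, -⟩, h4⟩ := ht
    dsimp only
    split_ifs with hx
    · have hz : z ∈ Z \ Q := by
        rcases h4 with h4 | h4
        · exact h4.2
        · rw [Finset.mem_sdiff] at h4 hx; exact absurd hx.1 h4.1.2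
      simp only [Finset.mem_coe, Finset.mem_sigma, mem_RP, mem_CP]
      exact ⟨⟨hx, hz, a1, false, k1, by simpa using k2⟩, h3, k3, a2, a3⟩
    · have h5 : x ∈ Z \ Q ∧ z ∈ Q \ Z := by
        rcases h4 with h4 | h4
        · exact absurd h4.1 hx
        · exact h4
      simp only [Finset.mem_coe, Finset.mem_sigma, mem_RP, mem_CP]
      exact ⟨⟨h5.2, h5.1, G.symm _ _ a1, true, k2, by simpa using k1⟩, h3, k3, a3, a2⟩
  · rintro ⟨x, z, c⟩ ht ⟨x', z', c'⟩ ht' heq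
    simp only [Finset.coe_filter, Set.mem_ofPred_eq, mem_TT] at ht ht'
    obtain ⟨⟨-, ⟨k1, k2, -⟩, -, -⟩, -⟩ := ht
    obtain ⟨⟨-, ⟨k1', k2', -⟩, -, -⟩, -⟩ := ht'
    dsimp only at heq
    split_ifs at heq with hx hx' hx'
    · simp only [Sigma.mk.injEq, Prod.mk.injEq, heq_eq_eq] at heq
      obtain ⟨⟨rfl, rfl⟩, rfl⟩ := heq
      rfl
    · simp only [Sigma.mk.injEq, Prod.mk.injEq, heq_eq_eq] at heq
      obtain ⟨⟨rfl, rfl⟩, rfl⟩ := heq
      rw [k1] at k2'; simp at k2'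
    · simp only [Sigma.mk.injEq, Prod.mk.injEq, heq_eq_eq] at heq
      obtain ⟨⟨rfl, rfl⟩, rfl⟩ := heq
      rw [k1'] at k2; simp at k2
    · simp only [Sigma.mk.injEq, Prod.mk.injEq, heq_eq_eq] at heq
      obtain ⟨⟨rfl, rfl⟩, rfl⟩ := heq
      rfl

open scoped Classical in
private theorem T2a_le (hQ : G.ClosedIn W Q) (hZW : Z ⊆ W) :
    ((TT G Q Z).filter fun t => t.1 ∈ Q ∧ t.2.1 ∈ Q).card ≤ (E1 G (Q \ Z) (Z \ Q)).card := by
  refine Finset.card_le_card_of_injOn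
    (fun t => if t.1 ∈ Q \ Z then (t.1, t.2.2) else (t.2.1, t.2.2)) ?_ ?_
  · rintro ⟨x, z, c⟩ ht
    simp only [Finset.coe_filter, Set.mem_ofPred_eq, mem_TT] at ht
    obtain ⟨⟨⟨h1, h2, h3⟩, ⟨k1, k2, k3, a1, a2, a3⟩, n1, n2⟩, h4, h5⟩ := ht
    have hc : c ∉ Q := fun h => n1 ⟨h4, h5, h⟩
    have hcZ : c ∈ Z := (Finset.mem_union.1 h3).resolve_left hc
    dsimp only
    split_ifs with hx
    · rw [Finset.mem_coe, mem_E1]
      exact ⟨hx, Finset.mem_sdiff.2 ⟨hcZ, hc⟩, a2, ⟨_, k1⟩, k3⟩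
    · have hxZ : x ∈ Z := by
        by_contra h
        exact hx (Finset.mem_sdiff.2 ⟨h4, h⟩)
      have hzZ : z ∉ Z := fun h => n2 ⟨hxZ, h, hcZ⟩
      rw [Finset.mem_coe, mem_E1]
      exact ⟨Finset.mem_sdiff.2 ⟨h5, hzZ⟩, Finset.mem_sdiff.2 ⟨hcZ, hc⟩, a3, ⟨_, k2⟩, k3⟩
  · rintro ⟨x, z, c⟩ ht ⟨x', z', c'⟩ ht' heq
    simp only [Finset.coe_filter, Set.mem_ofPred_eq, mem_TT] at ht ht'
    obtain ⟨⟨⟨h1, h2, h3⟩, ⟨k1, k2, k3, a1, a2, a3⟩, n1, n2⟩, h4, h5⟩ := ht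
    obtain ⟨⟨⟨h1', h2', h3'⟩, ⟨k1', k2', k3', a1', a2', a3'⟩, n1', n2'⟩, h4', h5'⟩ := ht'
    have hc : c ∉ Q := fun h => n1 ⟨h4, h5, h⟩
    have hcZ : c ∈ Z := (Finset.mem_union.1 h3).resolve_left hc
    have hcc : c = c' := by
      dsimp only at heq
      split_ifs at heq <;> simp only [Prod.mk.injEq] at heq <;> exact heq.2
    subst hcc
    have e1 : x = x' := hQ.uniq_bl (hZW hcZ) k3 hc h4 h4' (G.symm _ _ a2) (G.symm _ _ a2') k1 k1'
    have e2 : z = z' := hQ.uniq_bl (hZW hcZ) k3 hc h5 h5' (G.symm _ _ a3) (G.symm _ _ a3') k2 k2'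
    rw [e1, e2]

open scoped Classical in
private theorem T2b_le (hQW : Q ⊆ W) (hZ : G.Nice W Z) :
    ((TT G Q Z).filter fun t => t.1 ∈ Z ∧ t.2.1 ∈ Z).card
      ≤ 2 * (E2 G (Q \ Z) (Z \ Q)).card := by
  have h2 : (((E2 G (Q \ Z) (Z \ Q))).sigma fun e =>
      G.nbB (if G.kind e.2 = .B false then true else false) e.1 Z).card
        ≤ 2 * (E2 G (Q \ Z) (Z \ Q)).card := by
    rw [Finset.card_sigma, mul_comm]
    apply Finset.sum_le_card_nsmul
    intro e he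
    rw [mem_E2] at he
    have := Finset.mem_sdiff.1 he.1
    exact hZ.pt e.1 (hQW this.1) he.2.2.2.1 this.2 _
  refine le_trans ?_ h2
  refine Finset.card_le_card_of_injOn
    (fun t => if t.1 ∈ Z \ Q then ⟨(t.2.2, t.1), t.2.1⟩ else ⟨(t.2.2, t.2.1), t.1⟩) ?_ ?_
  · rintro ⟨x, z, c⟩ ht
    simp only [Finset.coe_filter, Set.mem_ofPred_eq, mem_TT] at ht
    obtain ⟨⟨⟨h1, h2, h3⟩, ⟨k1, k2, k3, a1, a2, a3⟩, n1, n2⟩, h4, h5⟩ := ht
    have hc : c ∉ Z := fun h => n2 ⟨h4, h5, h⟩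
    have hcQ : c ∈ Q := (Finset.mem_union.1 h3).resolve_right hc
    dsimp only
    split_ifs with hx
    · rw [Finset.mem_coe, Finset.mem_sigma, mem_E2, mem_nbB]
      refine ⟨⟨Finset.mem_sdiff.2 ⟨hcQ, hc⟩, hx, G.symm _ _ a2, k3, ⟨_, k1⟩⟩, h5, G.symm _ _ a3, ?_⟩
      simp [k1, k2]
    · have hxQ : x ∈ Q := by
        by_contra h
        exact hx (Finset.mem_sdiff.2 ⟨h4, h⟩)
      have hzQ : z ∉ Q := fun h => n1 ⟨hxQ, h, hcQ⟩
      rw [Finset.mem_coe, Finset.mem_sigma, mem_E2, mem_nbB]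
      refine ⟨⟨Finset.mem_sdiff.2 ⟨hcQ, hc⟩, Finset.mem_sdiff.2 ⟨h5, hzQ⟩, G.symm _ _ a3, k3,
        ⟨_, k2⟩⟩, h4, G.symm _ _ a2, ?_⟩
      simp [k1, k2]
  · rintro ⟨x, z, c⟩ ht ⟨x', z', c'⟩ ht' heq
    simp only [Finset.coe_filter, Set.mem_ofPred_eq, mem_TT] at ht ht'
    obtain ⟨⟨-, ⟨k1, k2, -⟩, -, -⟩, -⟩ := ht
    obtain ⟨⟨-, ⟨k1', k2', -⟩, -, -⟩, -⟩ := ht'
    dsimp only at heq
    split_ifs at heq with hx hx' hx'
    · simp only [Sigma.mk.injEq, Prod.mk.injEq, heq_eq_eq] at heq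
      obtain ⟨⟨rfl, rfl⟩, rfl⟩ := heq
      rfl
    · simp only [Sigma.mk.injEq, Prod.mk.injEq, heq_eq_eq] at heq
      obtain ⟨⟨rfl, rfl⟩, rfl⟩ := heq
      rw [k1] at k2'; simp at k2'
    · simp only [Sigma.mk.injEq, Prod.mk.injEq, heq_eq_eq] at heq
      obtain ⟨⟨rfl, rfl⟩, rfl⟩ := heq
      rw [k1'] at k2; simp at k2
    · simp only [Sigma.mk.injEq, Prod.mk.injEq, heq_eq_eq] at heq
      obtain ⟨⟨rfl, rfl⟩, rfl⟩ := heq
      rfl

private theorem TT_le (hQ : G.ClosedIn W Q) (hZ : G.Nice W Z) :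
    (TT G Q Z).card ≤ ∑ e ∈ RP G (Q \ Z) (Z \ Q), (CP G (Q ∪ Z) e).card
      + (E1 G (Q \ Z) (Z \ Q)).card + 2 * (E2 G (Q \ Z) (Z \ Q)).card := by
  classical
  have h : TT G Q Z ⊆ (((TT G Q Z).filter fun t => (t.1 ∈ Q \ Z ∧ t.2.1 ∈ Z \ Q) ∨
      (t.1 ∈ Z \ Q ∧ t.2.1 ∈ Q \ Z)) ∪ ((TT G Q Z).filter fun t => t.1 ∈ Q ∧ t.2.1 ∈ Q)) ∪
      ((TT G Q Z).filter fun t => t.1 ∈ Z ∧ t.2.1 ∈ Z) := by
    intro t ht
    have ht' := mem_TT.1 ht
    obtain ⟨⟨h1, h2, h3⟩, -⟩ := ht'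
    simp only [Finset.mem_union, Finset.mem_filter, Finset.mem_sdiff, ht, true_and] at h1 h2 h3 ⊢
    tauto
  calc (TT G Q Z).card ≤ _ := Finset.card_le_card h
    _ ≤ _ := Finset.card_union_le _ _
    _ ≤ _ := Nat.add_le_add_right (Finset.card_union_le _ _) _
    _ ≤ _ := Nat.add_le_add (Nat.add_le_add T1_le (T2a_le hQ hZ.sub)) (T2b_le hQ.sub hZ)

private theorem CP_card_split (e : V × V) :
    (CP G (Q ∪ Z) e).card = (CP G (Q ∩ Z) e).card + (CP G (Q \ Z) e).card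
      + (CP G (Z \ Q) e).card := by
  classical
  rw [← Finset.card_union_of_disjoint, ← Finset.card_union_of_disjoint]
  · congr 1
    ext c
    simp only [Finset.mem_union, mem_CP, Finset.mem_inter, Finset.mem_sdiff]
    tauto
  · rw [Finset.disjoint_left]
    intro c h1 h2
    simp only [Finset.mem_union, mem_CP, Finset.mem_inter, Finset.mem_sdiff] at h1 h2
    tauto
  · rw [Finset.disjoint_left]
    intro c h1 h2
    simp only [mem_CP, Finset.mem_inter, Finset.mem_sdiff] at h1 h2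
    tauto

private theorem CP_card_left (e : V × V) :
    (CP G Q e).card = (CP G (Q ∩ Z) e).card + (CP G (Q \ Z) e).card := by
  classical
  rw [← Finset.card_union_of_disjoint]
  · congr 1
    ext c
    simp only [Finset.mem_union, mem_CP, Finset.mem_inter, Finset.mem_sdiff]
    tauto
  · rw [Finset.disjoint_left]
    intro c h1 h2
    simp only [mem_CP, Finset.mem_inter, Finset.mem_sdiff] at h1 h2
    tauto

private theorem CP_card_right (e : V × V) :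
    (CP G Z e).card = (CP G (Q ∩ Z) e).card + (CP G (Z \ Q) e).card := by
  classical
  rw [← Finset.card_union_of_disjoint]
  · congr 1
    ext c
    simp only [Finset.mem_union, mem_CP, Finset.mem_inter, Finset.mem_sdiff]
    tauto
  · rw [Finset.disjoint_left]
    intro c h1 h2
    simp only [mem_CP, Finset.mem_inter, Finset.mem_sdiff] at h1 h2
    tauto

private theorem CP_Q_le (hQ : G.ClosedIn W Q) (hZW : Z ⊆ W) {e : V × V}
    (he : e ∈ RP G (Q \ Z) (Z \ Q)) : (CP G Q e).card ≤ 1 := by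
  rw [mem_RP] at he
  obtain ⟨h1, h2, -, σ, -, h3⟩ := he
  rw [Finset.mem_sdiff] at h2
  rw [Finset.card_le_one]
  intro c hc c' hc'
  rw [mem_CP] at hc hc'
  exact hQ.uniq_pt (hZW h2.1) h3 h2.2 hc.1 hc'.1 hc.2.2.2 hc'.2.2.2 hc.2.1 hc'.2.1

private theorem CP_Z_sub (e : V × V) : CP G Z e ⊆ G.nbC e.1 Z := by
  intro c hc
  rw [mem_CP] at hc
  rw [mem_nbC]
  exact ⟨hc.1, hc.2.2.1, hc.2.1⟩

private theorem nbC_Z_le (hZ : G.Nice W Z) (hQW : Q ⊆ W) {e : V × V}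
    (he : e ∈ RP G (Q \ Z) (Z \ Q)) : (G.nbC e.1 Z).card ≤ 2 := by
  rw [mem_RP] at he
  obtain ⟨h1, h2, -, σ, h3, -⟩ := he
  rw [Finset.mem_sdiff] at h1
  exact hZ.bl e.1 (hQW h1.1) σ h3 h1.2

/-- two blocks of the same sort with two common points are equal -/
theorem Loc.eq_of_two (hL : G.Loc W) {σ : Bool} {u v c c' : V} (hu : u ∈ W) (hv : v ∈ W)
    (hc : c ∈ W) (hc' : c' ∈ W) (ku : G.kind u = .B σ) (kv : G.kind v = .B σ)
    (kc : G.kind c = .C) (kc' : G.kind c' = .C) (h1 : G.adj u c) (h2 : G.adj v c)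
    (h3 : G.adj u c') (h4 : G.adj v c') (hne : c ≠ c') : u = v := by
  by_contra h
  exact hne (hL.lin σ u hu v hv ku kv h c hc c' hc' kc kc' h1 h2 h3 h4)

open scoped Classical in
private theorem sumD_le (hK : G.InK W) (hQ : G.ClosedIn W Q) (hZ : G.Nice W Z) :
    ∑ e ∈ (RP G (Q \ Z) (Z \ Q)).filter (fun e => 2 ≤ (CP G Z e).card),
      (CP G (Z \ Q) e).card ≤ (E1 G (Q \ Z) (Z \ Q)).card := by
  rw [← Finset.card_sigma]
  refine Finset.card_le_card_of_injOn (fun t => (t.1.1, t.2)) ?_ ?_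
  · rintro ⟨e, c⟩ ht
    rw [Finset.mem_coe, Finset.mem_sigma, Finset.mem_filter, mem_RP, mem_CP] at ht
    obtain ⟨⟨⟨h1, h2, h3, σ, h4, h5⟩, -⟩, h6, h7, h8, h9⟩ := ht
    rw [Finset.mem_coe, mem_E1]
    exact ⟨h1, h6, h8, ⟨σ, h4⟩, h7⟩
  · rintro ⟨⟨u, w⟩, c⟩ ht ⟨⟨u', w'⟩, c'⟩ ht' heq
    simp only [Prod.mk.injEq] at heq
    obtain ⟨rfl, rfl⟩ := heq
    rw [Finset.mem_coe, Finset.mem_sigma, Finset.mem_filter] at ht ht'
    obtain ⟨⟨hRP, hD⟩, -⟩ := ht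
    obtain ⟨⟨hRP', hD'⟩, -⟩ := ht'
    have hn := nbC_Z_le hZ hQ.sub hRP
    have e1 : CP G Z (u, w) = G.nbC u Z :=
      Finset.eq_of_subset_of_card_le (CP_Z_sub _) (hn.trans hD)
    have e2 : CP G Z (u, w') = G.nbC u Z :=
      Finset.eq_of_subset_of_card_le (CP_Z_sub _) (hn.trans hD')
    obtain ⟨a, ha, b, hb, hab⟩ := Finset.one_lt_card.1 hD
    have ha' : a ∈ CP G Z (u, w') := by rw [e2, ← e1]; exact ha
    have hb' : b ∈ CP G Z (u, w') := by rw [e2, ← e1]; exact hb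
    rw [mem_CP] at ha hb ha' hb'
    rw [mem_RP] at hRP hRP'
    obtain ⟨-, h2, -, σ, h4, h5⟩ := hRP
    obtain ⟨-, h2', -, σ', h4', h5'⟩ := hRP'
    dsimp only at h2 h4 h5 h2' h4' h5' ha hb ha' hb'
    have hσ : σ = σ' := by rw [h4] at h4'; simpa using h4'
    subst hσ
    have : w = w' := hK.toLoc.eq_of_two (hZ.sub (Finset.mem_sdiff.1 h2).1)
      (hZ.sub (Finset.mem_sdiff.1 h2').1) (hZ.sub ha.1) (hZ.sub hb.1) h5 h5' ha.2.1 hb.2.1
      ha.2.2.2 ha'.2.2.2 hb.2.2.2 hb'.2.2.2 hab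
    rw [this]

open scoped Classical in
/-- points of `Y` with a neighbour of sort `τ` in `X` -/
private noncomputable def Pp (G : Geo V) (X Y : Finset V) (τ : Bool) : Finset V :=
  Y.filter fun c => G.kind c = .C ∧ ∃ u ∈ X, G.kind u = .B τ ∧ G.adj u c

open scoped Classical in
/-- blocks of sort `σ` of `Y` with a point in `X` -/
private noncomputable def Hh (G : Geo V) (X Y : Finset V) (σ : Bool) : Finset V :=
  Y.filter fun w => G.kind w = .B σ ∧ ∃ c ∈ X, G.kind c = .C ∧ G.adj w c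

open scoped Classical in
private theorem card_Pp_le (X Y : Finset V) :
    (Pp G X Y false).card + (Pp G X Y true).card ≤ (E1 G X Y).card := by
  have key : ∀ τ, (Pp G X Y τ).card ≤ ((E1 G X Y).filter fun e => G.kind e.1 = .B τ).card := by
    intro τ
    have : Pp G X Y τ ⊆ ((E1 G X Y).filter fun e => G.kind e.1 = .B τ).image Prod.snd := by
      intro c hc
      rw [Pp, Finset.mem_filter] at hc
      obtain ⟨h1, h2, u, h3, h4, h5⟩ := hc
      rw [Finset.mem_image]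
      exact ⟨(u, c), Finset.mem_filter.2 ⟨mem_E1.2 ⟨h3, h1, h5, ⟨_, h4⟩, h2⟩, h4⟩, rfl⟩
    exact (Finset.card_le_card this).trans Finset.card_image_le
  have h2 : ((E1 G X Y).filter fun e => G.kind e.1 = .B true) ⊆
      (E1 G X Y).filter fun e => ¬ G.kind e.1 = .B false := by
    intro e he
    rw [Finset.mem_filter] at he ⊢
    refine ⟨he.1, ?_⟩
    rw [he.2]; simp
  have h3 := Finset.card_filter_add_card_filter_not (s := E1 G X Y) (fun e => G.kind e.1 = .B false)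
  have h4 := Finset.card_le_card h2
  have := key false
  have := key true
  omega

open scoped Classical in
private theorem card_Hh_le (X Y : Finset V) :
    (Hh G X Y false).card + (Hh G X Y true).card ≤ (E2 G X Y).card := by
  have key : ∀ τ, (Hh G X Y τ).card ≤ ((E2 G X Y).filter fun e => G.kind e.2 = .B τ).card := by
    intro τ
    have : Hh G X Y τ ⊆ ((E2 G X Y).filter fun e => G.kind e.2 = .B τ).image Prod.snd := by
      intro w hw
      rw [Hh, Finset.mem_filter] at hw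
      obtain ⟨h1, h2, c, h3, h4, h5⟩ := hw
      rw [Finset.mem_image]
      exact ⟨(c, w), Finset.mem_filter.2 ⟨mem_E2.2 ⟨h3, h1, G.symm _ _ h5, h4, ⟨_, h2⟩⟩, h2⟩, rfl⟩
    exact (Finset.card_le_card this).trans Finset.card_image_le
  have h2 : ((E2 G X Y).filter fun e => G.kind e.2 = .B true) ⊆
      (E2 G X Y).filter fun e => ¬ G.kind e.2 = .B false := by
    intro e he
    rw [Finset.mem_filter] at he ⊢
    refine ⟨he.1, ?_⟩
    rw [he.2]; simp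
  have h3 := Finset.card_filter_add_card_filter_not (s := E2 G X Y) (fun e => G.kind e.2 = .B false)
  have h4 := Finset.card_le_card h2
  have := key false
  have := key true
  omega

open scoped Classical in
private theorem H_le_ed (hK : G.InK W) (hQ : G.ClosedIn W Q) (hZ : G.Nice W Z) (σ : Bool) :
    ((RP G (Q \ Z) (Z \ Q)).filter fun e => ((CP G (Z \ Q) e).Nonempty ∧
      (CP G (Q \ Z) e).Nonempty) ∧ G.kind e.2 = .B σ).card
      ≤ G.ed (Pp G (Q \ Z) (Z \ Q) (!σ)) (Hh G (Q \ Z) (Z \ Q) σ) := by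
  unfold ed
  have hch : ∀ e : V × V, ∃ c, (CP G (Z \ Q) e).Nonempty → c ∈ CP G (Z \ Q) e := by
    intro e
    by_cases h : (CP G (Z \ Q) e).Nonempty
    · exact ⟨h.choose, fun _ => h.choose_spec⟩
    · exact ⟨e.1, fun h' => absurd h' h⟩
  choose c1 hc1 using hch
  refine Finset.card_le_card_of_injOn (fun e => (c1 e, e.2)) ?_ ?_
  · rintro ⟨u, w⟩ ht
    rw [Finset.mem_coe, Finset.mem_filter, mem_RP] at ht
    obtain ⟨⟨h1, h2, h3, τ, h4, h5⟩, ⟨h6, c3, h7⟩, h8⟩ := ht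
    have h9 := hc1 _ h6
    rw [mem_CP] at h7 h9
    dsimp only at h1 h2 h3 h4 h5 h7 h8 h9
    have hτ : τ = !σ := by
      rw [h5] at h8
      simp only [Kind.B.injEq] at h8
      rw [← h8]; simp
    subst hτ
    rw [Finset.mem_coe, Finset.mem_filter, Finset.mem_product]
    refine ⟨⟨?_, ?_⟩, ?_⟩
    · rw [Pp, Finset.mem_filter]
      exact ⟨h9.1, h9.2.1, u, h1, h4, h9.2.2.1⟩
    · rw [Hh, Finset.mem_filter]
      exact ⟨h2, h8, c3, h7.1, h7.2.1, h7.2.2.2⟩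
    · exact G.symm _ _ h9.2.2.2
  · rintro ⟨u, w⟩ ht ⟨u', w'⟩ ht' heq
    simp only [Prod.mk.injEq] at heq
    obtain ⟨heq, rfl⟩ := heq
    rw [Finset.mem_coe, Finset.mem_filter, mem_RP] at ht ht'
    obtain ⟨⟨h1, h2, h3, τ, h4, h5⟩, ⟨h6, c3, h7⟩, h8⟩ := ht
    obtain ⟨⟨h1', h2', h3', τ', h4', h5'⟩, ⟨h6', c3', h7'⟩, h8'⟩ := ht'
    have h9 := hc1 _ h6
    have h9' := hc1 _ h6'
    rw [mem_CP] at h7 h9 h7' h9'
    rw [← heq] at h9'
    dsimp only at h1 h2 h3 h4 h5 h7 h8 h9 h1' h2' h3' h4' h5' h7' h8' h9'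
    rw [Finset.mem_sdiff] at h1 h2 h1'
    have hττ : τ = τ' := by
      rw [h5] at h5'
      simpa using h5'
    subst hττ
    have hc3 : c3 = c3' := hQ.uniq_pt (hZ.sub h2.1) h5 h2.2 (Finset.mem_sdiff.1 h7.1).1
      (Finset.mem_sdiff.1 h7'.1).1 h7.2.2.2 h7'.2.2.2 h7.2.1 h7'.2.1
    subst hc3
    have hne : c1 (u, w) ≠ c3 := by
      intro h
      have h10 := (Finset.mem_sdiff.1 h9.1).2
      rw [h] at h10
      exact h10 (Finset.mem_sdiff.1 h7.1).1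
    have : u = u' := hK.toLoc.eq_of_two (hQ.sub h1.1) (hQ.sub h1'.1)
      (hZ.sub (Finset.mem_sdiff.1 h9.1).1) (hQ.sub (Finset.mem_sdiff.1 h7.1).1) h4 h4' h9.2.1
      h7.2.1 h9.2.2.1 h9'.2.2.1 h7.2.2.1 h7'.2.2.1 hne
    rw [this]

open scoped Classical in
private theorem H_le (hK : G.InK W) (hQ : G.ClosedIn W Q) (hZ : G.Nice W Z) :
    ((RP G (Q \ Z) (Z \ Q)).filter fun e => (CP G (Z \ Q) e).Nonempty ∧
      (CP G (Q \ Z) e).Nonempty).card
      ≤ 2 * (E1 G (Q \ Z) (Z \ Q)).card + 2 * (E2 G (Q \ Z) (Z \ Q)).card := by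
  have hs : ∀ σ, G.ed (Pp G (Q \ Z) (Z \ Q) (!σ)) (Hh G (Q \ Z) (Z \ Q) σ)
      ≤ 2 * (Pp G (Q \ Z) (Z \ Q) (!σ)).card + 2 * (Hh G (Q \ Z) (Z \ Q) σ).card := by
    intro σ
    apply sparse hK σ
    · intro c hc
      rw [Pp, Finset.mem_filter, Finset.mem_sdiff] at hc
      exact hZ.sub hc.1.1
    · intro c hc
      rw [Hh, Finset.mem_filter, Finset.mem_sdiff] at hc
      exact hZ.sub hc.1.1
    · intro c hc
      rw [Pp, Finset.mem_filter] at hc
      exact hc.2.1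
    · intro c hc
      rw [Hh, Finset.mem_filter] at hc
      exact hc.2.1
  have h1 := (H_le_ed hK hQ hZ false).trans (hs false)
  have h2 := (H_le_ed hK hQ hZ true).trans (hs true)
  have h3 := card_Pp_le (G := G) (Q \ Z) (Z \ Q)
  have h4 := card_Hh_le (G := G) (Q \ Z) (Z \ Q)
  have hsub : ((RP G (Q \ Z) (Z \ Q)).filter fun e => (CP G (Z \ Q) e).Nonempty ∧
      (CP G (Q \ Z) e).Nonempty) ⊆
      ((RP G (Q \ Z) (Z \ Q)).filter fun e => ((CP G (Z \ Q) e).Nonempty ∧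
      (CP G (Q \ Z) e).Nonempty) ∧ G.kind e.2 = .B false) ∪
      ((RP G (Q \ Z) (Z \ Q)).filter fun e => ((CP G (Z \ Q) e).Nonempty ∧
      (CP G (Q \ Z) e).Nonempty) ∧ G.kind e.2 = .B true) := by
    intro e he
    rw [Finset.mem_filter] at he
    rw [Finset.mem_union, Finset.mem_filter, Finset.mem_filter]
    obtain ⟨h5, h6⟩ := he
    obtain ⟨-, -, -, σ, -, h7⟩ := mem_RP.1 h5
    cases σ
    · exact Or.inr ⟨h5, h6, h7⟩
    · exact Or.inl ⟨h5, h6, h7⟩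
  have h5 := (Finset.card_le_card hsub).trans (Finset.card_union_le _ _)
  simp only [Bool.not_false, Bool.not_true] at h1 h2
  omega

open scoped Classical in
private theorem excess_le (hK : G.InK W) (hQ : G.ClosedIn W Q) (hZ : G.Nice W Z) :
    ∑ e ∈ RP G (Q \ Z) (Z \ Q), (CP G (Q ∪ Z) e).card
      + ((RP G (Q \ Z) (Z \ Q)).filter fun e => (CP G (Q ∪ Z) e).card = 0).card
      ≤ (RP G (Q \ Z) (Z \ Q)).card + 3 * (E1 G (Q \ Z) (Z \ Q)).card
        + 2 * (E2 G (Q \ Z) (Z \ Q)).card := by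
  have h1 := sumD_le hK hQ hZ
  have h2 := H_le hK hQ hZ
  rw [Finset.sum_filter] at h1
  rw [Finset.card_filter] at h2 ⊢
  rw [← Finset.sum_add_distrib]
  have key : ∑ e ∈ RP G (Q \ Z) (Z \ Q), ((CP G (Q ∪ Z) e).card
      + (if (CP G (Q ∪ Z) e).card = 0 then 1 else 0)) ≤
      ∑ e ∈ RP G (Q \ Z) (Z \ Q), (1 + (if 2 ≤ (CP G Z e).card then (CP G (Z \ Q) e).card else 0)
        + (if (CP G (Z \ Q) e).Nonempty ∧ (CP G (Q \ Z) e).Nonempty then 1 else 0)) := by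
    apply Finset.sum_le_sum
    intro e he
    have a1 := CP_card_split (G := G) (Q := Q) (Z := Z) e
    have a2 := CP_card_left (G := G) (Q := Q) (Z := Z) e
    have a3 := CP_card_right (G := G) (Q := Q) (Z := Z) e
    have a4 := CP_Q_le hQ hZ.sub he
    have a5 : (CP G Z e).card ≤ 2 :=
      (Finset.card_le_card (CP_Z_sub e)).trans (nbC_Z_le hZ hQ.sub he)
    have b1 := Finset.card_pos (s := CP G (Z \ Q) e)
    have b2 := Finset.card_pos (s := CP G (Q \ Z) e)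
    split_ifs with c1 c2 c3 c3 c2 c3 c3 <;> (try rw [← b1, ← b2] at c3) <;> omega
  simp only [Finset.sum_add_distrib, Finset.sum_const, smul_eq_mul, mul_one] at key ⊢
  omega

theorem cross_le (hK : G.InK W) (hQ : G.ClosedIn W Q) (hZ : G.Nice W Z) :
    G.crossTri Q Z + G.crossU Q Z ≤ G.crossR Q Z + 4 * G.crossBC Q Z := by
  classical
  rw [crossTri_eq, crossU_eq, crossR_eq, crossBC_eq]
  have h1 := TT_le hQ hZ
  have h2 := excess_le hK hQ hZ
  omega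

theorem cross (hK : G.InK W) (hQ : G.ClosedIn W Q) (hZ : G.Nice W Z) :
    G.delta (Q ∪ Z) + G.delta (Q ∩ Z) + 6 * G.crossBC Q Z + G.crossP Q Z + G.crossU Q Z
      ≤ G.delta Q + G.delta Z := by
  have h1 := G.delta_union_inter Q Z
  have h2 := cross_le hK hQ hZ
  zify at h2
  linarith

end CrossLe

end Geo

end Pool.Agent.SF
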