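import Pool.Agent.SF.GenDefs
import Pool.Agent.SF.Delta
import Pool.Agent.SF.Process
import Pool.Agent.SF.Cross

/-!
# Closed and strong sets
-/

set_option autoImplicit false

namespace Pool.Agent.SF

variable {V : Type*} [DecidableEq V]

namespace Geo

variable {G : Geo V} {W A B Q Y Z : Finset V}

omit [DecidableEq V] in
private lemma st_nbB_mono {A B : Finset V} (h : A ⊆ B) (σ : Bool) (v : V) :
    G.nbB σ v A ⊆ G.nbB σ v B := by
  intro x hx
  simp only [Geo.nbB, Finset.mem_filter] at hx ⊢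
  exact ⟨h hx.1, hx.2⟩

omit [DecidableEq V] in
private lemma st_nbC_mono {A B : Finset V} (h : A ⊆ B) (v : V) :
    G.nbC v A ⊆ G.nbC v B := by
  intro x hx
  simp only [Geo.nbC, Finset.mem_filter] at hx ⊢
  exact ⟨h hx.1, hx.2⟩

theorem ClosedIn.inter (hA : G.ClosedIn W A) (hB : G.ClosedIn W B) : G.ClosedIn W (A ∩ B) where
  sub := Finset.inter_subset_left.trans hA.sub
  pt := fun c hc hk σ h => Finset.mem_inter.2
    ⟨hA.pt c hc hk σ (h.trans (Finset.card_le_card (st_nbB_mono Finset.inter_subset_left σ c))),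
      hB.pt c hc hk σ (h.trans (Finset.card_le_card (st_nbB_mono Finset.inter_subset_right σ c)))⟩
  bl := fun b hb σ hk h => Finset.mem_inter.2
    ⟨hA.bl b hb σ hk (h.trans (Finset.card_le_card (st_nbC_mono Finset.inter_subset_left b))),
      hB.bl b hb σ hk (h.trans (Finset.card_le_card (st_nbC_mono Finset.inter_subset_right b)))⟩

theorem ClosedIn.refl : G.ClosedIn W W where
  sub := Finset.Subset.refl _
  pt := fun _ hc _ _ _ => hc
  bl := fun _ hb _ _ _ => hb

theorem ClosedIn.trans (hA : G.ClosedIn B A) (hB : G.ClosedIn W B) : G.ClosedIn W A where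
  sub := hA.sub.trans hB.sub
  pt := fun c hc hk σ h => hA.pt c
    (hB.pt c hc hk σ (h.trans (Finset.card_le_card (st_nbB_mono hA.sub σ c)))) hk σ h
  bl := fun b hb σ hk h => hA.bl b
    (hB.bl b hb σ hk (h.trans (Finset.card_le_card (st_nbC_mono hA.sub b)))) σ hk h

theorem ClosedIn.restrict (hA : G.ClosedIn W A) (hBW : B ⊆ W) : G.ClosedIn B (A ∩ B) where
  sub := Finset.inter_subset_right
  pt := fun c hc hk σ h => Finset.mem_inter.2
    ⟨hA.pt c (hBW hc) hk σ
      (h.trans (Finset.card_le_card (st_nbB_mono Finset.inter_subset_left σ c))), hc⟩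
  bl := fun b hb σ hk h => Finset.mem_inter.2
    ⟨hA.bl b (hBW hb) σ hk
      (h.trans (Finset.card_le_card (st_nbC_mono Finset.inter_subset_left b))), hb⟩

theorem InK.of_closed (hK : G.InK W) (hA : G.ClosedIn W A) : G.InK A where
  lin := fun σ u hu v hv hku hkv huv c hc c' hc' hkc hkc' =>
    hK.lin σ u (hA.sub hu) v (hA.sub hv) hku hkv huv c (hA.sub hc) c' (hA.sub hc') hkc hkc'
  res := fun v hv σ hk Cs hCs Bs hBs hne =>
    hK.res v (hA.sub hv) σ hk Cs (hCs.trans (st_nbC_mono hA.sub v)) Bs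
      (hBs.trans (st_nbB_mono hA.sub _ v)) hne
  pos := fun _ hQ hne => hK.pos _ (hQ.trans hA) hne

theorem closure_union (hK : G.InK W) (hQ : G.ClosedIn W Q) (hZ : G.Nice W Z) :
    ∃ E, G.ClosedIn W E ∧ Q ∪ Z ⊆ E ∧
      G.delta E + G.delta (Q ∩ Z) + 6 * G.crossBC Q Z + G.crossP Q Z + G.crossU Q Z
        ≤ G.delta Q + G.delta Z := by
  obtain ⟨E, h1, h2, h3, -⟩ := exists_closure hK.toLoc (Finset.union_subset hQ.sub hZ.sub)
    (hQ.good_union_nice hZ)
  refine ⟨E, h1, h2, ?_⟩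
  have h4 := cross hK hQ hZ
  linarith

theorem StrongIn.slack (hK : G.InK W) (hA : G.StrongIn W A) (hQ : G.ClosedIn W Q)
    (hQA : ¬ Q ⊆ A) : G.delta (Q ∩ A) + 1 + 6 * G.crossBC Q A ≤ G.delta Q := by
  obtain ⟨E, h1, h2, h3⟩ := closure_union hK hQ hA.closed.nice
  have hAE : A ⊂ E := by
    refine ⟨Finset.subset_union_right.trans h2, fun h => hQA ?_⟩
    exact (Finset.subset_union_left.trans h2).trans h
  have h4 := hA.lt E h1 hAE
  have h5 : (0 : ℤ) ≤ G.crossP Q A := Int.natCast_nonneg _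
  have h6 : (0 : ℤ) ≤ G.crossU Q A := Int.natCast_nonneg _
  linarith

theorem StrongIn.le (hK : G.InK W) (hA : G.StrongIn W A) (hQ : G.ClosedIn W Q) :
    G.delta (Q ∩ A) ≤ G.delta Q := by
  by_cases h : Q ⊆ A
  · rw [Finset.inter_eq_left.2 h]
  · have h1 := hA.slack hK hQ h
    have h5 : (0 : ℤ) ≤ G.crossBC Q A := Int.natCast_nonneg _
    linarith

theorem StrongIn.delta_le (hA : G.StrongIn W A) (hQ : G.ClosedIn W Q) (h : A ⊆ Q) :
    G.delta A ≤ G.delta Q := by
  rcases h.eq_or_ssubset with rfl | h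
  · exact le_rfl
  · exact (hA.lt Q hQ h).le

theorem StrongIn.inter (hK : G.InK W) (hA : G.StrongIn W A) (hB : G.StrongIn W B) :
    G.StrongIn W (A ∩ B) where
  closed := hA.closed.inter hB.closed
  lt := by
    intro Y hY hlt
    have e1 : Y ∩ A ∩ B = A ∩ B := by
      rw [Finset.inter_assoc]
      exact Finset.inter_eq_right.2 hlt.1
    have hYA : G.ClosedIn W (Y ∩ A) := hY.inter hA.closed
    have h1 : G.delta (A ∩ B) ≤ G.delta (Y ∩ A) := by
      have := hB.le hK hYA
      rwa [e1] at this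
    by_cases h : Y ⊆ A
    · have e2 : Y ∩ A = Y := Finset.inter_eq_left.2 h
      have hYB : ¬ Y ⊆ B := fun h' => hlt.2 (Finset.subset_inter h h')
      have h2 := hB.slack hK hY hYB
      rw [← e1, e2]
      have h5 : (0 : ℤ) ≤ G.crossBC Y B := Int.natCast_nonneg _
      linarith
    · have h2 := hA.slack hK hY h
      have h5 : (0 : ℤ) ≤ G.crossBC Y A := Int.natCast_nonneg _
      linarith

theorem StrongIn.trans (hK : G.InK W) (hA : G.StrongIn B A) (hB : G.StrongIn W B) :
    G.StrongIn W A where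
  closed := hA.closed.trans hB.closed
  lt := by
    intro Y hY hlt
    by_cases h : Y ⊆ B
    · have h1 : G.ClosedIn B (Y ∩ B) := hY.restrict hB.closed.sub
      rw [Finset.inter_eq_left.2 h] at h1
      exact hA.lt Y h1 hlt
    · have h1 := hB.slack hK hY h
      have h2 : G.delta A ≤ G.delta (Y ∩ B) :=
        hA.delta_le (hY.restrict hB.closed.sub) (Finset.subset_inter hlt.1 hA.closed.sub)
      have h5 : (0 : ℤ) ≤ G.crossBC Y B := Int.natCast_nonneg _
      linarith

theorem StrongIn.sub (hA : G.StrongIn W A) (hB : G.ClosedIn W B) (h : A ⊆ B) :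
    G.StrongIn B A where
  closed := by
    have h1 : G.ClosedIn B (A ∩ B) := hA.closed.restrict hB.sub
    rwa [Finset.inter_eq_left.2 h] at h1
  lt := fun Y hY hlt => hA.lt Y (hY.trans hB) hlt

theorem StrongIn.refl : G.StrongIn W W where
  closed := ClosedIn.refl
  lt := fun _ hY hlt => absurd hY.sub hlt.2

theorem strongIn_empty (hK : G.InK W) : G.StrongIn W ∅ where
  closed :=
    { sub := Finset.empty_subset _
      pt := fun c _ _ σ h => by
        have : G.nbB σ c ∅ = ∅ := by simp [Geo.nbB]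
        rw [this] at h
        simp at h
      bl := fun b _ _ _ h => by
        have : G.nbC b ∅ = ∅ := by simp [Geo.nbC]
        rw [this] at h
        simp at h }
  lt := by
    intro Y hY hlt
    rw [delta_empty]
    have hne : Y.Nonempty := Finset.nonempty_iff_ne_empty.2 fun h => hlt.2 (by rw [h])
    linarith [(hK.pos Y hY hne).1]

/-- a closed set of least `delta` containing `S` and maximal as such -/
private lemma st_exists_strong {S : Finset V} (hS : S ⊆ W) :
    ∃ E, G.StrongIn W E ∧ S ⊆ E ∧ ∀ Y, G.ClosedIn W Y → S ⊆ Y → G.delta E ≤ G.delta Y := by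
  classical
  let 𝓕 : Finset (Finset V) := W.powerset.filter fun Y => G.ClosedIn W Y ∧ S ⊆ Y
  have hne : 𝓕.Nonempty :=
    ⟨W, Finset.mem_filter.2 ⟨Finset.mem_powerset_self W, ClosedIn.refl, hS⟩⟩
  obtain ⟨E, hE, hmin⟩ := Finset.exists_min_image 𝓕
    (fun Y => G.delta Y * ((W.card : ℤ) + 1) - (Y.card : ℤ)) hne
  obtain ⟨hEW, hEc, hSE⟩ := Finset.mem_filter.1 hE
  have hmem : ∀ Y, G.ClosedIn W Y → S ⊆ Y → Y ∈ 𝓕 := fun Y hY h =>
    Finset.mem_filter.2 ⟨Finset.mem_powerset.2 hY.sub, hY, h⟩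
  have hmin' : ∀ Y, G.ClosedIn W Y → S ⊆ Y → G.delta E ≤ G.delta Y := by
    intro Y hY h
    by_contra hlt
    push Not at hlt
    have h1 := hmin Y (hmem Y hY h)
    have h2 : (E.card : ℤ) ≤ W.card := by exact_mod_cast Finset.card_le_card hEc.sub
    have h3 : (0 : ℤ) ≤ Y.card := Int.natCast_nonneg _
    have h4 : (0 : ℤ) ≤ W.card := Int.natCast_nonneg _
    have h5 : G.delta Y + 1 ≤ G.delta E := hlt
    nlinarith [mul_le_mul_of_nonneg_right h5 (by linarith : (0 : ℤ) ≤ (W.card : ℤ) + 1)]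
  refine ⟨E, ⟨hEc, fun Y hY hlt => ?_⟩, hSE, hmin'⟩
  have h0 : S ⊆ Y := hSE.trans hlt.1
  refine lt_of_le_of_ne (hmin' Y hY h0) fun heq => ?_
  have h1 := hmin Y (hmem Y hY h0)
  have h2 : (E.card : ℤ) < Y.card := by exact_mod_cast Finset.card_lt_card hlt
  simp only [heq] at h1
  linarith

theorem exists_isCl (hK : G.InK W) {S : Finset V} (hS : S ⊆ W) : ∃ E, G.IsCl W S E := by
  classical
  let 𝓕 : Finset (Finset V) := W.powerset.filter fun Y => G.StrongIn W Y ∧ S ⊆ Y
  have hne : 𝓕.Nonempty :=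
    ⟨W, Finset.mem_filter.2 ⟨Finset.mem_powerset_self W, StrongIn.refl, hS⟩⟩
  obtain ⟨E, hE, hmin⟩ := Finset.exists_min_image 𝓕 (fun Y => Y.card) hne
  obtain ⟨hEW, hEs, hSE⟩ := Finset.mem_filter.1 hE
  have hleast : ∀ F, G.StrongIn W F → S ⊆ F → E ⊆ F := by
    intro F hF hSF
    have h1 : E ∩ F ∈ 𝓕 := Finset.mem_filter.2
      ⟨Finset.mem_powerset.2 (Finset.inter_subset_left.trans hEs.closed.sub), hEs.inter hK hF,
        Finset.subset_inter hSE hSF⟩
    have h2 := hmin _ h1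
    have h3 : E ∩ F = E := Finset.eq_of_subset_of_card_le Finset.inter_subset_left h2
    exact Finset.inter_eq_left.1 h3
  refine ⟨E, hEs, hSE, hleast, fun Y hY hSY => ?_⟩
  obtain ⟨E', h1, h2, h3⟩ := st_exists_strong (G := G) hS
  exact (hEs.delta_le h1.closed (hleast E' h1 h2)).trans (h3 Y hY hSY)

theorem IsCl.delta_le (hK : G.InK W) {S E : Finset V} (hE : G.IsCl W S E) (hS : G.Good W S)
    (hSW : S ⊆ W) : G.delta E ≤ G.delta S := by
  obtain ⟨E', h1, h2, h3, -⟩ := exists_closure hK.toLoc hSW hS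
  exact (hE.min E' h1 h2).trans h3

end Geo

end Pool.Agent.SF
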