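import Pool.Agent.SF.GenDefs
import Pool.Agent.SF.Delta
import Pool.Agent.SF.Process
import Pool.Agent.SF.Strong

/-!
Module CLM1 (helper74) for `MP_715629_lc`: strong sets of the generic structure and the closure.
-/

set_option autoImplicit false

namespace Pool.Agent.SF

open Geo

variable {G : Geo ℕ} {F : ℕ → Finset ℕ} {A B E S S' Y : Finset ℕ}

theorem Generic.strong_le (hG : Generic G F) {k l : ℕ} (h : k ≤ l) : G.StrongIn (F l) (F k) := by
  induction l, h using Nat.le_induction with
  | base => exact StrongIn.refl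
  | succ l _ ih => exact StrongIn.trans (hG.inK (l + 1)) ih (hG.strong l)

theorem Generic.subset_le (hG : Generic G F) {k l : ℕ} (h : k ≤ l) : F k ⊆ F l :=
  (hG.strong_le h).closed.sub

theorem Generic.exists_subset (hG : Generic G F) (S : Finset ℕ) : ∃ k, S ⊆ F k := by
  induction S using Finset.induction_on with
  | empty => exact ⟨0, Finset.empty_subset _⟩
  | insert v S _ ih =>
    obtain ⟨k, hk⟩ := ih
    obtain ⟨l, hl⟩ := hG.exh v
    refine ⟨max k l, ?_⟩
    intro x hx
    rcases Finset.mem_insert.1 hx with rfl | hx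
    · exact hG.subset_le (le_max_right k l) hl
    · exact hG.subset_le (le_max_left k l) (hk hx)

theorem SM.mono (hG : Generic G F) {k l : ℕ} (hkl : k ≤ l) (h : G.StrongIn (F k) A) :
    G.StrongIn (F l) A := StrongIn.trans (hG.inK l) h (hG.strong_le hkl)

theorem SM.inK (hG : Generic G F) (h : SM G F A) : G.InK A := by
  obtain ⟨k, hk⟩ := h
  exact InK.of_closed (hG.inK k) hk.closed

theorem SM.exists_common (hG : Generic G F) (hA : SM G F A) (hB : SM G F B) :
    ∃ k, G.StrongIn (F k) A ∧ G.StrongIn (F k) B := by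
  obtain ⟨k, hk⟩ := hA
  obtain ⟨l, hl⟩ := hB
  exact ⟨max k l, SM.mono hG (le_max_left k l) hk, SM.mono hG (le_max_right k l) hl⟩

theorem SM.inter (hG : Generic G F) (hA : SM G F A) (hB : SM G F B) : SM G F (A ∩ B) := by
  obtain ⟨k, h1, h2⟩ := SM.exists_common hG hA hB
  exact ⟨k, StrongIn.inter (hG.inK k) h1 h2⟩

theorem SM.strongIn (hG : Generic G F) (hA : SM G F A) (hB : SM G F B) (h : A ⊆ B) :
    G.StrongIn B A := by
  obtain ⟨k, h1, h2⟩ := SM.exists_common hG hA hB
  exact StrongIn.sub h1 h2.closed h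

theorem SM.trans (hG : Generic G F) (hB : SM G F B) (hA : G.StrongIn B A) : SM G F A := by
  obtain ⟨k, hk⟩ := hB
  exact ⟨k, StrongIn.trans (hG.inK k) hA hk⟩

theorem SM.empty (hG : Generic G F) : SM G F ∅ := ⟨0, strongIn_empty (hG.inK 0)⟩

/-- `ext` for `SM` -/
theorem Generic.ext' (hG : Generic G F) (hA : SM G F A) {β : Type} [DecidableEq β] {H : Geo β}
    {D : Finset β} {f : ℕ → β} (hf : Emb G A H f) (hD : H.InK D)
    (hs : H.StrongIn D (A.image f)) :
    ∃ g : β → ℕ, Emb H D G g ∧ (∀ a ∈ A, g (f a) = a) ∧ SM G F (D.image g) := by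
  obtain ⟨k, hk⟩ := hA
  obtain ⟨l, g, h1, h2, h3⟩ := hG.ext k A hk β H D f hf hD hs
  exact ⟨g, h1, h2, l, h3⟩

theorem isClM_clM (hG : Generic G F) (S : Finset ℕ) : IsClM G F S (clM G F S) := by
  have hex : ∃ E, IsClM G F S E := by
    obtain ⟨k, hk⟩ := hG.exists_subset S
    obtain ⟨E, hE⟩ := exists_isCl (hG.inK k) hk
    refine ⟨E, ⟨k, hE.strong⟩, hE.sub, ?_, ?_⟩
    · rintro A ⟨l, hA⟩ hSA
      have h1 := SM.mono hG (le_max_left k l) hE.strong
      have h2 := SM.mono hG (le_max_right k l) hA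
      have h3 := StrongIn.inter (hG.inK _) h2 h1
      have h4 : A ∩ E ⊆ F k := Finset.inter_subset_right.trans hE.strong.closed.sub
      have h5 : G.StrongIn (F k) (A ∩ E) :=
        StrongIn.sub h3 (hG.strong_le (le_max_left k l)).closed h4
      exact (hE.least _ h5 (Finset.subset_inter hSA hE.sub)).trans Finset.inter_subset_left
    · intro l Y hY hSY
      have h1 := SM.mono hG (le_max_left k l) hE.strong
      have h2 : G.ClosedIn (F (max k l)) Y :=
        ClosedIn.trans hY (hG.strong_le (le_max_right k l)).closed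
      have h3 := StrongIn.le (hG.inK _) h1 h2
      have h4 : G.ClosedIn (F (max k l)) (Y ∩ E) := ClosedIn.inter h2 h1.closed
      have h5 : G.ClosedIn (F k) (Y ∩ E ∩ F k) :=
        ClosedIn.restrict h4 (hG.subset_le (le_max_left k l))
      have h6 : Y ∩ E ∩ F k = Y ∩ E :=
        Finset.inter_eq_left.2 (Finset.inter_subset_right.trans hE.strong.closed.sub)
      rw [h6] at h5
      exact (hE.min _ h5 (Finset.subset_inter hSY hE.sub)).trans h3
  unfold clM
  rw [dif_pos hex]
  exact hex.choose_spec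

theorem clM_strong (hG : Generic G F) (S : Finset ℕ) : SM G F (clM G F S) :=
  (isClM_clM hG S).strong

theorem subset_clM (hG : Generic G F) (S : Finset ℕ) : S ⊆ clM G F S := (isClM_clM hG S).sub

theorem clM_subset (hG : Generic G F) (hA : SM G F A) (h : S ⊆ A) : clM G F S ⊆ A :=
  (isClM_clM hG S).least A hA h

theorem clM_mono (hG : Generic G F) (h : S ⊆ S') : clM G F S ⊆ clM G F S' :=
  clM_subset hG (clM_strong hG S') (h.trans (subset_clM hG S'))

theorem clM_eq (hG : Generic G F) (hA : SM G F A) : clM G F A = A :=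
  Finset.Subset.antisymm (clM_subset hG hA (Finset.Subset.refl _)) (subset_clM hG A)

/-- the minimality of `δ (cl S)`, inside any strong set -/
theorem clM_min (hG : Generic G F) (hA : SM G F A) (hY : G.ClosedIn A Y) (h : S ⊆ Y) :
    G.delta (clM G F S) ≤ G.delta Y := by
  obtain ⟨k, hk⟩ := hA
  exact (isClM_clM hG S).min k Y (ClosedIn.trans hY hk.closed) h

/-- `δ (cl S) ≤ δ S` for good sets `S` -/
theorem clM_delta_le_good (hG : Generic G F) (hA : SM G F A) (hS : S ⊆ A) (hg : G.Good A S) :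
    G.delta (clM G F S) ≤ G.delta S := by
  obtain ⟨E, hE, hSE, hle, _⟩ := exists_closure (SM.inK hG hA).toLoc hS hg
  exact (clM_min hG hA hE hSE).trans hle

theorem SM.self (_hG : Generic G F) (k : ℕ) : SM G F (F k) := ⟨k, StrongIn.refl⟩

theorem clM_delta_le_card (hG : Generic G F) (hP : ∀ v ∈ S, G.kind v = .P) :
    G.delta (clM G F S) ≤ S.card := by
  obtain ⟨k, hk⟩ := hG.exists_subset S
  rw [← delta_allP G hP]
  refine clM_delta_le_good hG (SM.self hG k) hk (good_of_nbB ?_)
  intro c _ _ _ σ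
  have : G.nbB σ c S = ∅ := by
    classical
    rw [Finset.eq_empty_iff_forall_notMem]
    intro u hu
    simp only [Geo.nbB, Finset.mem_filter] at hu
    have := hP u hu.1
    rw [hu.2.2] at this
    exact Kind.noConfusion this
  rw [this]
  simp

/-- submodularity -/
theorem clM_submod (hG : Generic G F) (hA : SM G F A) (hB : SM G F B) :
    G.delta (clM G F (A ∪ B)) + G.delta (A ∩ B) ≤ G.delta A + G.delta B := by
  obtain ⟨k, h1, h2⟩ := SM.exists_common hG hA hB
  obtain ⟨E, hE, hsub, hle⟩ := closure_union (hG.inK k) h1.closed h2.closed.nice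
  have h3 := (isClM_clM hG (A ∪ B)).min k E hE hsub
  have h4 : (0 : ℤ) ≤ 6 * (G.crossBC A B : ℤ) := by positivity
  have h5 : (0 : ℤ) ≤ (G.crossP A B : ℤ) := by positivity
  have h6 : (0 : ℤ) ≤ (G.crossU A B : ℤ) := by positivity
  linarith

theorem SM.delta_mono (hG : Generic G F) (hA : SM G F A) (hB : SM G F B) (h : A ⊆ B) :
    G.delta A ≤ G.delta B := by
  obtain ⟨k, h1, h2⟩ := SM.exists_common hG hA hB
  exact StrongIn.delta_le h1 h2.closed h

theorem SM.delta_lt (hG : Generic G F) (hA : SM G F A) (hB : SM G F B) (h : A ⊂ B) :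
    G.delta A < G.delta B := by
  obtain ⟨k, h1, h2⟩ := SM.exists_common hG hA hB
  exact h1.lt B h2.closed h

theorem SM.delta_nonneg (hG : Generic G F) (hA : SM G F A) : 0 ≤ G.delta A := by
  have := SM.delta_mono hG (SM.empty hG) hA (Finset.empty_subset _)
  rwa [delta_empty] at this

theorem SM.card_le (hG : Generic G F) (hA : SM G F A) :
    (A.card : ℤ) ≤ 3 ^ (G.delta A).toNat := by
  rcases A.eq_empty_or_nonempty with rfl | hne
  · simp
  · obtain ⟨_, h2⟩ := (SM.inK hG hA).pos A ClosedIn.refl hne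
    refine h2.trans ?_
    exact pow_le_pow_right₀ (by norm_num) (Int.toNat_le_toNat (by linarith))

end Pool.Agent.SF
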