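import Pool.Agent.SF.Strong

/-!
# Module M5 DEFECT: independent closed sets
-/

set_option autoImplicit false

namespace Pool.Agent.SF

variable {V : Type*} [DecidableEq V]

namespace Geo

variable {G : Geo V} {W A B Q Y Z : Finset V}

theorem Indep.symm (h : G.Indep W A B) : G.Indep W B A where
  c₁ := h.c₂
  c₂ := h.c₁
  min := by
    intro Y hY hB hA
    have := h.min Y hY hA hB
    rw [Finset.inter_comm]
    linarith

theorem Indep.cross_zero (hK : G.InK W) (h : G.Indep W A B) :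
    G.crossBC A B = 0 ∧ G.crossP A B = 0 ∧ G.crossU A B = 0 := by
  obtain ⟨E, hE, hsub, hle⟩ := closure_union hK h.c₁ h.c₂.nice
  have h1 := h.min E hE (Finset.union_subset_left hsub) (Finset.union_subset_right hsub)
  refine ⟨?_, ?_, ?_⟩ <;> omega

theorem Indep.delta_union (hK : G.InK W) (h : G.Indep W A B) :
    G.delta (A ∪ B) = G.delta A + G.delta B - G.delta (A ∩ B) := by
  have h1 := cross hK h.c₁ h.c₂.nice
  have hsub : A ∪ B ⊆ W := Finset.union_subset h.c₁.sub h.c₂.sub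
  obtain ⟨E, hE, hEs, hle, _⟩ := exists_closure hK.toLoc hsub (h.c₁.good_union_nice h.c₂.nice)
  have h2 := h.min E hE (Finset.union_subset_left hEs) (Finset.union_subset_right hEs)
  omega

theorem Indep.min' (hK : G.InK W) (h : G.Indep W A B) (hY : G.ClosedIn W Y) (hAY : A ∪ B ⊆ Y) :
    G.delta (A ∪ B) ≤ G.delta Y := by
  rw [h.delta_union hK]
  exact h.min Y hY (Finset.union_subset_left hAY) (Finset.union_subset_right hAY)

theorem not_cross_BC (h0 : G.crossBC A B = 0) {u v : V} (hu : u ∈ A \ B) (hv : v ∈ B \ A)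
    (huv : G.adj u v) : Kind.cost (G.kind u) (G.kind v) ≠ 10 := by
  classical
  intro hc
  unfold crossBC at h0
  rw [Finset.card_eq_zero, Finset.filter_eq_empty_iff] at h0
  exact h0 (x := (u, v)) (Finset.mem_product.2 ⟨hu, hv⟩) ⟨huv, hc⟩

theorem cost_C_B (σ : Bool) : Kind.cost .C (.B σ) = 10 := by cases σ <;> rfl

theorem cost_B_C (σ : Bool) : Kind.cost (.B σ) .C = 10 := by cases σ <;> rfl

/-- no edges between a block of `A \ B` and a point of `B \ A` etc. -/
theorem Indep.edge (hK : G.InK W) (h : G.Indep W A B) {u v : V} (hu : u ∈ A \ B) (hv : v ∈ B \ A)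
    (huv : G.adj u v) :
    ∃ σ, G.kind u = .B σ ∧ G.kind v = .B (!σ) ∧
      ∃ c ∈ A ∩ B, G.kind c = .C ∧ G.adj u c ∧ G.adj v c := by
  classical
  obtain ⟨h1, h2, h3⟩ := h.cross_zero hK
  have hBC := not_cross_BC h1 hu hv huv
  have hP : ¬ (G.kind u = .P ∨ G.kind v = .P) := by
    intro hc
    unfold crossP at h2
    rw [Finset.card_eq_zero, Finset.filter_eq_empty_iff] at h2
    exact h2 (x := (u, v)) (Finset.mem_product.2 ⟨hu, hv⟩) ⟨huv, hc⟩
  have hco := G.compat u v huv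
  obtain ⟨σ, hku, hkv⟩ : ∃ σ, G.kind u = .B σ ∧ G.kind v = .B (!σ) := by
    rcases hu' : G.kind u with _ | s | _
    · exact absurd (Or.inl hu') hP
    · rcases hv' : G.kind v with _ | r | _
      · exact absurd (Or.inr hv') hP
      · refine ⟨s, rfl, ?_⟩
        rw [hu', hv'] at hco
        cases s <;> cases r <;> first | rfl | exact absurd rfl hco
      · rw [hu', hv'] at hBC
        exact absurd (cost_B_C s) hBC
    · rcases hv' : G.kind v with _ | r | _
      · exact absurd (Or.inr hv') hP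
      · rw [hu', hv'] at hBC
        exact absurd (cost_C_B r) hBC
      · rw [hu', hv'] at hco
        exact absurd rfl hco
  refine ⟨σ, hku, hkv, ?_⟩
  obtain ⟨c, hc, hkc, huc, hvc⟩ : ∃ c ∈ A ∪ B, G.kind c = .C ∧ G.adj u c ∧ G.adj v c := by
    by_contra hcon
    unfold crossU at h3
    rw [Finset.card_eq_zero, Finset.filter_eq_empty_iff] at h3
    refine h3 (x := (u, v)) (Finset.mem_product.2 ⟨hu, hv⟩) ⟨huv, ⟨σ, hku, hkv⟩, ?_⟩
    intro c hc hkc huc hvc
    exact hcon ⟨c, hc, hkc, huc, hvc⟩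
  refine ⟨c, ?_, hkc, huc, hvc⟩
  rw [Finset.mem_inter]
  have hcA : c ∈ A := by
    by_contra hcA
    have hcB : c ∈ B \ A := Finset.mem_sdiff.2 ⟨(Finset.mem_union.1 hc).resolve_left hcA, hcA⟩
    exact not_cross_BC h1 hu hcB huc (by rw [hku, hkc]; exact cost_B_C σ)
  have hcB : c ∈ B := by
    by_contra hcB
    have hcA : c ∈ A \ B := Finset.mem_sdiff.2 ⟨hcA, hcB⟩
    exact not_cross_BC h1 hcA hv (G.symm _ _ hvc) (by rw [hkv, hkc]; exact cost_C_B (!σ))
  exact ⟨hcA, hcB⟩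

theorem crossR_le (hK : G.InK W) (h : G.Indep W A B) (Q : Finset V) :
    G.crossR (Q ∩ A) (Q ∩ B) ≤ G.crossTri (Q ∩ A) (Q ∩ B) + G.bad Q A B := by
  classical
  have e1 : (Q ∩ A) \ (Q ∩ B) = Q ∩ (A \ B) := by
    ext x; simp only [Finset.mem_sdiff, Finset.mem_inter]; tauto
  have e2 : (Q ∩ B) \ (Q ∩ A) = Q ∩ (B \ A) := by
    ext x; simp only [Finset.mem_sdiff, Finset.mem_inter]; tauto
  set R := ((Q ∩ (A \ B)) ×ˢ (Q ∩ (B \ A))).filter (fun e => G.adj e.1 e.2 ∧
    ∃ σ, G.kind e.1 = .B σ ∧ G.kind e.2 = .B (!σ)) with hR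
  have hRc : G.crossR (Q ∩ A) (Q ∩ B) = R.card := by
    unfold crossR
    rw [e1, e2]
  set p : V × V → Prop := fun e => ∃ c ∈ Q, c ∈ A ∩ B ∧ G.kind c = .C ∧ G.adj e.1 c ∧ G.adj e.2 c
    with hp
  have hsplit := Finset.card_filter_add_card_filter_not (s := R) (p := p)
  have hb : (R.filter fun e => ¬ p e).card ≤ G.bad Q A B := by
    unfold bad
    apply Finset.card_le_card
    rintro ⟨u, v⟩ he
    rw [Finset.mem_filter, hR, Finset.mem_filter, Finset.mem_product] at he
    obtain ⟨⟨⟨hu, hv⟩, huv, _⟩, hnp⟩ := he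
    rw [Finset.mem_filter, Finset.mem_product]
    refine ⟨⟨hu, hv⟩, huv, ?_⟩
    obtain ⟨σ, _, _, c, hc, hkc, huc, hvc⟩ :=
      h.edge hK (Finset.mem_inter.1 hu).2 (Finset.mem_inter.1 hv).2 huv
    refine ⟨c, Finset.mem_sdiff.2 ⟨hc, fun hcQ => hnp ?_⟩, hkc, huc, hvc⟩
    exact ⟨c, hcQ, hc, hkc, huc, hvc⟩
  have ha : (R.filter p).card ≤ G.crossTri (Q ∩ A) (Q ∩ B) := by
    rcases Finset.eq_empty_or_nonempty (R.filter p) with hne | ⟨⟨u0, _⟩, _⟩
    · rw [hne]; simp
    have : Nonempty V := ⟨u0⟩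
    have hch : ∀ e ∈ R.filter p, ∃ c ∈ Q, c ∈ A ∩ B ∧ G.kind c = .C ∧ G.adj e.1 c ∧ G.adj e.2 c :=
      fun e he => (Finset.mem_filter.1 he).2
    choose! f hf using hch
    unfold crossTri
    apply Finset.card_le_card_of_injOn
      (fun e => if G.kind e.1 = .B false then (e.1, e.2, f e) else (e.2, e.1, f e))
    · rintro ⟨u, v⟩ he
      have he' := he
      obtain ⟨hfQ, hfAB, hfk, hfu, hfv⟩ := hf _ he
      rw [Finset.mem_coe, Finset.mem_filter, hR, Finset.mem_filter, Finset.mem_product] at he'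
      obtain ⟨⟨⟨hu, hv⟩, huv, σ, hku, hkv⟩, _⟩ := he'
      simp only [Finset.mem_inter, Finset.mem_sdiff] at hu hv hfAB
      simp only at hku hkv huv hfu hfv
      rw [Finset.mem_coe]
      cases σ
      · simp only [hku, if_true]
        rw [Finset.mem_filter]
        simp only [Finset.mem_product, Finset.mem_union, Finset.mem_inter]
        refine ⟨⟨Or.inl ⟨hu.1, hu.2.1⟩, Or.inr ⟨hv.1, hv.2.1⟩, Or.inl ⟨hfQ, hfAB.1⟩⟩,
          ⟨hku, hkv, hfk, huv, hfu, hfv⟩, ?_, ?_⟩
        · rintro ⟨_, h2, _⟩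
          exact hv.2.2 h2.2
        · rintro ⟨h1, _, _⟩
          exact hu.2.2 h1.2
      · have hne : G.kind u ≠ .B false := by rw [hku]; simp
        simp only [hne, if_false]
        rw [Finset.mem_filter]
        simp only [Finset.mem_product, Finset.mem_union, Finset.mem_inter]
        refine ⟨⟨Or.inr ⟨hv.1, hv.2.1⟩, Or.inl ⟨hu.1, hu.2.1⟩, Or.inl ⟨hfQ, hfAB.1⟩⟩,
          ⟨hkv, hku, hfk, G.symm _ _ huv, hfv, hfu⟩, ?_, ?_⟩
        · rintro ⟨h1, _, _⟩
          exact hv.2.2 h1.2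
        · rintro ⟨_, h2, _⟩
          exact hu.2.2 h2.2
    · rintro ⟨u, v⟩ he ⟨u', v'⟩ he' heq
      rw [Finset.mem_coe, Finset.mem_filter, hR, Finset.mem_filter, Finset.mem_product] at he he'
      obtain ⟨⟨⟨hu, hv⟩, _⟩, _⟩ := he
      obtain ⟨⟨⟨hu', hv'⟩, _⟩, _⟩ := he'
      simp only [Finset.mem_inter, Finset.mem_sdiff] at hu hv hu' hv'
      simp only at heq
      by_cases k1 : G.kind u = .B false
      · by_cases k2 : G.kind u' = .B false
        · rw [if_pos k1, if_pos k2] at heq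
          simp only [Prod.mk.injEq] at heq
          rw [heq.1, heq.2.1]
        · rw [if_pos k1, if_neg k2] at heq
          simp only [Prod.mk.injEq] at heq
          exfalso
          apply hu.2.2
          rw [heq.1]
          exact hv'.2.1
      · by_cases k2 : G.kind u' = .B false
        · rw [if_neg k1, if_pos k2] at heq
          simp only [Prod.mk.injEq] at heq
          exfalso
          apply hu'.2.2
          rw [← heq.1]
          exact hv.2.1
        · rw [if_neg k1, if_neg k2] at heq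
          simp only [Prod.mk.injEq] at heq
          rw [heq.1, heq.2.1]
  rw [hRc]
  omega

theorem Indep.defect (hK : G.InK W) (h : G.Indep W A B) (hQ : G.ClosedIn W Q) :
    G.delta (Q ∩ A) + G.delta (Q ∩ B) - G.delta (Q ∩ A ∩ B) - G.bad Q A B ≤ G.delta Q := by
  classical
  have hZ : G.Nice W (A ∪ B) := h.c₁.nice_union h.c₂
  obtain ⟨E, hE, hEs, hle⟩ := closure_union hK hQ hZ
  have h1 : G.delta (A ∪ B) ≤ G.delta E := h.min' hK hE (Finset.union_subset_right hEs)
  have h2 : G.delta (Q ∩ (A ∪ B)) ≤ G.delta Q := by omega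
  have h3 := G.delta_union_inter (Q ∩ A) (Q ∩ B)
  have e1 : Q ∩ A ∪ Q ∩ B = Q ∩ (A ∪ B) := (Finset.inter_union_distrib_left Q A B).symm
  have e2 : Q ∩ A ∩ (Q ∩ B) = Q ∩ A ∩ B := by
    ext x; simp only [Finset.mem_inter]; tauto
  rw [e1, e2] at h3
  obtain ⟨c1, c2, _⟩ := h.cross_zero hK
  have hs1 : (Q ∩ A) \ (Q ∩ B) ⊆ A \ B := by
    intro x; simp only [Finset.mem_sdiff, Finset.mem_inter]; tauto
  have hs2 : (Q ∩ B) \ (Q ∩ A) ⊆ B \ A := by
    intro x; simp only [Finset.mem_sdiff, Finset.mem_inter]; tauto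
  have d1 : G.crossBC (Q ∩ A) (Q ∩ B) = 0 := by
    have : G.crossBC (Q ∩ A) (Q ∩ B) ≤ G.crossBC A B := by
      unfold crossBC
      exact Finset.card_le_card (Finset.filter_subset_filter _ (Finset.product_subset_product hs1 hs2))
    omega
  have d2 : G.crossP (Q ∩ A) (Q ∩ B) = 0 := by
    have : G.crossP (Q ∩ A) (Q ∩ B) ≤ G.crossP A B := by
      unfold crossP
      exact Finset.card_le_card (Finset.filter_subset_filter _ (Finset.product_subset_product hs1 hs2))
    omega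
  have h4 := crossR_le hK h Q
  rw [d1, d2] at h3
  push_cast at h3
  have h4' : (G.crossR (Q ∩ A) (Q ∩ B) : ℤ) ≤ G.crossTri (Q ∩ A) (Q ∩ B) + G.bad Q A B := by
    exact_mod_cast h4
  linarith

end Geo

end Pool.Agent.SF
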