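import Pool.Agent.SF.Defs

/-!
# Transport of predimension notions along embeddings
-/

set_option autoImplicit false

namespace Pool.Agent.SF

variable {V : Type*} [DecidableEq V]

namespace Emb

variable {V' : Type*} [DecidableEq V'] {G : Geo V} {H : Geo V'} {f : V → V'} {W A B : Finset V}

/-! ### M1b EMB -/

theorem mono (h : Emb G W H f) (hA : A ⊆ W) : Emb G A H f :=
  ⟨h.inj.mono (by exact_mod_cast hA), fun u hu => h.kind u (hA hu),
    fun u hu v hv => h.adj u (hA hu) v (hA hv)⟩

theorem mem_image_iff (h : Emb G W H f) (hA : A ⊆ W) {v : V} (hv : v ∈ W) :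
    f v ∈ A.image f ↔ v ∈ A := by
  constructor
  · intro hm
    obtain ⟨a, ha, hav⟩ := Finset.mem_image.1 hm
    rw [← h.inj (hA ha) hv hav]
    exact ha
  · exact fun hm => Finset.mem_image_of_mem f hm

theorem card_image (h : Emb G W H f) (hA : A ⊆ W) : (A.image f).card = A.card :=
  Finset.card_image_of_injOn (h.inj.mono (by exact_mod_cast hA))

theorem subset_iff (h : Emb G W H f) (hA : A ⊆ W) (hB : B ⊆ W) :
    A.image f ⊆ B.image f ↔ A ⊆ B := by
  constructor
  · intro hs a ha
    exact (h.mem_image_iff hB (hA ha)).1 (hs (Finset.mem_image_of_mem f ha))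
  · exact fun hs => Finset.image_subset_image hs

theorem nbB_image (h : Emb G W H f) (hA : A ⊆ W) {c : V} (hc : c ∈ W) (σ : Bool) :
    H.nbB σ (f c) (A.image f) = (G.nbB σ c A).image f := by
  classical
  unfold Geo.nbB
  rw [Finset.filter_image]
  congr 1
  refine Finset.filter_congr fun u hu => ?_
  rw [h.adj c hc u (hA hu), h.kind u (hA hu)]

theorem nbC_image (h : Emb G W H f) (hA : A ⊆ W) {c : V} (hc : c ∈ W) :
    H.nbC (f c) (A.image f) = (G.nbC c A).image f := by
  classical
  unfold Geo.nbC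
  rw [Finset.filter_image]
  congr 1
  refine Finset.filter_congr fun u hu => ?_
  rw [h.adj c hc u (hA hu), h.kind u (hA hu)]

theorem nbP_image (h : Emb G W H f) (hA : A ⊆ W) {c : V} (hc : c ∈ W) :
    H.nbP (f c) (A.image f) = (G.nbP c A).image f := by
  classical
  unfold Geo.nbP
  rw [Finset.filter_image]
  congr 1
  refine Finset.filter_congr fun u hu => ?_
  rw [h.adj c hc u (hA hu), h.kind u (hA hu)]

omit [DecidableEq V] in
theorem nbB_subset (σ : Bool) (c : V) : G.nbB σ c A ⊆ A := by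
  classical
  exact Finset.filter_subset _ _

omit [DecidableEq V] in
theorem nbC_subset (c : V) : G.nbC c A ⊆ A := by
  classical
  exact Finset.filter_subset _ _

theorem card_nbB (h : Emb G W H f) (hA : A ⊆ W) {c : V} (hc : c ∈ W) (σ : Bool) :
    (H.nbB σ (f c) (A.image f)).card = (G.nbB σ c A).card := by
  rw [h.nbB_image hA hc, h.card_image ((nbB_subset σ c).trans hA)]

theorem card_nbC (h : Emb G W H f) (hA : A ⊆ W) {c : V} (hc : c ∈ W) :
    (H.nbC (f c) (A.image f)).card = (G.nbC c A).card := by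
  rw [h.nbC_image hA hc, h.card_image ((nbC_subset c).trans hA)]

theorem injOn_prod (h : Emb G W H f) (hA : A ⊆ W) (hB : B ⊆ W) :
    Set.InjOn (Prod.map f f) ((A ×ˢ B : Finset (V × V)) : Set (V × V)) := by
  rintro ⟨a, b⟩ hab ⟨a', b'⟩ hab' e
  rw [Finset.mem_coe, Finset.mem_product] at hab hab'
  simp only [Prod.map_apply, Prod.mk.injEq] at e
  have e1 : a = a' := h.inj (hA hab.1) (hA hab'.1) e.1
  have e2 : b = b' := h.inj (hB hab.2) (hB hab'.2) e.2
  rw [e1, e2]

theorem ed_image (h : Emb G W H f) (hA : A ⊆ W) (hB : B ⊆ W) :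
    H.ed (A.image f) (B.image f) = G.ed A B := by
  classical
  unfold Geo.ed
  rw [← Finset.prodMap_image_product, Finset.filter_image, Finset.card_image_of_injOn]
  · congr 1
    refine Finset.filter_congr fun e he => ?_
    rw [Finset.mem_product] at he
    exact h.adj e.1 (hA he.1) e.2 (hB he.2)
  · exact (h.injOn_prod hA hB).mono (by
      intro e he
      exact Finset.mem_coe.2 (Finset.mem_filter.1 he).1)

theorem delta_image (h : Emb G W H f) (hA : A ⊆ W) : H.delta (A.image f) = G.delta A := by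
  classical
  have hinj : Set.InjOn f (A : Set V) := h.inj.mono (by exact_mod_cast hA)
  unfold Geo.delta
  congr 1
  · congr 1
    · rw [Finset.sum_image hinj]
      exact Finset.sum_congr rfl fun v hv => by rw [h.kind v (hA hv)]
    · rw [← Finset.prodMap_image_product, Finset.filter_image, Finset.sum_image]
      · refine Finset.sum_congr ?_ ?_
        · refine Finset.filter_congr fun e he => ?_
          rw [Finset.mem_product] at he
          simp only [Prod.map_fst, Prod.map_snd]
          rw [h.adj e.1 (hA he.1) e.2 (hA he.2), h.kind e.1 (hA he.1), h.kind e.2 (hA he.2)]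
        · intro e he
          have he' := Finset.mem_product.1 (Finset.mem_filter.1 he).1
          simp only [Prod.map_fst, Prod.map_snd]
          rw [h.kind e.1 (hA he'.1), h.kind e.2 (hA he'.2)]
      · exact (h.injOn_prod hA hA).mono (by
          intro e he
          exact Finset.mem_coe.2 (Finset.mem_filter.1 he).1)
  · rw [← Finset.prodMap_image_product, ← Finset.prodMap_image_product, Finset.filter_image,
      Finset.card_image_of_injOn]
    · congr 2
      refine Finset.filter_congr fun e he => ?_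
      rw [Finset.mem_product, Finset.mem_product] at he
      simp only [Prod.map_fst, Prod.map_snd]
      unfold Geo.Tri
      rw [h.adj e.1 (hA he.1) e.2.1 (hA he.2.1), h.adj e.1 (hA he.1) e.2.2 (hA he.2.2),
        h.adj e.2.1 (hA he.2.1) e.2.2 (hA he.2.2), h.kind e.1 (hA he.1),
        h.kind e.2.1 (hA he.2.1), h.kind e.2.2 (hA he.2.2)]
    · rintro ⟨a, b⟩ hab ⟨a', b'⟩ hab' e
      have hab2 := Finset.mem_product.1 (Finset.mem_filter.1 hab).1
      have hab2' := Finset.mem_product.1 (Finset.mem_filter.1 hab').1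
      simp only [Prod.map_apply, Prod.mk.injEq] at e
      have e1 : a = a' := h.inj (hA hab2.1) (hA hab2'.1) e.1
      have e2 : b = b' := h.injOn_prod hA hA (Finset.mem_coe.2 hab2.2) (Finset.mem_coe.2 hab2'.2)
        (by simpa [Prod.map] using e.2)
      rw [e1, e2]

theorem closedIn_iff (h : Emb G W H f) (hA : A ⊆ W) :
    H.ClosedIn (W.image f) (A.image f) ↔ G.ClosedIn W A := by
  constructor
  · intro hc
    refine ⟨hA, fun c hcW hk σ hcard => ?_, fun b hbW σ hk hcard => ?_⟩
    · rw [← h.mem_image_iff hA hcW]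
      exact hc.pt (f c) (Finset.mem_image_of_mem f hcW) (by rw [h.kind c hcW, hk]) σ
        (by rw [h.card_nbB hA hcW]; exact hcard)
    · rw [← h.mem_image_iff hA hbW]
      exact hc.bl (f b) (Finset.mem_image_of_mem f hbW) σ (by rw [h.kind b hbW, hk])
        (by rw [h.card_nbC hA hbW]; exact hcard)
  · intro hc
    refine ⟨Finset.image_subset_image hA, fun c hcW hk σ hcard => ?_,
      fun b hbW σ hk hcard => ?_⟩
    · obtain ⟨x, hx, rfl⟩ := Finset.mem_image.1 hcW
      rw [h.kind x hx] at hk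
      rw [h.card_nbB hA hx] at hcard
      exact Finset.mem_image_of_mem f (hc.pt x hx hk σ hcard)
    · obtain ⟨x, hx, rfl⟩ := Finset.mem_image.1 hbW
      rw [h.kind x hx] at hk
      rw [h.card_nbC hA hx] at hcard
      exact Finset.mem_image_of_mem f (hc.bl x hx σ hk hcard)

theorem loc_iff (h : Emb G W H f) : H.Loc (W.image f) ↔ G.Loc W := by
  have hW : W ⊆ W := Finset.Subset.refl W
  constructor
  · intro hL
    refine ⟨?_, ?_⟩
    · intro σ u hu v hv ku kv huv c hc c' hc' kc kc' a1 a2 a3 a4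
      have := hL.lin σ (f u) (Finset.mem_image_of_mem f hu) (f v) (Finset.mem_image_of_mem f hv)
        (by rw [h.kind u hu, ku]) (by rw [h.kind v hv, kv]) (fun e => huv (h.inj hu hv e))
        (f c) (Finset.mem_image_of_mem f hc) (f c') (Finset.mem_image_of_mem f hc')
        (by rw [h.kind c hc, kc]) (by rw [h.kind c' hc', kc'])
        ((h.adj u hu c hc).2 a1) ((h.adj v hv c hc).2 a2) ((h.adj u hu c' hc').2 a3)
        ((h.adj v hv c' hc').2 a4)
      exact h.inj hc hc' this
    · intro v hv σ kv Cs hCs Bs hBs hne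
      have hCW : Cs ⊆ W := hCs.trans (nbC_subset v)
      have hBW : Bs ⊆ W := hBs.trans (nbB_subset _ v)
      have := hL.res (f v) (Finset.mem_image_of_mem f hv) σ (by rw [h.kind v hv, kv])
        (Cs.image f) (by rw [h.nbC_image hW hv]; exact Finset.image_subset_image hCs)
        (Bs.image f) (by rw [h.nbB_image hW hv]; exact Finset.image_subset_image hBs)
        (hne.imp (fun t => t.image f) (fun t => t.image f))
      rwa [h.ed_image hCW hBW, h.card_image hCW, h.card_image hBW] at this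
  · intro hL
    refine ⟨?_, ?_⟩
    · intro σ u hu v hv ku kv huv c hc c' hc' kc kc' a1 a2 a3 a4
      obtain ⟨u0, hu0, rfl⟩ := Finset.mem_image.1 hu
      obtain ⟨v0, hv0, rfl⟩ := Finset.mem_image.1 hv
      obtain ⟨c0, hc0, rfl⟩ := Finset.mem_image.1 hc
      obtain ⟨c1, hc1, rfl⟩ := Finset.mem_image.1 hc'
      rw [h.kind u0 hu0] at ku
      rw [h.kind v0 hv0] at kv
      rw [h.kind c0 hc0] at kc
      rw [h.kind c1 hc1] at kc'
      rw [h.adj u0 hu0 c0 hc0] at a1
      rw [h.adj v0 hv0 c0 hc0] at a2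
      rw [h.adj u0 hu0 c1 hc1] at a3
      rw [h.adj v0 hv0 c1 hc1] at a4
      rw [hL.lin σ u0 hu0 v0 hv0 ku kv (fun e => huv (by rw [e])) c0 hc0 c1 hc1 kc kc'
        a1 a2 a3 a4]
    · intro v hv σ kv Cs hCs Bs hBs hne
      obtain ⟨v0, hv0, rfl⟩ := Finset.mem_image.1 hv
      rw [h.kind v0 hv0] at kv
      rw [h.nbC_image hW hv0] at hCs
      rw [h.nbB_image hW hv0] at hBs
      obtain ⟨C0, hCs', rfl⟩ := Finset.subset_image_iff.1 hCs
      obtain ⟨B0, hBs', rfl⟩ := Finset.subset_image_iff.1 hBs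
      have hCs2 : C0 ⊆ G.nbC v0 W := by exact_mod_cast hCs'
      have hBs2 : B0 ⊆ G.nbB (!σ) v0 W := by exact_mod_cast hBs'
      have hCW : C0 ⊆ W := hCs2.trans (nbC_subset v0)
      have hBW : B0 ⊆ W := hBs2.trans (nbB_subset _ v0)
      rw [h.ed_image hCW hBW, h.card_image hCW, h.card_image hBW]
      exact hL.res v0 hv0 σ kv C0 hCs2 B0 hBs2
        (hne.imp (fun t => Finset.image_nonempty.1 t) (fun t => Finset.image_nonempty.1 t))

theorem exists_preimage {Y : Finset V'} (hY : Y ⊆ W.image f) : ∃ Z ⊆ W, Y = Z.image f := by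
  obtain ⟨Z, hZ, rfl⟩ := Finset.subset_image_iff.1 hY
  exact ⟨Z, by exact_mod_cast hZ, rfl⟩

theorem inK_iff (h : Emb G W H f) : H.InK (W.image f) ↔ G.InK W := by
  constructor
  · intro hK
    refine ⟨h.loc_iff.1 hK.toLoc, fun Q hQ hne => ?_⟩
    have := hK.pos (Q.image f) ((h.closedIn_iff hQ.sub).2 hQ) (hne.image f)
    rwa [h.delta_image hQ.sub, h.card_image hQ.sub] at this
  · intro hK
    refine ⟨h.loc_iff.2 hK.toLoc, fun Q hQ hne => ?_⟩
    obtain ⟨Z, hZ, rfl⟩ := exists_preimage hQ.sub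
    rw [h.delta_image hZ, h.card_image hZ]
    exact hK.pos Z ((h.closedIn_iff hZ).1 hQ) (Finset.image_nonempty.1 hne)

theorem ssubset_iff (h : Emb G W H f) (hA : A ⊆ W) (hB : B ⊆ W) :
    A.image f ⊂ B.image f ↔ A ⊂ B := by
  rw [Finset.ssubset_iff_subset_ne, Finset.ssubset_iff_subset_ne, h.subset_iff hA hB]
  refine and_congr_right fun _ => not_congr ⟨fun e => ?_, fun e => by rw [e]⟩
  exact Finset.Subset.antisymm ((h.subset_iff hA hB).1 (by rw [e]))
    ((h.subset_iff hB hA).1 (by rw [e]))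

theorem strongIn_iff (h : Emb G W H f) (hA : A ⊆ W) :
    H.StrongIn (W.image f) (A.image f) ↔ G.StrongIn W A := by
  constructor
  · intro hS
    refine ⟨(h.closedIn_iff hA).1 hS.closed, fun Y hY hAY => ?_⟩
    have := hS.lt (Y.image f) ((h.closedIn_iff hY.sub).2 hY) ((h.ssubset_iff hA hY.sub).2 hAY)
    rwa [h.delta_image hA, h.delta_image hY.sub] at this
  · intro hS
    refine ⟨(h.closedIn_iff hA).2 hS.closed, fun Y hY hAY => ?_⟩
    obtain ⟨Z, hZ, rfl⟩ := exists_preimage hY.sub
    rw [h.delta_image hA, h.delta_image hZ]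
    exact hS.lt Z ((h.closedIn_iff hZ).1 hY) ((h.ssubset_iff hA hZ).1 hAY)

theorem inter_image (h : Emb G W H f) (hA : A ⊆ W) (hB : B ⊆ W) :
    A.image f ∩ B.image f = (A ∩ B).image f := by
  ext y
  rw [Finset.mem_inter]
  constructor
  · rintro ⟨h1, h2⟩
    obtain ⟨a, ha, rfl⟩ := Finset.mem_image.1 h1
    exact Finset.mem_image_of_mem f (Finset.mem_inter.2 ⟨ha, (h.mem_image_iff hB (hA ha)).1 h2⟩)
  · intro hy
    obtain ⟨a, ha, rfl⟩ := Finset.mem_image.1 hy
    exact ⟨Finset.mem_image_of_mem f (Finset.mem_inter.1 ha).1,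
      Finset.mem_image_of_mem f (Finset.mem_inter.1 ha).2⟩

theorem indep_iff (h : Emb G W H f) (hA : A ⊆ W) (hB : B ⊆ W) :
    H.Indep (W.image f) (A.image f) (B.image f) ↔ G.Indep W A B := by
  have hAB : A ∩ B ⊆ W := Finset.inter_subset_left.trans hA
  constructor
  · intro hI
    refine ⟨(h.closedIn_iff hA).1 hI.c₁, (h.closedIn_iff hB).1 hI.c₂, fun Y hY h1 h2 => ?_⟩
    have := hI.min (Y.image f) ((h.closedIn_iff hY.sub).2 hY) (Finset.image_subset_image h1)
      (Finset.image_subset_image h2)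
    rwa [h.inter_image hA hB, h.delta_image hA, h.delta_image hB, h.delta_image hAB,
      h.delta_image hY.sub] at this
  · intro hI
    refine ⟨(h.closedIn_iff hA).2 hI.c₁, (h.closedIn_iff hB).2 hI.c₂, fun Y hY h1 h2 => ?_⟩
    obtain ⟨Z, hZ, rfl⟩ := exists_preimage hY.sub
    rw [h.inter_image hA hB, h.delta_image hA, h.delta_image hB, h.delta_image hAB,
      h.delta_image hZ]
    exact hI.min Z ((h.closedIn_iff hZ).1 hY) ((h.subset_iff hA hZ).1 h1)
      ((h.subset_iff hB hZ).1 h2)

theorem comp {V'' : Type*} {K : Geo V''} {g : V' → V''} (h : Emb G W H f)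
    (h' : Emb H (W.image f) K g) : Emb G W K (g ∘ f) := by
  refine ⟨?_, ?_, ?_⟩
  · intro a ha b hb e
    exact h.inj ha hb (h'.inj (Finset.mem_coe.2 (Finset.mem_image_of_mem f ha))
      (Finset.mem_coe.2 (Finset.mem_image_of_mem f hb)) e)
  · intro u hu
    rw [Function.comp_apply, h'.kind (f u) (Finset.mem_image_of_mem f hu), h.kind u hu]
  · intro u hu v hv
    rw [Function.comp_apply, Function.comp_apply, h'.adj (f u) (Finset.mem_image_of_mem f hu) (f v)
      (Finset.mem_image_of_mem f hv), h.adj u hu v hv]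

/-- the inverse of an embedding -/
theorem exists_inv [Nonempty V] (h : Emb G W H f) :
    ∃ g : V' → V, Emb H (W.image f) G g ∧ (∀ a ∈ W, g (f a) = a) ∧
      (∀ b ∈ W.image f, f (g b) = b) := by
  have h1 : ∀ a ∈ W, Function.invFunOn f (W : Set V) (f a) = a := fun a ha =>
    h.inj.leftInvOn_invFunOn (Finset.mem_coe.2 ha)
  have h2 : ∀ b ∈ W.image f, f (Function.invFunOn f (W : Set V) b) = b := by
    intro b hb
    obtain ⟨a, ha, rfl⟩ := Finset.mem_image.1 hb
    rw [h1 a ha]
  refine ⟨Function.invFunOn f (W : Set V), ⟨?_, ?_, ?_⟩, h1, h2⟩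
  · intro b hb b' hb' e
    rw [← h2 b (Finset.mem_coe.1 hb), ← h2 b' (Finset.mem_coe.1 hb'), e]
  · intro b hb
    obtain ⟨a, ha, rfl⟩ := Finset.mem_image.1 hb
    rw [h1 a ha, h.kind a ha]
  · intro b hb b' hb'
    obtain ⟨a, ha, rfl⟩ := Finset.mem_image.1 hb
    obtain ⟨a', ha', rfl⟩ := Finset.mem_image.1 hb'
    rw [h1 a ha, h1 a' ha', h.adj a ha a' ha']

end Emb

end Pool.Agent.SF
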