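import Pool.Agent.SF.Defect

/-!
# Module M7 (CONFIG1): elementary facts on configurations of three pieces
-/

set_option autoImplicit false

namespace Pool.Agent.SF

variable {V : Type*} [DecidableEq V]

namespace Geo

variable {G : Geo V} {W A B C Q Y Z : Finset V}

theorem Config.swap12 (h : G.Config A B C) : G.Config B A C where
  kA := h.kB
  kB := h.kA
  kC := h.kC
  edge := by
    intro u hu v hv huv
    have e : B ∪ A ∪ C = A ∪ B ∪ C := by rw [Finset.union_comm B A]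
    rw [e] at hu hv
    rcases h.edge u hu v hv huv with h1 | h1 | h1
    · exact Or.inr (Or.inl h1)
    · exact Or.inl h1
    · exact Or.inr (Or.inr h1)
  sAB := by rw [Finset.inter_comm]; exact h.sBA
  sAC := h.sBC
  sBA := by rw [Finset.inter_comm]; exact h.sAB
  sBC := h.sAC
  sCA := h.sCB
  sCB := h.sCA
  iA := by rw [Finset.inter_comm B A]; exact h.iB
  iB := by rw [Finset.inter_comm B A]; exact h.iA
  iC := h.iC.symm

theorem Config.swap23 (h : G.Config A B C) : G.Config A C B where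
  kA := h.kA
  kB := h.kC
  kC := h.kB
  edge := by
    intro u hu v hv huv
    have e : A ∪ C ∪ B = A ∪ B ∪ C := by
      rw [Finset.union_assoc, Finset.union_comm C B, ← Finset.union_assoc]
    rw [e] at hu hv
    rcases h.edge u hu v hv huv with h1 | h1 | h1
    · exact Or.inl h1
    · exact Or.inr (Or.inr h1)
    · exact Or.inr (Or.inl h1)
  sAB := h.sAC
  sAC := h.sAB
  sBA := h.sCA
  sBC := by rw [Finset.inter_comm]; exact h.sCB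
  sCA := h.sBA
  sCB := by rw [Finset.inter_comm]; exact h.sBC
  iA := h.iA.symm
  iB := by rw [Finset.inter_comm C B]; exact h.iC
  iC := by rw [Finset.inter_comm C B]; exact h.iB

/-- An edge inside `B` at a vertex of kind `C`, between a vertex of `A` and a vertex of `C`, has an
end in `A ∩ C`. -/
theorem Config.noCross (h : G.Config A B C) {u v : V} (hA : u ∈ A) (hB : u ∈ B) (hB' : v ∈ B)
    (hC : v ∈ C) (huv : G.adj u v) (hk : G.kind u = .C ∨ G.kind v = .C) : u ∈ C ∨ v ∈ A := by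
  by_contra hcon
  push Not at hcon
  obtain ⟨σ, h1, h2, -⟩ := h.iB.edge h.kB (u := u) (v := v)
    (by simp [hA, hB, hcon.1]) (by simp [hB', hC, hcon.2]) huv
  rcases hk with hk | hk
  · rw [hk] at h1; cases h1
  · rw [hk] at h2; cases h2

/-- The case of a triangle whose edges lie in three different pieces. -/
theorem Config.tri_aux (h : G.Config A B C) {x z c : V} (hxA : x ∈ A) (hxB : x ∈ B)
    (hzA : z ∈ A) (hzC : z ∈ C) (hcB : c ∈ B) (hcC : c ∈ C) (hxc : G.adj x c)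
    (hk : G.kind c = .C) :
    (x ∈ A ∧ z ∈ A ∧ c ∈ A) ∨ (x ∈ C ∧ z ∈ C ∧ c ∈ C) := by
  rcases h.noCross hxA hxB hcB hcC hxc (Or.inr hk) with h1 | h1
  · exact Or.inr ⟨h1, hzC, hcC⟩
  · exact Or.inl ⟨hxA, hzA, h1⟩

theorem Config.tri (h : G.Config A B C) {x z c : V} (hx : x ∈ A ∪ B ∪ C) (hz : z ∈ A ∪ B ∪ C)
    (hc : c ∈ A ∪ B ∪ C) (ht : G.Tri x z c) :
    (x ∈ A ∧ z ∈ A ∧ c ∈ A) ∨ (x ∈ B ∧ z ∈ B ∧ c ∈ B) ∨ (x ∈ C ∧ z ∈ C ∧ c ∈ C) := by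
  obtain ⟨-, -, hk, hxz, hxc, hzc⟩ := ht
  rcases h.edge x hx z hz hxz with ⟨a1, a2⟩ | ⟨a1, a2⟩ | ⟨a1, a2⟩ <;>
  rcases h.edge x hx c hc hxc with ⟨b1, b2⟩ | ⟨b1, b2⟩ | ⟨b1, b2⟩
  · exact Or.inl ⟨a1, a2, b2⟩
  · rcases h.edge z hz c hc hzc with ⟨c1, c2⟩ | ⟨c1, c2⟩ | ⟨c1, c2⟩
    · exact Or.inl ⟨a1, a2, c2⟩
    · exact Or.inr (Or.inl ⟨b1, c1, b2⟩)
    · rcases h.tri_aux a1 b1 a2 c1 b2 c2 hxc hk with h1 | h1
      · exact Or.inl h1
      · exact Or.inr (Or.inr h1)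
  · rcases h.edge z hz c hc hzc with ⟨c1, c2⟩ | ⟨c1, c2⟩ | ⟨c1, c2⟩
    · exact Or.inl ⟨a1, a2, c2⟩
    · rcases h.swap23.tri_aux a1 b1 a2 c1 b2 c2 hxc hk with h1 | h1
      · exact Or.inl h1
      · exact Or.inr (Or.inl h1)
    · exact Or.inr (Or.inr ⟨b1, c1, b2⟩)
  · rcases h.edge z hz c hc hzc with ⟨c1, c2⟩ | ⟨c1, c2⟩ | ⟨c1, c2⟩
    · exact Or.inl ⟨b1, c1, b2⟩
    · exact Or.inr (Or.inl ⟨a1, a2, c2⟩)
    · rcases h.swap12.tri_aux a1 b1 a2 c1 b2 c2 hxc hk with h1 | h1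
      · exact Or.inr (Or.inl h1)
      · exact Or.inr (Or.inr h1)
  · exact Or.inr (Or.inl ⟨a1, a2, b2⟩)
  · rcases h.edge z hz c hc hzc with ⟨c1, c2⟩ | ⟨c1, c2⟩ | ⟨c1, c2⟩
    · rcases h.swap12.swap23.tri_aux a1 b1 a2 c1 b2 c2 hxc hk with h1 | h1
      · exact Or.inr (Or.inl h1)
      · exact Or.inl h1
    · exact Or.inr (Or.inl ⟨a1, a2, c2⟩)
    · exact Or.inr (Or.inr ⟨b1, c1, b2⟩)
  · rcases h.edge z hz c hc hzc with ⟨c1, c2⟩ | ⟨c1, c2⟩ | ⟨c1, c2⟩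
    · exact Or.inl ⟨b1, c1, b2⟩
    · rcases h.swap23.swap12.tri_aux a1 b1 a2 c1 b2 c2 hxc hk with h1 | h1
      · exact Or.inr (Or.inr h1)
      · exact Or.inr (Or.inl h1)
    · exact Or.inr (Or.inr ⟨a1, a2, c2⟩)
  · rcases h.edge z hz c hc hzc with ⟨c1, c2⟩ | ⟨c1, c2⟩ | ⟨c1, c2⟩
    · rcases h.swap12.swap23.swap12.tri_aux a1 b1 a2 c1 b2 c2 hxc hk with h1 | h1
      · exact Or.inr (Or.inr h1)
      · exact Or.inl h1
    · exact Or.inr (Or.inl ⟨b1, c1, b2⟩)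
    · exact Or.inr (Or.inr ⟨a1, a2, c2⟩)
  · exact Or.inr (Or.inr ⟨a1, a2, b2⟩)

/-- Inclusion-exclusion for sums over three finite sets. -/
theorem sum_union3 {ι : Type*} [DecidableEq ι] (X Y Z : Finset ι) (f : ι → ℤ) :
    ∑ i ∈ X ∪ Y ∪ Z, f i = ∑ i ∈ X, f i + ∑ i ∈ Y, f i + ∑ i ∈ Z, f i
      - ∑ i ∈ X ∩ Y, f i - ∑ i ∈ X ∩ Z, f i - ∑ i ∈ Y ∩ Z, f i + ∑ i ∈ X ∩ Y ∩ Z, f i := by
  have h1 := Finset.sum_union_inter (s₁ := X ∪ Y) (s₂ := Z) (f := f)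
  have h2 := Finset.sum_union_inter (s₁ := X) (s₂ := Y) (f := f)
  have h3 := Finset.sum_union_inter (s₁ := X ∩ Z) (s₂ := Y ∩ Z) (f := f)
  have e1 : (X ∪ Y) ∩ Z = X ∩ Z ∪ Y ∩ Z := Finset.union_inter_distrib_right X Y Z
  have e2 : X ∩ Z ∩ (Y ∩ Z) = X ∩ Y ∩ Z := by
    ext i; simp only [Finset.mem_inter]; tauto
  rw [e1] at h1
  rw [e2] at h3
  linarith

theorem Config.delta (h : G.Config A B C) (hQ : Q ⊆ A ∪ B ∪ C) :
    G.delta Q = G.delta (Q ∩ A) + G.delta (Q ∩ B) + G.delta (Q ∩ C)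
      - G.delta (Q ∩ A ∩ B) - G.delta (Q ∩ A ∩ C) - G.delta (Q ∩ B ∩ C)
      + G.delta (Q ∩ A ∩ B ∩ C) := by
  classical
  -- vertices
  have hv := sum_union3 (Q ∩ A) (Q ∩ B) (Q ∩ C) (fun v => (G.kind v).wt)
  have eQ : Q ∩ A ∪ Q ∩ B ∪ Q ∩ C = Q := by
    rw [← Finset.inter_union_distrib_left, ← Finset.inter_union_distrib_left]
    exact Finset.inter_eq_left.2 hQ
  have eAB : Q ∩ A ∩ (Q ∩ B) = Q ∩ A ∩ B := by
    ext i; simp only [Finset.mem_inter]; tauto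
  have eAC : Q ∩ A ∩ (Q ∩ C) = Q ∩ A ∩ C := by
    ext i; simp only [Finset.mem_inter]; tauto
  have eBC : Q ∩ B ∩ (Q ∩ C) = Q ∩ B ∩ C := by
    ext i; simp only [Finset.mem_inter]; tauto
  have eABC : Q ∩ A ∩ B ∩ (Q ∩ C) = Q ∩ A ∩ B ∩ C := by
    ext i; simp only [Finset.mem_inter]; tauto
  rw [eQ, eAB, eAC, eBC, eABC] at hv
  -- edges
  set E : Finset V → Finset (V × V) := fun S => (S ×ˢ S).filter
    (fun e => G.adj e.1 e.2 ∧ (G.kind e.1).idx < (G.kind e.2).idx) with hE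
  have Einter : ∀ S T : Finset V, E S ∩ E T = E (S ∩ T) := by
    intro S T
    ext e
    simp only [hE, Finset.mem_inter, Finset.mem_filter, Finset.mem_product]
    tauto
  have hEQ : E (Q ∩ A) ∪ E (Q ∩ B) ∪ E (Q ∩ C) = E Q := by
    ext e
    simp only [hE, Finset.mem_inter, Finset.mem_filter, Finset.mem_product, Finset.mem_union]
    constructor
    · rintro ((h1 | h1) | h1) <;> exact ⟨⟨h1.1.1.1, h1.1.2.1⟩, h1.2⟩
    · rintro ⟨⟨h1, h2⟩, h3⟩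
      rcases h.edge e.1 (hQ h1) e.2 (hQ h2) h3.1 with h4 | h4 | h4
      · exact Or.inl (Or.inl ⟨⟨⟨h1, h4.1⟩, ⟨h2, h4.2⟩⟩, h3⟩)
      · exact Or.inl (Or.inr ⟨⟨⟨h1, h4.1⟩, ⟨h2, h4.2⟩⟩, h3⟩)
      · exact Or.inr ⟨⟨⟨h1, h4.1⟩, ⟨h2, h4.2⟩⟩, h3⟩
  have he := sum_union3 (E (Q ∩ A)) (E (Q ∩ B)) (E (Q ∩ C))
    (fun e => Kind.cost (G.kind e.1) (G.kind e.2))
  rw [hEQ, Einter, Einter, Einter, Einter, eAB, eAC, eBC, eABC] at he
  -- triangles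
  set T : Finset V → Finset (V × V × V) := fun S => (S ×ˢ S ×ˢ S).filter
    (fun t => G.Tri t.1 t.2.1 t.2.2) with hT
  have Tinter : ∀ S S' : Finset V, T S ∩ T S' = T (S ∩ S') := by
    intro S S'
    ext e
    simp only [hT, Finset.mem_inter, Finset.mem_filter, Finset.mem_product]
    tauto
  have hTQ : T (Q ∩ A) ∪ T (Q ∩ B) ∪ T (Q ∩ C) = T Q := by
    ext e
    simp only [hT, Finset.mem_inter, Finset.mem_filter, Finset.mem_product, Finset.mem_union]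
    constructor
    · rintro ((h1 | h1) | h1) <;> exact ⟨⟨h1.1.1.1, h1.1.2.1.1, h1.1.2.2.1⟩, h1.2⟩
    · rintro ⟨⟨h1, h2, h2'⟩, h3⟩
      rcases h.tri (hQ h1) (hQ h2) (hQ h2') h3 with h4 | h4 | h4
      · exact Or.inl (Or.inl ⟨⟨⟨h1, h4.1⟩, ⟨h2, h4.2.1⟩, ⟨h2', h4.2.2⟩⟩, h3⟩)
      · exact Or.inl (Or.inr ⟨⟨⟨h1, h4.1⟩, ⟨h2, h4.2.1⟩, ⟨h2', h4.2.2⟩⟩, h3⟩)
      · exact Or.inr ⟨⟨⟨h1, h4.1⟩, ⟨h2, h4.2.1⟩, ⟨h2', h4.2.2⟩⟩, h3⟩
  have ht := sum_union3 (T (Q ∩ A)) (T (Q ∩ B)) (T (Q ∩ C)) (fun _ => (1 : ℤ))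
  rw [hTQ, Tinter, Tinter, Tinter, Tinter, eAB, eAC, eBC, eABC] at ht
  simp only [Finset.sum_const, nsmul_eq_mul, mul_one] at ht
  have hd : ∀ S : Finset V, G.delta S = ∑ v ∈ S, (G.kind v).wt
      - ∑ e ∈ E S, Kind.cost (G.kind e.1) (G.kind e.2) + ((T S).card : ℤ) := by
    intro S
    simp only [Geo.delta, hE, hT]
  rw [hd, hd, hd, hd, hd, hd, hd, hd]
  linarith

/-- Two neighbours in `A` of a vertex outside `A` lie with it in one of the other pieces. -/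
theorem Config.nbr_pair (h : G.Config A B C) {v u₁ u₂ : V} (hv : v ∈ A ∪ B ∪ C) (hvA : v ∉ A)
    (h1 : u₁ ∈ A) (h2 : u₂ ∈ A) (a1 : G.adj v u₁) (a2 : G.adj v u₂)
    (hk : G.kind v = .C ∨ (G.kind u₁ = .C ∧ G.kind u₂ = .C)) :
    (v ∈ B ∧ u₁ ∈ B ∧ u₂ ∈ B) ∨ (v ∈ C ∧ u₁ ∈ C ∧ u₂ ∈ C) := by
  have m1 : u₁ ∈ A ∪ B ∪ C := by simp [h1]
  have m2 : u₂ ∈ A ∪ B ∪ C := by simp [h2]
  have k1 : G.kind u₁ = .C ∨ G.kind v = .C := by
    rcases hk with hk | hk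
    · exact Or.inr hk
    · exact Or.inl hk.1
  have k2 : G.kind u₂ = .C ∨ G.kind v = .C := by
    rcases hk with hk | hk
    · exact Or.inr hk
    · exact Or.inl hk.2
  rcases h.edge v hv u₁ m1 a1 with e1 | e1 | e1
  · exact absurd e1.1 hvA
  · rcases h.edge v hv u₂ m2 a2 with e2 | e2 | e2
    · exact absurd e2.1 hvA
    · exact Or.inl ⟨e1.1, e1.2, e2.2⟩
    · rcases h.noCross h1 e1.2 e1.1 e2.1 (G.symm _ _ a1) k1 with h3 | h3
      · exact Or.inr ⟨e2.1, h3, e2.2⟩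
      · exact absurd h3 hvA
  · rcases h.edge v hv u₂ m2 a2 with e2 | e2 | e2
    · exact absurd e2.1 hvA
    · rcases h.noCross h2 e2.2 e2.1 e1.1 (G.symm _ _ a2) k2 with h3 | h3
      · exact Or.inr ⟨e1.1, e1.2, h3⟩
      · exact absurd h3 hvA
    · exact Or.inr ⟨e1.1, e1.2, e2.2⟩

theorem two_le_nbB_inter {A B : Finset V} {σ : Bool} {c u v : V} (hu : u ∈ G.nbB σ c A)
    (hv : v ∈ G.nbB σ c A) (hu' : u ∈ B) (hv' : v ∈ B) (huv : u ≠ v) :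
    2 ≤ (G.nbB σ c (A ∩ B)).card := by
  have : 1 < (G.nbB σ c (A ∩ B)).card := by
    simp only [nbB, Finset.mem_filter] at hu hv
    refine Finset.one_lt_card.2 ⟨u, ?_, v, ?_, huv⟩
    · simp only [nbB, Finset.mem_filter, Finset.mem_inter]
      exact ⟨⟨hu.1, hu'⟩, hu.2⟩
    · simp only [nbB, Finset.mem_filter, Finset.mem_inter]
      exact ⟨⟨hv.1, hv'⟩, hv.2⟩
  omega

theorem two_le_nbC_inter {A B : Finset V} {c u v : V} (hu : u ∈ G.nbC c A)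
    (hv : v ∈ G.nbC c A) (hu' : u ∈ B) (hv' : v ∈ B) (huv : u ≠ v) :
    2 ≤ (G.nbC c (A ∩ B)).card := by
  have : 1 < (G.nbC c (A ∩ B)).card := by
    simp only [nbC, Finset.mem_filter] at hu hv
    refine Finset.one_lt_card.2 ⟨u, ?_, v, ?_, huv⟩
    · simp only [nbC, Finset.mem_filter, Finset.mem_inter]
      exact ⟨⟨hu.1, hu'⟩, hu.2⟩
    · simp only [nbC, Finset.mem_filter, Finset.mem_inter]
      exact ⟨⟨hv.1, hv'⟩, hv.2⟩
  omega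

theorem Config.closed (h : G.Config A B C) : G.ClosedIn (A ∪ B ∪ C) A where
  sub := by
    intro v hv
    simp [hv]
  pt := by
    intro c hc hk σ h2
    by_contra hcA
    obtain ⟨u, hu, v, hv, huv⟩ := Finset.one_lt_card.1 (show 1 < (G.nbB σ c A).card by omega)
    have hu' := hu
    have hv' := hv
    simp only [nbB, Finset.mem_filter] at hu hv
    rcases h.nbr_pair hc hcA hu.1 hv.1 hu.2.1 hv.2.1 (Or.inl hk) with h3 | h3
    · have h4 := h.sBA.closed.pt c h3.1 hk σ (two_le_nbB_inter hu' hv' h3.2.1 h3.2.2 huv)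
      exact hcA (Finset.mem_inter.1 h4).1
    · have h4 := h.sCA.closed.pt c h3.1 hk σ (two_le_nbB_inter hu' hv' h3.2.1 h3.2.2 huv)
      exact hcA (Finset.mem_inter.1 h4).1
  bl := by
    intro b hb σ hk h2
    by_contra hbA
    obtain ⟨u, hu, v, hv, huv⟩ := Finset.one_lt_card.1 (show 1 < (G.nbC b A).card by omega)
    have hu' := hu
    have hv' := hv
    simp only [nbC, Finset.mem_filter] at hu hv
    rcases h.nbr_pair hb hbA hu.1 hv.1 hu.2.1 hv.2.1 (Or.inr ⟨hu.2.2, hv.2.2⟩) with h3 | h3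
    · have h4 := h.sBA.closed.bl b h3.1 σ hk (two_le_nbC_inter hu' hv' h3.2.1 h3.2.2 huv)
      exact hbA (Finset.mem_inter.1 h4).1
    · have h4 := h.sCA.closed.bl b h3.1 σ hk (two_le_nbC_inter hu' hv' h3.2.1 h3.2.2 huv)
      exact hbA (Finset.mem_inter.1 h4).1

end Geo

end Pool.Agent.SF
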