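import Pool.Agent.SF.Delta
import Pool.Agent.SF.Process

/-!
# M6: the residue lemma
-/

set_option autoImplicit false

namespace Pool.Agent.SF

namespace Geo

variable {V : Type*} {G : Geo V}

section Aux

theorem res_mem_nbB {σ : Bool} {v u : V} {A : Finset V} :
    u ∈ G.nbB σ v A ↔ u ∈ A ∧ G.adj v u ∧ G.kind u = .B σ := by
  classical
  simp [nbB]

theorem res_mem_nbC {v u : V} {A : Finset V} :
    u ∈ G.nbC v A ↔ u ∈ A ∧ G.adj v u ∧ G.kind u = .C := by
  classical
  simp [nbC]

open scoped Classical in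
theorem res_ed_sum (S T : Finset V) :
    G.ed S T = ∑ s ∈ S, (T.filter fun t => G.adj s t).card := by
  simp only [ed, Finset.card_filter, Finset.sum_product]

open scoped Classical in
theorem res_ed_sum' (S T : Finset V) :
    G.ed S T = ∑ t ∈ T, (S.filter fun s => G.adj s t).card := by
  simp only [ed, Finset.card_filter, Finset.sum_product]
  rw [Finset.sum_comm]

open scoped Classical in
theorem res_ed_insert_left [DecidableEq V] {c : V} {S T : Finset V} (hc : c ∉ S) :
    G.ed (insert c S) T = G.ed S T + (T.filter fun t => G.adj c t).card := by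
  rw [res_ed_sum, res_ed_sum, Finset.sum_insert hc, add_comm]

open scoped Classical in
theorem res_ed_insert_right [DecidableEq V] {c : V} {S T : Finset V} (hc : c ∉ T) :
    G.ed S (insert c T) = G.ed S T + (S.filter fun s => G.adj s c).card := by
  rw [res_ed_sum', res_ed_sum', Finset.sum_insert hc, add_comm]

theorem res_ed_symm (S T : Finset V) : G.ed S T = G.ed T S := by
  classical
  rw [res_ed_sum, res_ed_sum']
  refine Finset.sum_congr rfl fun s _ => ?_
  congr 1
  ext t
  simp only [Finset.mem_filter]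
  exact ⟨fun h => ⟨h.1, G.symm _ _ h.2⟩, fun h => ⟨h.1, G.symm _ _ h.2⟩⟩

end Aux

variable [DecidableEq V] {W A B Q Y Z : Finset V}

open scoped Classical in
/-- insertion of a point `c` whose only neighbour of sort `σ` is `v`. -/
theorem res_insert_C {v c : V} {σ : Bool} {Y Z : Finset V} (hZY : Z ⊆ Y)
    (hY : ∀ u ∈ Y, u ∉ Z → G.kind u = .C) (hc : c ∉ Y) (hkc : G.kind c = .C)
    (hv : v ∈ Z) (hkv : G.kind v = .B σ) (hvc : G.adj v c)
    (huniq : ∀ u ∈ Z, G.kind u = .B σ → G.adj u c → u = v) :
    G.delta (insert c Y) + 9 * ((G.nbB (!σ) v Z).filter fun t => G.adj c t).card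
      ≤ G.delta Y + 10 := by
  classical
  rw [delta_insert_C G hc hkc]
  have h1 : G.nbB σ c Y = {v} := by
    ext u
    rw [res_mem_nbB, Finset.mem_singleton]
    constructor
    · rintro ⟨h, h', h''⟩
      by_cases hu : u ∈ Z
      · exact huniq u hu h'' (G.symm _ _ h')
      · have := hY u h hu
        rw [this] at h''
        cases h''
    · rintro rfl
      exact ⟨hZY hv, G.symm _ _ hvc, hkv⟩
  set N := G.nbB (!σ) c Y with hN
  have h2 : ((G.nbB (!σ) v Z).filter fun t => G.adj c t) = N.filter fun t => G.adj v t := by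
    ext u
    rw [Finset.mem_filter, Finset.mem_filter, hN, res_mem_nbB, res_mem_nbB]
    constructor
    · rintro ⟨⟨ha, hb, hk⟩, hd⟩
      exact ⟨⟨hZY ha, hd, hk⟩, hb⟩
    · rintro ⟨⟨ha, hb, hk⟩, hd⟩
      refine ⟨⟨?_, hd, hk⟩, hb⟩
      by_contra hu
      have := hY u ha hu
      rw [this] at hk
      cases hk
  have h3 : G.ed (G.nbB false c Y) (G.nbB true c Y) = (N.filter fun t => G.adj v t).card := by
    cases σ
    · rw [h1, hN]
      rw [res_ed_sum, Finset.sum_singleton]
      rfl
    · rw [res_ed_symm, h1, hN, res_ed_sum, Finset.sum_singleton]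
      rfl
  have h4 : (G.nbB false c Y).card + (G.nbB true c Y).card = 1 + N.card := by
    cases σ
    · rw [h1, hN]; simp
    · rw [h1, hN]; simp [add_comm]
  rw [h2, h3]
  have h5 : (N.filter fun t => G.adj v t).card ≤ N.card := Finset.card_filter_le _ _
  have h4' : ((G.nbB false c Y).card : ℤ) + (G.nbB true c Y).card = 1 + N.card := by
    exact_mod_cast h4
  have h6 : (0 : ℤ) ≤ (G.nbP c Y).card := by positivity
  have h5' : ((N.filter fun t => G.adj v t).card : ℤ) ≤ N.card := by exact_mod_cast h5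
  linarith

open scoped Classical in
/-- insertion of a block adjacent to `v`. -/
theorem res_insert_B (hL : G.Loc W) {v z : V} {σ : Bool} {Y Z Cs : Finset V}
    (hZW : Z ⊆ W) (hZY : Z ∪ Cs ⊆ Y)
    (hY : ∀ u ∈ Y, u ∉ Z ∪ Cs → G.kind u = .B (!σ)) (hz : z ∉ Y) (hkz : G.kind z = .B (!σ))
    (hv : v ∈ Z) (hkv : G.kind v = .B σ) (hvz : G.adj v z)
    (hCs : ∀ c ∈ Cs, G.kind c = .C ∧ c ∉ Z ∧ G.adj v c ∧
      ∀ u ∈ Z, G.kind u = .B σ → G.adj u c → u = v)
    (hzC : (G.nbC z Z).card ≤ 2) :
    G.delta (insert z Y) + 9 * ((((Cs.filter fun c => G.adj c z).card : ℤ)) +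
      ((G.nbC v Z).filter fun c => G.adj c z).card) ≤ G.delta Y + 10 := by
  classical
  rw [delta_insert_B G (!σ) hz hkz]
  set P := G.nbC z Z with hP
  set X := G.nbB σ z Z with hX
  have hnn : (!(!σ)) = σ := by simp
  rw [hnn]
  have h1 : G.nbC z Y = P ∪ Cs.filter fun c => G.adj c z := by
    ext u
    rw [Finset.mem_union, Finset.mem_filter, hP, res_mem_nbC, res_mem_nbC]
    constructor
    · rintro ⟨ha, hb, hk⟩
      by_cases hu : u ∈ Z ∪ Cs
      · rcases Finset.mem_union.1 hu with hu | hu
        · exact Or.inl ⟨hu, hb, hk⟩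
        · exact Or.inr ⟨hu, G.symm _ _ hb⟩
      · have := hY u ha hu
        rw [this] at hk
        cases hk
    · rintro (⟨ha, hb, hk⟩ | ⟨ha, hb⟩)
      · exact ⟨hZY (Finset.mem_union_left _ ha), hb, hk⟩
      · exact ⟨hZY (Finset.mem_union_right _ ha), G.symm _ _ hb, (hCs u ha).1⟩
  have h1d : Disjoint P (Cs.filter fun c => G.adj c z) := by
    rw [Finset.disjoint_left]
    intro u hu hu'
    rw [hP, res_mem_nbC] at hu
    exact (hCs u (Finset.mem_filter.1 hu').1).2.1 hu.1
  have h2 : G.nbB σ z Y = X := by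
    ext u
    rw [hX, res_mem_nbB, res_mem_nbB]
    constructor
    · rintro ⟨ha, hb, hk⟩
      refine ⟨?_, hb, hk⟩
      by_cases hu : u ∈ Z ∪ Cs
      · rcases Finset.mem_union.1 hu with hu | hu
        · exact hu
        · have := (hCs u hu).1
          rw [this] at hk
          cases hk
      · have := hY u ha hu
        rw [this] at hk
        cases σ <;> cases hk
    · rintro ⟨ha, hb, hk⟩
      exact ⟨hZY (Finset.mem_union_left _ ha), hb, hk⟩
  have hvX : v ∈ X := by
    rw [hX, res_mem_nbB]
    exact ⟨hv, G.symm _ _ hvz, hkv⟩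
  have h3 : G.ed (P ∪ Cs.filter fun c => G.adj c z) X
      = G.ed P X + (Cs.filter fun c => G.adj c z).card := by
    rw [res_ed_sum, Finset.sum_union h1d, ← res_ed_sum]
    congr 1
    rw [Finset.card_eq_sum_ones]
    refine Finset.sum_congr rfl fun c hc => ?_
    have hcc := hCs c (Finset.mem_filter.1 hc).1
    have : (X.filter fun t => G.adj c t) = {v} := by
      ext u
      rw [Finset.mem_filter, Finset.mem_singleton, hX, res_mem_nbB]
      constructor
      · rintro ⟨⟨ha, -, hk⟩, hd⟩
        exact hcc.2.2.2 u ha hk (G.symm _ _ hd)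
      · rintro rfl
        exact ⟨⟨hv, G.symm _ _ hvz, hkv⟩, G.symm _ _ hcc.2.2.1⟩
    rw [this]; simp
  have h4 : ((G.nbC v Z).filter fun c => G.adj c z) = P.filter fun c => G.adj c v := by
    ext u
    rw [Finset.mem_filter, Finset.mem_filter, hP, res_mem_nbC, res_mem_nbC]
    constructor
    · rintro ⟨⟨ha, hb, hk⟩, hd⟩
      exact ⟨⟨ha, G.symm _ _ hd, hk⟩, G.symm _ _ hb⟩
    · rintro ⟨⟨ha, hb, hk⟩, hd⟩
      exact ⟨⟨ha, G.symm _ _ hd, hk⟩, G.symm _ _ hb⟩
  rw [h1, h2, h3, h4, Finset.card_union_of_disjoint h1d]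
  -- the numerical core
  have hcore : (G.ed P X : ℤ) + 1 + 9 * (P.filter fun c => G.adj c v).card
      ≤ 10 * P.card + X.card := by
    have hsum : (G.ed P X : ℤ) = ((P.filter fun c => G.adj c v).card : ℤ) +
        ∑ y ∈ X.erase v, ((P.filter fun c => G.adj c y).card : ℤ) := by
      rw [res_ed_sum', ← Finset.add_sum_erase X _ hvX]
      push_cast
      rfl
    have hcardX : (X.card : ℤ) = 1 + ∑ y ∈ X.erase v, (1 : ℤ) := by
      rw [Finset.sum_const, Finset.card_erase_of_mem hvX]
      have : 0 < X.card := Finset.card_pos.2 ⟨v, hvX⟩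
      simp
      omega
    have hm : (P.filter fun c => G.adj c v).card ≤ P.card := Finset.card_filter_le _ _
    by_cases hex : ∃ y ∈ X.erase v, 2 ≤ (P.filter fun c => G.adj c y).card
    · obtain ⟨y, hy, hy2⟩ := hex
      have hyX : y ∈ X := Finset.mem_of_mem_erase hy
      have hyv : y ≠ v := Finset.ne_of_mem_erase hy
      have hP2 : P.card = 2 := by
        have := Finset.card_filter_le P (fun c => G.adj c y)
        omega
      have hyall : ∀ c ∈ P, G.adj c y := by
        have : (P.filter fun c => G.adj c y) = P := by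
          apply Finset.eq_of_subset_of_card_le (Finset.filter_subset _ _)
          omega
        intro c hc
        rw [← this] at hc
        exact (Finset.mem_filter.1 hc).2
      obtain ⟨c1, c2, hc12, hPc⟩ := Finset.card_eq_two.1 hP2
      have hc1 : c1 ∈ P := by rw [hPc]; simp
      have hc2 : c2 ∈ P := by rw [hPc]; simp
      have hyX' := hyX
      rw [hX, res_mem_nbB] at hyX'
      have key : ∀ x ∈ X, x ≠ y → (P.filter fun c => G.adj c x).card ≤ 1 := by
        intro x hx hxy
        by_contra hcon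
        have hxall : (P.filter fun c => G.adj c x) = P := by
          apply Finset.eq_of_subset_of_card_le (Finset.filter_subset _ _)
          omega
        have hx1 : G.adj c1 x := by
          have : c1 ∈ (P.filter fun c => G.adj c x) := by rw [hxall]; exact hc1
          exact (Finset.mem_filter.1 this).2
        have hx2 : G.adj c2 x := by
          have : c2 ∈ (P.filter fun c => G.adj c x) := by rw [hxall]; exact hc2
          exact (Finset.mem_filter.1 this).2
        rw [hX, res_mem_nbB] at hx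
        have hc1' := hc1
        have hc2' := hc2
        rw [hP, res_mem_nbC] at hc1' hc2'
        exact hc12 (hL.lin σ x (hZW hx.1) y (hZW hyX'.1) hx.2.2 hyX'.2.2 hxy c1 (hZW hc1'.1) c2
          (hZW hc2'.1) hc1'.2.2 hc2'.2.2 (G.symm _ _ hx1) (G.symm _ _ (hyall c1 hc1))
          (G.symm _ _ hx2) (G.symm _ _ (hyall c2 hc2)))
      have hmv : (P.filter fun c => G.adj c v).card ≤ 1 := key v hvX (Ne.symm hyv)
      have hsum2 : ∑ y' ∈ X.erase v, ((P.filter fun c => G.adj c y').card : ℤ)
          ≤ 1 + ∑ y' ∈ X.erase v, (1 : ℤ) := by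
        rw [← Finset.add_sum_erase (X.erase v) _ hy, ← Finset.add_sum_erase (X.erase v) (fun _ => (1:ℤ)) hy]
        have ha : ((P.filter fun c => G.adj c y).card : ℤ) ≤ 2 := by
          have := Finset.card_filter_le P (fun c => G.adj c y)
          rw [hP2] at this
          exact_mod_cast this
        have hb : ∑ y' ∈ (X.erase v).erase y, ((P.filter fun c => G.adj c y').card : ℤ)
            ≤ ∑ y' ∈ (X.erase v).erase y, (1 : ℤ) := by
          apply Finset.sum_le_sum
          intro y' hy'
          have h7 := key y' (Finset.mem_of_mem_erase (Finset.mem_of_mem_erase hy'))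
            (Finset.ne_of_mem_erase hy')
          exact_mod_cast h7
        linarith
      have hmv' : ((P.filter fun c => G.adj c v).card : ℤ) ≤ 1 := by exact_mod_cast hmv
      have hP2' : (P.card : ℤ) = 2 := by exact_mod_cast hP2
      rw [hsum, hcardX, hP2']
      linarith
    · push Not at hex
      have hsum2 : ∑ y' ∈ X.erase v, ((P.filter fun c => G.adj c y').card : ℤ)
          ≤ ∑ y' ∈ X.erase v, (1 : ℤ) := by
        apply Finset.sum_le_sum
        intro y' hy'
        have := hex y' hy'
        have h8 : (P.filter fun c => G.adj c y').card ≤ 1 := by omega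
        exact_mod_cast h8
      have hm' : ((P.filter fun c => G.adj c v).card : ℤ) ≤ P.card := by exact_mod_cast hm
      rw [hsum, hcardX]
      linarith
  have h6 : (0 : ℤ) ≤ (G.nbP z Y).card := by positivity
  push_cast
  linarith

theorem residue (hK : G.InK W) (hZ : G.Nice W Z)
    (hmin : ∀ Y, G.ClosedIn W Y → Z ⊆ Y → G.delta Z ≤ G.delta Y)
    {v : V} (hv : v ∈ Z) {σ : Bool} (hkv : G.kind v = .B σ)
    (huniq : ∀ c ∈ W, c ∉ Z → G.kind c = .C → G.adj v c →
      ∀ u ∈ Z, G.kind u = .B σ → G.adj u c → u = v)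
    {Cs Bs : Finset V} (hCs : Cs ⊆ G.nbC v W \ Z) (hBs : Bs ⊆ G.nbB (!σ) v W \ Z) :
    9 * ((G.ed Cs Bs : ℤ) + G.ed Cs (G.nbB (!σ) v Z) + G.ed (G.nbC v Z) Bs)
      ≤ 10 * ((Cs.card : ℤ) + Bs.card) := by
  classical
  have hCs' : ∀ c ∈ Cs, c ∈ W ∧ G.kind c = .C ∧ c ∉ Z ∧ G.adj v c := by
    intro c hc
    have := hCs hc
    rw [Finset.mem_sdiff, res_mem_nbC] at this
    exact ⟨this.1.1, this.1.2.2, this.2, this.1.2.1⟩
  have hBs' : ∀ z ∈ Bs, z ∈ W ∧ G.kind z = .B (!σ) ∧ z ∉ Z ∧ G.adj v z := by
    intro c hc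
    have := hBs hc
    rw [Finset.mem_sdiff, res_mem_nbB] at this
    exact ⟨this.1.1, this.1.2.2, this.2, this.1.2.1⟩
  -- insert the points
  have stepC : ∀ S : Finset V, S ⊆ Cs →
      G.delta (Z ∪ S) + 9 * (G.ed S (G.nbB (!σ) v Z) : ℤ) ≤ G.delta Z + 10 * S.card := by
    intro S
    induction S using Finset.induction_on with
    | empty =>
      intro _
      have : G.ed ∅ (G.nbB (!σ) v Z) = 0 := by rw [res_ed_sum]; simp
      rw [this]; simp
    | insert c S hc ih =>
      intro hS
      have hSs : S ⊆ Cs := fun x hx => hS (Finset.mem_insert_of_mem hx)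
      have hcC := hCs' c (hS (Finset.mem_insert_self _ _))
      have h := res_insert_C (G := G) (v := v) (c := c) (σ := σ) (Y := Z ∪ S) (Z := Z)
        Finset.subset_union_left
        (fun u hu hu' => (hCs' u (hSs ((Finset.mem_union.1 hu).resolve_left hu'))).2.1)
        (by rw [Finset.mem_union]; push Not; exact ⟨hcC.2.2.1, hc⟩) hcC.2.1 hv hkv hcC.2.2.2
        (huniq c hcC.1 hcC.2.2.1 hcC.2.1 hcC.2.2.2)
      have ih' := ih hSs
      rw [res_ed_insert_left hc, Finset.card_insert_of_notMem hc, Finset.union_insert]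
      push_cast
      linarith
  have stepB : ∀ S : Finset V, S ⊆ Bs →
      G.delta (Z ∪ Cs ∪ S) + 9 * ((G.ed Cs S : ℤ) + G.ed (G.nbC v Z) S)
        ≤ G.delta (Z ∪ Cs) + 10 * S.card := by
    intro S
    induction S using Finset.induction_on with
    | empty =>
      intro _
      have h1 : G.ed Cs ∅ = 0 := by rw [res_ed_sum']; simp
      have h2 : G.ed (G.nbC v Z) ∅ = 0 := by rw [res_ed_sum']; simp
      rw [h1, h2]; simp
    | insert z S hz ih =>
      intro hS
      have hSs : S ⊆ Bs := fun x hx => hS (Finset.mem_insert_of_mem hx)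
      have hzB := hBs' z (hS (Finset.mem_insert_self _ _))
      have hzn : z ∉ Z ∪ Cs ∪ S := by
        rw [Finset.mem_union, Finset.mem_union]
        push Not
        refine ⟨⟨hzB.2.2.1, fun hzC => ?_⟩, hz⟩
        have := (hCs' z hzC).2.1
        rw [hzB.2.1] at this
        cases this
      have h := res_insert_B (G := G) hK.toLoc (v := v) (z := z) (σ := σ) (Y := Z ∪ Cs ∪ S)
        (Z := Z) (Cs := Cs) hZ.sub Finset.subset_union_left
        (fun u hu hu' => (hBs' u (hSs ((Finset.mem_union.1 hu).resolve_left hu'))).2.1) hzn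
        hzB.2.1 hv hkv hzB.2.2.2
        (fun c hc => ⟨(hCs' c hc).2.1, (hCs' c hc).2.2.1, (hCs' c hc).2.2.2,
          huniq c (hCs' c hc).1 (hCs' c hc).2.2.1 (hCs' c hc).2.1 (hCs' c hc).2.2.2⟩)
        (hZ.bl z hzB.1 _ hzB.2.1 hzB.2.2.1)
      have ih' := ih hSs
      rw [res_ed_insert_right hz, res_ed_insert_right hz, Finset.card_insert_of_notMem hz,
        Finset.union_insert]
      push_cast
      linarith
  -- the closure
  have hgood : G.Good W (Z ∪ Cs ∪ Bs) := by
    intro c hcW hkc hcn
    have hcZ : c ∉ Z := fun h => hcn (Finset.mem_union_left _ (Finset.mem_union_left _ h))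
    have hle : (G.nbB σ c (Z ∪ Cs ∪ Bs)).card ≤ 3 := by
      have hsub : G.nbB σ c (Z ∪ Cs ∪ Bs) ⊆ G.nbB σ c Z := by
        intro u hu
        rw [res_mem_nbB] at hu ⊢
        refine ⟨?_, hu.2⟩
        rcases Finset.mem_union.1 hu.1 with h | h
        · rcases Finset.mem_union.1 h with h | h
          · exact h
          · have := (hCs' u h).2.1
            rw [hu.2.2] at this
            cases this
        · have := (hBs' u h).2.1
          rw [hu.2.2] at this
          cases σ <;> cases this
      have := Finset.card_le_card hsub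
      have := hZ.pt c hcW hkc hcZ σ
      omega
    cases σ
    · exact Or.inl hle
    · exact Or.inr hle
  have hsubW : Z ∪ Cs ∪ Bs ⊆ W := by
    intro u hu
    rcases Finset.mem_union.1 hu with h | h
    · rcases Finset.mem_union.1 h with h | h
      · exact hZ.sub h
      · exact (hCs' u h).1
    · exact (hBs' u h).1
  obtain ⟨E, hE, hsub, hle, -⟩ := exists_closure hK.toLoc hsubW hgood
  have h1 := hmin E hE (fun u hu => hsub (Finset.mem_union_left _ (Finset.mem_union_left _ hu)))
  have h2 := stepC Cs (Finset.Subset.refl _)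
  have h3 := stepB Bs (Finset.Subset.refl _)
  linarith

end Geo

end Pool.Agent.SF
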