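import Pool.Agent.SF.Process
import Pool.Agent.SF.Strong
import Pool.Agent.SF.Defect
import Pool.Agent.SF.Residue
import Pool.Agent.SF.Config1

/-!
# Module M8: the local conditions hold in the amalgam
-/

set_option autoImplicit false

namespace Pool.Agent.SF

variable {V : Type*} [DecidableEq V]

namespace Geo

variable {G : Geo V} {W A B C X Z Cs Bs : Finset V}

/-! ### two elements of a neighbourhood in a closed set -/

omit [DecidableEq V] in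
theorem c2_mem_nbB {σ : Bool} {v u : V} {A : Finset V} :
    u ∈ G.nbB σ v A ↔ u ∈ A ∧ G.adj v u ∧ G.kind u = .B σ := by
  simp [nbB]

omit [DecidableEq V] in
theorem c2_mem_nbC {v u : V} {A : Finset V} :
    u ∈ G.nbC v A ↔ u ∈ A ∧ G.adj v u ∧ G.kind u = .C := by
  simp [nbC]

omit [DecidableEq V] in
theorem c2_closed_pt (hA : G.ClosedIn W A) {u v c : V} {σ : Bool} (hu : u ∈ A) (hv : v ∈ A)
    (huv : u ≠ v) (ku : G.kind u = .B σ) (kv : G.kind v = .B σ) (hc : c ∈ W)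
    (kc : G.kind c = .C) (h1 : G.adj u c) (h2 : G.adj v c) : c ∈ A := by
  refine hA.pt c hc kc σ (Finset.one_lt_card.2 ⟨u, ?_, v, ?_, huv⟩)
  · exact c2_mem_nbB.2 ⟨hu, G.symm _ _ h1, ku⟩
  · exact c2_mem_nbB.2 ⟨hv, G.symm _ _ h2, kv⟩

omit [DecidableEq V] in
theorem c2_closed_bl (hA : G.ClosedIn W A) {c c' u : V} {σ : Bool} (hc : c ∈ A) (hc' : c' ∈ A)
    (hcc : c ≠ c') (kc : G.kind c = .C) (kc' : G.kind c' = .C) (hu : u ∈ W)
    (ku : G.kind u = .B σ) (h1 : G.adj u c) (h2 : G.adj u c') : u ∈ A := by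
  refine hA.bl u hu σ ku (Finset.one_lt_card.2 ⟨c, ?_, c', ?_, hcc⟩)
  · exact c2_mem_nbC.2 ⟨hc, h1, kc⟩
  · exact c2_mem_nbC.2 ⟨hc', h2, kc'⟩

/-! ### symmetries -/

theorem Config.closedB (h : G.Config A B C) : G.ClosedIn (A ∪ B ∪ C) B := by
  have h1 := h.swap12.closed
  rwa [Finset.union_comm B A] at h1

theorem Config.closedC (h : G.Config A B C) : G.ClosedIn (A ∪ B ∪ C) C := by
  have h1 := h.swap23.swap12.closed
  have h2 : C ∪ A ∪ B = A ∪ B ∪ C := by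
    ext x; simp only [Finset.mem_union]; tauto
  rwa [h2] at h1

/-! ### the condition `lin` -/

theorem Config.loc_lin (h : G.Config A B C) : ∀ σ, ∀ u ∈ A ∪ B ∪ C, ∀ v ∈ A ∪ B ∪ C,
    G.kind u = .B σ → G.kind v = .B σ → u ≠ v →
    ∀ c ∈ A ∪ B ∪ C, ∀ c' ∈ A ∪ B ∪ C, G.kind c = .C → G.kind c' = .C →
      G.adj u c → G.adj v c → G.adj u c' → G.adj v c' → c = c' := by
  intro σ u hu v hv ku kv huv c hc c' hc' kc kc' h1 h2 h3 h4
  by_contra hcc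
  -- no common piece
  have key : ∀ X, G.InK X → G.ClosedIn (A ∪ B ∪ C) X →
      ¬ (u ∈ X ∧ v ∈ X) ∧ ¬ (c ∈ X ∧ c' ∈ X) := by
    intro X kX hX
    have h5 : ¬ (u ∈ X ∧ v ∈ X) := by
      rintro ⟨huX, hvX⟩
      have hcX := c2_closed_pt hX huX hvX huv ku kv hc kc h1 h2
      have hcX' := c2_closed_pt hX huX hvX huv ku kv hc' kc' h3 h4
      exact hcc (kX.lin σ u huX v hvX ku kv huv c hcX c' hcX' kc kc' h1 h2 h3 h4)
    refine ⟨h5, ?_⟩
    rintro ⟨hcX, hcX'⟩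
    exact h5 ⟨c2_closed_bl hX hcX hcX' hcc kc kc' hu ku h1 h3,
      c2_closed_bl hX hcX hcX' hcc kc kc' hv kv h2 h4⟩
  obtain ⟨a1, a2⟩ := key A h.kA h.closed
  obtain ⟨b1, b2⟩ := key B h.kB h.closedB
  obtain ⟨c1, c2⟩ := key C h.kC h.closedC
  have e1 := h.edge u hu c hc h1
  have e2 := h.edge v hv c hc h2
  have e3 := h.edge u hu c' hc' h3
  have e4 := h.edge v hv c' hc' h4
  clear key
  rcases e1 with e1 | e1 | e1 <;> rcases e2 with e2 | e2 | e2 <;>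
    first
    | exact a1 ⟨e1.1, e2.1⟩
    | exact b1 ⟨e1.1, e2.1⟩
    | exact c1 ⟨e1.1, e2.1⟩
    | (rcases e3 with e3 | e3 | e3 <;>
        first
        | exact a2 ⟨e1.2, e3.2⟩
        | exact b2 ⟨e1.2, e3.2⟩
        | exact c2 ⟨e1.2, e3.2⟩
        | exact a1 ⟨e3.1, e2.1⟩
        | exact b1 ⟨e3.1, e2.1⟩
        | exact c1 ⟨e3.1, e2.1⟩
        | (rcases e4 with e4 | e4 | e4 <;>
            first
            | exact a2 ⟨e2.2, e4.2⟩
            | exact b2 ⟨e2.2, e4.2⟩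
            | exact c2 ⟨e2.2, e4.2⟩
            | exact a1 ⟨e3.1, e4.1⟩
            | exact b1 ⟨e3.1, e4.1⟩
            | exact c1 ⟨e3.1, e4.1⟩
            | exact a1 ⟨e1.1, e4.1⟩
            | exact b1 ⟨e1.1, e4.1⟩
            | exact c1 ⟨e1.1, e4.1⟩))

/-! ### the residue condition -/

open scoped Classical in
/-- the number of adjacent pairs of `Cs × Bs` in `X` but not in `Z` -/
noncomputable def c2cnt (G : Geo V) (Cs Bs X Z : Finset V) : ℕ :=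
  ((Cs ×ˢ Bs).filter fun e => G.adj e.1 e.2 ∧ e.1 ∈ X ∧ e.2 ∈ X ∧ ¬ (e.1 ∈ Z ∧ e.2 ∈ Z)).card

theorem c2cnt_le {v : V} {σ : Bool} {D : Finset V} (hC : Cs ⊆ G.nbC v D)
    (hB : Bs ⊆ G.nbB (!σ) v D) :
    G.c2cnt Cs Bs X Z ≤ G.ed (Cs ∩ (X \ Z)) (Bs ∩ (X \ Z)) +
      G.ed (Cs ∩ (X \ Z)) (G.nbB (!σ) v Z) + G.ed (G.nbC v Z) (Bs ∩ (X \ Z)) := by
  classical
  unfold c2cnt ed
  refine (Finset.card_le_card ?_).trans ((Finset.card_union_le _ _).trans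
    (Nat.add_le_add_right (Finset.card_union_le _ _) _))
  rintro ⟨c, z⟩ hcz
  simp only [Finset.mem_filter, Finset.mem_product] at hcz
  obtain ⟨⟨hc, hz⟩, hadj, hcX, hzX, hn⟩ := hcz
  have hc' := c2_mem_nbC.1 (hC hc)
  have hz' := c2_mem_nbB.1 (hB hz)
  simp only [Finset.mem_union, Finset.mem_filter, Finset.mem_product, Finset.mem_inter,
    Finset.mem_sdiff, c2_mem_nbB, c2_mem_nbC]
  by_cases hcZ : c ∈ Z
  · have hzZ : z ∉ Z := fun hzZ => hn ⟨hcZ, hzZ⟩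
    exact Or.inr ⟨⟨⟨hcZ, hc'.2.1, hc'.2.2⟩, hz, hzX, hzZ⟩, hadj⟩
  · by_cases hzZ : z ∈ Z
    · exact Or.inl (Or.inr ⟨⟨⟨hc, hcX, hcZ⟩, hzZ, hz'.2.1, hz'.2.2⟩, hadj⟩)
    · exact Or.inl (Or.inl ⟨⟨⟨hc, hcX, hcZ⟩, hz, hzX, hzZ⟩, hadj⟩)

/-- the residue bound in one piece -/
theorem c2_piece (hK : G.InK X) (hZ : G.Nice X Z)
    (hmin : ∀ Y, G.ClosedIn X Y → Z ⊆ Y → G.delta Z ≤ G.delta Y)
    {v : V} (hv : v ∈ Z) {σ : Bool} (hkv : G.kind v = .B σ)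
    (huniq : ∀ c ∈ X, c ∉ Z → G.kind c = .C → G.adj v c →
      ∀ u ∈ Z, G.kind u = .B σ → G.adj u c → u = v)
    {D : Finset V} (hC : Cs ⊆ G.nbC v D) (hB : Bs ⊆ G.nbB (!σ) v D) :
    9 * G.c2cnt Cs Bs X Z ≤ 10 * ((Cs ∩ (X \ Z)).card + (Bs ∩ (X \ Z)).card) := by
  have h1 := residue hK hZ hmin hv hkv huniq (Cs := Cs ∩ (X \ Z)) (Bs := Bs ∩ (X \ Z)) ?_ ?_
  · have h2 := c2cnt_le (G := G) (X := X) (Z := Z) hC hB
    zify at h2 ⊢
    linarith
  · intro c hc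
    simp only [Finset.mem_inter, Finset.mem_sdiff] at hc
    have hc' := c2_mem_nbC.1 (hC hc.1)
    simp only [Finset.mem_sdiff, c2_mem_nbC]
    exact ⟨⟨hc.2.1, hc'.2.1, hc'.2.2⟩, hc.2.2⟩
  · intro c hc
    simp only [Finset.mem_inter, Finset.mem_sdiff] at hc
    have hc' := c2_mem_nbB.1 (hB hc.1)
    simp only [Finset.mem_sdiff, c2_mem_nbB]
    exact ⟨⟨hc.2.1, hc'.2.1, hc'.2.2⟩, hc.2.2⟩

/-- uniqueness of the neighbour in a closed set -/
theorem c2_uniq (hZ : G.ClosedIn X Z) {v : V} (hv : v ∈ Z) {σ : Bool} (hkv : G.kind v = .B σ)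
    {c : V} (hc : c ∈ X) (hcZ : c ∉ Z) (kc : G.kind c = .C) (hvc : G.adj v c) {u : V}
    (hu : u ∈ Z) (ku : G.kind u = .B σ) (huc : G.adj u c) : u = v := by
  by_contra huv
  exact hcZ (c2_closed_pt hZ hu hv huv ku hkv hc kc huc hvc)

/-- the residue bound for a strong subset -/
theorem c2_strong (hK : G.InK X) (hZ : G.StrongIn X Z) {v : V} (hv : v ∈ Z) {σ : Bool}
    (hkv : G.kind v = .B σ) {D : Finset V} (hC : Cs ⊆ G.nbC v D) (hB : Bs ⊆ G.nbB (!σ) v D) :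
    9 * G.c2cnt Cs Bs X Z ≤ 10 * ((Cs ∩ (X \ Z)).card + (Bs ∩ (X \ Z)).card) :=
  c2_piece hK hZ.closed.nice (fun _ hY hZY => hZ.delta_le hY hZY) hv hkv
    (fun _ hc hcZ kc hvc _ hu ku huc => c2_uniq hZ.closed hv hkv hc hcZ kc hvc hu ku huc) hC hB

/-- the residue bound for two independent subsets -/
theorem c2_indep {Z₁ Z₂ : Finset V} (hK : G.InK X) (hZ : G.Indep X Z₁ Z₂) {v : V} (hv₁ : v ∈ Z₁)
    (hv₂ : v ∈ Z₂) {σ : Bool} (hkv : G.kind v = .B σ) {D : Finset V} (hC : Cs ⊆ G.nbC v D)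
    (hB : Bs ⊆ G.nbB (!σ) v D) :
    9 * G.c2cnt Cs Bs X (Z₁ ∪ Z₂) ≤
      10 * ((Cs ∩ (X \ (Z₁ ∪ Z₂))).card + (Bs ∩ (X \ (Z₁ ∪ Z₂))).card) := by
  refine c2_piece hK (hZ.c₁.nice_union hZ.c₂) (fun _ hY hZY => hZ.min' hK hY hZY)
    (Finset.mem_union_left _ hv₁) hkv ?_ hC hB
  intro c hc hcZ kc hvc u hu ku huc
  rw [Finset.mem_union, not_or] at hcZ
  rcases Finset.mem_union.1 hu with hu | hu
  · exact c2_uniq hZ.c₁ hv₁ hkv hc hcZ.1 kc hvc hu ku huc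
  · exact c2_uniq hZ.c₂ hv₂ hkv hc hcZ.2 kc hvc hu ku huc

/-- a triangle with vertices `v`, `c`, `z` lies in one piece -/
theorem Config.tri' (h : G.Config A B C) {v c z : V} {σ : Bool} (kv : G.kind v = .B σ)
    (kz : G.kind z = .B (!σ)) (kc : G.kind c = .C) (hv : v ∈ A ∪ B ∪ C) (hz : z ∈ A ∪ B ∪ C)
    (hc : c ∈ A ∪ B ∪ C) (h1 : G.adj v z) (h2 : G.adj v c) (h3 : G.adj c z) :
    (v ∈ A ∧ z ∈ A ∧ c ∈ A) ∨ (v ∈ B ∧ z ∈ B ∧ c ∈ B) ∨ (v ∈ C ∧ z ∈ C ∧ c ∈ C) := by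
  cases σ with
  | false =>
    exact h.tri hv hz hc ⟨kv, kz, kc, h1, h2, G.symm _ _ h3⟩
  | true =>
    have h4 := h.tri hz hv hc ⟨kz, kv, kc, G.symm _ _ h1, G.symm _ _ h3, h2⟩
    tauto

/-- disjoint pieces of a finite set -/
theorem c2_card_le (S X Y Z : Finset V) (h1 : Disjoint X Y) (h2 : Disjoint X Z)
    (h3 : Disjoint Y Z) : (S ∩ X).card + (S ∩ Y).card + (S ∩ Z).card ≤ S.card := by
  rw [← Finset.card_union_of_disjoint, ← Finset.card_union_of_disjoint]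
  · exact Finset.card_le_card (by
      intro x hx
      simp only [Finset.mem_union, Finset.mem_inter] at hx
      tauto)
  · rw [Finset.disjoint_left]
    intro x hx hx'
    simp only [Finset.mem_union, Finset.mem_inter] at hx hx'
    rcases hx with hx | hx
    · exact Finset.disjoint_left.1 h2 hx.2 hx'.2
    · exact Finset.disjoint_left.1 h3 hx.2 hx'.2
  · rw [Finset.disjoint_left]
    intro x hx hx'
    simp only [Finset.mem_inter] at hx hx'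
    exact Finset.disjoint_left.1 h1 hx.2 hx'.2

theorem Config.res_aux (h : G.Config A B C) {v : V} (hvA : v ∈ A) {σ : Bool}
    (kv : G.kind v = .B σ) (hC : Cs ⊆ G.nbC v (A ∪ B ∪ C)) (hB : Bs ⊆ G.nbB (!σ) v (A ∪ B ∪ C))
    (hne : (Cs ∩ A).Nonempty ∨ (Bs ∩ A).Nonempty) :
    9 * (G.ed Cs Bs : ℤ) + 10 ≤ 10 * ((Cs.card : ℤ) + (Bs.card : ℤ)) := by
  classical
  have hvD : v ∈ A ∪ B ∪ C := by simp [hvA]
  -- the piece `A`
  have hA := h.kA.res v hvA σ kv (Cs ∩ A) (by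
    intro c hc
    rw [Finset.mem_inter] at hc
    have hc' := c2_mem_nbC.1 (hC hc.1)
    exact c2_mem_nbC.2 ⟨hc.2, hc'.2.1, hc'.2.2⟩) (Bs ∩ A) (by
    intro c hc
    rw [Finset.mem_inter] at hc
    have hc' := c2_mem_nbB.1 (hB hc.1)
    exact c2_mem_nbB.2 ⟨hc.2, hc'.2.1, hc'.2.2⟩) hne
  -- the triangles
  have htri : ∀ c ∈ Cs, ∀ z ∈ Bs, G.adj c z →
      (v ∈ A ∧ z ∈ A ∧ c ∈ A) ∨ (v ∈ B ∧ z ∈ B ∧ c ∈ B) ∨ (v ∈ C ∧ z ∈ C ∧ c ∈ C) := by
    intro c hc z hz hcz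
    have hc' := c2_mem_nbC.1 (hC hc)
    have hz' := c2_mem_nbB.1 (hB hz)
    exact h.tri' kv hz'.2.2 hc'.2.2 hvD hz'.1 hc'.1 hz'.2.1 hc'.2.1 hcz
  by_cases hvB : v ∈ B
  · have h1 := c2_strong (Z := A ∩ B) h.kB h.sBA (Finset.mem_inter.2 ⟨hvA, hvB⟩) kv hC hB
    by_cases hvC : v ∈ C
    · have h2 := c2_indep h.kC h.iC (Finset.mem_inter.2 ⟨hvA, hvC⟩)
        (Finset.mem_inter.2 ⟨hvB, hvC⟩) kv hC hB
      have h3 : G.ed Cs Bs ≤ G.ed (Cs ∩ A) (Bs ∩ A) + G.c2cnt Cs Bs B (A ∩ B)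
          + G.c2cnt Cs Bs C (A ∩ C ∪ B ∩ C) := by
        unfold c2cnt ed
        refine (Finset.card_le_card ?_).trans ((Finset.card_union_le _ _).trans
          (Nat.add_le_add_right (Finset.card_union_le _ _) _))
        rintro ⟨c, z⟩ hcz
        simp only [Finset.mem_filter, Finset.mem_product] at hcz
        obtain ⟨⟨hc, hz⟩, hadj⟩ := hcz
        have ht := htri c hc z hz hadj
        have hkc := (c2_mem_nbC.1 (hC hc)).2.2
        have hkz := (c2_mem_nbB.1 (hB hz)).2.2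
        -- no cross edges in `C`
        have hx1 : ¬ (c ∈ (A ∩ C) \ (B ∩ C) ∧ z ∈ (B ∩ C) \ (A ∩ C)) := by
          rintro ⟨hc1, hz1⟩
          obtain ⟨τ, hτ, -⟩ := h.iC.edge h.kC hc1 hz1 hadj
          rw [hkc] at hτ
          exact Kind.noConfusion hτ
        have hx2 : ¬ (z ∈ (A ∩ C) \ (B ∩ C) ∧ c ∈ (B ∩ C) \ (A ∩ C)) := by
          rintro ⟨hz1, hc1⟩
          obtain ⟨τ, -, hτ, -⟩ := h.iC.edge h.kC hz1 hc1 (G.symm _ _ hadj)
          rw [hkc] at hτ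
          exact Kind.noConfusion hτ
        replace hx1 : c ∈ A → c ∉ B → z ∈ B → z ∉ A → c ∈ C → z ∈ C → False :=
          fun h1 h2 h3 h4 h5 h6 => hx1 ⟨Finset.mem_sdiff.2 ⟨Finset.mem_inter.2 ⟨h1, h5⟩,
            fun h7 => h2 (Finset.mem_inter.1 h7).1⟩, Finset.mem_sdiff.2
              ⟨Finset.mem_inter.2 ⟨h3, h6⟩, fun h7 => h4 (Finset.mem_inter.1 h7).1⟩⟩
        replace hx2 : z ∈ A → z ∉ B → c ∈ B → c ∉ A → z ∈ C → c ∈ C → False :=
          fun h1 h2 h3 h4 h5 h6 => hx2 ⟨Finset.mem_sdiff.2 ⟨Finset.mem_inter.2 ⟨h1, h5⟩,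
            fun h7 => h2 (Finset.mem_inter.1 h7).1⟩, Finset.mem_sdiff.2
              ⟨Finset.mem_inter.2 ⟨h3, h6⟩, fun h7 => h4 (Finset.mem_inter.1 h7).1⟩⟩
        simp only [Finset.mem_union, Finset.mem_filter, Finset.mem_product, Finset.mem_inter]
        by_cases hAA : c ∈ A ∧ z ∈ A
        · exact Or.inl (Or.inl ⟨⟨⟨hc, hAA.1⟩, hz, hAA.2⟩, hadj⟩)
        by_cases hBB : c ∈ B ∧ z ∈ B
        · exact Or.inl (Or.inr ⟨⟨hc, hz⟩, hadj, hBB.1, hBB.2, fun h1 => hAA ⟨h1.1.1, h1.2.1⟩⟩)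
        rcases ht with ⟨-, h1, h2⟩ | ⟨-, h1, h2⟩ | ⟨-, h1, h2⟩
        · exact absurd ⟨h2, h1⟩ hAA
        · exact absurd ⟨h2, h1⟩ hBB
        refine Or.inr ⟨⟨hc, hz⟩, hadj, h2, h1, ?_⟩
        rintro ⟨h3, h4⟩
        rcases h3 with ⟨h3, -⟩ | ⟨h3, -⟩ <;> rcases h4 with ⟨h4, -⟩ | ⟨h4, -⟩
        · exact hAA ⟨h3, h4⟩
        · exact hx1 h3 (fun h5 => hBB ⟨h5, h4⟩) h4 (fun h5 => hAA ⟨h3, h5⟩) h2 h1
        · exact hx2 h4 (fun h5 => hBB ⟨h3, h5⟩) h3 (fun h5 => hAA ⟨h5, h4⟩) h1 h2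
        · exact hBB ⟨h3, h4⟩
      have h4 := c2_card_le Cs A (B \ (A ∩ B)) (C \ (A ∩ C ∪ B ∩ C)) (by
        rw [Finset.disjoint_left]; intro x; simp only [Finset.mem_sdiff, Finset.mem_inter]; tauto)
        (by rw [Finset.disjoint_left]; intro x
            simp only [Finset.mem_sdiff, Finset.mem_inter, Finset.mem_union]; tauto)
        (by rw [Finset.disjoint_left]; intro x
            simp only [Finset.mem_sdiff, Finset.mem_inter, Finset.mem_union]; tauto)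
      have h5 := c2_card_le Bs A (B \ (A ∩ B)) (C \ (A ∩ C ∪ B ∩ C)) (by
        rw [Finset.disjoint_left]; intro x; simp only [Finset.mem_sdiff, Finset.mem_inter]; tauto)
        (by rw [Finset.disjoint_left]; intro x
            simp only [Finset.mem_sdiff, Finset.mem_inter, Finset.mem_union]; tauto)
        (by rw [Finset.disjoint_left]; intro x
            simp only [Finset.mem_sdiff, Finset.mem_inter, Finset.mem_union]; tauto)
      zify at h1 h2 h3 h4 h5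
      linarith
    · have h3 : G.ed Cs Bs ≤ G.ed (Cs ∩ A) (Bs ∩ A) + G.c2cnt Cs Bs B (A ∩ B) := by
        unfold c2cnt ed
        refine (Finset.card_le_card ?_).trans (Finset.card_union_le _ _)
        rintro ⟨c, z⟩ hcz
        simp only [Finset.mem_filter, Finset.mem_product] at hcz
        obtain ⟨⟨hc, hz⟩, hadj⟩ := hcz
        simp only [Finset.mem_union, Finset.mem_filter, Finset.mem_product, Finset.mem_inter]
        by_cases hAA : c ∈ A ∧ z ∈ A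
        · exact Or.inl ⟨⟨⟨hc, hAA.1⟩, hz, hAA.2⟩, hadj⟩
        rcases htri c hc z hz hadj with ⟨-, h1, h2⟩ | ⟨-, h1, h2⟩ | ⟨h0, -, -⟩
        · exact absurd ⟨h2, h1⟩ hAA
        · exact Or.inr ⟨⟨hc, hz⟩, hadj, h2, h1, fun h3 => hAA ⟨h3.1.1, h3.2.1⟩⟩
        · exact absurd h0 hvC
      have h4 := c2_card_le Cs A (B \ (A ∩ B)) ∅ (by
        rw [Finset.disjoint_left]; intro x; simp only [Finset.mem_sdiff, Finset.mem_inter]; tauto)
        (Finset.disjoint_empty_right _) (Finset.disjoint_empty_right _)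
      have h5 := c2_card_le Bs A (B \ (A ∩ B)) ∅ (by
        rw [Finset.disjoint_left]; intro x; simp only [Finset.mem_sdiff, Finset.mem_inter]; tauto)
        (Finset.disjoint_empty_right _) (Finset.disjoint_empty_right _)
      zify at h1 h3 h4 h5
      have h6 : (0 : ℤ) ≤ ((Cs ∩ ∅).card : ℤ) := by positivity
      have h7 : (0 : ℤ) ≤ ((Bs ∩ ∅).card : ℤ) := by positivity
      linarith
  · by_cases hvC : v ∈ C
    · have h2 := c2_strong (Z := A ∩ C) h.kC h.sCA (Finset.mem_inter.2 ⟨hvA, hvC⟩) kv hC hB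
      have h3 : G.ed Cs Bs ≤ G.ed (Cs ∩ A) (Bs ∩ A) + G.c2cnt Cs Bs C (A ∩ C) := by
        unfold c2cnt ed
        refine (Finset.card_le_card ?_).trans (Finset.card_union_le _ _)
        rintro ⟨c, z⟩ hcz
        simp only [Finset.mem_filter, Finset.mem_product] at hcz
        obtain ⟨⟨hc, hz⟩, hadj⟩ := hcz
        simp only [Finset.mem_union, Finset.mem_filter, Finset.mem_product, Finset.mem_inter]
        by_cases hAA : c ∈ A ∧ z ∈ A
        · exact Or.inl ⟨⟨⟨hc, hAA.1⟩, hz, hAA.2⟩, hadj⟩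
        rcases htri c hc z hz hadj with ⟨-, h1, h2⟩ | ⟨h0, -, -⟩ | ⟨-, h1, h2⟩
        · exact absurd ⟨h2, h1⟩ hAA
        · exact absurd h0 hvB
        · exact Or.inr ⟨⟨hc, hz⟩, hadj, h2, h1, fun h3 => hAA ⟨h3.1.1, h3.2.1⟩⟩
      have h4 := c2_card_le Cs A (C \ (A ∩ C)) ∅ (by
        rw [Finset.disjoint_left]; intro x; simp only [Finset.mem_sdiff, Finset.mem_inter]; tauto)
        (Finset.disjoint_empty_right _) (Finset.disjoint_empty_right _)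
      have h5 := c2_card_le Bs A (C \ (A ∩ C)) ∅ (by
        rw [Finset.disjoint_left]; intro x; simp only [Finset.mem_sdiff, Finset.mem_inter]; tauto)
        (Finset.disjoint_empty_right _) (Finset.disjoint_empty_right _)
      zify at h2 h3 h4 h5
      have h6 : (0 : ℤ) ≤ ((Cs ∩ ∅).card : ℤ) := by positivity
      have h7 : (0 : ℤ) ≤ ((Bs ∩ ∅).card : ℤ) := by positivity
      linarith
    · have h3 : G.ed Cs Bs ≤ G.ed (Cs ∩ A) (Bs ∩ A) := by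
        unfold ed
        refine Finset.card_le_card ?_
        rintro ⟨c, z⟩ hcz
        simp only [Finset.mem_filter, Finset.mem_product] at hcz
        obtain ⟨⟨hc, hz⟩, hadj⟩ := hcz
        rcases htri c hc z hz hadj with ⟨-, h1, h2⟩ | ⟨h0, -, -⟩ | ⟨h0, -, -⟩
        · simp only [Finset.mem_filter, Finset.mem_product, Finset.mem_inter]
          exact ⟨⟨⟨hc, h2⟩, hz, h1⟩, hadj⟩
        · exact absurd h0 hvB
        · exact absurd h0 hvC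
      have h4 : (Cs ∩ A).card ≤ Cs.card := Finset.card_le_card Finset.inter_subset_left
      have h5 : (Bs ∩ A).card ≤ Bs.card := Finset.card_le_card Finset.inter_subset_left
      zify at h3 h4 h5
      linarith

theorem Config.loc (h : G.Config A B C) : G.Loc (A ∪ B ∪ C) := by
  refine ⟨h.loc_lin, ?_⟩
  intro v hv σ kv Cs hC Bs hB hne
  -- an element of the residue, and the piece of the edge
  have hw : ∃ w ∈ A ∪ B ∪ C, G.adj v w ∧ (w ∈ Cs ∨ w ∈ Bs) := by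
    rcases hne with ⟨w, hw⟩ | ⟨w, hw⟩
    · have := c2_mem_nbC.1 (hC hw)
      exact ⟨w, this.1, this.2.1, Or.inl hw⟩
    · have := c2_mem_nbB.1 (hB hw)
      exact ⟨w, this.1, this.2.1, Or.inr hw⟩
  obtain ⟨w, hwD, hvw, hw⟩ := hw
  rcases h.edge v hv w hwD hvw with ⟨h1, h2⟩ | ⟨h1, h2⟩ | ⟨h1, h2⟩
  · exact h.res_aux h1 kv hC hB (hw.imp (fun h => ⟨w, Finset.mem_inter.2 ⟨h, h2⟩⟩)
      (fun h => ⟨w, Finset.mem_inter.2 ⟨h, h2⟩⟩))
  · have h3 : B ∪ A ∪ C = A ∪ B ∪ C := by rw [Finset.union_comm B A]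
    refine h.swap12.res_aux (Cs := Cs) (Bs := Bs) h1 kv (by rw [h3]; exact hC)
      (by rw [h3]; exact hB) (hw.imp (fun h => ⟨w, Finset.mem_inter.2 ⟨h, h2⟩⟩)
      (fun h => ⟨w, Finset.mem_inter.2 ⟨h, h2⟩⟩))
  · have h3 : C ∪ A ∪ B = A ∪ B ∪ C := by
      ext x; simp only [Finset.mem_union]; tauto
    refine h.swap23.swap12.res_aux (Cs := Cs) (Bs := Bs) h1 kv (by rw [h3]; exact hC)
      (by rw [h3]; exact hB) (hw.imp (fun h => ⟨w, Finset.mem_inter.2 ⟨h, h2⟩⟩)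
      (fun h => ⟨w, Finset.mem_inter.2 ⟨h, h2⟩⟩))

end Geo

end Pool.Agent.SF
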