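import Pool.Agent.SF.Strong
import Pool.Agent.SF.Defect
import Pool.Agent.SF.Config1
import Pool.Agent.SF.Config2

/-!
# The three-piece amalgams: strongness, membership in the class `K`, independence
-/

set_option autoImplicit false

namespace Pool.Agent.SF

variable {V : Type*} [DecidableEq V]

namespace Geo

variable {G : Geo V} {A B C Q : Finset V}

/-- every bad pair of the third piece gives a block-point edge crossing in the second piece -/
theorem Config.bad_le' (h : G.Config A B C) (hQ : G.ClosedIn (A ∪ B ∪ C) Q) :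
    G.bad (Q ∩ C) (A ∩ C) (B ∩ C) ≤ G.crossBC (Q ∩ B) (A ∩ B) := by
  classical
  unfold bad crossBC
  set S := (((Q ∩ C) ∩ ((A ∩ C) \ (B ∩ C))) ×ˢ ((Q ∩ C) ∩ ((B ∩ C) \ (A ∩ C)))).filter
    (fun e => G.adj e.1 e.2 ∧
    ∃ c ∈ ((A ∩ C) ∩ (B ∩ C)) \ (Q ∩ C), G.kind c = .C ∧ G.adj e.1 c ∧ G.adj e.2 c) with hS
  have hch : ∀ e : V × V, ∃ c : V, e ∈ S →
      c ∈ ((A ∩ C) ∩ (B ∩ C)) \ (Q ∩ C) ∧ G.kind c = .C ∧ G.adj e.1 c ∧ G.adj e.2 c := by
    intro e
    by_cases he : e ∈ S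
    · have := (Finset.mem_filter.1 he).2.2
      obtain ⟨c, h1, h2⟩ := this
      exact ⟨c, fun _ => ⟨h1, h2⟩⟩
    · exact ⟨e.1, fun h => absurd h he⟩
  choose cc hcc using hch
  have key : ∀ e ∈ S, e.1 ∈ Q ∧ e.1 ∈ A ∧ e.1 ∈ C ∧ e.1 ∉ B ∧ e.2 ∈ Q ∧ e.2 ∈ B ∧ e.2 ∈ C ∧ e.2 ∉ A ∧
      (∃ σ, G.kind e.1 = .B σ ∧ G.kind e.2 = .B (!σ)) ∧ cc e ∈ A ∧ cc e ∈ B ∧ cc e ∈ C ∧
      cc e ∉ Q ∧ G.kind (cc e) = .C ∧ G.adj e.1 (cc e) ∧ G.adj e.2 (cc e) := by
    intro e he
    obtain ⟨hc1, hc2, hc3, hc4⟩ := hcc e he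
    have he' := Finset.mem_filter.1 he
    obtain ⟨hm, hadj, _⟩ := he'
    rw [Finset.mem_product] at hm
    obtain ⟨h1, h2⟩ := hm
    simp only [Finset.mem_inter, Finset.mem_sdiff] at h1 h2 hc1
    have hu : e.1 ∈ (A ∩ C) \ (B ∩ C) := by
      simp only [Finset.mem_inter, Finset.mem_sdiff]; tauto
    have hv : e.2 ∈ (B ∩ C) \ (A ∩ C) := by
      simp only [Finset.mem_inter, Finset.mem_sdiff]; tauto
    obtain ⟨σ, hs1, hs2, _⟩ := Indep.edge h.kC h.iC hu hv hadj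
    refine ⟨?_, ?_, ?_, ?_, ?_, ?_, ?_, ?_, ⟨σ, hs1, hs2⟩, ?_, ?_, ?_, ?_, hc2, hc3, hc4⟩ <;> tauto
  refine Finset.card_le_card_of_injOn (fun e => (e.2, cc e)) ?_ ?_
  · intro e he
    obtain ⟨-, -, -, -, q2, b2, c2, a2, ⟨σ, s1, s2⟩, ca, cb, -, cq, ck, -, adj2⟩ := key e he
    simp only [Finset.mem_coe, Finset.mem_filter, Finset.mem_product, Finset.mem_sdiff,
      Finset.mem_inter]
    refine ⟨⟨⟨⟨q2, b2⟩, fun h => a2 h.1⟩, ⟨ca, cb⟩, fun h => cq h.1⟩, adj2, ?_⟩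
    rw [s2, ck]
    rfl
  · intro e he e' he' hee
    have he := key e he
    have he' := key e' he'
    simp only [Prod.mk.injEq] at hee
    obtain ⟨h2, hc⟩ := hee
    obtain ⟨q1, a1, c1, -, -, -, -, -, ⟨σ, s1, s2⟩, ca, -, -, cq, ck, adj1, -⟩ := he
    obtain ⟨q1', a1', c1', -, -, -, -, -, ⟨σ', s1', s2'⟩, ca', -, -, cq', ck', adj1', -⟩ := he'
    have hσ : σ = σ' := by
      have h0 : Kind.B (!σ') = Kind.B (!σ) := by rw [← s2', ← s2, h2]
      have h1 : (!σ') = (!σ) := Kind.B.inj h0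
      exact (Bool.not_inj h1).symm
    subst hσ
    by_contra hne
    have hne1 : e.1 ≠ e'.1 := fun h => hne (Prod.ext h h2)
    apply cq
    refine hQ.pt (cc e) ?_ ck σ ?_
    · simp only [Finset.mem_union]; exact Or.inl (Or.inl ca)
    · have hsub : ({e.1, e'.1} : Finset V) ⊆ G.nbB σ (cc e) Q := by
        intro x hx
        rw [Finset.mem_insert, Finset.mem_singleton] at hx
        unfold nbB
        rw [Finset.mem_filter]
        rcases hx with rfl | rfl
        · exact ⟨q1, G.symm _ _ adj1, s1⟩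
        · refine ⟨q1', ?_, s1'⟩
          rw [hc]
          exact G.symm _ _ adj1'
      calc 2 = ({e.1, e'.1} : Finset V).card := (Finset.card_pair hne1).symm
        _ ≤ _ := Finset.card_le_card hsub

theorem Config.lt_aux (h : G.Config A B C) (hQ : G.ClosedIn (A ∪ B ∪ C) Q) (hQA : ¬ Q ∩ B ⊆ A) :
    G.delta (Q ∩ A) < G.delta Q := by
  have hB : B ⊆ A ∪ B ∪ C := fun x hx => by simp only [Finset.mem_union]; tauto
  have hC : C ⊆ A ∪ B ∪ C := fun x hx => by simp only [Finset.mem_union]; tauto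
  have h1 := StrongIn.slack h.kB h.sBA (hQ.restrict hB) (Q := Q ∩ B)
    (fun hs => hQA (fun x hx => (Finset.mem_inter.1 (hs hx)).1))
  have h2 := Indep.defect h.kC h.iC (hQ.restrict hC)
  have h3 := h.bad_le' hQ
  have h4 := h.delta hQ.sub
  have e1 : Q ∩ B ∩ (A ∩ B) = Q ∩ A ∩ B := by ext x; simp only [Finset.mem_inter]; tauto
  have e2 : Q ∩ C ∩ (A ∩ C) = Q ∩ A ∩ C := by ext x; simp only [Finset.mem_inter]; tauto
  have e3 : Q ∩ C ∩ (B ∩ C) = Q ∩ B ∩ C := by ext x; simp only [Finset.mem_inter]; tauto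
  have e4 : Q ∩ A ∩ C ∩ (B ∩ C) = Q ∩ A ∩ B ∩ C := by ext x; simp only [Finset.mem_inter]; tauto
  rw [e1] at h1
  rw [e2, e3, e4] at h2
  have h3' : ((G.bad (Q ∩ C) (A ∩ C) (B ∩ C) : ℕ) : ℤ) ≤ (G.crossBC (Q ∩ B) (A ∩ B) : ℕ) := by
    exact_mod_cast h3
  linarith

/-- `A` is strong in the amalgam, relative form -/
theorem Config.lt (h : G.Config A B C) (hQ : G.ClosedIn (A ∪ B ∪ C) Q) (hQA : ¬ Q ⊆ A) :
    G.delta (Q ∩ A) < G.delta Q := by
  by_cases hB : Q ∩ B ⊆ A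
  · have e : A ∪ C ∪ B = A ∪ B ∪ C := by ext x; simp only [Finset.mem_union]; tauto
    refine h.swap23.lt_aux (by rw [e]; exact hQ) ?_
    intro hC
    apply hQA
    intro x hx
    have := hQ.sub hx
    simp only [Finset.mem_union] at this
    rcases this with (h1 | h1) | h1
    · exact h1
    · exact hB (Finset.mem_inter.2 ⟨hx, h1⟩)
    · exact hC (Finset.mem_inter.2 ⟨hx, h1⟩)
  · exact h.lt_aux hQ hB

/-- the bound for one piece -/
theorem Config.card_aux {X : Finset V} (k : G.InK X) (hX : G.ClosedIn X (Q ∩ X))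
    (hlt : G.delta (Q ∩ X) < G.delta Q) (h2 : 2 ≤ G.delta Q) :
    ((Q ∩ X).card : ℤ) ≤ 3 ^ (G.delta Q - 2).toNat := by
  rcases Finset.eq_empty_or_nonempty (Q ∩ X) with he | hne
  · rw [he]
    simp only [Finset.card_empty, Nat.cast_zero]
    positivity
  · refine (k.pos _ hX hne).2.trans ?_
    have : (G.delta (Q ∩ X) - 1).toNat ≤ (G.delta Q - 2).toNat := by omega
    exact pow_le_pow_right₀ (by norm_num) this

theorem Config.inK (h : G.Config A B C) : G.InK (A ∪ B ∪ C) := by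
  refine { toLoc := h.loc, pos := ?_ }
  intro Q hQ hne
  have hA : A ⊆ A ∪ B ∪ C := fun x hx => by simp only [Finset.mem_union]; tauto
  have hB : B ⊆ A ∪ B ∪ C := fun x hx => by simp only [Finset.mem_union]; tauto
  have hC : C ⊆ A ∪ B ∪ C := fun x hx => by simp only [Finset.mem_union]; tauto
  have cA := hQ.restrict hA
  have cB := hQ.restrict hB
  have cC := hQ.restrict hC
  by_cases hQA : Q ⊆ A
  · rw [Finset.inter_eq_left.2 hQA] at cA
    exact h.kA.pos _ cA hne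
  by_cases hQB : Q ⊆ B
  · rw [Finset.inter_eq_left.2 hQB] at cB
    exact h.kB.pos _ cB hne
  by_cases hQC : Q ⊆ C
  · rw [Finset.inter_eq_left.2 hQC] at cC
    exact h.kC.pos _ cC hne
  have lA := h.lt hQ hQA
  have lB := h.swap12.lt (Q := Q)
    (by rw [show B ∪ A ∪ C = A ∪ B ∪ C by ext x; simp only [Finset.mem_union]; tauto]; exact hQ) hQB
  have lC := h.swap23.swap12.lt (Q := Q)
    (by rw [show C ∪ A ∪ B = A ∪ B ∪ C by ext x; simp only [Finset.mem_union]; tauto]; exact hQ) hQC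
  have h2 : 2 ≤ G.delta Q := by
    obtain ⟨x, hx⟩ := hne
    have := hQ.sub hx
    simp only [Finset.mem_union] at this
    rcases this with (h1 | h1) | h1
    · have := (h.kA.pos _ cA ⟨x, Finset.mem_inter.2 ⟨hx, h1⟩⟩).1
      omega
    · have := (h.kB.pos _ cB ⟨x, Finset.mem_inter.2 ⟨hx, h1⟩⟩).1
      omega
    · have := (h.kC.pos _ cC ⟨x, Finset.mem_inter.2 ⟨hx, h1⟩⟩).1
      omega
  refine ⟨by omega, ?_⟩
  have bA := card_aux h.kA cA lA h2
  have bB := card_aux h.kB cB lB h2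
  have bC := card_aux h.kC cC lC h2
  have hcard : Q.card ≤ (Q ∩ A).card + (Q ∩ B).card + (Q ∩ C).card := by
    have : Q = (Q ∩ A) ∪ (Q ∩ B) ∪ (Q ∩ C) := by
      ext x
      have := @hQ.sub x
      simp only [Finset.mem_union, Finset.mem_inter] at this ⊢
      tauto
    calc Q.card = ((Q ∩ A) ∪ (Q ∩ B) ∪ (Q ∩ C)).card := by rw [← this]
      _ ≤ ((Q ∩ A) ∪ (Q ∩ B)).card + (Q ∩ C).card := Finset.card_union_le _ _
      _ ≤ _ := by
        have := Finset.card_union_le (Q ∩ A) (Q ∩ B)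
        omega
  have hpow : (3 : ℤ) ^ (G.delta Q - 1).toNat = 3 * 3 ^ (G.delta Q - 2).toNat := by
    have : (G.delta Q - 1).toNat = (G.delta Q - 2).toNat + 1 := by omega
    rw [this, pow_succ]
    ring
  rw [hpow]
  have hc : (Q.card : ℤ) ≤ (Q ∩ A).card + (Q ∩ B).card + (Q ∩ C).card := by exact_mod_cast hcard
  linarith

theorem Config.strong (h : G.Config A B C) : G.StrongIn (A ∪ B ∪ C) A := by
  refine ⟨h.closed, ?_⟩
  intro Y hY hAY
  have := h.lt hY hAY.2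
  rwa [Finset.inter_eq_right.2 hAY.1] at this

theorem Config.indep (h : G.Config A B C) : G.Indep (A ∪ B ∪ C) (A ∩ C) B := by
  have hA : A ⊆ A ∪ B ∪ C := fun x hx => by simp only [Finset.mem_union]; tauto
  have hC : C ⊆ A ∪ B ∪ C := fun x hx => by simp only [Finset.mem_union]; tauto
  refine ⟨h.sAC.closed.trans h.closed, ?_, ?_⟩
  · have := h.swap12.closed
    rwa [show B ∪ A ∪ C = A ∪ B ∪ C by ext x; simp only [Finset.mem_union]; tauto] at this
  · intro Y hY hACY hBY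
    have hd := h.delta hY.sub
    have e1 : Y ∩ B = B := Finset.inter_eq_right.2 hBY
    have e2 : Y ∩ A ∩ B = A ∩ B := by
      ext x; have := @hBY x; simp only [Finset.mem_inter]; tauto
    have e3 : Y ∩ A ∩ C = A ∩ C := by
      ext x; have := @hACY x; simp only [Finset.mem_inter] at this ⊢; tauto
    have e4 : Y ∩ B ∩ C = B ∩ C := by rw [e1]
    have e5 : Y ∩ A ∩ B ∩ C = A ∩ B ∩ C := by rw [e2]
    rw [e2, e3, e4, e1] at hd
    have iA := h.iA.min (Y ∩ A) (hY.restrict hA)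
      (fun x hx => by have := @hBY x; simp only [Finset.mem_inter] at hx ⊢; tauto)
      (fun x hx => by have := @hACY x; simp only [Finset.mem_inter] at this hx ⊢; tauto)
    have iC := h.iC.min (Y ∩ C) (hY.restrict hC)
      (fun x hx => by have := @hACY x; simp only [Finset.mem_inter] at this hx ⊢; tauto)
      (fun x hx => by have := @hBY x; simp only [Finset.mem_inter] at hx ⊢; tauto)
    have f1 : A ∩ B ∩ (A ∩ C) = A ∩ B ∩ C := by ext x; simp only [Finset.mem_inter]; tauto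
    have f2 : A ∩ C ∩ (B ∩ C) = A ∩ B ∩ C := by ext x; simp only [Finset.mem_inter]; tauto
    have f3 : A ∩ C ∩ B = A ∩ B ∩ C := by ext x; simp only [Finset.mem_inter]; tauto
    rw [f1] at iA
    rw [f2] at iC
    rw [f3]
    linarith

end Geo

end Pool.Agent.SF
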