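import Pool.Agent.SF.Emb
import Pool.Agent.SF.Strong
import Pool.Agent.SF.Config1
import Pool.Agent.SF.Config3

/-!
# Gluing of three structures (module M10 GLUE)
-/

set_option autoImplicit false

namespace Pool.Agent.SF

namespace Glue

section Maps

variable {α β γ : Type}

open scoped Classical in
/-- the map of the second piece into the glued structure -/
noncomputable def jB (γ : Type) (AB : Finset α) (f : α → β) (b : β) : α ⊕ β ⊕ γ :=
  if e : ∃ a ∈ AB, f a = b then .inl e.choose else .inr (.inl b)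

open scoped Classical in
/-- the map of the third piece into the glued structure -/
noncomputable def jC (AB : Finset α) (f : α → β) (AC : Finset α) (h : α → γ) (BC : Finset β)
    (g : β → γ) (c : γ) : α ⊕ β ⊕ γ :=
  if e : ∃ a ∈ AC, h a = c then .inl e.choose
  else if e' : ∃ b ∈ BC, g b = c then jB γ AB f e'.choose else .inr (.inr c)

variable {AB AC : Finset α} {BC : Finset β} {f : α → β} {h : α → γ} {g : β → γ}

lemma jB_eq_inl (fi : Set.InjOn f AB) {b : β} {a : α} :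
    jB γ AB f b = .inl a ↔ a ∈ AB ∧ f a = b := by
  unfold jB
  split_ifs with e
  · have hs := e.choose_spec
    rw [Sum.inl.injEq]
    constructor
    · intro h1; rw [← h1]; exact hs
    · rintro ⟨h1, h2⟩
      exact fi hs.1 h1 (hs.2.trans h2.symm)
  · constructor
    · intro h1; exact absurd h1 (by simp)
    · rintro ⟨h1, h2⟩; exact absurd ⟨a, h1, h2⟩ e

lemma jB_cases (γ : Type) (AB : Finset α) (f : α → β) (b : β) :
    (∃ a ∈ AB, f a = b ∧ jB γ AB f b = .inl a) ∨ jB γ AB f b = .inr (.inl b) := by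
  unfold jB
  split_ifs with e
  · exact Or.inl ⟨e.choose, e.choose_spec.1, e.choose_spec.2, rfl⟩
  · exact Or.inr rfl

lemma jB_inj (fi : Set.InjOn f AB) {b b' : β} (hb : jB γ AB f b = jB γ AB f b') : b = b' := by
  rcases jB_cases γ AB f b with ⟨a, ha, hab, h1⟩ | h1
  · rw [h1] at hb
    have := (jB_eq_inl fi).1 hb.symm
    rw [← hab, this.2]
  · rcases jB_cases γ AB f b' with ⟨a, ha, hab, h2⟩ | h2
    · rw [h1, h2] at hb; exact absurd hb (by simp)
    · rw [h1, h2] at hb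
      exact Sum.inl.inj (Sum.inr.inj hb)

lemma jB_ne (b : β) (c : γ) : jB γ AB f b ≠ .inr (.inr c) := by
  rcases jB_cases γ AB f b with ⟨a, ha, hab, h1⟩ | h1
  · rw [h1]; simp
  · rw [h1]; simp

lemma jC_cases (c : γ) : (∃ a ∈ AC, h a = c ∧ jC AB f AC h BC g c = .inl a) ∨
    (∃ b ∈ BC, g b = c ∧ jC AB f AC h BC g c = jB γ AB f b) ∨
      jC AB f AC h BC g c = .inr (.inr c) := by
  unfold jC
  split_ifs with e e'
  · exact Or.inl ⟨e.choose, e.choose_spec.1, e.choose_spec.2, rfl⟩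
  · exact Or.inr (Or.inl ⟨e'.choose, e'.choose_spec.1, e'.choose_spec.2, rfl⟩)
  · exact Or.inr (Or.inr rfl)

/-- the hypotheses on the three partial maps -/
structure Comp (AB AC : Finset α) (BC : Finset β) (f : α → β) (h : α → γ) (g : β → γ) :
    Prop where
  fi : Set.InjOn f AB
  hi : Set.InjOn h AC
  gi : Set.InjOn g BC
  h1 : ∀ a ∈ AB, f a ∈ BC → a ∈ AC
  h1' : ∀ a ∈ AB, a ∈ AC → f a ∈ BC
  h2 : ∀ a ∈ AC, ∀ b ∈ BC, h a = g b → a ∈ AB
  h3 : ∀ a ∈ AB, a ∈ AC → g (f a) = h a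

variable (H : Comp AB AC BC f h g)
include H

lemma jC_eq_inl {c : γ} {a : α} : jC AB f AC h BC g c = .inl a ↔ a ∈ AC ∧ h a = c := by
  constructor
  · intro hc
    rcases jC_cases (AB := AB) (f := f) (AC := AC) (h := h) (BC := BC) (g := g) c with
      ⟨a', ha', hac, h1⟩ | ⟨b, hb, hbc, h1⟩ | h1
    · rw [h1, Sum.inl.injEq] at hc; subst hc; exact ⟨ha', hac⟩
    · rw [h1] at hc
      obtain ⟨h2, h3⟩ := (jB_eq_inl H.fi).1 hc
      have h4 : a ∈ AC := H.h1 a h2 (by rw [h3]; exact hb)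
      exact ⟨h4, by rw [← H.h3 a h2 h4, h3, hbc]⟩
    · rw [h1] at hc; exact absurd hc (by simp)
  · rintro ⟨ha, hac⟩
    unfold jC
    rw [dif_pos ⟨a, ha, hac⟩]
    have hs := (⟨a, ha, hac⟩ : ∃ a ∈ AC, h a = c).choose_spec
    rw [H.hi hs.1 ha (hs.2.trans hac.symm)]

lemma jC_eq_jB {c : γ} {b : β} : jC AB f AC h BC g c = jB γ AB f b ↔ b ∈ BC ∧ g b = c := by
  constructor
  · intro hc
    rcases jC_cases (AB := AB) (f := f) (AC := AC) (h := h) (BC := BC) (g := g) c with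
      ⟨a', ha', hac, h1⟩ | ⟨b', hb, hbc, h1⟩ | h1
    · rw [h1] at hc
      obtain ⟨h2, h3⟩ := (jB_eq_inl H.fi).1 hc.symm
      rw [← h3]
      exact ⟨H.h1' _ h2 ha', by rw [H.h3 _ h2 ha', hac]⟩
    · rw [h1] at hc
      have := jB_inj H.fi hc
      subst this
      exact ⟨hb, hbc⟩
    · rw [h1] at hc; exact absurd hc.symm (jB_ne _ _)
  · rintro ⟨hb, hbc⟩
    rcases jC_cases (AB := AB) (f := f) (AC := AC) (h := h) (BC := BC) (g := g) c with
      ⟨a', ha', hac, h1⟩ | ⟨b', hb', hbc', h1⟩ | h1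
    · have h2 : a' ∈ AB := H.h2 a' ha' b hb (hac.trans hbc.symm)
      have h3 : f a' = b := H.gi (H.h1' a' h2 ha') hb (by rw [H.h3 a' h2 ha', hac, hbc])
      rw [h1, (jB_eq_inl H.fi).2 ⟨h2, h3⟩]
    · rw [h1, H.gi hb' hb (hbc'.trans hbc.symm)]
    · exfalso
      unfold jC at h1
      split_ifs at h1 with e e'
      · exact absurd h1 (jB_ne _ _)
      · exact e' ⟨b, hb, hbc⟩

lemma jC_inj {c c' : γ} (hc : jC AB f AC h BC g c = jC AB f AC h BC g c') : c = c' := by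
  rcases jC_cases (AB := AB) (f := f) (AC := AC) (h := h) (BC := BC) (g := g) c with
      ⟨a', ha', hac, h1⟩ | ⟨b', hb, hbc, h1⟩ | h1
  · rw [h1] at hc
    rw [← hac, ((jC_eq_inl H).1 hc.symm).2]
  · rw [h1] at hc
    rw [← hbc, ((jC_eq_jB H).1 hc.symm).2]
  · rw [h1] at hc
    rcases jC_cases (AB := AB) (f := f) (AC := AC) (h := h) (BC := BC) (g := g) c' with
      ⟨a', ha', hac, h2⟩ | ⟨b', hb, hbc, h2⟩ | h2
    · rw [h2] at hc; exact absurd hc (by simp)
    · rw [h2] at hc; exact absurd hc.symm (jB_ne _ _)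
    · rw [h2] at hc; exact Sum.inr.inj (Sum.inr.inj hc)

end Maps

section Struct

variable {α β γ : Type} (GA : Geo α) (GB : Geo β) (GC : Geo γ) (A : Finset α) (B : Finset β)
  (C : Finset γ) {AB AC : Finset α} {BC : Finset β} {f : α → β} {h : α → γ} {g : β → γ}

/-- the kinds of the glued structure -/
def kd : α ⊕ β ⊕ γ → Kind := Sum.elim GA.kind (Sum.elim GB.kind GC.kind)

variable {GA GB GC}

lemma kd_jB (ef : Emb GA AB GB f) (b : β) : kd GA GB GC (jB γ AB f b) = GB.kind b := by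
  rcases jB_cases γ AB f b with ⟨a, ha, hab, h1⟩ | h1
  · rw [h1, ← hab, ef.kind a ha]; rfl
  · rw [h1]; rfl

lemma kd_jC (ef : Emb GA AB GB f) (eh : Emb GA AC GC h) (eg : Emb GB BC GC g) (c : γ) :
    kd GA GB GC (jC AB f AC h BC g c) = GC.kind c := by
  rcases jC_cases (AB := AB) (f := f) (AC := AC) (h := h) (BC := BC) (g := g) c with
      ⟨a', ha', hac, h1⟩ | ⟨b', hb, hbc, h1⟩ | h1
  · rw [h1, ← hac, eh.kind a' ha']; rfl
  · rw [h1, ← hbc, eg.kind b' hb, kd_jB ef]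
  · rw [h1]; rfl

/-- the glued structure -/
def D (ef : Emb GA AB GB f) (eh : Emb GA AC GC h) (eg : Emb GB BC GC g) :
    Geo (α ⊕ β ⊕ γ) where
  kind := kd GA GB GC
  adj x y := (∃ a ∈ A, ∃ a' ∈ A, x = .inl a ∧ y = .inl a' ∧ GA.adj a a') ∨
    (∃ b ∈ B, ∃ b' ∈ B, x = jB γ AB f b ∧ y = jB γ AB f b' ∧ GB.adj b b') ∨
    (∃ c ∈ C, ∃ c' ∈ C, x = jC AB f AC h BC g c ∧ y = jC AB f AC h BC g c' ∧ GC.adj c c')
  symm := by
    rintro u v (⟨a, ha, a', ha', h1, h2, h3⟩ | ⟨a, ha, a', ha', h1, h2, h3⟩ |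
      ⟨a, ha, a', ha', h1, h2, h3⟩)
    · exact Or.inl ⟨a', ha', a, ha, h2, h1, GA.symm _ _ h3⟩
    · exact Or.inr (Or.inl ⟨a', ha', a, ha, h2, h1, GB.symm _ _ h3⟩)
    · exact Or.inr (Or.inr ⟨a', ha', a, ha, h2, h1, GC.symm _ _ h3⟩)
  compat := by
    rintro u v (⟨a, ha, a', ha', h1, h2, h3⟩ | ⟨a, ha, a', ha', h1, h2, h3⟩ |
      ⟨a, ha, a', ha', h1, h2, h3⟩)
    · rw [h1, h2]; exact GA.compat _ _ h3
    · rw [h1, h2, kd_jB ef, kd_jB ef]; exact GB.compat _ _ h3
    · rw [h1, h2, kd_jC ef eh eg, kd_jC ef eh eg]; exact GC.compat _ _ h3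

variable {A B C}

lemma emb_A (H : Comp AB AC BC f h g) (ef : Emb GA AB GB f) (eh : Emb GA AC GC h)
    (eg : Emb GB BC GC g) : Emb GA A (D A B C ef eh eg) Sum.inl where
  inj := Sum.inl_injective.injOn
  kind := fun _ _ => rfl
  adj := by
    intro u hu v hv
    constructor
    · rintro (⟨a, ha, a', ha', h1, h2, h3⟩ | ⟨b, ha, b', ha', h1, h2, h3⟩ |
        ⟨c, ha, c', ha', h1, h2, h3⟩)
      · rw [Sum.inl.injEq] at h1 h2
        subst h1; subst h2; exact h3
      · obtain ⟨k1, k2⟩ := (jB_eq_inl H.fi).1 h1.symm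
        obtain ⟨k3, k4⟩ := (jB_eq_inl H.fi).1 h2.symm
        rw [← k2, ← k4] at h3
        exact (ef.adj u k1 v k3).1 h3
      · obtain ⟨k1, k2⟩ := (jC_eq_inl H).1 h1.symm
        obtain ⟨k3, k4⟩ := (jC_eq_inl H).1 h2.symm
        rw [← k2, ← k4] at h3
        exact (eh.adj u k1 v k3).1 h3
    · intro h3
      exact Or.inl ⟨u, hu, v, hv, rfl, rfl, h3⟩

lemma emb_B (H : Comp AB AC BC f h g) (ef : Emb GA AB GB f) (eh : Emb GA AC GC h)
    (eg : Emb GB BC GC g) : Emb GB B (D A B C ef eh eg) (jB γ AB f) where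
  inj := fun _ _ _ _ hb => jB_inj H.fi hb
  kind := fun b _ => kd_jB ef b
  adj := by
    intro u hu v hv
    constructor
    · rintro (⟨a, ha, a', ha', h1, h2, h3⟩ | ⟨b, ha, b', ha', h1, h2, h3⟩ |
        ⟨c, ha, c', ha', h1, h2, h3⟩)
      · obtain ⟨k1, k2⟩ := (jB_eq_inl H.fi).1 h1
        obtain ⟨k3, k4⟩ := (jB_eq_inl H.fi).1 h2
        rw [← k2, ← k4]
        exact (ef.adj a k1 a' k3).2 h3
      · rw [jB_inj H.fi h1, jB_inj H.fi h2]; exact h3
      · obtain ⟨k1, k2⟩ := (jC_eq_jB H).1 h1.symm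
        obtain ⟨k3, k4⟩ := (jC_eq_jB H).1 h2.symm
        rw [← k2, ← k4] at h3
        exact (eg.adj u k1 v k3).1 h3
    · intro h3
      exact Or.inr (Or.inl ⟨u, hu, v, hv, rfl, rfl, h3⟩)

lemma emb_C (H : Comp AB AC BC f h g) (ef : Emb GA AB GB f) (eh : Emb GA AC GC h)
    (eg : Emb GB BC GC g) : Emb GC C (D A B C ef eh eg) (jC AB f AC h BC g) where
  inj := fun _ _ _ _ hb => jC_inj H hb
  kind := fun b _ => kd_jC ef eh eg b
  adj := by
    intro u hu v hv
    constructor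
    · rintro (⟨a, ha, a', ha', h1, h2, h3⟩ | ⟨b, ha, b', ha', h1, h2, h3⟩ |
        ⟨c, ha, c', ha', h1, h2, h3⟩)
      · obtain ⟨k1, k2⟩ := (jC_eq_inl H).1 h1
        obtain ⟨k3, k4⟩ := (jC_eq_inl H).1 h2
        rw [← k2, ← k4]
        exact (eh.adj a k1 a' k3).2 h3
      · obtain ⟨k1, k2⟩ := (jC_eq_jB H).1 h1
        obtain ⟨k3, k4⟩ := (jC_eq_jB H).1 h2
        rw [← k2, ← k4]
        exact (eg.adj b k1 b' k3).2 h3
      · rw [jC_inj H h1, jC_inj H h2]; exact h3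
    · intro h3
      exact Or.inr (Or.inr ⟨u, hu, v, hv, rfl, rfl, h3⟩)

end Struct

end Glue

open Glue

theorem amalg3 {α β γ : Type} [DecidableEq α] [DecidableEq β] [DecidableEq γ]
    {GA : Geo α} {GB : Geo β} {GC : Geo γ}
    {A AB AC : Finset α} {B BC : Finset β} {C : Finset γ} {f : α → β} {h : α → γ} {g : β → γ}
    (kA : GA.InK A) (kB : GB.InK B) (kC : GC.InK C)
    (ef : Emb GA AB GB f) (eh : Emb GA AC GC h) (eg : Emb GB BC GC g)
    (sAB : GA.StrongIn A AB) (sAC : GA.StrongIn A AC) (iA : GA.Indep A AB AC)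
    (sBA : GB.StrongIn B (AB.image f)) (sBC : GB.StrongIn B BC) (iB : GB.Indep B (AB.image f) BC)
    (sCA : GC.StrongIn C (AC.image h)) (sCB : GC.StrongIn C (BC.image g))
    (iC : GC.Indep C (AC.image h) (BC.image g))
    (h1 : (AB ∩ AC).image f = AB.image f ∩ BC)
    (h2 : (AB ∩ AC).image h = AC.image h ∩ BC.image g)
    (h3 : ∀ a ∈ AB ∩ AC, g (f a) = h a) :
    ∃ (δ : Type) (_ : DecidableEq δ) (D : Geo δ) (jA : α → δ) (jB : β → δ) (jC : γ → δ),
      Emb GA A D jA ∧ Emb GB B D jB ∧ Emb GC C D jC ∧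
      (∀ a ∈ AB, jB (f a) = jA a) ∧ (∀ a ∈ AC, jC (h a) = jA a) ∧ (∀ b ∈ BC, jC (g b) = jB b) ∧
      A.image jA ∩ B.image jB = AB.image jA ∧ A.image jA ∩ C.image jC = AC.image jA ∧
      B.image jB ∩ C.image jC = BC.image jB ∧
      D.Config (A.image jA) (B.image jB) (C.image jC) := by
  have H : Comp AB AC BC f h g := by
    refine ⟨ef.inj, eh.inj, eg.inj, fun a ha hfa => ?_, fun a ha ha' => ?_,
      fun a ha b hb hab => ?_, fun a ha ha' => h3 a (Finset.mem_inter.2 ⟨ha, ha'⟩)⟩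
    · have h4 : f a ∈ (AB ∩ AC).image f := by
        rw [h1]; exact Finset.mem_inter.2 ⟨Finset.mem_image_of_mem f ha, hfa⟩
      obtain ⟨a', ha', e⟩ := Finset.mem_image.1 h4
      have := Finset.mem_inter.1 ha'
      rw [← ef.inj this.1 ha e]; exact this.2
    · have h4 : f a ∈ (AB ∩ AC).image f :=
        Finset.mem_image_of_mem f (Finset.mem_inter.2 ⟨ha, ha'⟩)
      rw [h1] at h4
      exact (Finset.mem_inter.1 h4).2
    · have h4 : h a ∈ (AB ∩ AC).image h := by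
        rw [h2]
        exact Finset.mem_inter.2 ⟨Finset.mem_image_of_mem h ha,
          by rw [hab]; exact Finset.mem_image_of_mem g hb⟩
      obtain ⟨a', ha', e⟩ := Finset.mem_image.1 h4
      have := Finset.mem_inter.1 ha'
      rw [← eh.inj this.2 ha e]; exact this.1
  have eA := emb_A (A := A) (B := B) (C := C) H ef eh eg
  have eB := emb_B (A := A) (B := B) (C := C) H ef eh eg
  have eC := emb_C (A := A) (B := B) (C := C) H ef eh eg
  have jAB : ∀ a ∈ AB, jB γ AB f (f a) = Sum.inl a := fun a ha => (jB_eq_inl H.fi).2 ⟨ha, rfl⟩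
  have jAC : ∀ a ∈ AC, jC AB f AC h BC g (h a) = Sum.inl a :=
    fun a ha => (jC_eq_inl H).2 ⟨ha, rfl⟩
  have jBC : ∀ b ∈ BC, jC AB f AC h BC g (g b) = jB γ AB f b :=
    fun b hb => (jC_eq_jB H).2 ⟨hb, rfl⟩
  have subAB : AB ⊆ A := sAB.closed.sub
  have subAC : AC ⊆ A := sAC.closed.sub
  have subBA : AB.image f ⊆ B := sBA.closed.sub
  have subBC : BC ⊆ B := sBC.closed.sub
  have subCA : AC.image h ⊆ C := sCA.closed.sub
  have subCB : BC.image g ⊆ C := sCB.closed.sub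
  have iAB : A.image Sum.inl ∩ B.image (jB γ AB f) = AB.image Sum.inl := by
    ext x
    simp only [Finset.mem_inter, Finset.mem_image]
    constructor
    · rintro ⟨⟨a, ha, rfl⟩, b, hb, hab⟩
      exact ⟨a, ((jB_eq_inl H.fi).1 hab).1, rfl⟩
    · rintro ⟨a, ha, rfl⟩
      exact ⟨⟨a, subAB ha, rfl⟩, f a, subBA (Finset.mem_image_of_mem f ha), jAB a ha⟩
  have iAC : A.image Sum.inl ∩ C.image (jC AB f AC h BC g) = AC.image Sum.inl := by
    ext x
    simp only [Finset.mem_inter, Finset.mem_image]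
    constructor
    · rintro ⟨⟨a, ha, rfl⟩, b, hb, hab⟩
      exact ⟨a, ((jC_eq_inl H).1 hab).1, rfl⟩
    · rintro ⟨a, ha, rfl⟩
      exact ⟨⟨a, subAC ha, rfl⟩, h a, subCA (Finset.mem_image_of_mem h ha), jAC a ha⟩
  have iBC : B.image (jB γ AB f) ∩ C.image (jC AB f AC h BC g) = BC.image (jB γ AB f) := by
    ext x
    simp only [Finset.mem_inter, Finset.mem_image]
    constructor
    · rintro ⟨⟨a, ha, rfl⟩, b, hb, hab⟩
      exact ⟨a, ((jC_eq_jB H).1 hab).1, rfl⟩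
    · rintro ⟨a, ha, rfl⟩
      exact ⟨⟨a, subBC ha, rfl⟩, g a, subCB (Finset.mem_image_of_mem g ha), jBC a ha⟩
  have imB : AB.image (Sum.inl : α → α ⊕ β ⊕ γ) = (AB.image f).image (jB γ AB f) := by
    rw [Finset.image_image]
    exact Finset.image_congr fun a ha => (jAB a ha).symm
  have imC : AC.image (Sum.inl : α → α ⊕ β ⊕ γ) = (AC.image h).image (jC AB f AC h BC g) := by
    rw [Finset.image_image]
    exact Finset.image_congr fun a ha => (jAC a ha).symm
  have imC' : BC.image (jB γ AB f) = (BC.image g).image (jC AB f AC h BC g) := by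
    rw [Finset.image_image]
    exact Finset.image_congr fun a ha => (jBC a ha).symm
  refine ⟨α ⊕ β ⊕ γ, inferInstance, D A B C ef eh eg, Sum.inl, jB γ AB f, jC AB f AC h BC g,
    eA, eB, eC, jAB, jAC, jBC, iAB, iAC, iBC, ?_⟩
  refine ⟨eA.inK_iff.2 kA, eB.inK_iff.2 kB, eC.inK_iff.2 kC, ?_, ?_, ?_, ?_, ?_, ?_, ?_, ?_, ?_,
    ?_⟩
  · rintro u - v - (⟨a, ha, a', ha', h1, h2, h3⟩ | ⟨b, ha, b', ha', h1, h2, h3⟩ |
        ⟨c, ha, c', ha', h1, h2, h3⟩)
    · rw [h1, h2]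
      exact Or.inl ⟨Finset.mem_image_of_mem _ ha, Finset.mem_image_of_mem _ ha'⟩
    · rw [h1, h2]
      exact Or.inr (Or.inl ⟨Finset.mem_image_of_mem _ ha, Finset.mem_image_of_mem _ ha'⟩)
    · rw [h1, h2]
      exact Or.inr (Or.inr ⟨Finset.mem_image_of_mem _ ha, Finset.mem_image_of_mem _ ha'⟩)
  · rw [iAB]; exact (eA.strongIn_iff subAB).2 sAB
  · rw [iAC]; exact (eA.strongIn_iff subAC).2 sAC
  · rw [iAB, imB]; exact (eB.strongIn_iff subBA).2 sBA
  · rw [iBC]; exact (eB.strongIn_iff subBC).2 sBC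
  · rw [iAC, imC]; exact (eC.strongIn_iff subCA).2 sCA
  · rw [iBC, imC']; exact (eC.strongIn_iff subCB).2 sCB
  · rw [iAB, iAC]; exact (eA.indep_iff subAB subAC).2 iA
  · rw [iAB, iBC, imB]; exact (eB.indep_iff subBA subBC).2 iB
  · rw [iAC, iBC, imC, imC']; exact (eC.indep_iff subCA subCB).2 iC

/-- amalgamation of `A` and `B` over a common strong part -/
theorem amalg2 {α β : Type} [DecidableEq α] [DecidableEq β] {GA : Geo α} {GB : Geo β}
    {A AB : Finset α} {B : Finset β} {f : α → β} (kA : GA.InK A) (kB : GB.InK B)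
    (ef : Emb GA AB GB f) (sAB : GA.StrongIn A AB) (sBA : GB.StrongIn B (AB.image f)) :
    ∃ (δ : Type) (_ : DecidableEq δ) (D : Geo δ) (jA : α → δ) (jB : β → δ),
      Emb GA A D jA ∧ Emb GB B D jB ∧ (∀ a ∈ AB, jB (f a) = jA a) ∧
      A.image jA ∩ B.image jB = AB.image jA ∧
      D.InK (A.image jA ∪ B.image jB) ∧ D.StrongIn (A.image jA ∪ B.image jB) (A.image jA) ∧
      D.StrongIn (A.image jA ∪ B.image jB) (B.image jB) ∧
      D.Indep (A.image jA ∪ B.image jB) (A.image jA) (B.image jB) := by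
  have triv : ∀ {V : Type} [DecidableEq V] (G : Geo V) (W S : Finset V), G.StrongIn W S →
      G.Indep W S S := by
    intro V _ G W S hS
    refine ⟨hS.closed, hS.closed, fun Y hY h1 _ => ?_⟩
    rw [Finset.inter_self]
    have := hS.delta_le hY h1
    linarith
  have hid : AB.image (id : α → α) = AB := Finset.image_id
  obtain ⟨δ, dδ, D, jA, jM, jB, eA, eM, eB, hAM, hAB, hMB, iAM, iAB, iMB, hc⟩ :=
    amalg3 (GA := GA) (GB := GA) (GC := GB) (A := A) (AB := AB) (AC := AB) (B := AB) (BC := AB)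
      (C := B) (f := id) (h := f) (g := f) kA (kA.of_closed sAB.closed) kB
      ⟨Function.injective_id.injOn, fun _ _ => rfl, fun _ _ _ _ => Iff.rfl⟩ ef ef sAB sAB
      (triv _ _ _ sAB) (by rw [hid]; exact Geo.StrongIn.refl) Geo.StrongIn.refl
      (by rw [hid]; exact triv _ _ _ Geo.StrongIn.refl) sBA sBA (triv _ _ _ sBA)
      (by simp) (by simp) (fun _ _ => rfl)
  refine ⟨δ, dδ, D, jA, jB, eA, eB, hAB, iAB, ?_⟩
  have e1 : AB.image jM = AB.image jA :=
    Finset.image_congr fun a ha => hAM a ha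
  rw [e1] at hc iAM iMB
  have sub1 : AB.image jA ⊆ A.image jA := Finset.image_subset_image sAB.closed.sub
  have sub2 : AB.image jA ⊆ B.image jB := by
    rw [← iAB]; exact Finset.inter_subset_right
  have e2 : A.image jA ∪ AB.image jA ∪ B.image jB = A.image jA ∪ B.image jB := by
    rw [Finset.union_eq_left.2 sub1]
  have hK := hc.inK
  have hS := hc.strong
  have hS' := hc.swap23.swap12.strong
  rw [e2] at hK hS
  have e3 : B.image jB ∪ A.image jA ∪ AB.image jA = A.image jA ∪ B.image jB := by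
    rw [Finset.union_comm (B.image jB), ← e2]
    ext x
    simp only [Finset.mem_union]
    tauto
  rw [e3] at hS'
  refine ⟨hK, hS, hS', hS.closed, hS'.closed, fun Y hY h1 h2 => ?_⟩
  have hYe : Y = A.image jA ∪ B.image jB :=
    Finset.Subset.antisymm hY.sub (Finset.union_subset h1 h2)
  have hd := hc.delta (Q := A.image jA ∪ B.image jB) (by rw [e2])
  have q1 : (A.image jA ∪ B.image jB) ∩ A.image jA = A.image jA :=
    Finset.inter_eq_right.2 Finset.subset_union_left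
  have q2 : (A.image jA ∪ B.image jB) ∩ AB.image jA = AB.image jA :=
    Finset.inter_eq_right.2 (sub1.trans Finset.subset_union_left)
  have q3 : (A.image jA ∪ B.image jB) ∩ B.image jB = B.image jB :=
    Finset.inter_eq_right.2 Finset.subset_union_right
  have q4 : A.image jA ∩ AB.image jA = AB.image jA := Finset.inter_eq_right.2 sub1
  have q5 : AB.image jA ∩ B.image jB = AB.image jA := Finset.inter_eq_left.2 sub2
  rw [q1, q2, q3, q4, q5, iAB] at hd
  rw [hYe, hd, iAB]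
  linarith

end Pool.Agent.SF
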