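import Pool.Agent.SF.GenDefs
import Pool.Agent.SF.Delta
import Pool.Agent.SF.Emb
import Pool.Agent.SF.Strong
import Pool.Agent.SF.Defect
import Pool.Agent.SF.Clm
import Pool.Agent.SF.Glue

/-!
# The closure in the generic structure, continued
-/

set_option autoImplicit false

namespace Pool.Agent.SF

variable {G : Geo ℕ} {F : ℕ → Finset ℕ} {A B E S S' Y : Finset ℕ}

/-- strong embeddings preserve strong subsets -/
theorem SM.image_iff (hG : Generic G F) (hA : SM G F A) {f : ℕ → ℕ} (hf : Emb G A G f)
    (hA' : SM G F (A.image f)) {X : Finset ℕ} (hX : X ⊆ A) : SM G F (X.image f) ↔ SM G F X := by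
  have hXA : X.image f ⊆ A.image f := Finset.image_subset_image hX
  constructor
  · intro h
    exact SM.trans hG hA ((Emb.strongIn_iff hf hX).1 (SM.strongIn hG h hA' hXA))
  · intro h
    exact SM.trans hG hA' ((Emb.strongIn_iff hf hX).2 (SM.strongIn hG h hA hX))

/-- strong embeddings commute with the closure -/
theorem clM_image (hG : Generic G F) (hA : SM G F A) {f : ℕ → ℕ} (hf : Emb G A G f)
    (hA' : SM G F (A.image f)) (hS : S ⊆ A) : clM G F (S.image f) = (clM G F S).image f := by
  have hcA : clM G F S ⊆ A := clM_subset hG hA hS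
  have h1 : SM G F ((clM G F S).image f) := (SM.image_iff hG hA hf hA' hcA).2 (clM_strong hG S)
  apply Finset.Subset.antisymm
  · exact clM_subset hG h1 (Finset.image_subset_image (subset_clM hG S))
  · have hTA : clM G F (S.image f) ⊆ A.image f :=
      clM_subset hG hA' (Finset.image_subset_image hS)
    obtain ⟨X, hXA, hX⟩ := Finset.subset_image_iff.1 hTA
    have hXs : SM G F X := by
      rw [← SM.image_iff hG hA hf hA' hXA, hX]
      exact clM_strong hG _
    have hSX : S ⊆ X := by
      intro s hs
      have h2 : f s ∈ X.image f := by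
        rw [hX]
        exact subset_clM hG _ (Finset.mem_image_of_mem f hs)
      obtain ⟨x, hx, hxs⟩ := Finset.mem_image.1 h2
      have h3 : x = s := hf.inj (hXA hx) (hS hs) hxs
      rwa [← h3]
    rw [← hX]
    exact Finset.image_subset_image (clM_subset hG hXs hSX)

theorem strongIn_singleton {W : Finset ℕ} (hW : G.InK W) {p : ℕ} (hpW : p ∈ W)
    (hp : G.kind p = .P) : G.StrongIn W {p} := by
  have hd : G.delta {p} = 1 := by
    rw [Geo.delta_allP G (A := {p}) (by intro v hv; rw [Finset.mem_singleton.1 hv]; exact hp)]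
    simp
  have hc : G.ClosedIn W {p} := by
    refine ⟨Finset.singleton_subset_iff.2 hpW, ?_, ?_⟩
    · intro c _ _ σ h2
      exfalso
      have : (G.nbB σ c {p}) = ∅ := by
        classical
        unfold Geo.nbB
        apply Finset.filter_eq_empty_iff.2
        intro u hu h
        rw [Finset.mem_singleton.1 hu, hp] at h
        exact absurd h.2 (by simp)
      rw [this] at h2
      simp at h2
    · intro c _ σ _ h2
      exfalso
      have : (G.nbC c {p}) = ∅ := by
        classical
        unfold Geo.nbC
        apply Finset.filter_eq_empty_iff.2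
        intro u hu h
        rw [Finset.mem_singleton.1 hu, hp] at h
        exact absurd h.2 (by simp)
      rw [this] at h2
      simp at h2
  refine ⟨hc, ?_⟩
  intro Y hY hpY
  rw [hd]
  have hne : Y.Nonempty := ⟨p, hpY.1 (Finset.mem_singleton_self p)⟩
  obtain ⟨h1, h2⟩ := hW.pos Y hY hne
  by_contra h3
  have h4 : G.delta Y = 1 := by omega
  rw [h4] at h2
  have h5 : Y.card ≤ 1 := by
    have : ((Y.card : ℤ)) ≤ 1 := by simpa using h2
    exact_mod_cast this
  have h6 := Finset.card_lt_card hpY
  rw [Finset.card_singleton] at h6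
  omega

theorem clM_singleton (hG : Generic G F) {p : ℕ} (hp : G.kind p = .P) :
    clM G F {p} = {p} ∧ G.delta {p} = 1 := by
  obtain ⟨k, hk⟩ := hG.exh p
  refine ⟨clM_eq hG ⟨k, strongIn_singleton (hG.inK k) hk hp⟩, ?_⟩
  rw [Geo.delta_allP G (A := {p}) (by intro v hv; rw [Finset.mem_singleton.1 hv]; exact hp)]
  simp

/-- amalgamation inside the generic structure: a copy of `E` over `A` independent from `B` -/
theorem exists_free_copy (hG : Generic G F) (hA : SM G F A) (hB : SM G F B) (hE : SM G F E)
    (hAE : A ⊆ E) {f : ℕ → ℕ} (hf : Emb G A G f) (hfB : A.image f ⊆ B)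
    (hfs : SM G F (A.image f)) :
    ∃ g : ℕ → ℕ, Emb G E G g ∧ (∀ a ∈ A, g a = f a) ∧ SM G F (E.image g) ∧
      SM G F (E.image g ∪ B) ∧ E.image g ∩ B = A.image f ∧
      G.delta (E.image g ∪ B) = G.delta E + G.delta B - G.delta A := by
  obtain ⟨fi, hfi, hfi1, hfi2⟩ := Emb.exists_inv hf
  have hfiA : (A.image f).image fi = A := by
    ext x
    constructor
    · intro hx
      obtain ⟨y, hy, rfl⟩ := Finset.mem_image.1 hx
      obtain ⟨a, ha, rfl⟩ := Finset.mem_image.1 hy
      rw [hfi1 a ha]
      exact ha
    · intro hx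
      exact Finset.mem_image.2 ⟨f x, Finset.mem_image_of_mem f hx, hfi1 x hx⟩
  obtain ⟨δ, _, D, jA, jB, hjA, hjB, hjAB, hint, hDK, hDA, hDB, hDI⟩ :=
    amalg2 (GA := G) (GB := G) (A := B) (AB := A.image f) (B := E) (f := fi)
      (SM.inK hG hB) (SM.inK hG hE) hfi (SM.strongIn hG hfs hB hfB)
      (by rw [hfiA]; exact SM.strongIn hG hA hE hAE)
  obtain ⟨h, hh, hh1, hh2⟩ := Generic.ext' hG hB hjA hDK hDA
  have hBsub : B.image jA ⊆ B.image jA ∪ E.image jB := Finset.subset_union_left
  have hEsub : E.image jB ⊆ B.image jA ∪ E.image jB := Finset.subset_union_right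
  have hBim : (B.image jA).image h = B := by
    ext x
    constructor
    · intro hx
      obtain ⟨y, hy, rfl⟩ := Finset.mem_image.1 hx
      obtain ⟨a, ha, rfl⟩ := Finset.mem_image.1 hy
      rw [hh1 a ha]
      exact ha
    · intro hx
      exact Finset.mem_image.2 ⟨jA x, Finset.mem_image_of_mem jA hx, hh1 x hx⟩
  have hEim : E.image (h ∘ jB) = (E.image jB).image h := by
    rw [Finset.image_image]
  have huim : (B.image jA ∪ E.image jB).image h = E.image (h ∘ jB) ∪ B := by
    rw [Finset.image_union, hBim, hEim, Finset.union_comm]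
  refine ⟨h ∘ jB, Emb.comp hjB (Emb.mono hh hEsub), ?_, ?_, ?_, ?_, ?_⟩
  · intro a ha
    have h1 : jB (fi (f a)) = jA (f a) := hjAB (f a) (Finset.mem_image_of_mem f ha)
    rw [hfi1 a ha] at h1
    show h (jB a) = f a
    rw [h1]
    exact hh1 _ (hfB (Finset.mem_image_of_mem f ha))
  · rw [hEim]
    exact SM.trans hG hh2 ((Emb.strongIn_iff hh hEsub).2 hDB)
  · rw [← huim]
    exact hh2
  · have h1 : (E.image jB ∩ B.image jA).image h = E.image (h ∘ jB) ∩ B := by
      rw [Finset.image_inter_of_injOn, hBim, hEim]
      intro x hx y hy hxy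
      refine hh.inj ?_ ?_ hxy
      · rcases hx with hx | hx
        · exact hEsub hx
        · exact hBsub hx
      · rcases hy with hy | hy
        · exact hEsub hy
        · exact hBsub hy
    rw [← h1, Finset.inter_comm, hint]
    ext x
    constructor
    · intro hx
      obtain ⟨y, hy, rfl⟩ := Finset.mem_image.1 hx
      obtain ⟨a, ha, rfl⟩ := Finset.mem_image.1 hy
      rw [hh1 a (hfB ha)]
      exact ha
    · intro hx
      exact Finset.mem_image.2 ⟨jA x, Finset.mem_image_of_mem jA hx, hh1 x (hfB hx)⟩
  · rw [← huim, Emb.delta_image hh (Finset.Subset.refl _), Geo.Indep.delta_union hDK hDI, hint,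
      Emb.delta_image hjA (Finset.Subset.refl _), Emb.delta_image hjB (Finset.Subset.refl _),
      Emb.delta_image hjA hfB, Emb.delta_image hf (Finset.Subset.refl _)]
    ring

/-- the structure with one vertex of kind `P` -/
def onePoint : Geo Unit where
  kind := fun _ => .P
  adj := fun _ _ => False
  symm := fun _ _ h => h
  compat := fun _ _ h => h.elim

theorem onePoint_inK : onePoint.InK {()} where
  lin := by
    intro σ u _ v _ hu
    exact absurd hu (by simp [onePoint])
  res := by
    intro v _ σ hv
    exact absurd hv (by simp [onePoint])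
  pos := by
    intro Q hQ hne
    have h1 : Q = {()} := by
      apply Finset.Subset.antisymm hQ.sub
      intro x _
      obtain ⟨y, hy⟩ := hne
      cases x
      cases y
      exact hy
    have h2 : onePoint.delta Q = 1 := by
      rw [Geo.delta_allP onePoint (A := Q) (by intro v _; rfl), h1]
      simp
    rw [h2, h1]
    simp

theorem exists_kind_P (hG : Generic G F) : ∃ p, G.kind p = .P := by
  have he : Emb G (∅ : Finset ℕ) onePoint (fun _ => ()) :=
    ⟨by simp, by simp, by simp⟩
  obtain ⟨g, hg, _, _⟩ := Generic.ext' hG (SM.empty hG) he onePoint_inK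
    (by rw [Finset.image_empty]; exact Geo.strongIn_empty onePoint_inK)
  exact ⟨g (), hg.kind () (Finset.mem_singleton_self _)⟩

theorem infinite_PV (hG : Generic G F) : Infinite (PV G) := by
  by_contra hfin
  rw [not_infinite_iff_finite] at hfin
  obtain ⟨p, hp⟩ := exists_kind_P hG
  set S : Finset ℕ := (Set.finite_range (fun v : PV G => v.1)).toFinset with hS
  have hmem : ∀ v : ℕ, G.kind v = .P → v ∈ S := by
    intro v hv
    rw [hS, Set.Finite.mem_toFinset]
    exact ⟨⟨v, hv⟩, rfl⟩
  have hpS : SM G F {p} := by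
    rw [← (clM_singleton hG hp).1]
    exact clM_strong hG _
  have he : Emb G (∅ : Finset ℕ) G (fun v => v) := ⟨by simp, by simp, by simp⟩
  obtain ⟨g, hg, _, _, _, hint, _⟩ := exists_free_copy hG (SM.empty hG) (clM_strong hG S) hpS
    (Finset.empty_subset _) he (by simp) (by rw [Finset.image_empty]; exact SM.empty hG)
  have h1 : g p ∈ ({p} : Finset ℕ).image g ∩ clM G F S := by
    refine Finset.mem_inter.2 ⟨Finset.mem_image_of_mem g (Finset.mem_singleton_self p), ?_⟩
    apply subset_clM hG S
    apply hmem
    rw [hg.kind p (Finset.mem_singleton_self p)]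
    exact hp
  rw [hint] at h1
  simp at h1

end Pool.Agent.SF
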