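import Pool.Agent.SF.ModelDefs
import Mathlib.ModelTheory.Ultraproducts

/-! # Module A2 (COMPACT): compactness inside an elementary extension -/

set_option autoImplicit false

namespace Pool.Agent.SF

open FirstOrder FirstOrder.Language

theorem exists_elementary_realizing {L : FirstOrder.Language.{0, 0}} {N : Type} [L.Structure N]
    [Nonempty N] {ι : Type} (Γ : Set (L.Formula (N ⊕ ι)))
    (h : ∀ Δ : Finset (L.Formula (N ⊕ ι)), (Δ : Set (L.Formula (N ⊕ ι))) ⊆ Γ →
      ∃ v : ι → N, ∀ φ ∈ Δ, φ.Realize (Sum.elim id v)) :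
    ∃ (N' : Type) (_ : L.Structure N') (e : N ↪ₑ[L] N') (v : ι → N'),
      ∀ φ ∈ Γ, φ.Realize (Sum.elim e v) := by
  classical
  -- the index set
  let J : Type := Finset Γ
  have h' : ∀ Δ : J, ∃ v : ι → N, ∀ φ ∈ Δ, (φ : L.Formula (N ⊕ ι)).Realize (Sum.elim id v) := by
    intro Δ
    obtain ⟨v, hv⟩ := h (Δ.map (Function.Embedding.subtype _)) (by
      intro φ hφ
      simp only [Finset.coe_map, Set.mem_image, Finset.mem_coe] at hφ
      obtain ⟨ψ, _, rfl⟩ := hφ
      exact ψ.2)
    exact ⟨v, fun φ hφ => hv _ (Finset.mem_map_of_mem _ hφ)⟩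
  choose w hw using h'
  let u : Ultrafilter J := Ultrafilter.of Filter.atTop
  have hu : (u : Filter J) ≤ Filter.atTop := Ultrafilter.of_le _
  let e : N ↪ₑ[L] ((u : Filter J).Product fun _ => N) :=
    ⟨fun x => ((fun _ => x : J → N) : (u : Filter J).Product fun _ => N), by
      intro n φ x
      have := Ultraproduct.realize_formula_cast (u := u) (M := fun _ : J => N) φ
        (fun i _ => x i)
      exact this.trans Filter.eventually_const⟩
  refine ⟨(u : Filter J).Product fun _ => N, Ultraproduct.structure, e,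
    fun i => ((fun Δ => w Δ i : J → N) : (u : Filter J).Product fun _ => N), ?_⟩
  · intro φ hφ
    have h1 := Ultraproduct.realize_formula_cast (u := u) (M := fun _ : J => N) φ
      (Sum.elim (fun x _ => x) (fun i Δ => w Δ i))
    have h2 : ∀ᶠ Δ in (u : Filter J), φ.Realize fun i =>
        (Sum.elim (fun x _ => x) (fun i Δ => w Δ i) : N ⊕ ι → J → N) i Δ := by
      refine hu ?_
      filter_upwards [Filter.eventually_ge_atTop ({⟨φ, hφ⟩} : Finset Γ)] with Δ hΔ
      have h3 := hw Δ ⟨φ, hφ⟩ (hΔ (Finset.mem_singleton_self _))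
      convert h3 using 2
      rename_i i
      cases i <;> rfl
    have h4 : Sum.elim e (fun i => ((fun Δ => w Δ i : J → N) : (u : Filter J).Product fun _ => N)) =
        fun i => (((Sum.elim (fun x _ => x) (fun i Δ => w Δ i) : N ⊕ ι → J → N) i : J → N) :
          (u : Filter J).Product fun _ => N) := by
      funext i
      cases i <;> rfl
    rw [h4]
    exact h1.2 h2

end Pool.Agent.SF
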