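import Mathlib

/-!
# Vertex-typed graphs with a predimension

The combinatorial structures of the counterexample to stable forking.  There are four kinds of
vertices: `P` (coordinates), `B false` and `B true` (two sorts of blocks), `C` (points).
-/

set_option autoImplicit false

namespace Pool.Agent.SF

/-- The kinds of vertices. -/
inductive Kind
  | P
  | B (σ : Bool)
  | C
deriving DecidableEq

namespace Kind

/-- weights of the vertices -/
def wt : Kind → ℤ
  | P => 1
  | B _ => 11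
  | C => 20

/-- costs of the edges; cost `0` means that there are no edges between the two kinds -/
def cost : Kind → Kind → ℤ
  | P, P => 0
  | P, _ => 1
  | _, P => 1
  | B _, C => 10
  | C, B _ => 10
  | C, C => 0
  | B false, B true => 1
  | B true, B false => 1
  | B _, B _ => 0

/-- an auxiliary numbering of the kinds -/
def idx : Kind → ℕ
  | P => 0
  | B false => 1
  | B true => 2
  | C => 3

end Kind

/-- A vertex-typed graph. -/
structure Geo (V : Type*) where
  kind : V → Kind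
  adj : V → V → Prop
  symm : ∀ u v, adj u v → adj v u
  compat : ∀ u v, adj u v → Kind.cost (kind u) (kind v) ≠ 0

namespace Geo

variable {V : Type*} (G : Geo V)

/-- `x, z, c` is a triangle: `x, z` are adjacent blocks with common point `c`. -/
def Tri (x z c : V) : Prop :=
  G.kind x = .B false ∧ G.kind z = .B true ∧ G.kind c = .C ∧ G.adj x z ∧ G.adj x c ∧ G.adj z c

open scoped Classical in
/-- the neighbours of `v` in `A` of kind `P` -/
noncomputable def nbP (v : V) (A : Finset V) : Finset V :=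
  A.filter fun u => G.adj v u ∧ G.kind u = .P

open scoped Classical in
/-- the neighbours of `v` in `A` of kind `B σ` -/
noncomputable def nbB (σ : Bool) (v : V) (A : Finset V) : Finset V :=
  A.filter fun u => G.adj v u ∧ G.kind u = .B σ

open scoped Classical in
/-- the neighbours of `v` in `A` of kind `C` -/
noncomputable def nbC (v : V) (A : Finset V) : Finset V :=
  A.filter fun u => G.adj v u ∧ G.kind u = .C

open scoped Classical in
/-- the number of adjacent pairs between `S` and `T` -/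
noncomputable def ed (S T : Finset V) : ℕ :=
  ((S ×ˢ T).filter fun e => G.adj e.1 e.2).card

open scoped Classical in
/-- the predimension -/
noncomputable def delta (A : Finset V) : ℤ :=
  ∑ v ∈ A, (G.kind v).wt
    - ∑ e ∈ (A ×ˢ A).filter (fun e => G.adj e.1 e.2 ∧ (G.kind e.1).idx < (G.kind e.2).idx),
        Kind.cost (G.kind e.1) (G.kind e.2)
    + (((A ×ˢ A ×ˢ A).filter fun t => G.Tri t.1 t.2.1 t.2.2).card : ℤ)

variable [DecidableEq V]

open scoped Classical in
/-- edges between `A \ B` and `B \ A` joining a block and a point -/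
noncomputable def crossBC (A B : Finset V) : ℕ :=
  (((A \ B) ×ˢ (B \ A)).filter fun e => G.adj e.1 e.2 ∧
    Kind.cost (G.kind e.1) (G.kind e.2) = 10).card

open scoped Classical in
/-- edges between `A \ B` and `B \ A` at a vertex of kind `P` -/
noncomputable def crossP (A B : Finset V) : ℕ :=
  (((A \ B) ×ˢ (B \ A)).filter fun e => G.adj e.1 e.2 ∧
    (G.kind e.1 = .P ∨ G.kind e.2 = .P)).card

open scoped Classical in
/-- edges between `A \ B` and `B \ A` joining two blocks -/
noncomputable def crossR (A B : Finset V) : ℕ :=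
  (((A \ B) ×ˢ (B \ A)).filter fun e => G.adj e.1 e.2 ∧
    ∃ σ, G.kind e.1 = .B σ ∧ G.kind e.2 = .B (!σ)).card

open scoped Classical in
/-- edges between `A \ B` and `B \ A` joining two blocks without a common point in `A ∪ B` -/
noncomputable def crossU (A B : Finset V) : ℕ :=
  (((A \ B) ×ˢ (B \ A)).filter fun e => G.adj e.1 e.2 ∧
    (∃ σ, G.kind e.1 = .B σ ∧ G.kind e.2 = .B (!σ)) ∧
    ∀ c ∈ A ∪ B, G.kind c = .C → G.adj e.1 c → ¬ G.adj e.2 c).card

open scoped Classical in
/-- triangles in `A ∪ B` contained neither in `A` nor in `B` -/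
noncomputable def crossTri (A B : Finset V) : ℕ :=
  (((A ∪ B) ×ˢ (A ∪ B) ×ˢ (A ∪ B)).filter fun t => G.Tri t.1 t.2.1 t.2.2 ∧
    ¬ (t.1 ∈ A ∧ t.2.1 ∈ A ∧ t.2.2 ∈ A) ∧ ¬ (t.1 ∈ B ∧ t.2.1 ∈ B ∧ t.2.2 ∈ B)).card

omit [DecidableEq V] in
/-- `A` is closed in `W`: points on two blocks of the same sort of `A` are in `A`, and blocks on
two points of `A` are in `A`. -/
structure ClosedIn (W A : Finset V) : Prop where
  sub : A ⊆ W
  pt : ∀ c ∈ W, G.kind c = .C → ∀ σ, 2 ≤ (G.nbB σ c A).card → c ∈ A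
  bl : ∀ b ∈ W, ∀ σ, G.kind b = .B σ → 2 ≤ (G.nbC b A).card → b ∈ A

omit [DecidableEq V] in
/-- the local conditions of the class `K` -/
structure Loc (W : Finset V) : Prop where
  /-- two blocks of the same sort have at most one common point -/
  lin : ∀ σ, ∀ u ∈ W, ∀ v ∈ W, G.kind u = .B σ → G.kind v = .B σ → u ≠ v →
    ∀ c ∈ W, ∀ c' ∈ W, G.kind c = .C → G.kind c' = .C →
      G.adj u c → G.adj v c → G.adj u c' → G.adj v c' → c = c'
  /-- the residue of a block is sparse -/
  res : ∀ v ∈ W, ∀ σ, G.kind v = .B σ → ∀ Cs ⊆ G.nbC v W, ∀ Bs ⊆ G.nbB (!σ) v W,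
    (Cs.Nonempty ∨ Bs.Nonempty) →
      9 * (G.ed Cs Bs : ℤ) + 10 ≤ 10 * ((Cs.card : ℤ) + (Bs.card : ℤ))

omit [DecidableEq V] in
/-- the class `K` of finite structures -/
structure InK (W : Finset V) : Prop extends Loc G W where
  pos : ∀ Q, G.ClosedIn W Q → Q.Nonempty →
    1 ≤ G.delta Q ∧ (Q.card : ℤ) ≤ 3 ^ (G.delta Q - 1).toNat

omit [DecidableEq V] in
/-- `A` is a strong subset of `W` -/
structure StrongIn (W A : Finset V) : Prop where
  closed : G.ClosedIn W A
  lt : ∀ Y, G.ClosedIn W Y → A ⊂ Y → G.delta A < G.delta Y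

omit [DecidableEq V] in
/-- a sufficient condition for the closure process to decrease `delta` -/
def Good (W Y : Finset V) : Prop :=
  ∀ c ∈ W, G.kind c = .C → c ∉ Y → (G.nbB false c Y).card ≤ 3 ∨ (G.nbB true c Y).card ≤ 3

omit [DecidableEq V] in
/-- closed sets and unions of two closed sets are nice -/
structure Nice (W Z : Finset V) : Prop where
  sub : Z ⊆ W
  pt : ∀ c ∈ W, G.kind c = .C → c ∉ Z → ∀ σ, (G.nbB σ c Z).card ≤ 2
  bl : ∀ b ∈ W, ∀ σ, G.kind b = .B σ → b ∉ Z → (G.nbC b Z).card ≤ 2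

/-- `B₁` and `B₂` are independent over their intersection in `W` -/
structure Indep (W B₁ B₂ : Finset V) : Prop where
  c₁ : G.ClosedIn W B₁
  c₂ : G.ClosedIn W B₂
  min : ∀ Y, G.ClosedIn W Y → B₁ ⊆ Y → B₂ ⊆ Y →
    G.delta B₁ + G.delta B₂ - G.delta (B₁ ∩ B₂) ≤ G.delta Y

open scoped Classical in
/-- adjacent pairs of blocks of `Q` in `B₁ \ B₂` and `B₂ \ B₁` whose common point in `B₁ ∩ B₂` is
not in `Q` -/
noncomputable def bad (Q B₁ B₂ : Finset V) : ℕ :=
  (((Q ∩ (B₁ \ B₂)) ×ˢ (Q ∩ (B₂ \ B₁))).filter fun e => G.adj e.1 e.2 ∧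
    ∃ c ∈ (B₁ ∩ B₂) \ Q, G.kind c = .C ∧ G.adj e.1 c ∧ G.adj e.2 c).card

omit [DecidableEq V] in
/-- `E` is the closure (smallest strong superset) of `S` in `W` -/
structure IsCl (W S E : Finset V) : Prop where
  strong : G.StrongIn W E
  sub : S ⊆ E
  least : ∀ F, G.StrongIn W F → S ⊆ F → E ⊆ F
  min : ∀ Y, G.ClosedIn W Y → S ⊆ Y → G.delta E ≤ G.delta Y

/-- three pieces of an amalgam -/
structure Config (A B C : Finset V) : Prop where
  kA : G.InK A
  kB : G.InK B
  kC : G.InK C
  edge : ∀ u ∈ A ∪ B ∪ C, ∀ v ∈ A ∪ B ∪ C, G.adj u v →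
    (u ∈ A ∧ v ∈ A) ∨ (u ∈ B ∧ v ∈ B) ∨ (u ∈ C ∧ v ∈ C)
  sAB : G.StrongIn A (A ∩ B)
  sAC : G.StrongIn A (A ∩ C)
  sBA : G.StrongIn B (A ∩ B)
  sBC : G.StrongIn B (B ∩ C)
  sCA : G.StrongIn C (A ∩ C)
  sCB : G.StrongIn C (B ∩ C)
  iA : G.Indep A (A ∩ B) (A ∩ C)
  iB : G.Indep B (A ∩ B) (B ∩ C)
  iC : G.Indep C (A ∩ C) (B ∩ C)

end Geo

/-- `f` is an embedding of the finite substructure `A` of `G` into `H`. -/
structure Emb {V V' : Type*} (G : Geo V) (A : Finset V) (H : Geo V') (f : V → V') : Prop where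
  inj : Set.InjOn f (A : Set V)
  kind : ∀ u ∈ A, H.kind (f u) = G.kind u
  adj : ∀ u ∈ A, ∀ v ∈ A, H.adj (f u) (f v) ↔ G.adj u v

end Pool.Agent.SF
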