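import Pool.Agent.SF.Lang
import Pool.Agent.SF.Compact

/-!
# Module A6: a stable forking formula when the type is algebraic over `B` but not over `A`
-/

set_option autoImplicit false

namespace Pool.Agent.SF

open FirstOrder FirstOrder.Language

namespace Div1

variable {M : Type} {X : TypeSpace M}

open TypeSpace

section

variable {N N' : Type} [X.lang.Structure N] [X.lang.Structure N']

theorem same_of {ι κ : Type} {v : ι → N} {v' : ι → N'} (h : X.Same v v') (f : κ → ι)
    {w : κ → N} {w' : κ → N'} (hw : ∀ x, w x = v (f x)) (hw' : ∀ x, w' x = v' (f x)) :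
    X.Same w w' := by
  have e1 : w = v ∘ f := funext hw
  have e2 : w' = v' ∘ f := funext hw'
  rw [e1, e2]
  exact h.comp f

/-- `a` is algebraic over `b`, via a mirror in `M` -/
def MAlg (D : ForkData X) {κ : Type} [Finite κ] (b : κ → N) (a : N) : Prop :=
  ∃ (a₀ : M) (b₀ : κ → M),
    X.Same (Sum.elim b₀ fun _ : Unit => a₀) (Sum.elim b fun _ : Unit => a) ∧ D.Alg b₀ a₀

theorem MAlg.alg {D : ForkData X} {κ : Type} [Finite κ] {b : κ → N} {a : N} (h : MAlg D b a)
    {a₀ : M} {b₀ : κ → M}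
    (hs : X.Same (Sum.elim b₀ fun _ : Unit => a₀) (Sum.elim b fun _ : Unit => a)) :
    D.Alg b₀ a₀ := by
  obtain ⟨a₁, b₁, h1, h2⟩ := h
  have h3 := h1.trans hs.symm
  exact D.alg_inv (same_iff.mp h3) h2

theorem MAlg.of_comp (hN : N ⊨ X.th) {D : ForkData X} {κ κ' : Type} [Finite κ] [Finite κ']
    {b : κ → N} {a : N} (f : κ' → κ) (h : MAlg D (b ∘ f) a) : MAlg D b a := by
  obtain ⟨u, hu⟩ := exists_same (X := X) hN model_self (Sum.elim b fun _ : Unit => a)
  have h1 : X.Same (Sum.elim (fun i => u (Sum.inl i)) fun _ : Unit => u (Sum.inr ()))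
      (Sum.elim b fun _ : Unit => a) :=
    same_of hu id (by rintro (x | x) <;> rfl) (by rintro (x | x) <;> rfl)
  refine ⟨_, _, h1, ?_⟩
  refine D.alg_mono f (h.alg ?_)
  exact same_of h1 (Sum.map f id) (by rintro (x | x) <;> rfl) (by rintro (x | x) <;> rfl)

theorem card_le (hN : N ⊨ X.th) {D : ForkData X} {κ : Type} [Finite κ] {K : ℕ}
    (hK : ∀ b : κ → M, {a | D.Alg b a}.Finite ∧ {a | D.Alg b a}.ncard ≤ K) (b : κ → N)
    (s : Finset N) (hs : ∀ x ∈ s, MAlg D b x) : s.card ≤ K := by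
  obtain ⟨u, hu⟩ := exists_same (X := X) hN model_self
    (Sum.elim b fun x : {x // x ∈ s} => (x : N))
  have h1 : ∀ x : {x // x ∈ s}, D.Alg (fun i => u (Sum.inl i)) (u (Sum.inr x)) := by
    intro x
    refine (hs x x.2).alg ?_
    exact same_of hu (Sum.map id fun _ => x) (by rintro (y | y) <;> rfl)
      (by rintro (y | y) <;> rfl)
  have hinj : Function.Injective fun x : {x // x ∈ s} => u (Sum.inr x) := by
    intro x y hxy
    have := (hu.eq model_self hN (Sum.inr x) (Sum.inr y)).mp hxy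
    exact Subtype.ext this
  obtain ⟨hf, hc⟩ := hK fun i => u (Sum.inl i)
  have h2 : Set.range (fun x : {x // x ∈ s} => u (Sum.inr x)) ⊆
      {a | D.Alg (fun i => u (Sum.inl i)) a} := by
    rintro _ ⟨x, rfl⟩
    exact h1 x
  have h3 := Set.ncard_le_ncard h2 hf
  have h4 : (Set.range (fun x : {x // x ∈ s} => u (Sum.inr x))).ncard = s.card := by
    rw [← Set.image_univ, Set.ncard_image_of_injective _ hinj, Set.ncard_univ]
    simp
  omega

theorem fibre_finite (hN : N ⊨ X.th) {D : ForkData X} {κ : Type} [Finite κ] {b : κ → N} {a : N}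
    (h : MAlg D b a) :
    {a' : N | X.Same (Sum.elim b fun _ : Unit => a') (Sum.elim b fun _ : Unit => a)}.Finite := by
  obtain ⟨K, hK⟩ := D.alg_fin κ
  by_contra hinf
  obtain ⟨s, hs, hc⟩ := Set.Infinite.exists_subset_card_eq hinf (K + 1)
  have := card_le hN hK b s (by
    intro x hx
    have h1 : X.Same (Sum.elim b fun _ : Unit => x) (Sum.elim b fun _ : Unit => a) :=
      hs (Finset.mem_coe.mpr hx)
    obtain ⟨a₀, b₀, h2, h3⟩ := h
    exact ⟨a₀, b₀, h2.trans h1.symm, h3⟩)
  omega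

/-- finite satisfiability -/
theorem sat (hN : N ⊨ X.th) (D : ForkData X) {A : Set N} {a : N}
    (hA : ∀ (l : ℕ) (c : Fin l → N), (∀ j, c j ∈ A) → ∀ (a₀ : M) (c₀ : Fin l → M),
      X.Same (Sum.elim c₀ fun _ : Unit => a₀) (Sum.elim c fun _ : Unit => a) → ¬ D.Alg c₀ a₀)
    {m : ℕ} {b : Fin m → N} {a₀ : M} {b₀ : Fin m → M}
    (hs : X.Same (Sum.elim b₀ fun _ : Unit => a₀) (Sum.elim b fun _ : Unit => a))
    (hB : D.Alg b₀ a₀)
    (hmin : ∀ (l : ℕ) (c : Fin l → N), (∀ j, c j ∈ A) → ∀ a' : N,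
      X.Same (Sum.elim b fun _ : Unit => a') (Sum.elim b fun _ : Unit => a) →
      X.Same (Sum.elim c fun _ : Unit => a') (Sum.elim c fun _ : Unit => a))
    (φ : X.lang.Formula (Fin 1 ⊕ Fin m))
    (hφ : ∀ v : Fin 1 ⊕ Fin m → N, φ.Realize v ↔ X.Same (Sum.elim (fun _ : Fin 1 => a₀) b₀) v)
    (K l : ℕ) (c : Fin l → N) (hc : ∀ j, c j ∈ A) :
    ∃ d : ℕ → Fin m → N, (∀ i < K, X.Same (Sum.elim (d i) c) (Sum.elim b c)) ∧
      ∀ i < K, ∀ j < K, i ≠ j → ¬ ∃ x : Fin 1 → N,
        φ.Realize (Sum.elim x (d i)) ∧ φ.Realize (Sum.elim x (d j)) := by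
  -- mirror of `c`
  obtain ⟨c₀, hc₀⟩ := hs.symm.ext hN model_self c
  -- `hc₀ : Same ((b, a), c) ((b₀, a₀), c₀)`
  obtain ⟨d₀, hd1, hd2⟩ := D.free b₀ c₀ K
  have hcc : X.Same c₀ c :=
    same_of hc₀.symm (fun j => Sum.inr j) (fun _ => rfl) (fun _ => rfl)
  have hbc : X.Same (Sum.elim b₀ c₀) (Sum.elim b c) :=
    same_of hc₀.symm (Sum.map (fun j => Sum.inl j) id) (by rintro (x | x) <;> rfl)
      (by rintro (x | x) <;> rfl)
  obtain ⟨d', hd'⟩ := hcc.ext model_self hN (fun p : Fin K × Fin m => d₀ p.1 p.2)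
  -- `hd' : Same (c₀, d₀) (c, d')`
  refine ⟨fun i => if h : i < K then fun t => d' (⟨i, h⟩, t) else b, ?_, ?_⟩
  · intro i hi
    simp only [dif_pos hi]
    have h1 : X.Same (Sum.elim (d₀ ⟨i, hi⟩) c₀) (Sum.elim (fun t => d' (⟨i, hi⟩, t)) c) :=
      same_of hd' (Sum.elim (fun t => Sum.inr (⟨i, hi⟩, t)) fun t => Sum.inl t)
        (by rintro (x | x) <;> rfl) (by rintro (x | x) <;> rfl)
    exact h1.symm.trans ((same_iff.mpr (hd1 ⟨i, hi⟩)).trans hbc)
  · intro i hi j hj hij
    simp only [dif_pos hi, dif_pos hj]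
    rintro ⟨x, hxi, hxj⟩
    obtain ⟨x₀, hx₀⟩ := hd'.symm.ext hN model_self x
    -- `hx₀ : Same ((c, d'), x) ((c₀, d₀), x₀)`
    have key : ∀ (k : ℕ) (hk : k < K), φ.Realize (Sum.elim x fun t => d' (⟨k, hk⟩, t)) →
        D.Alg (Sum.elim (d₀ ⟨k, hk⟩) c₀) (x₀ 0) ∧
        X.Same (Sum.elim (d₀ ⟨k, hk⟩) fun _ : Unit => x₀ 0) (Sum.elim b₀ fun _ : Unit => a₀) := by
      intro k hk hφk
      rw [hφ] at hφk
      have h1 : X.Same (Sum.elim x₀ (d₀ ⟨k, hk⟩)) (Sum.elim x fun t => d' (⟨k, hk⟩, t)) :=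
        same_of hx₀.symm (Sum.elim (fun t => Sum.inr t) fun t => Sum.inl (Sum.inr (⟨k, hk⟩, t)))
          (by rintro (x | x) <;> rfl) (by rintro (x | x) <;> rfl)
      have h2 : X.Same (Sum.elim (fun _ : Fin 1 => a₀) b₀) (Sum.elim x₀ (d₀ ⟨k, hk⟩)) :=
        hφk.trans h1.symm
      have h3 : X.Same (Sum.elim b₀ fun _ : Unit => a₀)
          (Sum.elim (d₀ ⟨k, hk⟩) fun _ : Unit => x₀ 0) :=
        same_of h2 (Sum.elim (fun t => Sum.inr t) fun _ => Sum.inl 0)
          (by rintro (x | x) <;> rfl) (by rintro (x | x) <;> rfl)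
      refine ⟨?_, h3.symm⟩
      have h4 : D.Alg (d₀ ⟨k, hk⟩) (x₀ 0) := D.alg_inv (same_iff.mp h3) hB
      exact D.alg_mono (b := Sum.elim (d₀ ⟨k, hk⟩) c₀) (fun t => Sum.inl t) h4
    obtain ⟨hi1, hi2⟩ := key i hi hxi
    obtain ⟨hj1, _⟩ := key j hj hxj
    have hne : (⟨i, hi⟩ : Fin K) ≠ ⟨j, hj⟩ := fun h => hij (Fin.mk.inj_iff.mp h)
    have h5 : D.Alg c₀ (x₀ 0) := hd2 _ _ hne _ hi1 hj1
    -- move `x₀` over `b₀`
    obtain ⟨x₁, hx₁⟩ := X.bf (hd1 ⟨i, hi⟩) (fun _ : Unit => x₀ 0)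
    have hx₁' := same_iff.mpr hx₁
    -- `hx₁' : Same ((d₀ i, c₀), x₀ 0) ((b₀, c₀), x₁)`
    have h6 : D.Alg c₀ (x₁ ()) := by
      refine D.alg_inv (same_iff.mp ?_) h5
      exact same_of hx₁' (Sum.map (fun t => Sum.inr t) id)
        (by rintro (x | x) <;> rfl) (by rintro (x | x) <;> rfl)
    have h7 : X.Same (Sum.elim b₀ fun _ : Unit => x₁ ()) (Sum.elim b₀ fun _ : Unit => a₀) := by
      refine Same.trans ?_ hi2
      exact (same_of hx₁' (Sum.map (fun t => Sum.inl t) id)
        (by rintro (x | x) <;> rfl) (by rintro (x | x) <;> rfl)).symm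
    -- back to `N`
    obtain ⟨x₂, hx₂⟩ := hbc.ext model_self hN x₁
    have h8 : X.Same (Sum.elim b fun _ : Unit => x₂ ()) (Sum.elim b fun _ : Unit => a) := by
      refine Same.trans ?_ hs
      refine Same.trans ?_ h7
      exact (same_of hx₂ (Sum.map (fun t => Sum.inl t) id)
        (by rintro (x | x) <;> rfl) (by rintro (x | x) <;> rfl)).symm
    have h9 := hmin l c hc (x₂ ()) h8
    refine hA l c hc (x₁ ()) c₀ ?_ h6
    refine Same.trans ?_ h9
    exact same_of hx₂ (Sum.map (fun t => Sum.inr t) id)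
        (by rintro (x | x) <;> rfl) (by rintro (x | x) <;> rfl)

end

/-! ### the formulas -/

section formulas

variable {L : FirstOrder.Language.{0, 0}} {N : Type} {m : ℕ}

/-- `ψ(d_i, c)` -/
def fT (i l : ℕ) (ψ : L.Formula (Fin m ⊕ Fin l)) (c : Fin l → N) : L.Formula (N ⊕ (ℕ × Fin m)) :=
  ψ.relabel (Sum.elim (fun t => Sum.inr (i, t)) fun j => Sum.inl (c j))

theorem realize_fT {N' : Type} [L.Structure N'] (e : N → N') (v : ℕ × Fin m → N') (i l : ℕ)
    (ψ : L.Formula (Fin m ⊕ Fin l)) (c : Fin l → N) :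
    (fT i l ψ c).Realize (Sum.elim e v) ↔
      ψ.Realize (Sum.elim (fun t => v (i, t)) (e ∘ c)) := by
  unfold fT
  rw [Formula.realize_relabel]
  have : Sum.elim e v ∘ (Sum.elim (fun t : Fin m => Sum.inr (i, t)) fun j => Sum.inl (c j)) =
      Sum.elim (fun t => v (i, t)) (e ∘ c) := by
    funext x
    rcases x with x | x <;> rfl
  rw [this]

/-- `φ(x, d_i)` with `x` as extra variables -/
def fX (N : Type) (φ : L.Formula (Fin 1 ⊕ Fin m)) (i : ℕ) :
    L.Formula ((N ⊕ (ℕ × Fin m)) ⊕ Fin 1) :=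
  φ.relabel (Sum.elim (fun t => Sum.inr t) fun t => Sum.inl (Sum.inr (i, t)))

theorem realize_fX {N' : Type} [L.Structure N'] (e : N → N') (v : ℕ × Fin m → N') (x : Fin 1 → N')
    (φ : L.Formula (Fin 1 ⊕ Fin m)) (i : ℕ) :
    (fX N φ i).Realize (Sum.elim (Sum.elim e v) x) ↔
      φ.Realize (Sum.elim x fun t => v (i, t)) := by
  unfold fX
  rw [Formula.realize_relabel]
  have : Sum.elim (Sum.elim e v) x ∘ (Sum.elim (fun t : Fin 1 => Sum.inr t)
      fun t : Fin m => Sum.inl (Sum.inr (i, t))) = Sum.elim x fun t => v (i, t) := by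
    funext x
    rcases x with x | x <;> rfl
  rw [this]

/-- no common solution of `φ(x, d_i)` and `φ(x, d_j)` -/
noncomputable def fE (N : Type) (φ : L.Formula (Fin 1 ⊕ Fin m)) (i j : ℕ) :
    L.Formula (N ⊕ (ℕ × Fin m)) :=
  ∼(Formula.iExs (Fin 1) (fX N φ i ⊓ fX N φ j))

theorem realize_fE {N' : Type} [L.Structure N'] (e : N → N') (v : ℕ × Fin m → N')
    (φ : L.Formula (Fin 1 ⊕ Fin m)) (i j : ℕ) :
    (fE N φ i j).Realize (Sum.elim e v) ↔
      ¬ ∃ x : Fin 1 → N', φ.Realize (Sum.elim x fun t => v (i, t)) ∧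
        φ.Realize (Sum.elim x fun t => v (j, t)) := by
  unfold fE
  rw [Formula.realize_not, Formula.realize_iExs]
  simp only [Formula.realize_inf, realize_fX]

/-- the set of formulas describing the sequence -/
def Gam [L.Structure N] (A : Set N) (b : Fin m → N) (φ : L.Formula (Fin 1 ⊕ Fin m)) :
    Set (L.Formula (N ⊕ (ℕ × Fin m))) :=
  {χ | (∃ (i l : ℕ) (ψ : L.Formula (Fin m ⊕ Fin l)) (c : Fin l → N), (∀ j, c j ∈ A) ∧
      ψ.Realize (Sum.elim b c) ∧ χ = fT i l ψ c) ∨ ∃ i j : ℕ, i ≠ j ∧ χ = fE N φ i j}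

end formulas

section

variable {N : Type} [X.lang.Structure N]

theorem collect (hN : N ⊨ X.th) {m : ℕ} (A : Set N) (b : Fin m → N)
    (φ : X.lang.Formula (Fin 1 ⊕ Fin m)) (Δ : Finset (X.lang.Formula (N ⊕ (ℕ × Fin m))))
    (hΔ : (Δ : Set (X.lang.Formula (N ⊕ (ℕ × Fin m)))) ⊆ Gam A b φ) :
    ∃ (K l : ℕ) (c : Fin l → N), (∀ j, c j ∈ A) ∧ ∀ d : ℕ → Fin m → N,
      (∀ i < K, X.Same (Sum.elim (d i) c) (Sum.elim b c)) →
      (∀ i < K, ∀ j < K, i ≠ j → ¬ ∃ x : Fin 1 → N,
        φ.Realize (Sum.elim x (d i)) ∧ φ.Realize (Sum.elim x (d j))) →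
      ∀ χ ∈ Δ, χ.Realize (Sum.elim id fun p => d p.1 p.2) := by
  classical
  induction Δ using Finset.induction_on with
  | empty =>
    exact ⟨0, 0, Fin.elim0, fun j => j.elim0, fun d _ _ χ hχ => by simp at hχ⟩
  | insert χ Δ _ ih =>
    obtain ⟨K, l, c, hc, h⟩ := ih (fun x hx => hΔ (by
      rw [Finset.coe_insert]; exact Set.mem_insert_of_mem _ hx))
    have hχ : χ ∈ Gam A b φ := hΔ (by rw [Finset.coe_insert]; exact Set.mem_insert _ _)
    rcases hχ with ⟨i, l', ψ, c', hc', hψ, rfl⟩ | ⟨i, j, hij, rfl⟩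
    · refine ⟨max K (i + 1), l + l', Fin.append c c', ?_, ?_⟩
      · intro j
        refine Fin.addCases (fun j => ?_) (fun j => ?_) j
        · rw [Fin.append_left]; exact hc j
        · rw [Fin.append_right]; exact hc' j
      · intro d h1 h2 χ' hχ'
        rw [Finset.mem_insert] at hχ'
        rcases hχ' with rfl | hχ'
        · rw [realize_fT]
          have h3 := h1 i (lt_of_lt_of_le (Nat.lt_succ_self i) (le_max_right _ _))
          have h4 : X.Same (Sum.elim (d i) c') (Sum.elim b c') :=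
            same_of h3 (Sum.map id (Fin.natAdd l))
              (by rintro (x | x)
                  · rfl
                  · exact (Fin.append_right c c' x).symm)
              (by rintro (x | x)
                  · rfl
                  · exact (Fin.append_right c c' x).symm)
          exact (h4.realize hN hN ψ).mpr hψ
        · refine h d ?_ ?_ χ' hχ'
          · intro k hk
            refine same_of (h1 k (lt_of_lt_of_le hk (le_max_left _ _)))
              (Sum.map id (Fin.castAdd l'))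
              (by rintro (x | x)
                  · rfl
                  · exact (Fin.append_left c c' x).symm)
              (by rintro (x | x)
                  · rfl
                  · exact (Fin.append_left c c' x).symm)
          · intro k hk k' hk'
            exact h2 k (lt_of_lt_of_le hk (le_max_left _ _)) k'
              (lt_of_lt_of_le hk' (le_max_left _ _))
    · refine ⟨max K (max (i + 1) (j + 1)), l, c, hc, ?_⟩
      intro d h1 h2 χ' hχ'
      rw [Finset.mem_insert] at hχ'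
      rcases hχ' with rfl | hχ'
      · rw [realize_fE]
        refine h2 i ?_ j ?_ hij
        · exact lt_of_lt_of_le (Nat.lt_succ_self i)
            ((le_max_left _ _).trans (le_max_right _ _))
        · exact lt_of_lt_of_le (Nat.lt_succ_self j)
            ((le_max_right _ _).trans (le_max_right _ _))
      · refine h d ?_ ?_ χ' hχ'
        · intro k hk
          exact h1 k (lt_of_lt_of_le hk (le_max_left _ _))
        · intro k hk k' hk'
          exact h2 k (lt_of_lt_of_le hk (le_max_left _ _)) k'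
            (lt_of_lt_of_le hk' (le_max_left _ _))

theorem divides (hN : N ⊨ X.th) [Nonempty N] {m : ℕ} (A : Set N) (b : Fin m → N)
    (φ : X.lang.Formula (Fin 1 ⊕ Fin m))
    (hsat : ∀ (K l : ℕ) (c : Fin l → N), (∀ j, c j ∈ A) →
      ∃ d : ℕ → Fin m → N, (∀ i < K, X.Same (Sum.elim (d i) c) (Sum.elim b c)) ∧
      ∀ i < K, ∀ j < K, i ≠ j → ¬ ∃ x : Fin 1 → N,
        φ.Realize (Sum.elim x (d i)) ∧ φ.Realize (Sum.elim x (d j))) : Divides φ b A := by
  classical
  obtain ⟨N', iN', e, v, hv⟩ := exists_elementary_realizing (L := X.lang) (N := N)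
    (ι := ℕ × Fin m) (Gam A b φ) (by
      intro Δ hΔ
      obtain ⟨K, l, c, hc, h⟩ := collect hN A b φ Δ hΔ
      obtain ⟨d, hd1, hd2⟩ := hsat K l c hc
      exact ⟨fun p => d p.1 p.2, h d hd1 hd2⟩)
  refine ⟨N', iN', e, 2, fun i t => v (i, t), ?_, ?_⟩
  · intro i l ψ c hc
    have key : ∀ ψ : X.lang.Formula (Fin m ⊕ Fin l), ψ.Realize (Sum.elim b c) →
        ψ.Realize (Sum.elim (fun t => v (i, t)) (e ∘ c)) := by
      intro ψ hψ
      have := hv (fT i l ψ c) (Or.inl ⟨i, l, ψ, c, hc, hψ, rfl⟩)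
      rwa [realize_fT] at this
    constructor
    · intro h
      by_contra hcon
      have := key (∼ψ) (by rwa [Formula.realize_not])
      rw [Formula.realize_not] at this
      exact this h
    · exact key ψ
  · intro I hI
    obtain ⟨i, j, hij, rfl⟩ := Finset.card_eq_two.mp hI
    have := hv (fE N φ i j) (Or.inr ⟨i, j, hij, rfl⟩)
    rw [realize_fE] at this
    rintro ⟨x, hx⟩
    exact this ⟨x, hx i (by simp), hx j (by simp)⟩

theorem stable_of_bdd {L : FirstOrder.Language.{0, 0}} {T : L.Theory} {m : ℕ}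
    (φ : L.Formula (Fin 1 ⊕ Fin m)) (K : ℕ)
    (h : ∀ (N : FirstOrder.Language.Theory.ModelType.{0, 0, 0} T) (b : Fin m → N)
      (s : Finset N), (∀ a ∈ s, φ.Realize (Sum.elim (fun _ => a) b)) → s.card ≤ K) :
    StableFormula T φ := by
  classical
  rintro ⟨N, a, b, hab⟩
  have e : ∀ i, a i = fun _ => a i 0 := fun i => funext fun x => by
    rw [Subsingleton.elim x 0]
  have hinj : Function.Injective fun i => a i 0 := by
    intro i j hij
    have hij' : a i = a j := by rw [e i, e j]; exact funext fun _ => hij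
    by_contra hne
    rcases lt_or_gt_of_ne hne with h1 | h1
    · have h2 := (hab i j).mpr h1
      rw [hij'] at h2
      exact lt_irrefl _ ((hab j j).mp h2)
    · have h2 := (hab j i).mpr h1
      rw [← hij'] at h2
      exact lt_irrefl _ ((hab i i).mp h2)
  have h1 := h N (b (K + 1)) ((Finset.range (K + 1)).image fun i => a i 0) (by
    intro x hx
    obtain ⟨i, hi, rfl⟩ := Finset.mem_image.mp hx
    have h2 := (hab i (K + 1)).mpr (Finset.mem_range.mp hi)
    rw [e i] at h2
    exact h2)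
  rw [Finset.card_image_of_injective _ hinj, Finset.card_range] at h1
  omega

theorem forks_of_divides {L : FirstOrder.Language.{0, 0}} {N : Type} [L.Structure N] {n m : ℕ}
    {φ : L.Formula (Fin n ⊕ Fin m)} {b : Fin m → N} {A : Set N} (h : Divides φ b A) :
    Forks φ b A := by
  refine ⟨N, inferInstance, ElementaryEmbedding.refl L N, 1, fun _ => m, fun _ => φ, fun _ => b,
    ?_, ?_⟩
  · intro _
    have : (ElementaryEmbedding.refl L N : N → N) '' A = A := by
      ext x
      simp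
    rw [this]
    exact h
  · intro x hx
    exact ⟨0, hx⟩

end

end Div1

open TypeSpace Div1 in
theorem ForkData.exists_stable {M : Type} {X : TypeSpace M} (D : ForkData X)
    (N : FirstOrder.Language.Theory.ModelType.{0, 0, 0} X.th)
    {A B : Set N} (hAB : A ⊆ B) (a : N)
    (hA : ∀ (l : ℕ) (c : Fin l → N), (∀ j, c j ∈ A) → ∀ (a₀ : M) (c₀ : Fin l → M),
      X.Same (Sum.elim c₀ fun _ : Unit => a₀) (Sum.elim c fun _ : Unit => a) → ¬ D.Alg c₀ a₀)
    {m : ℕ} {b : Fin m → N} (hb : ∀ j, b j ∈ B) {a₀ : M} {b₀ : Fin m → M}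
    (hs : X.Same (Sum.elim b₀ fun _ : Unit => a₀) (Sum.elim b fun _ : Unit => a))
    (hB : D.Alg b₀ a₀) :
    ∃ (m : ℕ) (φ : X.lang.Formula (Fin 1 ⊕ Fin m)) (b : Fin m → N), (∀ i, b i ∈ B) ∧
      φ.Realize (Sum.elim (fun _ => a) b) ∧ Forks φ b A ∧ StableFormula X.th φ := by
  classical
  have hN : N ⊨ X.th := N.is_model
  -- a tuple with the smallest fibre
  have hex : ∃ k : ℕ, ∃ (m : ℕ) (b : Fin m → N), (∀ j, b j ∈ B) ∧ MAlg D b a ∧
      {a' : N | X.Same (Sum.elim b fun _ : Unit => a') (Sum.elim b fun _ : Unit => a)}.ncard = k :=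
    ⟨_, m, b, hb, ⟨a₀, b₀, hs, hB⟩, rfl⟩
  obtain ⟨m, b, hb, hm, hk⟩ := Nat.find_spec hex
  have hmin := fun k (hk : k < Nat.find hex) => Nat.find_min hex hk
  clear hs hB
  obtain ⟨a₀, b₀, hs, hB⟩ := id hm
  have hfib : ∀ (l : ℕ) (c : Fin l → N), (∀ j, c j ∈ A) → ∀ a' : N,
      X.Same (Sum.elim b fun _ : Unit => a') (Sum.elim b fun _ : Unit => a) →
      X.Same (Sum.elim c fun _ : Unit => a') (Sum.elim c fun _ : Unit => a) := by
    intro l c hc a' ha'
    let bc : Fin (m + l) → N := Fin.append b c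
    have h1 : ∀ j, bc j ∈ B := by
      intro j
      refine Fin.addCases (fun j => ?_) (fun j => ?_) j
      · change Fin.append b c _ ∈ B
        rw [Fin.append_left]; exact hb j
      · change Fin.append b c _ ∈ B
        rw [Fin.append_right]; exact hAB (hc j)
    have h2 : MAlg D bc a := by
      refine MAlg.of_comp hN (Fin.castAdd l) ?_
      have : bc ∘ Fin.castAdd l = b := by
        funext j
        exact Fin.append_left b c j
      rw [this]; exact hm
    have h3 : {a' : N | X.Same (Sum.elim bc fun _ : Unit => a')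
        (Sum.elim bc fun _ : Unit => a)} ⊆
        {a' : N | X.Same (Sum.elim b fun _ : Unit => a') (Sum.elim b fun _ : Unit => a)} := by
      intro x hx
      refine same_of hx (Sum.map (Fin.castAdd l) id) ?_ ?_
      · rintro (y | y)
        · exact (Fin.append_left b c y).symm
        · rfl
      · rintro (y | y)
        · exact (Fin.append_left b c y).symm
        · rfl
    have h4 : {a' : N | X.Same (Sum.elim bc fun _ : Unit => a')
        (Sum.elim bc fun _ : Unit => a)} =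
        {a' : N | X.Same (Sum.elim b fun _ : Unit => a') (Sum.elim b fun _ : Unit => a)} := by
      refine Set.eq_of_subset_of_ncard_le h3 ?_ (fibre_finite hN hm)
      rw [hk]
      by_contra hlt
      push Not at hlt
      exact hmin _ hlt ⟨m + l, bc, h1, h2, rfl⟩
    have h5 : X.Same (Sum.elim bc fun _ : Unit => a') (Sum.elim bc fun _ : Unit => a) := by
      have : a' ∈ {a' : N | X.Same (Sum.elim b fun _ : Unit => a')
        (Sum.elim b fun _ : Unit => a)} := ha'
      rw [← h4] at this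
      exact this
    refine same_of h5 (Sum.map (Fin.natAdd m) id) ?_ ?_
    · rintro (y | y)
      · exact (Fin.append_right b c y).symm
      · rfl
    · rintro (y | y)
      · exact (Fin.append_right b c y).symm
      · rfl
  -- the isolating formula
  obtain ⟨φ, hφ⟩ := exists_isolating X (Sum.elim (fun _ : Fin 1 => a₀) b₀)
  refine ⟨m, φ, b, hb, ?_, ?_, ?_⟩
  · rw [hφ N hN]
    exact same_of hs (Sum.elim (fun _ => Sum.inr ()) fun t => Sum.inl t)
      (by rintro (x | x) <;> rfl) (by rintro (x | x) <;> rfl)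
  · apply forks_of_divides
    exact divides hN A b φ (fun K l c hc => sat hN D hA hs hB hfib φ (fun v => hφ N hN v) K l c hc)
  · obtain ⟨K, hK⟩ := D.alg_fin (Fin m)
    refine stable_of_bdd φ K ?_
    intro N' b' s hs'
    refine card_le N'.is_model hK b' s ?_
    intro x hx
    have h1 := (hφ N' N'.is_model _).mp (hs' x hx)
    exact ⟨a₀, b₀, same_of h1 (Sum.elim (fun t => Sum.inr t) fun _ => Sum.inl 0)
      (by rintro (x | x) <;> rfl) (by rintro (x | x) <;> rfl), hB⟩

end Pool.Agent.SF
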