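import Pool.Agent.SF.ForkDefs

/-!
# Abstract type spaces
-/

set_option autoImplicit false

namespace Pool.Agent.SF

/-- A system of equivalence relations on finite tuples of `M` with the back-and-forth property and
finitely many classes in each length. -/
structure TypeSpace (M : Type) where
  R : ∀ {ι : Type} [Finite ι], (ι → M) → (ι → M) → Prop
  refl : ∀ {ι : Type} [Finite ι] (v : ι → M), R v v
  symm : ∀ {ι : Type} [Finite ι] {v w : ι → M}, R v w → R w v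
  trans : ∀ {ι : Type} [Finite ι] {u v w : ι → M}, R u v → R v w → R u w
  fin : ∀ (ι : Type) [Finite ι], ∃ s : Set (ι → M), s.Finite ∧ ∀ v, ∃ w ∈ s, R v w
  reindex : ∀ {ι κ : Type} [Finite ι] [Finite κ] (f : ι → κ) {v w : κ → M},
    R v w → R (v ∘ f) (w ∘ f)
  eq : ∀ {ι : Type} [Finite ι] {v w : ι → M}, R v w → ∀ i j, v i = v j → w i = w j
  bf : ∀ {ι κ : Type} [Finite ι] [Finite κ] {v w : ι → M}, R v w →
    ∀ a : κ → M, ∃ b : κ → M, R (Sum.elim v a) (Sum.elim w b)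

/-- An abstract rank `rk (a / b)` and an abstract algebraic closure. -/
structure ForkData {M : Type} (X : TypeSpace M) where
  /-- the rank of `a` over `b` -/
  rk : ∀ {ι κ : Type} [Finite ι] [Finite κ], (ι → M) → (κ → M) → ℕ
  rk_inv : ∀ {ι κ : Type} [Finite ι] [Finite κ] {a a' : ι → M} {b b' : κ → M},
    X.R (Sum.elim a b) (Sum.elim a' b') → rk a b = rk a' b'
  rk_mono : ∀ {ι κ κ' : Type} [Finite ι] [Finite κ] [Finite κ'] (a : ι → M) (b : κ → M)
    (f : κ' → κ), rk a b ≤ rk a (b ∘ f)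
  rk_ext : ∀ {ι κ κ' : Type} [Finite ι] [Finite κ] [Finite κ'] (a : ι → M) (b : κ → M)
    (c : κ' → M), ∃ a' : ι → M, X.R (Sum.elim a' b) (Sum.elim a b) ∧
      rk a' (Sum.elim b c) = rk a b
  nd : ∀ {ι κ κ' : Type} [Finite ι] [Finite κ] [Finite κ'] {a : ι → M} {b : κ → M} {c : κ' → M},
    rk a (Sum.elim b c) = rk a c →
    ∀ w : ℕ → κ → M, (∀ i, X.R (Sum.elim (w i) c) (Sum.elim b c)) → ∀ k : ℕ,
      ∃ (I : Finset ℕ) (a' : ι → M), I.card = k ∧
        ∀ i ∈ I, X.R (Sum.elim a' (Sum.elim (w i) c)) (Sum.elim a (Sum.elim b c))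
  /-- `a` is algebraic over `b` -/
  Alg : ∀ {κ : Type} [Finite κ], (κ → M) → M → Prop
  alg_inv : ∀ {κ : Type} [Finite κ] {b b' : κ → M} {a a' : M},
    X.R (Sum.elim b fun _ : Unit => a) (Sum.elim b' fun _ : Unit => a') → Alg b a → Alg b' a'
  alg_mono : ∀ {κ κ' : Type} [Finite κ] [Finite κ'] {b : κ → M} {a : M} (f : κ' → κ),
    Alg (b ∘ f) a → Alg b a
  alg_fin : ∀ (κ : Type) [Finite κ], ∃ K : ℕ, ∀ b : κ → M,
    {a | Alg b a}.Finite ∧ {a | Alg b a}.ncard ≤ K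
  alg_rk : ∀ {κ : Type} [Finite κ] {b : κ → M} {a : M}, ¬ Alg b a →
    rk (fun _ : Fin 1 => a) b = rk (fun _ : Fin 1 => a) (Fin.elim0 : Fin 0 → M)
  free : ∀ {κ κ' : Type} [Finite κ] [Finite κ'] (b : κ → M) (c : κ' → M) (K : ℕ),
    ∃ d : Fin K → κ → M, (∀ i, X.R (Sum.elim (d i) c) (Sum.elim b c)) ∧
      ∀ i j, i ≠ j → ∀ a, Alg (Sum.elim (d i) c) a → Alg (Sum.elim (d j) c) a → Alg c a

end Pool.Agent.SF
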