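import Pool.Agent.SF.GenDefs
import Pool.Agent.SF.ModelDefs
import Pool.Agent.SF.Emb
import Pool.Agent.SF.Clm
import Pool.Agent.SF.Clm2

/-!
# The type space of the generic structure
-/

set_option autoImplicit false

namespace Pool.Agent.SF

section M

variable {G : Geo ℕ} {F : ℕ → Finset ℕ} {A B E S S' Y : Finset ℕ}

theorem mem_rg {ι : Type} [Finite ι] (v : ι → PV G) (a : ℕ) : a ∈ rg v ↔ ∃ i, (v i).1 = a := by
  simp [rg]

theorem rg_comp {ι κ : Type} [Finite ι] [Finite κ] (v : κ → PV G) (f : ι → κ) :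
    rg (v ∘ f) ⊆ rg v := by
  intro a ha
  rw [mem_rg] at ha ⊢
  obtain ⟨i, hi⟩ := ha
  exact ⟨f i, hi⟩

theorem rg_sum {ι κ : Type} [Finite ι] [Finite κ] (v : ι → PV G) (w : κ → PV G) :
    rg (Sum.elim v w) = rg v ∪ rg w := by
  ext a
  rw [Finset.mem_union, mem_rg, mem_rg, mem_rg]
  constructor
  · rintro ⟨i | i, hi⟩
    · exact Or.inl ⟨i, hi⟩
    · exact Or.inr ⟨i, hi⟩
  · rintro (⟨i, hi⟩ | ⟨i, hi⟩)
    · exact ⟨Sum.inl i, hi⟩
    · exact ⟨Sum.inr i, hi⟩

/-- the image of a range -/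
theorem rg_image {ι : Type} [Finite ι] {v w : ι → PV G} {f : ℕ → ℕ}
    (h : ∀ i, f (v i).1 = (w i).1) : (rg v).image f = rg w := by
  ext a
  rw [Finset.mem_image, mem_rg]
  constructor
  · rintro ⟨x, hx, rfl⟩
    obtain ⟨i, rfl⟩ := (mem_rg v x).1 hx
    exact ⟨i, (h i).symm⟩
  · rintro ⟨i, rfl⟩
    exact ⟨(v i).1, (mem_rg v _).2 ⟨i, rfl⟩, h i⟩

theorem rg_kind {ι : Type} [Finite ι] (v : ι → PV G) : ∀ a ∈ rg v, G.kind a = .P := by
  intro a ha
  obtain ⟨i, rfl⟩ := (mem_rg v a).1 ha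
  exact (v i).2

theorem rg_card_le {ι : Type} [Finite ι] (v : ι → PV G) : (rg v).card ≤ Nat.card ι := by
  classical
  have : Fintype ι := Fintype.ofFinite ι
  have h : rg v = Finset.univ.image fun i => (v i).1 := by
    ext a
    rw [mem_rg]
    simp
  rw [h, Nat.card_eq_fintype_card]
  exact Finset.card_image_le

theorem TRel.refl {ι : Type} [Finite ι] (v : ι → PV G) : TRel G F v v :=
  ⟨id, ⟨Set.injOn_id _, fun _ _ => rfl, fun _ _ _ _ => Iff.rfl⟩, Finset.image_id, fun _ => rfl⟩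

/-- a criterion for `TRel` -/
theorem TRel.of_emb (hG : Generic G F) {ι : Type} [Finite ι] {v w : ι → PV G} {f : ℕ → ℕ}
    (hA : SM G F A) (hv : rg v ⊆ A) (hf : Emb G A G f) (hf' : SM G F (A.image f))
    (h : ∀ i, f (v i).1 = (w i).1) : TRel G F v w := by
  refine ⟨f, hf.mono (clM_subset hG hA hv), ?_, h⟩
  rw [← clM_image hG hA hf hf' hv, rg_image h]

theorem TRel.symm (hG : Generic G F) {ι : Type} [Finite ι] {v w : ι → PV G}
    (h : TRel G F v w) : TRel G F w v := by
  obtain ⟨f, hf, him, hi⟩ := h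
  obtain ⟨g, hg, hgf, hfg⟩ := hf.exists_inv
  rw [him] at hg hfg
  refine ⟨g, hg, ?_, ?_⟩
  · rw [← him, Finset.image_image]
    calc (clM G F (rg v)).image (g ∘ f) = (clM G F (rg v)).image id :=
          Finset.image_congr (fun a ha => hgf a ha)
      _ = _ := Finset.image_id
  · intro i
    rw [← hi i]
    exact hgf _ (subset_clM hG _ ((mem_rg v _).2 ⟨i, rfl⟩))

theorem TRel.trans (hG : Generic G F) {ι : Type} [Finite ι] {u v w : ι → PV G}
    (h : TRel G F u v) (h' : TRel G F v w) : TRel G F u w := by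
  obtain ⟨f, hf, him, hi⟩ := h
  obtain ⟨g, hg, him', hi'⟩ := h'
  refine ⟨g ∘ f, hf.comp (by rw [him]; exact hg), ?_, ?_⟩
  · rw [← Finset.image_image, him, him']
  · intro i
    rw [Function.comp_apply, hi, hi']

theorem tsp_kind_finite : Finite Kind := by
  refine Finite.of_injective (fun k => (k.idx : ℕ) |> fun n => (Fin.ofNat 4 n)) ?_
  intro a b h
  rcases a with _ | (_ | _) | _ <;> rcases b with _ | (_ | _) | _ <;>
    first | rfl | (exfalso; revert h; decide)

theorem TRel.finite (hG : Generic G F) (ι : Type) [Finite ι] :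
    ∃ s : Set (ι → PV G), s.Finite ∧ ∀ v, ∃ w ∈ s, TRel G F v w := by
  classical
  have hkind : Finite Kind := tsp_kind_finite
  set K : ℕ := 3 ^ (Nat.card ι) with hK
  have hcard : ∀ v : ι → PV G, (clM G F (rg v)).card ≤ K := by
    intro v
    have h1 := SM.card_le hG (clM_strong hG (rg v))
    have h2 := clM_delta_le_card hG (rg_kind v)
    have h3 := rg_card_le v
    have h4 : (G.delta (clM G F (rg v))).toNat ≤ Nat.card ι := by omega
    have h5 : (3 : ℤ) ^ (G.delta (clM G F (rg v))).toNat ≤ 3 ^ (Nat.card ι) :=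
      pow_le_pow_right₀ (by norm_num) h4
    have h6 : ((clM G F (rg v)).card : ℤ) ≤ ((3 ^ (Nat.card ι) : ℕ) : ℤ) := by
      push_cast; exact h1.trans h5
    exact_mod_cast h6
  have henum : ∀ v : ι → PV G, ∃ e : ℕ → Fin (K + 1), Set.InjOn e (clM G F (rg v) : Set ℕ) := by
    intro v
    have h1 : (clM G F (rg v)).card ≤ (Finset.univ : Finset (Fin (K + 1))).card := by
      rw [Finset.card_univ, Fintype.card_fin]
      exact (hcard v).trans (Nat.le_succ _)
    obtain ⟨t, -, ht⟩ := Finset.exists_subset_card_eq h1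
    obtain ⟨e⟩ : Nonempty ((clM G F (rg v)) ≃ t) := by
      rw [← Fintype.card_eq, Fintype.card_coe, Fintype.card_coe, ht]
    refine ⟨fun x => if hx : x ∈ clM G F (rg v) then (e ⟨x, hx⟩ : Fin (K + 1)) else 0, ?_⟩
    intro x hx y hy hxy
    have hx' : x ∈ clM G F (rg v) := hx
    have hy' : y ∈ clM G F (rg v) := hy
    simp only [hx', hy', dif_pos] at hxy
    have := e.injective (Subtype.ext hxy)
    simpa using this
  choose e he using henum
  -- the code
  let code : (ι → PV G) → Set (Fin (K + 1)) × Set (Fin (K + 1) × Kind) ×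
      Set (Fin (K + 1) × Fin (K + 1)) × (ι → Fin (K + 1)) := fun v =>
    ({x | ∃ a ∈ clM G F (rg v), e v a = x}, {x | ∃ a ∈ clM G F (rg v), x = (e v a, G.kind a)},
      {x | ∃ a ∈ clM G F (rg v), ∃ b ∈ clM G F (rg v), G.adj a b ∧ x = (e v a, e v b)},
      fun i => e v (v i).1)
  have hcode : ∀ v w, code v = code w → TRel G F v w := by
    intro v w hvw
    have h1 : {x | ∃ a ∈ clM G F (rg v), e v a = x} = {x | ∃ a ∈ clM G F (rg w), e w a = x} :=
      congrArg (fun c => c.1) hvw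
    have h2 : {x | ∃ a ∈ clM G F (rg v), x = (e v a, G.kind a)} =
        {x | ∃ a ∈ clM G F (rg w), x = (e w a, G.kind a)} := congrArg (fun c => c.2.1) hvw
    have h3 : {x | ∃ a ∈ clM G F (rg v), ∃ b ∈ clM G F (rg v), G.adj a b ∧ x = (e v a, e v b)} =
        {x | ∃ a ∈ clM G F (rg w), ∃ b ∈ clM G F (rg w), G.adj a b ∧ x = (e w a, e w b)} :=
      congrArg (fun c => c.2.2.1) hvw
    have h4 : ∀ i, e v (v i).1 = e w (w i).1 := fun i =>
      congrFun (congrArg (fun c => c.2.2.2) hvw) i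
    have hf : ∀ a ∈ clM G F (rg v), ∃ b ∈ clM G F (rg w), e w b = e v a := by
      intro a ha
      have : e v a ∈ {x | ∃ a ∈ clM G F (rg v), e v a = x} := ⟨a, ha, rfl⟩
      rw [h1] at this
      exact this
    have hf' : ∀ b ∈ clM G F (rg w), ∃ a ∈ clM G F (rg v), e v a = e w b := by
      intro a ha
      have : e w a ∈ {x | ∃ a ∈ clM G F (rg w), e w a = x} := ⟨a, ha, rfl⟩
      rw [← h1] at this
      exact this
    let f : ℕ → ℕ := fun a => if ha : a ∈ clM G F (rg v) then (hf a ha).choose else 0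
    have f1 : ∀ a ∈ clM G F (rg v), f a ∈ clM G F (rg w) := by
      intro a ha
      simp only [f, ha, dif_pos]
      exact (hf a ha).choose_spec.1
    have f2 : ∀ a ∈ clM G F (rg v), e w (f a) = e v a := by
      intro a ha
      simp only [f, ha, dif_pos]
      exact (hf a ha).choose_spec.2
    refine ⟨f, ⟨?_, ?_, ?_⟩, ?_, ?_⟩
    · intro a ha b hb hab
      apply he v ha hb
      rw [← f2 a ha, ← f2 b hb, hab]
    · intro a ha
      have h5 : (e v a, G.kind a) ∈ {x | ∃ a ∈ clM G F (rg v), x = (e v a, G.kind a)} :=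
        ⟨a, ha, rfl⟩
      rw [h2] at h5
      obtain ⟨b, hb, hb'⟩ := h5
      rw [Prod.mk.injEq] at hb'
      have h6 : f a = b := he w (f1 a ha) hb (by rw [f2 a ha, hb'.1])
      rw [h6, hb'.2]
    · intro a ha b hb
      constructor
      · intro hab
        have h5 : (e w (f a), e w (f b)) ∈ {x | ∃ a ∈ clM G F (rg w), ∃ b ∈ clM G F (rg w),
            G.adj a b ∧ x = (e w a, e w b)} := ⟨f a, f1 a ha, f b, f1 b hb, hab, rfl⟩
        rw [← h3] at h5
        obtain ⟨a', ha', b', hb', hab', heq⟩ := h5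
        rw [Prod.mk.injEq, f2 a ha, f2 b hb] at heq
        rw [he v ha ha' heq.1, he v hb hb' heq.2]
        exact hab'
      · intro hab
        have h5 : (e v a, e v b) ∈ {x | ∃ a ∈ clM G F (rg v), ∃ b ∈ clM G F (rg v),
            G.adj a b ∧ x = (e v a, e v b)} := ⟨a, ha, b, hb, hab, rfl⟩
        rw [h3] at h5
        obtain ⟨a', ha', b', hb', hab', heq⟩ := h5
        rw [Prod.mk.injEq] at heq
        have h6 : f a = a' := he w (f1 a ha) ha' (by rw [f2 a ha, heq.1])
        have h7 : f b = b' := he w (f1 b hb) hb' (by rw [f2 b hb, heq.2])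
        rw [h6, h7]
        exact hab'
    · ext b
      rw [Finset.mem_image]
      constructor
      · rintro ⟨a, ha, rfl⟩
        exact f1 a ha
      · intro hb
        obtain ⟨a, ha, hab⟩ := hf' b hb
        exact ⟨a, ha, he w (f1 a ha) hb (by rw [f2 a ha, hab])⟩
    · intro i
      have hvi : (v i).1 ∈ clM G F (rg v) := subset_clM hG _ ((mem_rg v _).2 ⟨i, rfl⟩)
      have hwi : (w i).1 ∈ clM G F (rg w) := subset_clM hG _ ((mem_rg w _).2 ⟨i, rfl⟩)
      exact he w (f1 _ hvi) hwi (by rw [f2 _ hvi, h4])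
  refine ⟨Set.range (fun c : Set.range code => c.2.choose), Set.finite_range _, fun v => ?_⟩
  refine ⟨_, ⟨⟨code v, ⟨v, rfl⟩⟩, rfl⟩, ?_⟩
  apply hcode
  exact ((⟨code v, ⟨v, rfl⟩⟩ : Set.range code).2.choose_spec).symm

theorem TRel.reindex (hG : Generic G F) {ι κ : Type} [Finite ι] [Finite κ] (f : ι → κ)
    {v w : κ → PV G} (h : TRel G F v w) : TRel G F (v ∘ f) (w ∘ f) := by
  obtain ⟨g, hg, him, hi⟩ := h
  refine TRel.of_emb hG (clM_strong hG (rg v)) ((rg_comp v f).trans (subset_clM hG _)) hg ?_ ?_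
  · rw [him]; exact clM_strong hG _
  · intro i
    exact hi (f i)

theorem TRel.eq {ι : Type} [Finite ι] {v w : ι → PV G}
    (h : TRel G F v w) (i j : ι) (hij : v i = v j) : w i = w j := by
  obtain ⟨g, -, -, hi⟩ := h
  apply Subtype.ext
  rw [← hi i, ← hi j, hij]

theorem TRel.bf (hG : Generic G F) {ι κ : Type} [Finite ι] [Finite κ] {v w : ι → PV G}
    (h : TRel G F v w) (a : κ → PV G) :
    ∃ b : κ → PV G, TRel G F (Sum.elim v a) (Sum.elim w b) := by
  obtain ⟨f, hf, him, hi⟩ := h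
  obtain ⟨f', hf', hff, -⟩ := hf.exists_inv
  rw [him] at hf'
  set D := clM G F (rg (Sum.elim v a)) with hD
  have hDs : SM G F D := clM_strong hG _
  have hsub : clM G F (rg v) ⊆ D := by
    apply clM_mono hG
    rw [rg_sum]
    exact Finset.subset_union_left
  have himf' : (clM G F (rg w)).image f' = clM G F (rg v) := by
    rw [← him, Finset.image_image]
    calc (clM G F (rg v)).image (f' ∘ f) = (clM G F (rg v)).image id :=
          Finset.image_congr (fun a ha => hff a ha)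
      _ = _ := Finset.image_id
  obtain ⟨g, hg, hgf, hgs⟩ := Generic.ext' hG (clM_strong hG (rg w)) (H := G) (D := D) hf'
    (SM.inK hG hDs) (by rw [himf']; exact SM.strongIn hG (clM_strong hG _) hDs hsub)
  have haD : ∀ k, (a k).1 ∈ D := fun k =>
    subset_clM hG _ ((mem_rg (Sum.elim v a) _).2 ⟨Sum.inr k, rfl⟩)
  refine ⟨fun k => ⟨g (a k).1, by rw [hg.kind _ (haD k)]; exact (a k).2⟩, ?_⟩
  refine TRel.of_emb hG hDs (subset_clM hG _) hg hgs ?_
  rintro (i | k)
  · change g (v i).1 = (w i).1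
    have h1 : f' (w i).1 = (v i).1 := by
      rw [← hi i]
      exact hff _ (subset_clM hG _ ((mem_rg v _).2 ⟨i, rfl⟩))
    rw [← h1]
    exact hgf _ (subset_clM hG _ ((mem_rg w _).2 ⟨i, rfl⟩))
  · rfl

noncomputable def typeSpace (hG : Generic G F) : TypeSpace (PV G) where
  R := fun v w => TRel G F v w
  refl := TRel.refl
  symm := TRel.symm hG
  trans := TRel.trans hG
  fin := fun ι _ => TRel.finite hG ι
  reindex := TRel.reindex hG
  eq := fun h i j hij => TRel.eq h i j hij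
  bf := TRel.bf hG

end M

end Pool.Agent.SF
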