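import Pool.Agent.SF.GenDefs
import Pool.Agent.SF.ModelDefs
import Pool.Agent.SF.Delta
import Pool.Agent.SF.Emb
import Pool.Agent.SF.Clm
import Pool.Agent.SF.Clm2
import Pool.Agent.SF.TSp

/-!
# The forking data, part 1: the rank and the algebraic closure
-/

set_option autoImplicit false

namespace Pool.Agent.SF

section M

variable {G : Geo ℕ} {F : ℕ → Finset ℕ}

theorem fd1_image_rg {ι : Type} [Finite ι] {v w : ι → PV G} {f : ℕ → ℕ}
    (h : ∀ i, f (v i).1 = (w i).1) : (rg v).image f = rg w := by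
  ext x
  rw [Finset.mem_image, mem_rg]
  constructor
  · rintro ⟨y, hy, rfl⟩
    obtain ⟨i, rfl⟩ := (mem_rg v y).1 hy
    exact ⟨i, (h i).symm⟩
  · rintro ⟨i, rfl⟩
    exact ⟨(v i).1, (mem_rg v _).2 ⟨i, rfl⟩, h i⟩

/-- restriction of an isomorphism of closures -/
theorem fd1_cl (hG : Generic G F) {ι κ : Type} [Finite ι] [Finite κ] {v w : ι → PV G}
    {v' w' : κ → PV G} {f : ℕ → ℕ} (hf : Emb G (clM G F (rg v)) G f)
    (hi : (clM G F (rg v)).image f = clM G F (rg w)) (hs : rg v' ⊆ clM G F (rg v))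
    (h' : ∀ i, f (v' i).1 = (w' i).1) :
    (clM G F (rg v')).image f = clM G F (rg w') := by
  rw [← fd1_image_rg h', clM_image hG (clM_strong hG _) hf (by rw [hi]; exact clM_strong hG _) hs]

theorem rkT_inv (hG : Generic G F) {ι κ : Type} [Finite ι] [Finite κ] {a a' : ι → PV G}
    {b b' : κ → PV G} (h : TRel G F (Sum.elim a b) (Sum.elim a' b')) :
    rkT G F a b = rkT G F a' b' := by
  obtain ⟨f, hf, hi, hv⟩ := h
  have hs : rg b ⊆ clM G F (rg (Sum.elim a b)) := by
    refine Finset.Subset.trans ?_ (subset_clM hG _)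
    rw [rg_sum]
    exact Finset.subset_union_right
  have h1 := fd1_cl (w' := b') hG hf hi hs (fun i => hv (Sum.inr i))
  have h2 : G.delta (clM G F (rg a' ∪ rg b')) = G.delta (clM G F (rg a ∪ rg b)) := by
    rw [← rg_sum, ← rg_sum, ← hi]
    exact hf.delta_image (Finset.Subset.refl _)
  have h3 : G.delta (clM G F (rg b')) = G.delta (clM G F (rg b)) := by
    rw [← h1]
    exact hf.delta_image (clM_subset hG (clM_strong hG _) hs)
  unfold rkT
  rw [h2, h3]

theorem rkT_mono (hG : Generic G F) {ι κ κ' : Type} [Finite ι] [Finite κ] [Finite κ']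
    (a : ι → PV G) (b : κ → PV G) (f : κ' → κ) : rkT G F a b ≤ rkT G F a (b ∘ f) := by
  have h1 := clM_submod hG (clM_strong hG (rg a ∪ rg (b ∘ f))) (clM_strong hG (rg b))
  have h2 : G.delta (clM G F (rg a ∪ rg b))
      ≤ G.delta (clM G F (clM G F (rg a ∪ rg (b ∘ f)) ∪ clM G F (rg b))) := by
    refine SM.delta_mono hG (clM_strong hG _) (clM_strong hG _) (clM_mono hG ?_)
    refine Finset.union_subset_union ?_ (subset_clM hG _)
    exact Finset.Subset.trans Finset.subset_union_left (subset_clM hG _)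
  have h3 : G.delta (clM G F (rg (b ∘ f)))
      ≤ G.delta (clM G F (rg a ∪ rg (b ∘ f)) ∩ clM G F (rg b)) := by
    refine SM.delta_mono hG (clM_strong hG _)
      (SM.inter hG (clM_strong hG _) (clM_strong hG _)) (Finset.subset_inter ?_ ?_)
    · exact clM_mono hG Finset.subset_union_right
    · exact clM_mono hG (rg_comp b f)
  unfold rkT
  refine Int.toNat_le_toNat ?_
  omega

theorem rkT_ext (hG : Generic G F) {ι κ κ' : Type} [Finite ι] [Finite κ] [Finite κ']
    (a : ι → PV G) (b : κ → PV G) (c : κ' → PV G) :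
    ∃ a' : ι → PV G, TRel G F (Sum.elim a' b) (Sum.elim a b) ∧
      rkT G F a' (Sum.elim b c) = rkT G F a b := by
  have hAE : clM G F (rg b) ⊆ clM G F (rg a ∪ rg b) := clM_mono hG Finset.subset_union_right
  have hid : Emb G (clM G F (rg b)) G id :=
    ⟨Function.injective_id.injOn, fun _ _ => rfl, fun _ _ _ _ => Iff.rfl⟩
  have himg : (clM G F (rg b)).image id = clM G F (rg b) := Finset.image_id
  obtain ⟨g, hg, hgA, hgs, hgu, hgi, hδ⟩ := exists_free_copy hG (clM_strong hG (rg b))
    (clM_strong hG (rg b ∪ rg c)) (clM_strong hG (rg a ∪ rg b)) hAE hid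
    (by rw [himg]; exact clM_mono hG Finset.subset_union_left)
    (by rw [himg]; exact clM_strong hG _)
  have haE : ∀ i, (a i).1 ∈ clM G F (rg a ∪ rg b) := fun i =>
    subset_clM hG _ (Finset.mem_union_left _ ((mem_rg a _).2 ⟨i, rfl⟩))
  let a' : ι → PV G := fun i => ⟨g (a i).1, by rw [hg.kind _ (haE i)]; exact (a i).2⟩
  have hgb : ∀ i, g (b i).1 = (b i).1 := fun i =>
    hgA _ (subset_clM hG _ ((mem_rg b _).2 ⟨i, rfl⟩))
  have hgab : ∀ i : ι ⊕ κ, g (Sum.elim a b i).1 = (Sum.elim a' b i).1 := by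
    rintro (i | i)
    · rfl
    · exact hgb i
  have hsub : rg (Sum.elim a b) ⊆ clM G F (rg a ∪ rg b) := by
    rw [rg_sum]
    exact subset_clM hG _
  refine ⟨a', TRel.symm hG (TRel.of_emb hG (clM_strong hG (rg a ∪ rg b)) hsub hg hgs hgab), ?_⟩
  have hEg : (clM G F (rg a ∪ rg b)).image g = clM G F (rg a' ∪ rg b) := by
    rw [← rg_sum a' b, ← fd1_image_rg hgab, clM_image hG (clM_strong hG (rg a ∪ rg b)) hg hgs hsub,
      rg_sum]
  have hcl : clM G F (rg a' ∪ rg (Sum.elim b c))
      = (clM G F (rg a ∪ rg b)).image g ∪ clM G F (rg b ∪ rg c) := by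
    rw [rg_sum]
    apply Finset.Subset.antisymm
    · refine clM_subset hG hgu (Finset.union_subset ?_ ?_)
      · rw [hEg]
        refine Finset.Subset.trans ?_ Finset.subset_union_left
        exact Finset.Subset.trans Finset.subset_union_left (subset_clM hG _)
      · exact Finset.Subset.trans (subset_clM hG _) Finset.subset_union_right
    · rw [hEg]
      refine Finset.union_subset (clM_mono hG ?_) (clM_mono hG Finset.subset_union_right)
      exact Finset.union_subset_union_right Finset.subset_union_left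
  unfold rkT
  rw [hcl, hδ, rg_sum]
  congr 1
  ring

theorem AlgT.inv (hG : Generic G F) {κ : Type} [Finite κ] {b b' : κ → PV G} {a a' : PV G}
    (h : TRel G F (Sum.elim b fun _ : Unit => a) (Sum.elim b' fun _ : Unit => a'))
    (hI : AlgT G F b a) : AlgT G F b' a' := by
  obtain ⟨f, hf, hi, hv⟩ := h
  have hs : rg b ⊆ clM G F (rg (Sum.elim b fun _ : Unit => a)) := by
    refine Finset.Subset.trans ?_ (subset_clM hG _)
    rw [rg_sum]
    exact Finset.subset_union_left
  have h1 := fd1_cl (w' := b') hG hf hi hs (fun i => hv (Sum.inl i))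
  unfold AlgT at hI ⊢
  rw [← h1]
  have h2 : f a.1 = a'.1 := hv (Sum.inr ())
  rw [← h2]
  exact Finset.mem_image_of_mem f hI

theorem AlgT.mono (hG : Generic G F) {κ κ' : Type} [Finite κ] [Finite κ'] {b : κ → PV G}
    {a : PV G} (f : κ' → κ) (h : AlgT G F (b ∘ f) a) : AlgT G F b a :=
  clM_mono hG (rg_comp b f) h

theorem AlgT.fin (hG : Generic G F) (κ : Type) [Finite κ] : ∃ K : ℕ, ∀ b : κ → PV G,
    {a | AlgT G F b a}.Finite ∧ {a | AlgT G F b a}.ncard ≤ K := by
  classical
  refine ⟨3 ^ Nat.card κ, fun b => ?_⟩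
  have hinj : Set.InjOn (fun a : PV G => a.1) {a | AlgT G F b a} :=
    Subtype.val_injective.injOn
  have himg : (fun a : PV G => a.1) '' {a | AlgT G F b a} ⊆ (clM G F (rg b) : Set ℕ) := by
    rintro _ ⟨a, ha, rfl⟩
    exact ha
  have hfin : ((fun a : PV G => a.1) '' {a | AlgT G F b a}).Finite :=
    Set.Finite.subset (Finset.finite_toSet _) himg
  refine ⟨Set.Finite.of_finite_image hfin hinj, ?_⟩
  rw [← hinj.ncard_image]
  refine (Set.ncard_le_ncard himg (Finset.finite_toSet _)).trans ?_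
  rw [Set.ncard_coe_finset]
  have h1 := SM.card_le hG (clM_strong hG (rg b))
  have h2 : G.delta (clM G F (rg b)) ≤ (rg b).card := by
    refine clM_delta_le_card hG ?_
    intro v hv
    obtain ⟨i, rfl⟩ := (mem_rg b v).1 hv
    exact (b i).2
  have h3 : (rg b).card ≤ Nat.card κ := by
    have h0 : rg b = (Set.finite_range fun i => (b i).1).toFinset := rfl
    rw [h0, ← Set.ncard_eq_toFinset_card _ (Set.finite_range fun i => (b i).1), ← Set.image_univ]
    refine (Set.ncard_image_le (Set.finite_univ)).trans ?_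
    rw [Set.ncard_univ]
  have h4 : (G.delta (clM G F (rg b))).toNat ≤ Nat.card κ := by omega
  have h5 : (3 : ℤ) ^ (G.delta (clM G F (rg b))).toNat ≤ 3 ^ Nat.card κ :=
    pow_le_pow_right₀ (by norm_num) h4
  exact_mod_cast h1.trans h5

theorem AlgT.rk (hG : Generic G F) {κ : Type} [Finite κ] {b : κ → PV G} {a : PV G}
    (h : ¬ AlgT G F b a) :
    rkT G F (fun _ : Fin 1 => a) b = rkT G F (fun _ : Fin 1 => a) (Fin.elim0 : Fin 0 → PV G) := by
  have hra : rg (fun _ : Fin 1 => a) = {a.1} := by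
    ext x
    rw [mem_rg, Finset.mem_singleton]
    exact ⟨fun ⟨_, h⟩ => h.symm, fun h => ⟨0, h.symm⟩⟩
  have hr0 : rg (Fin.elim0 : Fin 0 → PV G) = ∅ := by
    ext x
    rw [mem_rg]
    exact ⟨fun ⟨i, _⟩ => i.elim0, fun h => absurd h (Finset.notMem_empty _)⟩
  obtain ⟨hcl, hd⟩ := clM_singleton hG a.2
  have hsa : SM G F {a.1} := by
    rw [← hcl]
    exact clM_strong hG _
  have h1 := clM_submod hG hsa (clM_strong hG (rg b))
  have h2 : ({a.1} : Finset ℕ) ∩ clM G F (rg b) = ∅ := Finset.singleton_inter_of_notMem h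
  rw [h2, Geo.delta_empty, hd] at h1
  have h3 : G.delta (clM G F ({a.1} ∪ rg b)) ≤ G.delta (clM G F ({a.1} ∪ clM G F (rg b))) :=
    SM.delta_mono hG (clM_strong hG _) (clM_strong hG _)
      (clM_mono hG (Finset.union_subset_union_right (subset_clM hG _)))
  have h4 : G.delta (clM G F (rg b)) < G.delta (clM G F ({a.1} ∪ rg b)) := by
    refine SM.delta_lt hG (clM_strong hG _) (clM_strong hG _) ?_
    refine (Finset.ssubset_iff_of_subset (clM_mono hG Finset.subset_union_right)).2 ⟨a.1, ?_, h⟩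
    exact subset_clM hG _ (Finset.mem_union_left _ (Finset.mem_singleton_self _))
  unfold rkT
  rw [hra, hr0, Finset.union_empty, hcl, hd, clM_eq hG (SM.empty hG), Geo.delta_empty]
  congr 1
  omega

end M

end Pool.Agent.SF
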