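import Pool.Agent.SF.Emb
import Pool.Agent.SF.Clm
import Pool.Agent.SF.Clm2

/-!
Module M13b (ND3): the structure `U`.
-/

set_option autoImplicit false

namespace Pool.Agent.SF

section M

variable {G : Geo ℕ} {F : ℕ → Finset ℕ} {A B E S S' Y : Finset ℕ}

/-- the image of a strong subset under a strong embedding is strong -/
theorem nd3_image (hG : Generic G F) (hE : SM G F E) (hY : SM G F Y) (hYE : Y ⊆ E) {τ : ℕ → ℕ}
    (hτ : Emb G E G τ) (hs : SM G F (E.image τ)) : SM G F (Y.image τ) :=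
  SM.trans hG hs ((hτ.strongIn_iff hYE).2 (SM.strongIn hG hY hE hYE))

/-- ND3: the structure `U` -/
theorem nd3 (hG : Generic G F) {N N₀ : Finset ℕ} (hB : SM G F B) (hE : SM G F E) (hY : SM G F Y)
    (hBE : B ⊆ E) (hYE : Y ⊆ E) (hcl : E = clM G F (Y ∪ B))
    (hδ : G.delta E + G.delta (Y ∩ B) = G.delta Y + G.delta B) {σ₀ : ℕ → ℕ} (hσ : Emb G B G σ₀)
    (hN : SM G F N) (hN₀ : SM G F N₀) (h₀ : N₀ ⊆ N) (hσN : B.image σ₀ ⊆ N)
    (hσs : SM G F (B.image σ₀)) (hσY : (Y ∩ B).image σ₀ ⊆ N₀) :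
    ∃ (U U₀ : Finset ℕ) (τ₀ : ℕ → ℕ), SM G F U ∧ SM G F U₀ ∧ Emb G E G τ₀ ∧ E.image τ₀ ⊆ U ∧
      SM G F (E.image τ₀) ∧ (∀ b ∈ B, τ₀ b = σ₀ b) ∧ N ⊆ U ∧ U₀ ⊆ U ∧ N₀ ⊆ U₀ ∧
      Y.image τ₀ ⊆ U₀ ∧ U₀ ∩ N = N₀ ∧ G.Indep U U₀ N := by
  obtain ⟨τ, hτ, hτσ, hτs, hUs, -, hUδ⟩ := exists_free_copy hG hB hN hE hBE hσ hσN hσs
  have hYB : SM G F (Y ∩ B) := SM.inter hG hY hB
  have hYBE : Y ∩ B ⊆ E := fun v hv => hYE (Finset.mem_inter.1 hv).1
  have himg : (Y ∩ B).image τ = (Y ∩ B).image σ₀ :=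
    Finset.image_congr fun v hv => hτσ v (Finset.mem_inter.1 (Finset.mem_coe.1 hv)).2
  have hYs : SM G F (Y.image τ) := nd3_image hG hE hY hYE hτ hτs
  have hYBs : SM G F ((Y ∩ B).image τ) := nd3_image hG hE hYB hYBE hτ hτs
  have hU₀s : SM G F (clM G F (N₀ ∪ Y.image τ)) := clM_strong hG _
  have hsub := subset_clM hG (N₀ ∪ Y.image τ)
  have hN₀U₀ : N₀ ⊆ clM G F (N₀ ∪ Y.image τ) := Finset.subset_union_left.trans hsub
  have hYU₀ : Y.image τ ⊆ clM G F (N₀ ∪ Y.image τ) := Finset.subset_union_right.trans hsub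
  have hU₀U : clM G F (N₀ ∪ Y.image τ) ⊆ E.image τ ∪ N :=
    clM_subset hG hUs (Finset.union_subset (h₀.trans Finset.subset_union_right)
      ((Finset.image_subset_image hYE).trans Finset.subset_union_left))
  -- the closure of `U₀ ∪ N` is `U`
  have hclU : clM G F (clM G F (N₀ ∪ Y.image τ) ∪ N) = E.image τ ∪ N := by
    apply Finset.Subset.antisymm
    · exact clM_subset hG hUs (Finset.union_subset hU₀U Finset.subset_union_right)
    · have hsub' := subset_clM hG (clM G F (N₀ ∪ Y.image τ) ∪ N)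
      have hN' : N ⊆ clM G F (clM G F (N₀ ∪ Y.image τ) ∪ N) :=
        Finset.subset_union_right.trans hsub'
      refine Finset.union_subset ?_ hN'
      have h1 : E.image τ = clM G F ((Y ∪ B).image τ) := by
        rw [clM_image hG hE hτ hτs (Finset.union_subset hYE hBE), ← hcl]
      rw [h1]
      refine clM_subset hG (clM_strong hG _) ?_
      rw [Finset.image_union]
      refine Finset.union_subset ?_ ?_
      · exact hYU₀.trans (Finset.subset_union_left.trans hsub')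
      · have h2 : B.image τ = B.image σ₀ :=
          Finset.image_congr fun v hv => hτσ v (Finset.mem_coe.1 hv)
        rw [h2]
        exact hσN.trans hN'
  have e1 := clM_submod hG hN₀ hYs
  have e2 : G.delta (Y.image τ) = G.delta Y := hτ.delta_image hYE
  have e3 : G.delta ((Y ∩ B).image τ) = G.delta (Y ∩ B) := hτ.delta_image hYBE
  have e4 : G.delta ((Y ∩ B).image τ) ≤ G.delta (N₀ ∩ Y.image τ) := by
    refine SM.delta_mono hG hYBs (SM.inter hG hN₀ hYs) (Finset.subset_inter ?_ ?_)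
    · rw [himg]; exact hσY
    · exact Finset.image_subset_image Finset.inter_subset_left
  have e5 := clM_submod hG hU₀s hN
  rw [hclU] at e5
  have hle : G.delta (clM G F (N₀ ∪ Y.image τ) ∩ N) ≤ G.delta N₀ := by
    linarith
  have hinter : clM G F (N₀ ∪ Y.image τ) ∩ N = N₀ := by
    by_contra hne
    have hss : N₀ ⊂ clM G F (N₀ ∪ Y.image τ) ∩ N :=
      (Finset.subset_inter hN₀U₀ h₀).ssubset_of_ne (fun h => hne h.symm)
    have := SM.delta_lt hG hN₀ (SM.inter hG hU₀s hN) hss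
    linarith
  refine ⟨E.image τ ∪ N, clM G F (N₀ ∪ Y.image τ), τ, hUs, hU₀s, hτ, Finset.subset_union_left,
    hτs, hτσ, Finset.subset_union_right, hU₀U, hN₀U₀, hYU₀, hinter, ?_, ?_, ?_⟩
  · exact (SM.strongIn hG hU₀s hUs hU₀U).closed
  · exact (SM.strongIn hG hN hUs Finset.subset_union_right).closed
  · intro X hX h1 h2
    have e6 := clM_min hG hUs hX (Finset.union_subset h1 h2)
    rw [hclU] at e6
    rw [hinter]
    linarith

end M

end Pool.Agent.SF
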