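import Pool.Agent.SF.Emb
import Pool.Agent.SF.Defect
import Pool.Agent.SF.Config1
import Pool.Agent.SF.Config3
import Pool.Agent.SF.Glue
import Pool.Agent.SF.Clm

/-!
# The inductive step of the nondividing argument
-/

set_option autoImplicit false

namespace Pool.Agent.SF

variable {G : Geo ℕ} {F : ℕ → Finset ℕ}

/-- ND4: the inductive step -/
theorem nd4 (hG : Generic G F) {N N₀ U U₀ W D D' N' : Finset ℕ}
    (hU : SM G F U) (hU₀ : SM G F U₀) (hN : SM G F N) (hN₀ : SM G F N₀)
    (hNU : N ⊆ U) (hUU : U₀ ⊆ U) (hUN : U₀ ∩ N = N₀) (hI : G.Indep U U₀ N)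
    (hW : SM G F W) (hD : SM G F D) (hDW : D ⊆ W) {u : ℕ → ℕ} (hu : Emb G U₀ G u)
    (huW : U₀.image u ⊆ W) (hus : SM G F (U₀.image u)) (hu₀ : ∀ v ∈ N₀, u v = v)
    (huD : U₀.image u ∩ D = N₀) (hWI : G.Indep W (U₀.image u) D)
    (hD' : SM G F D') (hDD' : D ⊆ D') (hN' : SM G F N') (hND' : N' ⊆ D') (hDN : D ∩ N' = N₀)
    (hDI : G.Indep D' D N') {θ : ℕ → ℕ} (hθ : Emb G N G θ) (hθN : N.image θ = N')
    (hθ₀ : ∀ v ∈ N₀, θ v = v) :
    ∃ (W' : Finset ℕ) (e υ : ℕ → ℕ), SM G F W' ∧ D' ⊆ W' ∧ Emb G W G e ∧ SM G F (W.image e) ∧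
      W.image e ⊆ W' ∧ (∀ d ∈ D, e d = d) ∧
      Emb G U G υ ∧ SM G F (U.image υ) ∧ U.image υ ⊆ W' ∧ (∀ v ∈ U₀, υ v = e (u v)) ∧
      (∀ v ∈ N, υ v = θ v) ∧ U₀.image (e ∘ u) ∩ D' = N₀ ∧ G.Indep W' (U₀.image (e ∘ u)) D' := by
  obtain ⟨h, hh, hhu, -⟩ := hu.exists_inv
  obtain ⟨g, hg, hgθ, -⟩ := hθ.exists_inv
  rw [hθN] at hg
  have himh : (U₀.image u).image h = U₀ := by
    rw [Finset.image_image]
    ext a
    simp only [Finset.mem_image, Function.comp_apply]
    constructor
    · rintro ⟨b, hb, rfl⟩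
      rw [hhu b hb]
      exact hb
    · intro ha
      exact ⟨a, ha, hhu a ha⟩
  have himg : N'.image g = N := by
    rw [← hθN, Finset.image_image]
    ext a
    simp only [Finset.mem_image, Function.comp_apply]
    constructor
    · rintro ⟨b, hb, rfl⟩
      rw [hgθ b hb]
      exact hb
    · intro ha
      exact ⟨a, ha, hgθ a ha⟩
  have hN₀U : N₀ ⊆ U₀ := hUN ▸ Finset.inter_subset_left
  have hN₀N : N₀ ⊆ N := hUN ▸ Finset.inter_subset_right
  have hN₀D : N₀ ⊆ D := hDN ▸ Finset.inter_subset_left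
  have hDu : D ∩ U₀.image u = N₀ := by rw [Finset.inter_comm]; exact huD
  have hh₀ : ∀ v ∈ N₀, h v = v := by
    intro v hv
    have := hhu v (hN₀U hv)
    rwa [hu₀ v hv] at this
  have hg₀ : ∀ v ∈ N₀, g v = v := by
    intro v hv
    have := hgθ v (hN₀N hv)
    rwa [hθ₀ v hv] at this
  have himN₀ : N₀.image h = N₀ := by
    conv_rhs => rw [← Finset.image_id (s := N₀)]
    exact Finset.image_congr fun v hv => hh₀ v hv
  have hid : Emb G D G (id : ℕ → ℕ) := ⟨fun _ _ _ _ h => h, fun _ _ => rfl, fun _ _ _ _ => Iff.rfl⟩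
  obtain ⟨δ, _, 𝒟, jA, jB, jC, eA, eB, eC, cAB, cAC, cBC, iAB, iAC, iBC, hConf⟩ :=
    amalg3 (GA := G) (GB := G) (GC := G) (A := W) (AB := D) (AC := U₀.image u) (B := D')
      (BC := N') (C := U) (f := id) (h := h) (g := g)
      (SM.inK hG hW) (SM.inK hG hD') (SM.inK hG hU) hid hh hg
      (SM.strongIn hG hD hW hDW) (SM.strongIn hG hus hW huW) hWI.symm
      (by rw [Finset.image_id]; exact SM.strongIn hG hD hD' hDD')
      (SM.strongIn hG hN' hD' hND') (by rw [Finset.image_id]; exact hDI)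
      (by rw [himh]; exact SM.strongIn hG hU₀ hU hUU)
      (by rw [himg]; exact SM.strongIn hG hN hU hNU) (by rw [himh, himg]; exact hI)
      (by rw [Finset.image_id, Finset.image_id, hDu, hDN])
      (by rw [hDu, himh, himg, hUN, himN₀])
      (by
        intro a ha
        rw [hDu] at ha
        rw [hh₀ a ha, id, hg₀ a ha])
  have hKall := hConf.inK
  have hsA := hConf.strong
  have hsB := hConf.swap12.strong
  have hsC := hConf.swap23.swap12.strong
  rw [Finset.union_comm (D'.image jB) (W.image jA)] at hsB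
  rw [Finset.union_comm (U.image jC) (W.image jA), Finset.union_assoc,
    Finset.union_comm (U.image jC) (D'.image jB), ← Finset.union_assoc] at hsC
  obtain ⟨ε, hε, hεB, hW'⟩ := hG.ext' hD' eB hKall hsB
  have hTA : W.image jA ⊆ W.image jA ∪ D'.image jB ∪ U.image jC := fun x hx => by simp_all
  have hTB : D'.image jB ⊆ W.image jA ∪ D'.image jB ∪ U.image jC := fun x hx => by simp_all
  have hTC : U.image jC ⊆ W.image jA ∪ D'.image jB ∪ U.image jC := fun x hx => by simp_all
  have hεid : ∀ d ∈ D, ε (jA d) = d := by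
    intro d hd
    rw [← cAB d hd]
    exact hεB d (hDD' hd)
  have hD'im : (D'.image jB).image ε = D' := by
    rw [Finset.image_image]
    conv_rhs => rw [← Finset.image_id (s := D')]
    exact Finset.image_congr fun v hv => hεB v hv
  have hACim : (U₀.image u).image jA = W.image jA ∩ U.image jC := iAC.symm
  have hUim : U₀.image ((ε ∘ jA) ∘ u) = ((U₀.image u).image jA).image ε := by
    rw [Finset.image_image, Finset.image_image, Function.comp_assoc]
  refine ⟨(W.image jA ∪ D'.image jB ∪ U.image jC).image ε, ε ∘ jA, ε ∘ jC, hW', ?_,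
    eA.comp (hε.mono hTA), ?_, ?_, hεid, eC.comp (hε.mono hTC), ?_, ?_, ?_, ?_, ?_, ?_⟩
  · conv_lhs => rw [← hD'im]
    exact Finset.image_subset_image hTB
  · rw [← Finset.image_image]
    exact SM.trans hG hW' ((hε.strongIn_iff hTA).2 hsA)
  · rw [← Finset.image_image]
    exact Finset.image_subset_image hTA
  · rw [← Finset.image_image]
    exact SM.trans hG hW' ((hε.strongIn_iff hTC).2 hsC)
  · rw [← Finset.image_image]
    exact Finset.image_subset_image hTC
  · intro v hv
    have := cAC (u v) (Finset.mem_image_of_mem u hv)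
    rw [hhu v hv] at this
    simp only [Function.comp_apply, this]
  · intro v hv
    have hv' : θ v ∈ N' := hθN ▸ Finset.mem_image_of_mem θ hv
    have := cBC (θ v) hv'
    rw [hgθ v hv] at this
    simp only [Function.comp_apply, this]
    exact hεB _ (hND' hv')
  · rw [hUim]
    conv_lhs => rw [← hD'im]
    rw [← Finset.image_inter_of_injOn _ _ (hε.inj.mono ?_)]
    · have h1 : (U₀.image u).image jA ∩ D'.image jB = N₀.image jA := by
        have h2 : (U₀.image u).image jA ⊆ W.image jA := Finset.image_subset_image huW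
        rw [← Finset.inter_eq_left.2 h2, Finset.inter_assoc, iAB,
          ← Finset.image_inter_of_injOn _ _ (eA.inj.mono ?_), huD]
        intro x hx
        rcases hx with hx | hx
        · exact huW hx
        · exact hDW hx
      rw [h1, Finset.image_image]
      conv_rhs => rw [← Finset.image_id (s := N₀)]
      exact Finset.image_congr fun v hv => hεid v (hN₀D hv)
    · intro x hx
      rcases hx with hx | hx
      · exact hTA (Finset.image_subset_image huW hx)
      · exact hTB hx
  · rw [hUim]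
    have h1 := hConf.indep
    rw [iAC] at h1
    have h2 := (hε.indep_iff (A := (U₀.image u).image jA)
      ((Finset.image_subset_image huW).trans hTA) hTB).2 h1
    rwa [hD'im] at h2

end Pool.Agent.SF
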