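import Pool.Agent.SF.Nd1
import Pool.Agent.SF.Nd3
import Pool.Agent.SF.Nd4

/-!
# Nondividing
-/

set_option autoImplicit false

namespace Pool.Agent.SF

section M

variable {G : Geo ℕ} {F : ℕ → Finset ℕ} {A B E S S' Y : Finset ℕ}

/-- strong subsets are transported by strong embeddings -/
private theorem SM.image_of (hG : Generic G F) {W X : Finset ℕ} {e : ℕ → ℕ} (hW : SM G F W)
    (he : Emb G W G e) (hWe : SM G F (W.image e)) (hX : SM G F X) (hXW : X ⊆ W) :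
    SM G F (X.image e) :=
  SM.trans hG hWe ((he.strongIn_iff hXW).2 (SM.strongIn hG hX hW hXW))

private theorem nd_induct (hG : Generic G F) {B : Finset ℕ} (σ : ℕ → ℕ → ℕ)
    {N₀ N U U₀ : Finset ℕ} {I I' : Set ℕ} {θ : ℕ → ℕ → ℕ}
    (hN₀ : SM G F N₀)
    (hfin : ∀ N₁, SM G F N₁ → N₀ ⊆ N₁ →
        {i ∈ I | ¬ (IndM G F N₁ (clM G F (N₀ ∪ B.image (σ i))) ∧
          N₁ ∩ clM G F (N₀ ∪ B.image (σ i)) = N₀)}.Finite)
    (hI'I : I' ⊆ I) (hI' : I'.Infinite) (hN : SM G F N)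
    (hθ : ∀ i ∈ I', Emb G N G (θ i) ∧ N.image (θ i) = clM G F (N₀ ∪ B.image (σ i)) ∧
      (∀ v ∈ N₀, θ i v = v))
    (hU : SM G F U) (hU₀ : SM G F U₀) (hNU : N ⊆ U) (hUU : U₀ ⊆ U) (hN₀U₀ : N₀ ⊆ U₀)
    (hUN : U₀ ∩ N = N₀) (hInd : G.Indep U U₀ N) (k : ℕ) :
    ∃ (J : Finset ℕ) (D W : Finset ℕ) (u : ℕ → ℕ) (υ : ℕ → ℕ → ℕ), J.card = k ∧
      (∀ i ∈ J, i ∈ I') ∧ SM G F D ∧ N₀ ⊆ D ∧ (∀ i ∈ J, clM G F (N₀ ∪ B.image (σ i)) ⊆ D) ∧
      SM G F W ∧ D ⊆ W ∧ Emb G U₀ G u ∧ U₀.image u ⊆ W ∧ SM G F (U₀.image u) ∧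
      (∀ v ∈ N₀, u v = v) ∧ U₀.image u ∩ D = N₀ ∧ G.Indep W (U₀.image u) D ∧
      ∀ i ∈ J, Emb G U G (υ i) ∧ U.image (υ i) ⊆ W ∧ SM G F (U.image (υ i)) ∧
        (∀ v ∈ U₀, υ i v = u v) ∧ (∀ v ∈ N, υ i v = θ i v) := by
  induction k with
  | zero =>
    refine ⟨∅, N₀, U₀, id, fun _ => id, rfl, by simp, hN₀, subset_rfl, by simp, hU₀, hN₀U₀,
      ⟨fun x _ y _ h => h, fun _ _ => rfl, fun _ _ _ _ => Iff.rfl⟩, by simp, by simpa using hU₀,
      fun _ _ => rfl, by simpa using Finset.inter_eq_right.2 hN₀U₀, ?_, by simp⟩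
    rw [Finset.image_id]
    refine ⟨Geo.ClosedIn.refl, (SM.strongIn hG hN₀ hU₀ hN₀U₀).closed, ?_⟩
    intro Y hY h1 _
    have : Y = U₀ := Finset.Subset.antisymm hY.sub h1
    rw [this, Finset.inter_eq_right.2 hN₀U₀]
    linarith
  | succ k ih =>
    obtain ⟨J, D, W, u, υ, hJk, hJI, hD, hN₀D, hJD, hW, hDW, hu, huW, hus, hu₀, huD, hWI, hυ⟩ := ih
    have hbad := hfin D hD hN₀D
    have hinf : (I' \ (↑J ∪ {i ∈ I | ¬ (IndM G F D (clM G F (N₀ ∪ B.image (σ i))) ∧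
          D ∩ clM G F (N₀ ∪ B.image (σ i)) = N₀)})).Infinite :=
      hI'.sdiff ((Finset.finite_toSet J).union hbad)
    obtain ⟨i, hi⟩ := hinf.nonempty
    have hiI' : i ∈ I' := hi.1
    have hiJ : i ∉ J := fun h => hi.2 (Or.inl h)
    have hig : IndM G F D (clM G F (N₀ ∪ B.image (σ i))) ∧
          D ∩ clM G F (N₀ ∪ B.image (σ i)) = N₀ := by
      by_contra h
      exact hi.2 (Or.inr ⟨hI'I hiI', h⟩)
    obtain ⟨hIM, hDN⟩ := hig
    obtain ⟨hθ1, hθ2, hθ3⟩ := hθ i hiI'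
    set N' := clM G F (N₀ ∪ B.image (σ i)) with hN'
    have hDD' : D ⊆ clM G F (D ∪ N') := Finset.subset_union_left.trans (subset_clM hG _)
    have hND' : N' ⊆ clM G F (D ∪ N') := Finset.subset_union_right.trans (subset_clM hG _)
    have hD' : SM G F (clM G F (D ∪ N')) := clM_strong hG _
    have hDI := IndM.indep hG hIM hD' hDD' hND'
    obtain ⟨W', e, υ', hW', hD'W', he, hWe, hWeW', heD, hυ1, hυ2, hυ3, hυ4, hυ5, hυ6, hυ7⟩ :=
      nd4 hG hU hU₀ hN hN₀ hNU hUU hUN hInd hW hD hDW hu huW hus hu₀ huD hWI hD' hDD'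
        (clM_strong hG _) hND' hDN hDI hθ1 hθ2 hθ3
    refine ⟨insert i J, clM G F (D ∪ N'), W', e ∘ u, fun j => if j = i then υ' else e ∘ υ j,
      by rw [Finset.card_insert_of_notMem hiJ, hJk], ?_, hD', hN₀D.trans hDD', ?_, hW', hD'W',
      ?_, ?_, ?_, ?_, hυ6, hυ7, ?_⟩
    · intro j hj
      rcases Finset.mem_insert.1 hj with rfl | hj
      · exact hiI'
      · exact hJI j hj
    · intro j hj
      rcases Finset.mem_insert.1 hj with rfl | hj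
      · exact hND'
      · exact (hJD j hj).trans hDD'
    · exact hu.comp (he.mono huW)
    · rw [← Finset.image_image]
      exact (Finset.image_subset_image huW).trans hWeW'
    · rw [← Finset.image_image]
      exact SM.image_of hG hW he hWe hus huW
    · intro v hv
      rw [Function.comp, hu₀ v hv, heD v (hN₀D hv)]
    · intro j hj
      by_cases hji : j = i
      · subst hji
        simp only [if_true]
        exact ⟨hυ1, hυ3, hυ2, hυ4, hυ5⟩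
      · have hjJ : j ∈ J := (Finset.mem_insert.1 hj).resolve_left hji
        obtain ⟨a1, a2, a3, a4, a5⟩ := hυ j hjJ
        simp only [if_neg hji]
        refine ⟨a1.comp (he.mono a2), ?_, ?_, ?_, ?_⟩
        · rw [← Finset.image_image]
          exact (Finset.image_subset_image a2).trans hWeW'
        · rw [← Finset.image_image]
          exact SM.image_of hG hW he hWe a3 a2
        · intro v hv
          rw [Function.comp, a4 v hv, Function.comp]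
        · intro v hv
          rw [Function.comp, a5 v hv]
          apply heD
          apply hJD j hjJ
          rw [← (hθ j (hJI j hjJ)).2.1]
          exact Finset.mem_image_of_mem _ hv

/-- ND5: nondividing -/
theorem nd (hG : Generic G F) (hB : SM G F B) (hE : SM G F E) (hY : SM G F Y)
    (hBE : B ⊆ E) (hYE : Y ⊆ E) (hcl : E = clM G F (Y ∪ B))
    (hδ : G.delta E + G.delta (Y ∩ B) = G.delta Y + G.delta B) (σ : ℕ → ℕ → ℕ)
    (hσ : ∀ i, Emb G B G (σ i)) (hσ' : ∀ i, SM G F (B.image (σ i)))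
    (hσY : ∀ i j, ∀ a ∈ Y ∩ B, σ i a = σ j a) (k : ℕ) :
    ∃ (I : Finset ℕ) (τ : ℕ → ℕ → ℕ), I.card = k ∧ ∀ i ∈ I, Emb G E G (τ i) ∧
      SM G F (E.image (τ i)) ∧ (∀ b ∈ B, τ i b = σ i b) ∧ ∀ y ∈ Y, ∀ j ∈ I, τ i y = τ j y := by
  obtain ⟨N₀, I, hN₀, hI, hAN₀, hfin⟩ := nd1 hG hB σ hσ hσ' (SM.inter hG hY hB)
    Finset.inter_subset_right hσY
  obtain ⟨i₀, I', θ, hi₀, hI'I, hI', hθ⟩ := nd2 hG hB σ hσ hσ' hN₀ hI
  have hN : SM G F (clM G F (N₀ ∪ B.image (σ i₀))) := clM_strong hG _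
  have hN₀N : N₀ ⊆ clM G F (N₀ ∪ B.image (σ i₀)) :=
    Finset.subset_union_left.trans (subset_clM hG _)
  have hBN : B.image (σ i₀) ⊆ clM G F (N₀ ∪ B.image (σ i₀)) :=
    Finset.subset_union_right.trans (subset_clM hG _)
  have hYN : (Y ∩ B).image (σ i₀) ⊆ N₀ := by
    rw [show (Y ∩ B).image (σ i₀) = (Y ∩ B).image (σ 0) from
      Finset.image_congr fun a ha => hσY i₀ 0 a ha]
    exact hAN₀
  obtain ⟨U, U₀, τ₀, hU, hU₀, hτ₀, hτU, hτs, hτB, hNU, hUU, hN₀U₀, hYU₀, hUN, hInd⟩ :=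
    nd3 hG hB hE hY hBE hYE hcl hδ (hσ i₀) hN hN₀ hN₀N hBN (hσ' i₀) hYN
  obtain ⟨J, D, W, u, υ, hJk, hJI, -, -, -, -, -, -, -, -, -, -, -, hυ⟩ :=
    nd_induct (B := B) hG σ (θ := θ) hN₀ hfin hI'I hI' hN
      (fun i hi => ⟨(hθ i hi).1, (hθ i hi).2.1, (hθ i hi).2.2.1⟩) hU hU₀ hNU hUU hN₀U₀ hUN hInd k
  refine ⟨J, fun i => υ i ∘ τ₀, hJk, fun i hi => ?_⟩
  obtain ⟨a1, a2, a3, a4, a5⟩ := hυ i hi
  refine ⟨hτ₀.comp (a1.mono hτU), ?_, ?_, ?_⟩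
  · rw [← Finset.image_image]
    exact SM.image_of hG hU a1 a3 hτs hτU
  · intro b hb
    have hb' : σ i₀ b ∈ clM G F (N₀ ∪ B.image (σ i₀)) := hBN (Finset.mem_image_of_mem _ hb)
    change υ i (τ₀ b) = σ i b
    rw [hτB b hb, a5 _ hb', (hθ i (hJI i hi)).2.2.2 b hb]
  · intro y hy j hj
    have hy' : τ₀ y ∈ U₀ := hYU₀ (Finset.mem_image_of_mem _ hy)
    change υ i (τ₀ y) = υ j (τ₀ y)
    rw [a4 _ hy', (hυ j hj).2.2.2.1 _ hy']

end M

end Pool.Agent.SF
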