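import Pool.Agent.SF.FD1
import Pool.Agent.SF.Nd5

/-!
# The forking data: nondividing and free sequences
-/

set_option autoImplicit false

namespace Pool.Agent.SF

section M

variable {G : Geo ℕ} {F : ℕ → Finset ℕ}

theorem rkT_nd (hG : Generic G F) {ι κ κ' : Type} [Finite ι] [Finite κ] [Finite κ']
    {a : ι → PV G} {b : κ → PV G} {c : κ' → PV G}
    (h : rkT G F a (Sum.elim b c) = rkT G F a c) (w : ℕ → κ → PV G)
    (hw : ∀ i, TRel G F (Sum.elim (w i) c) (Sum.elim b c)) (k : ℕ) :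
    ∃ (I : Finset ℕ) (a' : ι → PV G), I.card = k ∧
      ∀ i ∈ I, TRel G F (Sum.elim a' (Sum.elim (w i) c)) (Sum.elim a (Sum.elim b c)) := by
  have hC : SM G F (clM G F (rg c)) := clM_strong hG _
  have hY : SM G F (clM G F (rg a ∪ rg c)) := clM_strong hG _
  have hB : SM G F (clM G F (rg (Sum.elim b c))) := clM_strong hG _
  have hE : SM G F (clM G F (rg a ∪ rg (Sum.elim b c))) := clM_strong hG _
  have hCB' : rg c ⊆ rg (Sum.elim b c) := by rw [rg_sum]; exact Finset.subset_union_right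
  have hCB : clM G F (rg c) ⊆ clM G F (rg (Sum.elim b c)) := clM_mono hG hCB'
  have hCY : clM G F (rg c) ⊆ clM G F (rg a ∪ rg c) := clM_mono hG Finset.subset_union_right
  have hBE : clM G F (rg (Sum.elim b c)) ⊆ clM G F (rg a ∪ rg (Sum.elim b c)) :=
    clM_mono hG Finset.subset_union_right
  have hYE : clM G F (rg a ∪ rg c) ⊆ clM G F (rg a ∪ rg (Sum.elim b c)) :=
    clM_mono hG (Finset.union_subset_union_right hCB')
  have hcl : clM G F (rg a ∪ rg (Sum.elim b c)) =
      clM G F (clM G F (rg a ∪ rg c) ∪ clM G F (rg (Sum.elim b c))) := by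
    apply Finset.Subset.antisymm
    · apply clM_mono hG
      exact Finset.union_subset_union (Finset.subset_union_left.trans (subset_clM hG _))
        (subset_clM hG _)
    · exact clM_subset hG hE (Finset.union_subset hYE hBE)
  have hδ1 : G.delta (clM G F (rg a ∪ rg (Sum.elim b c))) - G.delta (clM G F (rg (Sum.elim b c)))
      = G.delta (clM G F (rg a ∪ rg c)) - G.delta (clM G F (rg c)) := by
    have h1 := SM.delta_mono hG hB hE hBE
    have h2 := SM.delta_mono hG hC hY hCY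
    unfold rkT at h
    omega
  have hsub := clM_submod hG hY hB
  rw [← hcl] at hsub
  have hCI : clM G F (rg c) ⊆ clM G F (rg a ∪ rg c) ∩ clM G F (rg (Sum.elim b c)) :=
    Finset.subset_inter hCY hCB
  have hYB : clM G F (rg a ∪ rg c) ∩ clM G F (rg (Sum.elim b c)) = clM G F (rg c) := by
    by_contra hne
    have := SM.delta_lt hG hC (SM.inter hG hY hB)
      (Finset.ssubset_iff_subset_ne.2 ⟨hCI, fun h => hne h.symm⟩)
    linarith
  have hδ : G.delta (clM G F (rg a ∪ rg (Sum.elim b c))) +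
      G.delta (clM G F (rg a ∪ rg c) ∩ clM G F (rg (Sum.elim b c))) =
      G.delta (clM G F (rg a ∪ rg c)) + G.delta (clM G F (rg (Sum.elim b c))) := by
    rw [hYB]; linarith
  have hw' : ∀ i, TRel G F (Sum.elim b c) (Sum.elim (w i) c) := fun i => TRel.symm hG (hw i)
  choose f hf hfi hfv using hw'
  have hfs : ∀ i, SM G F ((clM G F (rg (Sum.elim b c))).image (f i)) := by
    intro i
    rw [hfi i]
    exact clM_strong hG _
  have hfC : ∀ i, (clM G F (rg c)).image (f i) = clM G F (rg c) := by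
    intro i
    exact fd1_cl (w' := c) hG (hf i) (hfi i) (hCB'.trans (subset_clM hG _))
      (fun j => hfv i (Sum.inr j))
  have hφm : ∀ i, ∀ x : {x // x ∈ clM G F (rg c)}, f i x.1 ∈ clM G F (rg c) := by
    intro i x
    have : f i x.1 ∈ (clM G F (rg c)).image (f i) := Finset.mem_image_of_mem _ x.2
    rwa [hfC i] at this
  obtain ⟨t, -, hJ⟩ := nd_pigeonhole (I := Set.univ) Set.infinite_univ
    (fun i => (fun x => ⟨f i x.1, hφm i x⟩ :
      {x // x ∈ clM G F (rg c)} → {x // x ∈ clM G F (rg c)})) (s := Set.univ)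
    (Set.toFinite _) (fun _ _ => Set.mem_univ _)
  set e : ℕ → ℕ := fun n => (hJ.natEmbedding _ n).1 with he
  have hej : Function.Injective e := by
    intro m n hmn
    exact (hJ.natEmbedding _).injective (Subtype.ext hmn)
  have het : ∀ n, (fun x => ⟨f (e n) x.1, hφm (e n) x⟩ :
      {x // x ∈ clM G F (rg c)} → {x // x ∈ clM G F (rg c)}) = t :=
    fun n => (hJ.natEmbedding _ n).2.2
  have hconst : ∀ i j, ∀ x ∈ clM G F (rg a ∪ rg c) ∩ clM G F (rg (Sum.elim b c)),
      f (e i) x = f (e j) x := by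
    intro i j x hx
    rw [hYB] at hx
    have h1 := congrFun ((het i).trans (het j).symm) ⟨x, hx⟩
    exact congrArg Subtype.val h1
  obtain ⟨I, τ, hIk, hτ⟩ := nd hG hB hE hY hBE hYE hcl hδ (fun n => f (e n))
    (fun n => hf (e n)) (fun n => hfs (e n)) hconst k
  have haY : ∀ j, (a j).1 ∈ clM G F (rg a ∪ rg c) := fun j =>
    subset_clM hG _ (Finset.mem_union_left _ ((mem_rg a _).2 ⟨j, rfl⟩))
  have hsubE : rg (Sum.elim a (Sum.elim b c)) ⊆ clM G F (rg a ∪ rg (Sum.elim b c)) := by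
    rw [rg_sum]
    exact subset_clM hG _
  rcases I.eq_empty_or_nonempty with hI0 | ⟨i₀, hi₀⟩
  · refine ⟨∅, a, ?_, by simp⟩
    rw [← hIk, hI0]
  · refine ⟨I.image e, fun j => ⟨τ i₀ (a j).1, ?_⟩, ?_, ?_⟩
    · rw [(hτ i₀ hi₀).1.kind _ (hYE (haY j))]
      exact (a j).2
    · rw [Finset.card_image_of_injective _ hej, hIk]
    · intro i' hi'
      obtain ⟨i, hi, rfl⟩ := Finset.mem_image.1 hi'
      obtain ⟨a1, a2, a3, a4⟩ := hτ i hi
      apply TRel.symm hG
      refine TRel.of_emb hG hE hsubE a1 a2 ?_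
      rintro (j | j | j)
      · exact a4 _ (haY j) i₀ hi₀
      · have h3 : τ i (b j).1 = f (e i) (b j).1 :=
          a3 _ (subset_clM hG _ ((mem_rg (Sum.elim b c) _).2 ⟨Sum.inl j, rfl⟩))
        exact h3.trans (hfv (e i) (Sum.inl j))
      · have h3 : τ i (c j).1 = f (e i) (c j).1 :=
          a3 _ (subset_clM hG _ ((mem_rg (Sum.elim b c) _).2 ⟨Sum.inr j, rfl⟩))
        exact h3.trans (hfv (e i) (Sum.inr j))

private theorem free_induct (hG : Generic G F) {A E : Finset ℕ} (hA : SM G F A)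
    (hE : SM G F E) (hAE : A ⊆ E) (K : ℕ) :
    ∃ (D : Finset ℕ) (g : ℕ → ℕ → ℕ), SM G F D ∧ A ⊆ D ∧
      (∀ i < K, Emb G E G (g i) ∧ SM G F (E.image (g i)) ∧ E.image (g i) ⊆ D ∧
        ∀ a ∈ A, g i a = a) ∧
      ∀ i < K, ∀ j < K, i ≠ j → E.image (g i) ∩ E.image (g j) ⊆ A := by
  induction K with
  | zero => exact ⟨A, fun _ => id, hA, subset_rfl, by simp, by simp⟩
  | succ K ih =>
    obtain ⟨D, g, hD, hAD, hg, hd⟩ := ih
    obtain ⟨g', h1, h2, h3, h4, h5, -⟩ := exists_free_copy hG hA hD hE hAE (f := id)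
      ⟨Set.injOn_id _, fun _ _ => rfl, fun _ _ _ _ => Iff.rfl⟩ (by simpa using hAD)
      (by simpa using hA)
    rw [Finset.image_id] at h5
    refine ⟨E.image g' ∪ D, fun i => if i = K then g' else g i, h4,
      hAD.trans Finset.subset_union_right, ?_, ?_⟩
    · intro i hi
      by_cases hiK : i = K
      · simp only [hiK, if_true]
        exact ⟨h1, h3, Finset.subset_union_left, h2⟩
      · simp only [if_neg hiK]
        obtain ⟨a1, a2, a3, a4⟩ := hg i (by omega)
        exact ⟨a1, a2, a3.trans Finset.subset_union_right, a4⟩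
    · intro i hi j hj hij
      by_cases hiK : i = K
      · have hjK : j ≠ K := fun h => hij (hiK.trans h.symm)
        simp only [if_neg hjK, hiK, if_true]
        intro x hx
        rw [Finset.mem_inter] at hx
        rw [← h5]
        exact Finset.mem_inter.2 ⟨hx.1, (hg j (by omega)).2.2.1 hx.2⟩
      · by_cases hjK : j = K
        · simp only [if_neg hiK, hjK, if_true]
          intro x hx
          rw [Finset.mem_inter] at hx
          rw [← h5]
          exact Finset.mem_inter.2 ⟨hx.2, (hg i (by omega)).2.2.1 hx.1⟩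
        · simp only [if_neg hiK, if_neg hjK]
          exact hd i (by omega) j (by omega) hij

theorem AlgT.free (hG : Generic G F) {κ κ' : Type} [Finite κ] [Finite κ'] (b : κ → PV G)
    (c : κ' → PV G) (K : ℕ) :
    ∃ d : Fin K → κ → PV G, (∀ i, TRel G F (Sum.elim (d i) c) (Sum.elim b c)) ∧
      ∀ i j, i ≠ j → ∀ a, AlgT G F (Sum.elim (d i) c) a → AlgT G F (Sum.elim (d j) c) a →
        AlgT G F c a := by
  have hE : SM G F (clM G F (rg (Sum.elim b c))) := clM_strong hG _
  have hAE : clM G F (rg c) ⊆ clM G F (rg (Sum.elim b c)) :=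
    clM_mono hG (by rw [rg_sum]; exact Finset.subset_union_right)
  obtain ⟨D, g, -, -, hg, hd⟩ := free_induct hG (clM_strong hG (rg c)) hE hAE K
  have hbE : ∀ x, ((Sum.elim b c x : PV G) : ℕ) ∈ clM G F (rg (Sum.elim b c)) := fun x =>
    subset_clM hG _ ((mem_rg _ _).2 ⟨x, rfl⟩)
  have hkind : ∀ (i : Fin K) (k : κ), G.kind (g i (b k).1) = .P := fun i k =>
    ((hg i i.2).1.kind _ (hbE (Sum.inl k))).trans (b k).2
  have hval : ∀ i : Fin K, ∀ x, g i (Sum.elim b c x).1 =
      (Sum.elim (fun k => (⟨g i (b k).1, hkind i k⟩ : PV G)) c x).1 := by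
    rintro i (k | k)
    · rfl
    · exact (hg i i.2).2.2.2 _ (subset_clM hG _ ((mem_rg _ _).2 ⟨k, rfl⟩))
  refine ⟨fun i k => ⟨g i (b k).1, hkind i k⟩, ?_, ?_⟩
  · intro i
    apply TRel.symm hG
    exact TRel.of_emb hG hE (subset_clM hG _) (hg i i.2).1 (hg i i.2).2.1 (hval i)
  · intro i j hij a hi hj
    unfold AlgT at hi hj ⊢
    rw [← rg_image (hval i), clM_image hG hE (hg i i.2).1 (hg i i.2).2.1 (subset_clM hG _)] at hi
    rw [← rg_image (hval j), clM_image hG hE (hg j j.2).1 (hg j j.2).2.1 (subset_clM hG _)] at hj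
    exact hd i i.2 j j.2 (fun h => hij (Fin.ext h)) (Finset.mem_inter.2 ⟨hi, hj⟩)

end M

end Pool.Agent.SF
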