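import Pool.Agent.SF.Delta

/-!
# The half graph structures
-/

set_option autoImplicit false

namespace Pool.Agent.SF

namespace Half

open Geo

/-- vertices of the half graph structures -/
inductive HV
  | c
  | b (s : Bool) (i : ℕ)
  | p (s : Bool) (i : ℕ) (t : Fin 11)
deriving DecidableEq

instance : Nonempty HV := ⟨.c⟩

namespace HV

def kd : HV → Kind
  | .c => .C
  | .b s _ => .B s
  | .p _ _ _ => .P

def ad : HV → HV → Prop
  | .c, .b _ _ => True
  | .b _ _, .c => True
  | .b s i, .p s' i' _ => s = s' ∧ i = i'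
  | .p s' i' _, .b s i => s = s' ∧ i = i'
  | .b s i, .b s' j => (s = false ∧ s' = true ∧ i < j) ∨ (s = true ∧ s' = false ∧ j < i)
  | _, _ => False

def isP : HV → Bool
  | .p _ _ _ => true
  | _ => false

def isB : HV → Bool
  | .b _ _ => true
  | _ => false

def isE : HV → Bool
  | .b s _ => s
  | .p s _ _ => s
  | _ => false

/-- the block of a vertex of kind `P` -/
def blk : HV → HV
  | .p s i _ => .b s i
  | v => v

/-- the neighbours of kind `P` of a block -/
def pp : HV → Finset HV
  | .b s i => Finset.univ.image fun t => .p s i t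
  | _ => ∅

end HV

open HV

/-- the half graph geometry -/
def HG : Geo HV where
  kind := kd
  adj := ad
  symm := by
    rintro (_ | ⟨s, i⟩ | ⟨s, i, t⟩) (_ | ⟨s', i'⟩ | ⟨s', i', t'⟩) h <;> simp only [ad] at h ⊢
    · tauto
    · exact h
    · exact h
  compat := by
    rintro (_ | ⟨s, i⟩ | ⟨s, i, t⟩) (_ | ⟨s', i'⟩ | ⟨s', i', t'⟩) h <;>
      simp only [ad] at h <;> simp only [kd, Kind.cost] <;> try decide
    all_goals first | exact h.elim | skip
    all_goals
      cases s <;> cases s' <;> simp_all [Kind.cost]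

@[simp] lemma HG_kind (v : HV) : HG.kind v = kd v := rfl
@[simp] lemma HG_adj (u v : HV) : HG.adj u v = ad u v := rfl

lemma mem_nbP {v u : HV} {A : Finset HV} : u ∈ HG.nbP v A ↔ u ∈ A ∧ ad v u ∧ kd u = .P := by
  simp [Geo.nbP]

lemma mem_nbB {σ : Bool} {v u : HV} {A : Finset HV} :
    u ∈ HG.nbB σ v A ↔ u ∈ A ∧ ad v u ∧ kd u = .B σ := by
  simp [Geo.nbB]

lemma mem_nbC {v u : HV} {A : Finset HV} : u ∈ HG.nbC v A ↔ u ∈ A ∧ ad v u ∧ kd u = .C := by
  simp [Geo.nbC]

lemma kd_C {v : HV} (h : kd v = .C) : v = .c := by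
  cases v <;> simp [kd] at h ⊢

lemma kd_P {v : HV} : kd v = .P ↔ v.isP = true := by
  cases v <;> simp [kd, isP]

lemma kd_B {v : HV} {σ : Bool} (h : kd v = .B σ) : ∃ i, v = .b σ i := by
  rcases v with _ | ⟨s, i⟩ | ⟨s, i, t⟩ <;> simp [kd] at h ⊢
  exact h

lemma nbC_subset (v : HV) (A : Finset HV) : HG.nbC v A ⊆ {.c} := by
  intro u hu
  rw [mem_nbC] at hu
  rw [Finset.mem_singleton]
  exact kd_C hu.2.2

lemma card_nbC_le (v : HV) (A : Finset HV) : (HG.nbC v A).card ≤ 1 := by
  have := Finset.card_le_card (nbC_subset v A)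
  simpa using this

lemma nbB_c (σ : Bool) (A : Finset HV) :
    HG.nbB σ .c A = A.filter fun u => kd u = .B σ := by
  ext u
  rw [mem_nbB, Finset.mem_filter]
  constructor
  · rintro ⟨h1, h2, h3⟩
    exact ⟨h1, h3⟩
  · rintro ⟨h1, h3⟩
    obtain ⟨i, rfl⟩ := kd_B h3
    exact ⟨h1, trivial, h3⟩

/-! ### the predimension -/

lemma delta_insert_p {s : Bool} {i : ℕ} {t : Fin 11} {A : Finset HV} (h : HV.p s i t ∉ A) :
    HG.delta (insert (HV.p s i t) A) = HG.delta A + (if HV.b s i ∈ A then 0 else 1) := by
  rw [Geo.delta_insert_P HG h rfl]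
  have h1 : HG.nbC (HV.p s i t) A = ∅ := by
    ext u
    rw [mem_nbC]
    simp only [Finset.notMem_empty, iff_false]
    rintro ⟨-, h2, h3⟩
    rw [kd_C h3] at h2
    exact h2
  have h2 : ∀ σ, HG.nbB σ (HV.p s i t) A = if σ = s ∧ HV.b s i ∈ A then {HV.b s i} else ∅ := by
    intro σ
    ext u
    rw [mem_nbB]
    constructor
    · rintro ⟨h3, h4, h5⟩
      obtain ⟨j, rfl⟩ := kd_B h5
      simp only [ad] at h4
      obtain ⟨rfl, rfl⟩ := h4
      rw [if_pos ⟨rfl, h3⟩]
      exact Finset.mem_singleton_self _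
    · intro h3
      by_cases h4 : σ = s ∧ HV.b s i ∈ A
      · rw [if_pos h4, Finset.mem_singleton] at h3
        subst h3
        obtain ⟨rfl, h5⟩ := h4
        exact ⟨h5, ⟨rfl, rfl⟩, rfl⟩
      · rw [if_neg h4] at h3
        exact absurd h3 (Finset.notMem_empty _)
  rw [h1, h2, h2]
  by_cases hA : HV.b s i ∈ A
  · cases s <;> simp [hA]
  · simp [hA]

lemma delta_union_P (R : Finset HV) (hR : ∀ v ∈ R, v.isP = false) (T : Finset HV)
    (hT : ∀ v ∈ T, v.isP = true) :
    HG.delta (R ∪ T) = HG.delta R + ((T.filter fun v => v.blk ∉ R).card : ℤ) := by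
  induction T using Finset.induction_on with
  | empty => simp
  | insert v T hv ih =>
    have hT' : ∀ v ∈ T, v.isP = true := fun w hw => hT w (Finset.mem_insert_of_mem hw)
    have hvP := hT v (Finset.mem_insert_self _ _)
    rcases v with _ | ⟨s, i⟩ | ⟨s, i, t⟩
    · simp [isP] at hvP
    · simp [isP] at hvP
    · have hvR : HV.p s i t ∉ R := by
        intro h
        have := hR _ h
        simp [isP] at this
      have hvn : HV.p s i t ∉ R ∪ T := by
        rw [Finset.mem_union]
        tauto
      rw [Finset.union_insert, delta_insert_p hvn, ih hT', Finset.filter_insert]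
      have hb : HV.b s i ∈ R ∪ T ↔ HV.b s i ∈ R := by
        rw [Finset.mem_union]
        constructor
        · rintro (h | h)
          · exact h
          · have := hT' _ h
            simp [isP] at this
        · exact Or.inl
      by_cases hbR : HV.b s i ∈ R
      · rw [if_pos (hb.mpr hbR), if_neg (by simp only [blk, not_not]; exact hbR)]
        ring
      · rw [if_neg (fun h => hbR (hb.mp h)), if_pos (by simp only [blk]; exact hbR),
          Finset.card_insert_of_notMem (fun h => hv (Finset.mem_filter.mp h).1)]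
        push_cast
        ring

/-- the part of `Q` of kinds `B`, `C` -/
def core (Q : Finset HV) : Finset HV := Q.filter fun v => v.isP = false

/-- the number of unattached vertices of kind `P` -/
def un (Q : Finset HV) : ℕ := (Q.filter fun v => v.isP = true ∧ v.blk ∉ Q).card

/-- the blocks of `Q` -/
def bl (Q : Finset HV) : Finset HV := Q.filter fun v => v.isB = true

lemma mem_core {Q : Finset HV} {v : HV} : v ∈ core Q ↔ v ∈ Q ∧ v.isP = false := by
  simp [core]

lemma mem_bl {Q : Finset HV} {v : HV} : v ∈ bl Q ↔ v ∈ Q ∧ v.isB = true := by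
  simp [bl]

lemma isP_blk {v : HV} (h : v.isP = true) : v.blk.isP = false ∧ v.blk.isB = true := by
  cases v <;> simp [isP, isB, blk] at h ⊢

lemma delta_core (Q : Finset HV) : HG.delta Q = HG.delta (core Q) + (un Q : ℤ) := by
  have h := delta_union_P (core Q) (fun v hv => (mem_core.mp hv).2)
    (Q.filter fun v => v.isP = true) (fun v hv => (Finset.mem_filter.mp hv).2)
  have h1 : core Q ∪ (Q.filter fun v => v.isP = true) = Q := by
    ext v
    rw [Finset.mem_union, mem_core, Finset.mem_filter]
    cases v.isP <;> simp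
  rw [h1] at h
  rw [h]
  congr 2
  unfold un
  rw [Finset.filter_filter]
  congr 1
  ext v
  simp only [Finset.mem_filter]
  constructor
  · rintro ⟨h2, h3, h4⟩
    exact ⟨h2, h3, fun h5 => h4 (mem_core.mpr ⟨h5, (isP_blk h3).1⟩)⟩
  · rintro ⟨h2, h3, h4⟩
    exact ⟨h2, h3, fun h5 => h4 (mem_core.mp h5).1⟩

lemma core_of_mem {Q : Finset HV} (h : HV.c ∈ Q) : core Q = insert HV.c (bl Q) := by
  ext v
  rw [mem_core, Finset.mem_insert, mem_bl]
  cases v <;> simp [isP, isB, h]

lemma core_of_notMem {Q : Finset HV} (h : HV.c ∉ Q) : core Q = bl Q := by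
  ext v
  rw [mem_core, mem_bl]
  cases v <;> simp [isP, isB, h]

lemma ed_c {S : Finset HV} (hS : ∀ v ∈ S, v.isB = true) : HG.ed {HV.c} S = S.card := by
  unfold Geo.ed
  have h2 : ∀ (inst : DecidablePred fun e : HV × HV => HG.adj e.1 e.2),
      (@Finset.filter _ (fun e : HV × HV => HG.adj e.1 e.2) inst (({HV.c} : Finset HV) ×ˢ S)) = {HV.c} ×ˢ S := by
    intro inst
    apply Finset.filter_true_of_mem
    rintro ⟨x, y⟩ hxy
    rw [Finset.mem_product, Finset.mem_singleton] at hxy
    obtain ⟨h1, h2⟩ := hxy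
    simp only at h1 h2
    subst h1
    have := hS y h2
    cases y <;> simp [isB, ad] at this ⊢
  rw [h2, Finset.card_product, Finset.card_singleton, one_mul]

lemma ed_empty_left (S : Finset HV) : HG.ed ∅ S = 0 := by
  simp [Geo.ed]

lemma ed_empty_right (S : Finset HV) : HG.ed S ∅ = 0 := by
  simp [Geo.ed]

lemma delta_insert_b {s : Bool} {i : ℕ} {A : Finset HV} (h : HV.b s i ∉ A)
    (hA : ∀ v ∈ A, v.isP = false) :
    HG.delta (insert (HV.b s i) A) = HG.delta A +
      (if HV.c ∈ A then 1 else 11 - ((HG.nbB (!s) (HV.b s i) A).card : ℤ)) := by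
  rw [Geo.delta_insert_B HG s h rfl]
  have h1 : HG.nbP (HV.b s i) A = ∅ := by
    ext u
    rw [mem_nbP]
    simp only [Finset.notMem_empty, iff_false]
    rintro ⟨h2, -, h3⟩
    have := hA u h2
    rw [kd_P] at h3
    rw [this] at h3
    exact Bool.noConfusion h3
  by_cases hc : HV.c ∈ A
  · have h2 : HG.nbC (HV.b s i) A = {HV.c} := by
      apply Finset.Subset.antisymm (nbC_subset _ _)
      rw [Finset.singleton_subset_iff, mem_nbC]
      exact ⟨hc, trivial, rfl⟩
    rw [h1, h2, ed_c, if_pos hc]
    · simp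
      ring
    · intro v hv
      rw [mem_nbB] at hv
      obtain ⟨j, rfl⟩ := kd_B hv.2.2
      rfl
  · have h2 : HG.nbC (HV.b s i) A = ∅ := by
      ext u
      rw [mem_nbC]
      simp only [Finset.notMem_empty, iff_false]
      rintro ⟨h3, -, h5⟩
      rw [kd_C h5] at h3
      exact hc h3
    rw [h1, h2, ed_empty_left, if_neg hc]
    simp
    ring

lemma delta_c : HG.delta {HV.c} = 20 := by
  have := Geo.delta_insert_C HG (v := HV.c) (A := ∅) (Finset.notMem_empty _) rfl
  rw [Geo.delta_empty] at this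
  have h1 : ∀ σ, HG.nbB σ HV.c ∅ = ∅ := fun σ => by simp [Geo.nbB]
  have h2 : HG.nbP HV.c ∅ = ∅ := by simp [Geo.nbP]
  rw [h1, h1, h2, ed_empty_left] at this
  simpa using this

lemma delta_insert_c_bl (B : Finset HV) (hB : ∀ v ∈ B, v.isB = true) :
    HG.delta (insert HV.c B) = 20 + (B.card : ℤ) := by
  induction B using Finset.induction_on with
  | empty => simpa using delta_c
  | insert v B hv ih =>
    have hv' := hB v (Finset.mem_insert_self _ _)
    rcases v with _ | ⟨s, i⟩ | ⟨s, i, t⟩
    · simp [isB] at hv'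
    · rw [Finset.insert_comm, delta_insert_b, ih (fun w hw => hB w (Finset.mem_insert_of_mem hw)),
        if_pos (Finset.mem_insert_self _ _), Finset.card_insert_of_notMem hv]
      · push_cast
        ring
      · rw [Finset.mem_insert]
        rintro (h | h)
        · exact HV.noConfusion h
        · exact hv h
      · intro w hw
        rw [Finset.mem_insert] at hw
        rcases hw with rfl | hw
        · rfl
        · have := hB w (Finset.mem_insert_of_mem hw)
          cases w <;> simp [isB, isP] at this ⊢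
    · simp [isB] at hv'

lemma delta_sameSort (s : Bool) (B : Finset HV) (hB : ∀ v ∈ B, kd v = .B s) :
    HG.delta B = 11 * (B.card : ℤ) := by
  induction B using Finset.induction_on with
  | empty => simp [Geo.delta_empty]
  | insert v B hv ih =>
    obtain ⟨i, rfl⟩ := kd_B (hB v (Finset.mem_insert_self _ _))
    have hB' : ∀ v ∈ B, kd v = .B s := fun w hw => hB w (Finset.mem_insert_of_mem hw)
    have h1 : HV.c ∉ B := fun h => by
      have := hB' _ h
      simp [kd] at this
    have h2 : HG.nbB (!s) (HV.b s i) B = ∅ := by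
      ext u
      rw [mem_nbB]
      simp only [Finset.notMem_empty, iff_false]
      rintro ⟨h3, -, h5⟩
      rw [hB' u h3] at h5
      cases s <;> simp at h5
    rw [delta_insert_b hv, ih hB', if_neg h1, h2, Finset.card_insert_of_notMem hv]
    · simp
      ring
    · intro w hw
      obtain ⟨j, rfl⟩ := kd_B (hB' w hw)
      rfl

lemma delta_b (s : Bool) (i : ℕ) : HG.delta {HV.b s i} = 11 := by
  rw [delta_sameSort s {HV.b s i} (by intro v hv; rw [Finset.mem_singleton] at hv; subst hv; rfl)]
  simp

lemma delta_xz (i j : ℕ) :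
    HG.delta {HV.b false i, HV.b true j} = 22 - (if i < j then 1 else 0) := by
  rw [delta_insert_b (by simp), delta_b]
  · have h1 : HV.c ∉ ({HV.b true j} : Finset HV) := by simp
    rw [if_neg h1]
    by_cases hij : i < j
    · have h2 : HG.nbB (!false) (HV.b false i) {HV.b true j} = {HV.b true j} := by
        ext u
        rw [mem_nbB]
        constructor
        · exact fun h => h.1
        · intro h
          refine ⟨h, ?_⟩
          rw [Finset.mem_singleton] at h
          subst h
          exact ⟨Or.inl ⟨rfl, rfl, hij⟩, rfl⟩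
      rw [h2, if_pos hij]
      simp
    · have h2 : HG.nbB (!false) (HV.b false i) {HV.b true j} = ∅ := by
        ext u
        rw [mem_nbB]
        simp only [Finset.notMem_empty, iff_false]
        rintro ⟨h3, h4, -⟩
        rw [Finset.mem_singleton] at h3
        subst h3
        simp [ad] at h4
        exact hij h4
      rw [h2, if_neg hij]
      simp
  · intro v hv
    rw [Finset.mem_singleton] at hv
    subst hv
    rfl

lemma delta_xzc (i j : ℕ) :
    HG.delta {HV.c, HV.b false i, HV.b true j} = 22 := by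
  rw [delta_insert_c_bl, Finset.card_pair]
  · norm_num
  · simp
  · intro v hv
    rw [Finset.mem_insert, Finset.mem_singleton] at hv
    rcases hv with rfl | rfl <;> rfl

/-! ### closed sets -/

lemma loc (W : Finset HV) : HG.Loc W where
  lin := by
    intro σ u _ v _ _ _ _ c _ c' _ hc hc' _ _ _ _
    rw [kd_C hc, kd_C hc']
  res := by
    intro v _ σ _ Cs hCs Bs hBs hne
    have hC : Cs ⊆ {HV.c} := hCs.trans (nbC_subset v W)
    rcases Finset.subset_singleton_iff.mp hC with h | h
    · subst h
      have hB : Bs.Nonempty := by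
        rcases hne with h | h
        · exact absurd h Finset.not_nonempty_empty
        · exact h
      rw [ed_empty_left]
      have := hB.card_pos
      simp
      omega
    · subst h
      rw [ed_c]
      · simp
        have : (0 : ℤ) ≤ Bs.card := by positivity
        linarith
      · intro w hw
        have := hBs hw
        rw [mem_nbB] at this
        obtain ⟨j, rfl⟩ := kd_B this.2.2
        rfl

lemma closedIn_of {W A : Finset HV} (hA : A ⊆ W)
    (h : HV.c ∈ A ∨ HV.c ∉ W ∨ ∀ σ, (A.filter fun v => kd v = .B σ).card ≤ 1) :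
    HG.ClosedIn W A where
  sub := hA
  pt := by
    intro v hv hk σ h2
    rw [HG_kind] at hk
    have := kd_C hk
    subst this
    rcases h with h | h | h
    · exact h
    · exact absurd hv h
    · rw [nbB_c] at h2
      have := h σ
      omega
  bl := by
    intro v _ σ _ h2
    have := card_nbC_le v A
    omega

lemma closed_dichotomy {W Q : Finset HV} (hc : HV.c ∈ W) (hQ : HG.ClosedIn W Q) :
    HV.c ∈ Q ∨ ∀ σ, (Q.filter fun v => kd v = .B σ).card ≤ 1 := by
  by_cases h : HV.c ∈ Q
  · exact Or.inl h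
  · right
    intro σ
    by_contra h2
    apply h
    apply hQ.pt _ hc rfl σ
    rw [nbB_c]
    omega

/-- the possible cores of closed sets without the point -/
lemma core_cases {R : Finset HV} (hR : ∀ v ∈ R, v.isP = false) (hc : HV.c ∉ R)
    (h : ∀ σ, (R.filter fun v => kd v = .B σ).card ≤ 1) :
    R = ∅ ∨ (∃ s i, R = {HV.b s i}) ∨ ∃ i j, R = {HV.b false i, HV.b true j} := by
  have h1 : ∀ σ, (R.filter fun v => kd v = .B σ) = ∅ ∨ ∃ i, (R.filter fun v => kd v = .B σ) = {HV.b σ i} := by
    intro σ
    rcases Finset.card_le_one_iff_subset_singleton.mp (h σ) with ⟨x, hx⟩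
    rcases Finset.subset_singleton_iff.mp hx with h2 | h2
    · exact Or.inl h2
    · right
      have h3 : x ∈ R.filter fun v => kd v = .B σ := by rw [h2]; exact Finset.mem_singleton_self _
      obtain ⟨i, rfl⟩ := kd_B (Finset.mem_filter.mp h3).2
      exact ⟨i, h2⟩
  have h2 : R = (R.filter fun v => kd v = .B false) ∪ (R.filter fun v => kd v = .B true) := by
    ext v
    rw [Finset.mem_union, Finset.mem_filter, Finset.mem_filter]
    constructor
    · intro hv
      have h3 := hR v hv
      rcases v with _ | ⟨s, i⟩ | ⟨s, i, t⟩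
      · exact absurd hv hc
      · cases s
        · exact Or.inl ⟨hv, rfl⟩
        · exact Or.inr ⟨hv, rfl⟩
      · simp [isP] at h3
    · rintro (h3 | h3) <;> exact h3.1
  rcases h1 false with h3 | ⟨i, h3⟩ <;> rcases h1 true with h4 | ⟨j, h4⟩ <;> rw [h3, h4] at h2
  · left
    simpa using h2
  · right; left
    exact ⟨true, j, by simpa using h2⟩
  · right; left
    exact ⟨false, i, by simpa using h2⟩
  · right; right
    refine ⟨i, j, ?_⟩
    rw [h2]
    rfl

/-! ### cardinalities -/

lemma card_att (Q : Finset HV) :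
    (Q.filter fun v => v.isP = true ∧ v.blk ∈ Q).card ≤ 11 * (bl Q).card := by
  let f : HV → HV × Fin 11 := fun v => (v.blk, match v with | .p _ _ t => t | _ => 0)
  have h1 : (Q.filter fun v => v.isP = true ∧ v.blk ∈ Q).card
      ≤ (bl Q ×ˢ (Finset.univ : Finset (Fin 11))).card := by
    apply Finset.card_le_card_of_injOn f
    · intro v hv
      rw [Finset.mem_coe, Finset.mem_filter] at hv
      rw [Finset.mem_coe, Finset.mem_product]
      exact ⟨mem_bl.mpr ⟨hv.2.2, (isP_blk hv.2.1).2⟩, Finset.mem_univ _⟩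
    · intro v hv w hw hvw
      rw [Finset.mem_coe, Finset.mem_filter] at hv hw
      have h3 := hv.2.1
      have h4 := hw.2.1
      rcases v with _ | ⟨s, i⟩ | ⟨s, i, t⟩
      · simp [isP] at h3
      · simp [isP] at h3
      · rcases w with _ | ⟨s', i'⟩ | ⟨s', i', t'⟩
        · simp [isP] at h4
        · simp [isP] at h4
        · simp only [f, blk, Prod.mk.injEq, HV.b.injEq] at hvw
          obtain ⟨⟨rfl, rfl⟩, rfl⟩ := hvw
          rfl
  rw [Finset.card_product, Finset.card_univ, Fintype.card_fin] at h1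
  omega

lemma card_eq (Q : Finset HV) :
    Q.card = (core Q).card + (Q.filter fun v => v.isP = true ∧ v.blk ∈ Q).card + un Q := by
  have h1 : Q = (core Q ∪ (Q.filter fun v => v.isP = true ∧ v.blk ∈ Q)) ∪
      (Q.filter fun v => v.isP = true ∧ v.blk ∉ Q) := by
    ext v
    simp only [Finset.mem_union, mem_core, Finset.mem_filter]
    cases v.isP <;> simp
    tauto
  have h2 : Disjoint (core Q) (Q.filter fun v => v.isP = true ∧ v.blk ∈ Q) := by
    rw [Finset.disjoint_left]
    intro v hv hv'
    rw [mem_core] at hv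
    rw [Finset.mem_filter] at hv'
    rw [hv.2] at hv'
    exact Bool.noConfusion hv'.2.1
  have h3 : Disjoint (core Q ∪ (Q.filter fun v => v.isP = true ∧ v.blk ∈ Q))
      (Q.filter fun v => v.isP = true ∧ v.blk ∉ Q) := by
    rw [Finset.disjoint_left]
    intro v hv hv'
    rw [Finset.mem_union, mem_core, Finset.mem_filter] at hv
    rw [Finset.mem_filter] at hv'
    rcases hv with hv | hv
    · rw [hv.2] at hv'
      exact Bool.noConfusion hv'.2.1
    · exact hv'.2.2 hv.2.2
  conv_lhs => rw [h1]
  rw [Finset.card_union_of_disjoint h3, Finset.card_union_of_disjoint h2]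
  rfl

lemma card_core_le (Q : Finset HV) : (core Q).card ≤ (bl Q).card + 1 := by
  by_cases h : HV.c ∈ Q
  · rw [core_of_mem h]
    exact Finset.card_insert_le _ _
  · rw [core_of_notMem h]
    omega

lemma bl_core (Q : Finset HV) : bl (core Q) = bl Q := by
  ext v
  rw [mem_bl, mem_core, mem_bl]
  cases v <;> simp [isP, isB]

lemma pow_bound (e n : ℕ) : (3 : ℤ) ^ e * (n + 1) ≤ 3 ^ (e + n) := by
  rw [pow_add]
  have h1 : n + 1 ≤ 3 ^ n := Nat.lt_pow_self (by norm_num)
  have h2 : ((n : ℤ) + 1) ≤ 3 ^ n := by exact_mod_cast h1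
  exact mul_le_mul_of_nonneg_left h2 (by positivity)

lemma pow_bound' {d : ℤ} {e n : ℕ} (h : (e : ℤ) + n + 1 ≤ d) : (3 : ℤ) ^ e * (n + 1) ≤ 3 ^ (d - 1).toNat := by
  refine (pow_bound e n).trans ?_
  apply pow_le_pow_right₀ (by norm_num)
  omega

/-! ### the class `K` -/

/-- `D m` : the half graph structure with `m` blocks of each sort -/
def D (m : ℕ) : Finset HV :=
  insert HV.c (((Finset.univ ×ˢ Finset.range m).image fun e : Bool × ℕ => HV.b e.1 e.2) ∪
    ((Finset.univ ×ˢ Finset.range m ×ˢ Finset.univ).image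
      fun e : Bool × ℕ × Fin 11 => HV.p e.1 e.2.1 e.2.2))

/-- `E m` : `m` free blocks -/
def E (m : ℕ) : Finset HV := (D m).filter fun v => v.isE = true

lemma c_mem_D (m : ℕ) : HV.c ∈ D m := Finset.mem_insert_self _ _

lemma b_mem_D {m : ℕ} {s : Bool} {i : ℕ} : HV.b s i ∈ D m ↔ i < m := by
  simp [D]

lemma p_mem_D {m : ℕ} {s : Bool} {i : ℕ} {t : Fin 11} : HV.p s i t ∈ D m ↔ i < m := by
  simp [D]

lemma c_notMem_E (m : ℕ) : HV.c ∉ E m := by simp [E, isE]

lemma b_mem_E {m : ℕ} {s : Bool} {i : ℕ} : HV.b s i ∈ E m ↔ s = true ∧ i < m := by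
  cases s <;> simp [E, b_mem_D, isE]

lemma p_mem_E {m : ℕ} {s : Bool} {i : ℕ} {t : Fin 11} :
    HV.p s i t ∈ E m ↔ s = true ∧ i < m := by
  cases s <;> simp [E, p_mem_D, isE]

lemma core_E {m : ℕ} {Q : Finset HV} (hQ : Q ⊆ E m) : ∀ v ∈ core Q, kd v = .B true := by
  intro v hv
  rw [mem_core] at hv
  have h1 := hQ hv.1
  rcases v with _ | ⟨s, i⟩ | ⟨s, i, t⟩
  · exact absurd h1 (c_notMem_E m)
  · rw [b_mem_E] at h1
    rw [h1.1]
    rfl
  · simp [isP] at hv

lemma inK_D (m : ℕ) : HG.InK (D m) where
  toLoc := loc _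
  pos := by
    intro Q hQ hne
    have h1 := delta_core Q
    have h2 := card_eq Q
    have h3 := card_att Q
    have h6 := hne.card_pos
    by_cases hc : HV.c ∈ Q
    · have h4 : (core Q).card ≤ (bl Q).card + 1 := card_core_le Q
      have h5 : HG.delta (core Q) = 20 + ((bl Q).card : ℤ) := by
        rw [core_of_mem hc, delta_insert_c_bl _ (fun v hv => (mem_bl.mp hv).2)]
      refine ⟨by omega, ?_⟩
      refine le_trans ?_ (pow_bound' (e := 19) (n := (bl Q).card + un Q) (by push_cast; omega))
      push_cast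
      omega
    · have h4 := (closed_dichotomy (c_mem_D m) hQ).resolve_left hc
      have h4' : ∀ σ, ((core Q).filter fun v => kd v = .B σ).card ≤ 1 := fun σ =>
        (Finset.card_le_card (Finset.filter_subset_filter _ (Finset.filter_subset _ _))).trans (h4 σ)
      have h7 : core Q = bl Q := core_of_notMem hc
      rcases core_cases (fun v hv => (mem_core.mp hv).2) (fun h => hc (mem_core.mp h).1) h4'
        with h | ⟨s, i, h⟩ | ⟨i, j, h⟩
      · rw [h7] at h
        rw [h7, h] at h1 h2
        rw [h] at h3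
        rw [Geo.delta_empty] at h1
        simp only [Finset.card_empty] at h2 h3
        have h8 : Q.card = un Q := by omega
        refine ⟨by omega, ?_⟩
        refine le_trans ?_ (pow_bound' (e := 0) (n := un Q - 1) (by push_cast; omega))
        omega
      · have h9 : (bl Q).card = 1 := by rw [← h7, h]; simp
        rw [h, delta_b] at h1
        rw [h7] at h2
        refine ⟨by omega, ?_⟩
        refine le_trans ?_ (pow_bound' (e := 10) (n := un Q) (by push_cast; omega))
        omega
      · have h9 : (bl Q).card = 2 := by rw [← h7, h]; simp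
        rw [h, delta_xz] at h1
        rw [h7] at h2
        have h10 : (21 : ℤ) ≤ 22 - (if i < j then 1 else 0) := by split_ifs <;> norm_num
        refine ⟨by omega, ?_⟩
        refine le_trans ?_ (pow_bound' (e := 20) (n := un Q) (by push_cast; omega))
        omega

lemma inK_E (m : ℕ) : HG.InK (E m) where
  toLoc := loc _
  pos := by
    intro Q hQ hne
    have h1 := delta_core Q
    have h2 := card_eq Q
    have h3 := card_att Q
    have h6 := hne.card_pos
    have h5 := delta_sameSort true (core Q) (core_E hQ.sub)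
    have h7 : core Q = bl Q := core_of_notMem fun h => c_notMem_E m (hQ.sub h)
    rw [h7] at h5 h1 h2
    refine ⟨by omega, ?_⟩
    rcases Nat.eq_zero_or_pos (bl Q).card with h | h
    · refine le_trans ?_ (pow_bound' (e := 0) (n := un Q - 1) (by push_cast; omega))
      omega
    · refine le_trans ?_ (pow_bound' (e := 10) (n := (bl Q).card - 1 + un Q) (by push_cast; omega))
      omega

/-! ### full sets -/

/-- add all vertices of kind `P` attached to the blocks -/
def full (R : Finset HV) : Finset HV := R ∪ R.biUnion pp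

lemma mem_pp {v u : HV} : u ∈ pp v ↔ u.isP = true ∧ u.blk = v := by
  rcases v with _ | ⟨s, i⟩ | ⟨s, i, t⟩ <;> rcases u with _ | ⟨s', i'⟩ | ⟨s', i', t'⟩ <;>
    simp [pp, isP, blk]
  tauto

lemma mem_full {R : Finset HV} {v : HV} : v ∈ full R ↔ v ∈ R ∨ (v.isP = true ∧ v.blk ∈ R) := by
  unfold full
  rw [Finset.mem_union, Finset.mem_biUnion]
  constructor
  · rintro (h | ⟨w, hw, hv⟩)
    · exact Or.inl h
    · rw [mem_pp] at hv
      exact Or.inr ⟨hv.1, by rw [hv.2]; exact hw⟩
  · rintro (h | ⟨h1, h2⟩)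
    · exact Or.inl h
    · exact Or.inr ⟨_, h2, mem_pp.mpr ⟨h1, rfl⟩⟩

lemma core_full {R : Finset HV} (hR : ∀ v ∈ R, v.isP = false) : core (full R) = R := by
  ext v
  rw [mem_core, mem_full]
  constructor
  · rintro ⟨h | h, h2⟩
    · exact h
    · rw [h.1] at h2
      exact Bool.noConfusion h2
  · intro h
    exact ⟨Or.inl h, hR v h⟩

lemma un_full {R : Finset HV} (hR : ∀ v ∈ R, v.isP = false) : un (full R) = 0 := by
  unfold un
  rw [Finset.card_eq_zero]
  ext v
  rw [Finset.mem_filter, mem_full, mem_full]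
  simp only [Finset.notMem_empty, iff_false]
  rintro ⟨h | h, h1, h2⟩
  · rw [hR v h] at h1
    exact Bool.noConfusion h1
  · exact h2 (Or.inl h.2)

lemma delta_full {R : Finset HV} (hR : ∀ v ∈ R, v.isP = false) :
    HG.delta (full R) = HG.delta R := by
  rw [delta_core, core_full hR, un_full hR]
  simp

lemma full_mono {R R' : Finset HV} (h : R ⊆ R') : full R ⊆ full R' := by
  intro v hv
  rw [mem_full] at hv ⊢
  rcases hv with h1 | h1
  · exact Or.inl (h h1)
  · exact Or.inr ⟨h1.1, h h1.2⟩

lemma full_subset_D {R : Finset HV} {m : ℕ} (h : R ⊆ D m) : full R ⊆ D m := by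
  intro v hv
  rw [mem_full] at hv
  rcases hv with h1 | h1
  · exact h h1
  · have h2 := h h1.2
    rcases v with _ | ⟨s, i⟩ | ⟨s, i, t⟩
    · exact h2
    · exact h2
    · rw [p_mem_D]
      exact b_mem_D.mp h2

lemma full_subset_E {R : Finset HV} {m : ℕ} (h : R ⊆ E m) : full R ⊆ E m := by
  intro v hv
  rw [mem_full] at hv
  rcases hv with h1 | h1
  · exact h h1
  · have h2 := h h1.2
    rcases v with _ | ⟨s, i⟩ | ⟨s, i, t⟩
    · exact h2
    · exact h2
    · rw [p_mem_E]
      exact b_mem_E.mp h2

lemma un_pos {R Y : Finset HV} (h : full R ⊂ Y) (hc : core Y ⊆ R) : 1 ≤ un Y := by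
  obtain ⟨v, hv, hvR⟩ := Finset.exists_of_ssubset h
  rw [mem_full] at hvR
  push Not at hvR
  unfold un
  rw [Nat.one_le_iff_ne_zero, Finset.card_ne_zero]
  have hP : v.isP = true := by
    by_contra hP
    exact hvR.1 (hc (mem_core.mpr ⟨hv, by simpa using hP⟩))
  refine ⟨v, Finset.mem_filter.mpr ⟨hv, hP, fun h1 => ?_⟩⟩
  exact hvR.2 hP (hc (mem_core.mpr ⟨h1, (isP_blk hP).1⟩))

lemma filter_full {R : Finset HV} (σ : Bool) :
    ((full R).filter fun v => kd v = .B σ) = R.filter fun v => kd v = .B σ := by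
  ext v
  rw [Finset.mem_filter, Finset.mem_filter, mem_full]
  constructor
  · rintro ⟨h | h, h1⟩
    · exact ⟨h, h1⟩
    · obtain ⟨j, rfl⟩ := kd_B h1
      simp [isP] at h
  · rintro ⟨h, h1⟩
    exact ⟨Or.inl h, h1⟩

lemma strong_D {m : ℕ} {R : Finset HV} (hR : ∀ v ∈ R, v.isP = false) (hRW : R ⊆ D m)
    (hcl : HV.c ∈ R ∨ ∀ σ, (R.filter fun v => kd v = .B σ).card ≤ 1)
    (hlt : ∀ R' : Finset HV, (∀ v ∈ R', v.isP = false) →
      (HV.c ∈ R' ∨ ∀ σ, (R'.filter fun v => kd v = .B σ).card ≤ 1) → R ⊂ R' →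
      HG.delta R < HG.delta R') :
    HG.StrongIn (D m) (full R) where
  closed := by
    apply closedIn_of (full_subset_D hRW)
    rcases hcl with h | h
    · exact Or.inl (mem_full.mpr (Or.inl h))
    · right; right
      intro σ
      rw [filter_full]
      exact h σ
  lt := by
    intro Y hY hRY
    rw [delta_full hR, delta_core Y]
    have h1 : R ⊆ core Y := fun v hv =>
      mem_core.mpr ⟨hRY.1 (mem_full.mpr (Or.inl hv)), hR v hv⟩
    by_cases h2 : core Y ⊆ R
    · have h3 : core Y = R := Finset.Subset.antisymm h2 h1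
      have h4 := un_pos hRY h2
      rw [h3]
      omega
    · have h3 := hlt (core Y) (fun v hv => (mem_core.mp hv).2) (by
        rcases closed_dichotomy (c_mem_D m) hY with h | h
        · exact Or.inl (mem_core.mpr ⟨h, rfl⟩)
        · right
          intro σ
          exact (Finset.card_le_card (Finset.filter_subset_filter _
            (Finset.filter_subset _ _))).trans (h σ)) ⟨h1, h2⟩
      omega

lemma strong_E {m : ℕ} {R : Finset HV} (hR : ∀ v ∈ R, kd v = .B true) (hRW : R ⊆ E m) :
    HG.StrongIn (E m) (full R) where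
  closed := closedIn_of (full_subset_E hRW) (Or.inr (Or.inl (c_notMem_E m)))
  lt := by
    intro Y hY hRY
    have hR' : ∀ v ∈ R, v.isP = false := by
      intro v hv
      obtain ⟨i, rfl⟩ := kd_B (hR v hv)
      rfl
    rw [delta_full hR', delta_core Y, delta_sameSort true R hR,
      delta_sameSort true (core Y) (core_E hY.sub)]
    have h1 : R ⊆ core Y := fun v hv =>
      mem_core.mpr ⟨hRY.1 (mem_full.mpr (Or.inl hv)), hR' v hv⟩
    by_cases h2 : core Y ⊆ R
    · have h3 : core Y = R := Finset.Subset.antisymm h2 h1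
      have h4 := un_pos hRY h2
      rw [h3]
      omega
    · have h3 := Finset.card_lt_card (⟨h1, h2⟩ : R ⊂ core Y)
      omega

/-- the predimension of a core containing the point -/
lemma delta_core_c {R : Finset HV} (hR : ∀ v ∈ R, v.isP = false) (hc : HV.c ∈ R) :
    HG.delta R = 19 + (R.card : ℤ) := by
  have h1 : core R = R := by
    ext v
    rw [mem_core]
    exact ⟨fun h => h.1, fun h => ⟨h, hR v h⟩⟩
  have h2 := core_of_mem hc
  rw [h1] at h2
  have h3 : HV.c ∉ bl R := by
    intro h
    have := (mem_bl.mp h).2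
    simp [isB] at this
  have h4 : R.card = (bl R).card + 1 := by
    conv_lhs => rw [h2]
    exact Finset.card_insert_of_notMem h3
  conv_lhs => rw [h2]
  rw [delta_insert_c_bl _ (fun v hv => (mem_bl.mp hv).2)]
  omega

lemma strong_b {m : ℕ} {s : Bool} {i : ℕ} (hi : i < m) :
    HG.StrongIn (D m) (full {HV.b s i}) := by
  apply strong_D
  · intro v hv
    rw [Finset.mem_singleton] at hv
    subst hv
    rfl
  · rw [Finset.singleton_subset_iff]
    exact b_mem_D.mpr hi
  · right
    intro σ
    exact (Finset.card_le_card (Finset.filter_subset _ _)).trans (by simp)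
  · intro R' hR' hcl hlt
    rw [delta_b]
    have hcard := Finset.card_lt_card hlt
    rw [Finset.card_singleton] at hcard
    by_cases hc : HV.c ∈ R'
    · rw [delta_core_c hR' hc]
      omega
    · rcases core_cases hR' hc (hcl.resolve_left hc) with h | ⟨s', i', h⟩ | ⟨i', j', h⟩
      · rw [h] at hcard
        simp at hcard
      · rw [h] at hcard
        simp at hcard
      · rw [h, delta_xz]
        split_ifs <;> norm_num

lemma strong_xz {m i j : ℕ} (hi : i < m) (hj : j < m) (hij : i < j) :
    HG.StrongIn (D m) (full {HV.b false i, HV.b true j}) := by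
  apply strong_D
  · intro v hv
    rw [Finset.mem_insert, Finset.mem_singleton] at hv
    rcases hv with rfl | rfl <;> rfl
  · intro v hv
    rw [Finset.mem_insert, Finset.mem_singleton] at hv
    rcases hv with rfl | rfl <;> exact b_mem_D.mpr (by assumption)
  · right
    intro σ
    cases σ <;> simp [Finset.filter_insert, Finset.filter_singleton, kd]
  · intro R' hR' hcl hlt
    rw [delta_xz, if_pos hij]
    have hcard := Finset.card_lt_card hlt
    rw [Finset.card_pair (by simp)] at hcard
    by_cases hc : HV.c ∈ R'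
    · rw [delta_core_c hR' hc]
      omega
    · rcases core_cases hR' hc (hcl.resolve_left hc) with h | ⟨s', i', h⟩ | ⟨i', j', h⟩
      · rw [h] at hcard
        simp at hcard
      · rw [h] at hcard
        simp at hcard
      · rw [h, Finset.card_pair (by simp)] at hcard
        omega

lemma strong_xzc {m i j : ℕ} (hi : i < m) (hj : j < m) :
    HG.StrongIn (D m) (full {HV.c, HV.b false i, HV.b true j}) := by
  have hP : ∀ v ∈ ({HV.c, HV.b false i, HV.b true j} : Finset HV), v.isP = false := by
    intro v hv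
    rw [Finset.mem_insert, Finset.mem_insert, Finset.mem_singleton] at hv
    rcases hv with rfl | rfl | rfl <;> rfl
  apply strong_D hP
  · intro v hv
    rw [Finset.mem_insert, Finset.mem_insert, Finset.mem_singleton] at hv
    rcases hv with rfl | rfl | rfl
    · exact c_mem_D m
    · exact b_mem_D.mpr hi
    · exact b_mem_D.mpr hj
  · left
    simp
  · intro R' hR' hcl hlt
    have hc : HV.c ∈ R' := hlt.1 (by simp)
    have hcard := Finset.card_lt_card hlt
    rw [delta_core_c hR' hc, delta_core_c hP (by simp)]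
    omega

/-! ### reindexing -/

/-- reindexing of the blocks -/
def rx (α : Bool → ℕ → ℕ) : HV → HV
  | .c => .c
  | .b s i => .b s (α s i)
  | .p s i t => .p s (α s i) t

lemma emb_rx {R : Finset HV} (hR : ∀ v ∈ R, v.isP = false) (α : Bool → ℕ → ℕ)
    (hinj : ∀ s i j, HV.b s i ∈ R → HV.b s j ∈ R → α s i = α s j → i = j)
    (hord : ∀ i j, HV.b false i ∈ R → HV.b true j ∈ R → (α false i < α true j ↔ i < j)) :
    Emb HG (full R) HG (rx α) where
  inj := by
    intro u hu v hv huv
    rw [Finset.mem_coe, mem_full] at hu hv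
    rcases u with _ | ⟨s, i⟩ | ⟨s, i, t⟩ <;> rcases v with _ | ⟨s', i'⟩ | ⟨s', i', t'⟩ <;>
      simp only [rx, HV.b.injEq, HV.p.injEq, reduceCtorEq] at huv ⊢
    · obtain ⟨rfl, h⟩ := huv
      refine ⟨rfl, hinj s i i' ?_ ?_ h⟩
      · simpa [isP] using hu
      · simpa [isP] using hv
    · obtain ⟨rfl, h, rfl⟩ := huv
      have h1 : ∀ {i t}, (HV.p s i t ∈ R ∨ (HV.p s i t).isP = true ∧ (HV.p s i t).blk ∈ R) →
          HV.b s i ∈ R := by
        intro i t h
        rcases h with h | h
        · have := hR _ h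
          simp [isP] at this
        · exact h.2
      exact ⟨rfl, hinj s i i' (h1 hu) (h1 hv) h, rfl⟩
  kind := by
    intro u _
    cases u <;> rfl
  adj := by
    intro u hu v hv
    rw [mem_full] at hu hv
    have h1 : ∀ {s i t}, (HV.p s i t ∈ R ∨ (HV.p s i t).isP = true ∧ (HV.p s i t).blk ∈ R) →
        HV.b s i ∈ R := by
      intro s i t h
      rcases h with h | h
      · have := hR _ h
        simp [isP] at this
      · exact h.2
    have h2 : ∀ {s i}, (HV.b s i ∈ R ∨ (HV.b s i).isP = true ∧ (HV.b s i).blk ∈ R) →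
        HV.b s i ∈ R := by
      intro s i h
      rcases h with h | h
      · exact h
      · simp [isP] at h
    rcases u with _ | ⟨s, i⟩ | ⟨s, i, t⟩ <;> rcases v with _ | ⟨s', i'⟩ | ⟨s', i', t'⟩ <;>
      simp only [rx, HG_adj, ad]
    · have hu' := h2 hu
      have hv' := h2 hv
      constructor
      · rintro (⟨rfl, rfl, h⟩ | ⟨rfl, rfl, h⟩)
        · exact Or.inl ⟨rfl, rfl, (hord _ _ hu' hv').mp h⟩
        · exact Or.inr ⟨rfl, rfl, (hord _ _ hv' hu').mp h⟩
      · rintro (⟨rfl, rfl, h⟩ | ⟨rfl, rfl, h⟩)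
        · exact Or.inl ⟨rfl, rfl, (hord _ _ hu' hv').mpr h⟩
        · exact Or.inr ⟨rfl, rfl, (hord _ _ hv' hu').mpr h⟩
    · have hu' := h2 hu
      have hv' := h1 hv
      constructor
      · rintro ⟨rfl, h⟩
        exact ⟨rfl, hinj _ _ _ hu' hv' h⟩
      · rintro ⟨rfl, rfl⟩
        exact ⟨rfl, rfl⟩
    · have hu' := h1 hu
      have hv' := h2 hv
      constructor
      · rintro ⟨rfl, h⟩
        exact ⟨rfl, hinj _ _ _ hv' hu' h⟩
      · rintro ⟨rfl, rfl⟩
        exact ⟨rfl, rfl⟩

lemma image_rx_full (R : Finset HV) (hR : ∀ v ∈ R, v.isP = false) (α : Bool → ℕ → ℕ) :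
    (full R).image (rx α) = full (R.image (rx α)) := by
  have hP : ∀ v, (rx α v).isP = v.isP := by intro v; cases v <;> rfl
  have hb : ∀ v, (rx α v).blk = rx α v.blk := by intro v; cases v <;> rfl
  ext v
  rw [mem_full, Finset.mem_image, Finset.mem_image]
  constructor
  · rintro ⟨u, hu, rfl⟩
    rw [mem_full] at hu
    rcases hu with hu | hu
    · exact Or.inl ⟨u, hu, rfl⟩
    · right
      rw [hP, hb]
      exact ⟨hu.1, Finset.mem_image_of_mem _ hu.2⟩
  · rintro (⟨u, hu, rfl⟩ | ⟨h1, h2⟩)
    · exact ⟨u, mem_full.mpr (Or.inl hu), rfl⟩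
    · rcases v with _ | ⟨s, i⟩ | ⟨s, i, t⟩
      · simp [isP] at h1
      · simp [isP] at h1
      · rw [Finset.mem_image] at h2
        obtain ⟨u, hu, hu2⟩ := h2
        rcases u with _ | ⟨s', i'⟩ | ⟨s', i', t'⟩
        · simp [rx, blk] at hu2
        · simp only [rx, blk, HV.b.injEq] at hu2
          obtain ⟨rfl, rfl⟩ := hu2
          exact ⟨HV.p s' i' t, mem_full.mpr (Or.inr ⟨rfl, hu⟩), rfl⟩
        · simp [rx, blk] at hu2

end Half

end Pool.Agent.SF
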