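import Pool.Agent.SF.Emb
import Pool.Agent.SF.Strong
import Pool.Agent.SF.Clm
import Pool.Agent.SF.Clm2
import Pool.Agent.SF.TSp
import Pool.Agent.SF.Half1

/-!
# The half graph in the generic structure
-/

set_option autoImplicit false

namespace Pool.Agent.SF

namespace Half

open Geo HV

variable {G : Geo ℕ} {F : ℕ → Finset ℕ}

/-- embedding into the generic structure -/
lemma exists_emb (hG : Generic G F) {W : Finset HV} (hW : HG.InK W) :
    ∃ g : HV → ℕ, Emb HG W G g ∧ SM G F (W.image g) := by
  obtain ⟨g, h1, -, h2⟩ := hG.ext' (A := ∅) (SM.empty hG) (H := HG) (D := W) (f := fun _ => HV.c)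
    ⟨by simp, by simp, by simp⟩ hW (by simpa using Geo.strongIn_empty hW)
  exact ⟨g, h1, h2⟩

section
variable {W : Finset HV} {g : HV → ℕ}

lemma kind_P (hg : Emb HG W G g) {v : HV} (hv : v ∈ W) (hP : v.isP = true) :
    G.kind (g v) = .P := by
  rw [hg.kind v hv]
  exact kd_P.mpr hP

lemma sm_full (hG : Generic G F) (hg : Emb HG W G g) (hs : SM G F (W.image g)) {R : Finset HV}
    (hR : HG.StrongIn W (full R)) : SM G F ((full R).image g) :=
  SM.trans hG hs ((hg.strongIn_iff hR.closed.sub).mpr hR)

lemma delta_g (hg : Emb HG W G g) {R : Finset HV} (hR : HG.StrongIn W (full R))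
    (hP : ∀ v ∈ R, v.isP = false) : G.delta ((full R).image g) = HG.delta R := by
  rw [hg.delta_image hR.closed.sub, delta_full hP]

lemma mem_full_b {s : Bool} {i : ℕ} {u : HV} (hu : u ∈ full {HV.b s i}) :
    u = HV.b s i ∨ ∃ t, u = HV.p s i t := by
  rw [mem_full] at hu
  rcases hu with h | ⟨h1, h2⟩
  · left
    simpa using h
  · right
    rcases u with _ | ⟨s', i'⟩ | ⟨s', i', t'⟩
    · simp [isP] at h1
    · simp [isP] at h1
    · simp [blk] at h2
      obtain ⟨rfl, rfl⟩ := h2
      exact ⟨t', rfl⟩

lemma p_mem_full {R : Finset HV} {s : Bool} {i : ℕ} (t : Fin 11) (h : HV.b s i ∈ R) :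
    HV.p s i t ∈ full R := mem_full.mpr (Or.inr ⟨rfl, h⟩)

lemma b_mem_full {R : Finset HV} {s : Bool} {i : ℕ} (h : HV.b s i ∈ R) :
    HV.b s i ∈ full R := mem_full.mpr (Or.inl h)

lemma card_rg (hg : Emb HG W G g) {s : Bool} {i : ℕ} (hW : ∀ t, HV.p s i t ∈ W)
    {v : Fin 11 → PV G} (hv : ∀ t, (v t).1 = g (HV.p s i t)) : (rg v).card = 11 := by
  have h1 : rg v = Finset.univ.image fun t : Fin 11 => g (HV.p s i t) := by
    ext a
    rw [mem_rg, Finset.mem_image]
    constructor
    · rintro ⟨t, ht⟩
      exact ⟨t, Finset.mem_univ _, by rw [← hv t, ht]⟩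
    · rintro ⟨t, -, ht⟩
      exact ⟨t, by rw [hv t, ht]⟩
  rw [h1, Finset.card_image_of_injective]
  · simp
  · intro t t' htt
    have := hg.inj (hW t) (hW t') htt
    simpa using this

lemma delta_rg (v : Fin 11 → PV G) : G.delta (rg v) = (rg v).card := by
  apply Geo.delta_allP
  intro x hx
  rw [mem_rg] at hx
  obtain ⟨t, rfl⟩ := hx
  exact (v t).2

lemma cl_b (hG : Generic G F) (hg : Emb HG W G g) (hs : SM G F (W.image g)) {s : Bool} {i : ℕ}
    (hR : HG.StrongIn W (full {HV.b s i})) {v : Fin 11 → PV G}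
    (hv : ∀ t, (v t).1 = g (HV.p s i t)) : clM G F (rg v) = (full {HV.b s i}).image g := by
  have hb : ∀ u ∈ ({HV.b s i} : Finset HV), u.isP = false := by
    intro u hu
    rw [Finset.mem_singleton] at hu
    subst hu
    rfl
  have hS := sm_full hG hg hs hR
  have hpW : ∀ t, HV.p s i t ∈ W := fun t => hR.closed.sub (p_mem_full t (by simp))
  have hsub : rg v ⊆ (full {HV.b s i}).image g := by
    intro x hx
    rw [mem_rg] at hx
    obtain ⟨t, rfl⟩ := hx
    rw [hv t]
    exact Finset.mem_image_of_mem _ (p_mem_full t (by simp))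
  have h1 : clM G F (rg v) ⊆ (full {HV.b s i}).image g := clM_subset hG hS hsub
  by_contra hne
  have h2 := SM.delta_lt hG (clM_strong hG (rg v)) hS (Finset.ssubset_iff_subset_ne.mpr ⟨h1, hne⟩)
  rw [delta_g hg hR hb, delta_b] at h2
  have h3 : g (HV.b s i) ∉ clM G F (rg v) := by
    intro h3
    apply hne
    apply Finset.Subset.antisymm h1
    intro x hx
    rw [Finset.mem_image] at hx
    obtain ⟨u, hu, rfl⟩ := hx
    rcases mem_full_b hu with rfl | ⟨t, rfl⟩
    · exact h3
    · rw [← hv t]
      exact subset_clM hG _ ((mem_rg v _).mpr ⟨t, rfl⟩)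
  have h4 : clM G F (rg v) = rg v := by
    apply Finset.Subset.antisymm _ (subset_clM hG _)
    intro x hx
    have h5 := h1 hx
    rw [Finset.mem_image] at h5
    obtain ⟨u, hu, rfl⟩ := h5
    rcases mem_full_b hu with rfl | ⟨t, rfl⟩
    · exact absurd hx h3
    · rw [mem_rg]
      exact ⟨t, hv t⟩
  rw [h4, delta_rg, card_rg hg hpW hv] at h2
  norm_num at h2

lemma full_union (R R' : Finset HV) : full (R ∪ R') = full R ∪ full R' := by
  ext v
  rw [Finset.mem_union, mem_full, mem_full, mem_full, Finset.mem_union, Finset.mem_union]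
  tauto

lemma noP_xz (i j : ℕ) : ∀ v ∈ ({HV.b false i, HV.b true j} : Finset HV), v.isP = false := by
  intro v hv
  rw [Finset.mem_insert, Finset.mem_singleton] at hv
  rcases hv with rfl | rfl <;> rfl

lemma noP_xzc (i j : ℕ) :
    ∀ v ∈ ({HV.c, HV.b false i, HV.b true j} : Finset HV), v.isP = false := by
  intro v hv
  rw [Finset.mem_insert, Finset.mem_insert, Finset.mem_singleton] at hv
  rcases hv with rfl | rfl | rfl <;> rfl

lemma noP_b (s : Bool) (i : ℕ) : ∀ v ∈ ({HV.b s i} : Finset HV), v.isP = false := by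
  intro v hv
  rw [Finset.mem_singleton] at hv
  subst hv
  rfl

lemma cl_ge (hG : Generic G F) (hg : Emb HG W G g) (hs : SM G F (W.image g)) {i j : ℕ}
    (h1 : HG.StrongIn W (full {HV.b false i})) (h2 : HG.StrongIn W (full {HV.b true j}))
    {v w : Fin 11 → PV G}
    (hv : ∀ t, (v t).1 = g (HV.p false i t)) (hw : ∀ t, (w t).1 = g (HV.p true j t)) :
    (full {HV.b false i, HV.b true j}).image g ⊆ clM G F (rg v ∪ rg w) := by
  have h3 : ({HV.b false i, HV.b true j} : Finset HV) = {HV.b false i} ∪ {HV.b true j} := rfl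
  rw [h3, full_union, Finset.image_union, ← cl_b hG hg hs h1 hv, ← cl_b hG hg hs h2 hw]
  exact Finset.union_subset (clM_mono hG Finset.subset_union_left)
    (clM_mono hG Finset.subset_union_right)

lemma rg_sub {s : Bool} {i : ℕ} {v : Fin 11 → PV G} (hv : ∀ t, (v t).1 = g (HV.p s i t))
    {R : Finset HV} (hR : HV.b s i ∈ R) : rg v ⊆ (full R).image g := by
  intro x hx
  rw [mem_rg] at hx
  obtain ⟨t, rfl⟩ := hx
  rw [hv t]
  exact Finset.mem_image_of_mem _ (p_mem_full t hR)

lemma cl_xz (hG : Generic G F) (hg : Emb HG W G g) (hs : SM G F (W.image g)) {i j : ℕ}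
    (h1 : HG.StrongIn W (full {HV.b false i})) (h2 : HG.StrongIn W (full {HV.b true j}))
    (h3 : HG.StrongIn W (full {HV.b false i, HV.b true j}))
    {v w : Fin 11 → PV G}
    (hv : ∀ t, (v t).1 = g (HV.p false i t)) (hw : ∀ t, (w t).1 = g (HV.p true j t)) :
    clM G F (rg v ∪ rg w) = (full {HV.b false i, HV.b true j}).image g := by
  apply Finset.Subset.antisymm _ (cl_ge hG hg hs h1 h2 hv hw)
  apply clM_subset hG (sm_full hG hg hs h3)
  exact Finset.union_subset (rg_sub hv (by simp)) (rg_sub hw (by simp))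

lemma cl_xzc (hG : Generic G F) (hg : Emb HG W G g) (hs : SM G F (W.image g)) {i j : ℕ}
    (hij : ¬ i < j)
    (h1 : HG.StrongIn W (full {HV.b false i})) (h2 : HG.StrongIn W (full {HV.b true j}))
    (h3 : HG.StrongIn W (full {HV.c, HV.b false i, HV.b true j}))
    {v w : Fin 11 → PV G}
    (hv : ∀ t, (v t).1 = g (HV.p false i t)) (hw : ∀ t, (w t).1 = g (HV.p true j t)) :
    clM G F (rg v ∪ rg w) = (full {HV.c, HV.b false i, HV.b true j}).image g := by
  have hS := sm_full hG hg hs h3
  have h4 := cl_ge hG hg hs h1 h2 hv hw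
  have h5 : clM G F (rg v ∪ rg w) ⊆ (full {HV.c, HV.b false i, HV.b true j}).image g := by
    apply clM_subset hG hS
    exact Finset.union_subset (rg_sub hv (by simp)) (rg_sub hw (by simp))
  by_contra hne
  have h6 := SM.delta_lt hG (clM_strong hG (rg v ∪ rg w)) hS
    (Finset.ssubset_iff_subset_ne.mpr ⟨h5, hne⟩)
  have h7 : ∀ u, u ∈ full {HV.c, HV.b false i, HV.b true j} → u = HV.c ∨
      u ∈ full {HV.b false i, HV.b true j} := by
    intro u hu
    rw [mem_full] at hu ⊢
    rcases hu with hu | ⟨hu1, hu2⟩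
    · rw [Finset.mem_insert] at hu
      rcases hu with hu | hu
      · exact Or.inl hu
      · exact Or.inr (Or.inl hu)
    · rw [Finset.mem_insert] at hu2
      rcases hu2 with hu2 | hu2
      · have := (isP_blk hu1).2
        rw [hu2] at this
        simp [isB] at this
      · exact Or.inr (Or.inr ⟨hu1, hu2⟩)
  have h8 : g HV.c ∉ clM G F (rg v ∪ rg w) := by
    intro h8
    apply hne
    apply Finset.Subset.antisymm h5
    intro x hx
    rw [Finset.mem_image] at hx
    obtain ⟨u, hu, rfl⟩ := hx
    rcases h7 u hu with rfl | hu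
    · exact h8
    · exact h4 (Finset.mem_image_of_mem _ hu)
  have h9 : clM G F (rg v ∪ rg w) = (full {HV.b false i, HV.b true j}).image g := by
    apply Finset.Subset.antisymm _ h4
    intro x hx
    have h10 := h5 hx
    rw [Finset.mem_image] at h10
    obtain ⟨u, hu, rfl⟩ := h10
    rcases h7 u hu with rfl | hu
    · exact absurd hx h8
    · exact Finset.mem_image_of_mem _ hu
  have h10 : full {HV.b false i, HV.b true j} ⊆ W := by
    refine (full_mono ?_).trans h3.closed.sub
    exact Finset.subset_insert _ _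
  rw [h9, delta_g hg h3 (noP_xzc i j), hg.delta_image h10, delta_full (noP_xz i j), delta_xzc,
    delta_xz, if_neg hij] at h6
  norm_num at h6

end

/-- the criterion for equality of types -/
lemma trel (hG : Generic G F) {W W' : Finset HV} {g g' : HV → ℕ} (hg : Emb HG W G g)
    (hs : SM G F (W.image g)) (hg' : Emb HG W' G g') (hs' : SM G F (W'.image g'))
    {R R' : Finset HV} (hP : ∀ v ∈ R, v.isP = false)
    (hR : HG.StrongIn W (full R)) (hR' : HG.StrongIn W' (full R')) (α : Bool → ℕ → ℕ)
    (hinj : ∀ s i j, HV.b s i ∈ R → HV.b s j ∈ R → α s i = α s j → i = j)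
    (hord : ∀ i j, HV.b false i ∈ R → HV.b true j ∈ R → (α false i < α true j ↔ i < j))
    (himg : R.image (rx α) = R') {ι : Type} [Finite ι] {v w : ι → PV G} (v0 : ι → HV)
    (hv0 : ∀ i, v0 i ∈ full R) (hv : ∀ i, (v i).1 = g (v0 i))
    (hw : ∀ i, (w i).1 = g' (rx α (v0 i))) : TRel G F v w := by
  obtain ⟨gi, hgi1, hgi2, -⟩ := (hg.mono hR.closed.sub).exists_inv
  have e1 : ((full R).image g).image gi = full R := by
    rw [Finset.image_image]
    ext u
    rw [Finset.mem_image]
    constructor
    · rintro ⟨x, hx, rfl⟩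
      rw [Function.comp, hgi2 x hx]
      exact hx
    · intro hu
      exact ⟨u, hu, hgi2 u hu⟩
  have e2 : Emb HG (((full R).image g).image gi) HG (rx α) := by
    rw [e1]
    exact emb_rx hP α hinj hord
  have e3 := hgi1.comp e2
  have e4 : ((full R).image g).image (rx α ∘ gi) = full R' := by
    rw [← Finset.image_image, e1, image_rx_full R hP, himg]
  have e5 : Emb HG (((full R).image g).image (rx α ∘ gi)) G g' := by
    rw [e4]
    exact hg'.mono hR'.closed.sub
  have e6 := e3.comp e5
  have e7 : ((full R).image g).image (g' ∘ (rx α ∘ gi)) = (full R').image g' := by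
    rw [← Finset.image_image, e4]
  refine TRel.of_emb hG (A := (full R).image g) (f := g' ∘ (rx α ∘ gi))
    (sm_full hG hg hs hR) ?_ e6 ?_ ?_
  · intro x hx
    rw [mem_rg] at hx
    obtain ⟨i, rfl⟩ := hx
    rw [hv i]
    exact Finset.mem_image_of_mem _ (hv0 i)
  · rw [e7]
    exact sm_full hG hg' hs' hR'
  · intro i
    rw [hv i, hw i]
    simp only [Function.comp]
    rw [hgi2 _ (hv0 i)]

lemma strong_b_E {m i : ℕ} (hi : i < m) : HG.StrongIn (E m) (full {HV.b true i}) := by
  apply strong_E
  · intro v hv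
    rw [Finset.mem_singleton] at hv
    subst hv
    rfl
  · rw [Finset.singleton_subset_iff]
    exact b_mem_E.mpr ⟨rfl, hi⟩

/-- no block is adjacent to twelve free blocks -/
lemma no_common (hG : Generic G F) {K : ℕ} {h : HV → ℕ} (hh : Emb HG (E K) G h)
    (hs : SM G F ((E K).image h)) (I : Finset (Fin K)) (hI : I.card = 12) (X : ℕ)
    (hX : G.kind X = .B false) (hadj : ∀ i ∈ I, G.adj X (h (HV.b true i))) : False := by
  let R : Finset HV := I.image fun i : Fin K => HV.b true i
  have hR : ∀ v ∈ R, kd v = .B true := by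
    intro v hv
    rw [Finset.mem_image] at hv
    obtain ⟨i, -, rfl⟩ := hv
    rfl
  have hRP : ∀ v ∈ R, v.isP = false := by
    intro v hv
    rw [Finset.mem_image] at hv
    obtain ⟨i, -, rfl⟩ := hv
    rfl
  have hRE : R ⊆ E K := by
    intro v hv
    rw [Finset.mem_image] at hv
    obtain ⟨i, -, rfl⟩ := hv
    exact b_mem_E.mpr ⟨rfl, i.2⟩
  have hst := strong_E hR hRE
  have hRcard : R.card = 12 := by
    rw [Finset.card_image_of_injective, hI]
    intro i j hij
    simp only [HV.b.injEq] at hij
    exact Fin.ext hij.2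
  have hZ := sm_full hG hh hs hst
  have hδ : G.delta ((full R).image h) = 132 := by
    rw [delta_g hh hst hRP, delta_sameSort true R hR, hRcard]
    norm_num
  set Z := (full R).image h with hZdef
  have hkZ : ∀ x ∈ Z, G.kind x = .P ∨ G.kind x = .B true := by
    intro x hx
    rw [hZdef, Finset.mem_image] at hx
    obtain ⟨u, hu, rfl⟩ := hx
    rw [hh.kind u (hst.closed.sub hu), HG_kind]
    rw [mem_full] at hu
    rcases hu with hu | hu
    · exact Or.inr (hR u hu)
    · exact Or.inl (kd_P.mpr hu.1)
  have hXZ : X ∉ Z := by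
    intro hXZ
    rcases hkZ X hXZ with h1 | h1 <;> rw [hX] at h1 <;> simp at h1
  have hgood : G.Good (clM G F (insert X Z)) (insert X Z) := by
    intro c _ _ _
    left
    have h1 : G.nbB false c (insert X Z) ⊆ {X} := by
      intro u hu
      simp only [Geo.nbB, Finset.mem_filter, Finset.mem_insert] at hu
      rw [Finset.mem_singleton]
      rcases hu with ⟨h1 | h1, -, h3⟩
      · exact h1
      · rcases hkZ u h1 with h4 | h4 <;> rw [h3] at h4 <;> simp at h4
    have h2 := Finset.card_le_card h1
    rw [Finset.card_singleton] at h2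
    omega
  have h1 := clM_delta_le_good hG (clM_strong hG (insert X Z)) (subset_clM hG _) hgood
  have h2 := SM.delta_mono hG hZ (clM_strong hG (insert X Z))
    ((Finset.subset_insert X Z).trans (subset_clM hG _))
  rw [hδ] at h2
  have h3 := Geo.delta_insert_B G false hXZ hX
  have h4 : G.nbC X Z = ∅ := by
    ext u
    simp only [Geo.nbC, Finset.mem_filter, Finset.notMem_empty, iff_false]
    rintro ⟨h5, -, h6⟩
    rcases hkZ u h5 with h7 | h7 <;> rw [h6] at h7 <;> simp at h7
  have h5 : 12 ≤ (G.nbB (!false) X Z).card := by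
    have h6 : R.image h ⊆ G.nbB (!false) X Z := by
      intro u hu
      rw [Finset.mem_image] at hu
      obtain ⟨w, hw, rfl⟩ := hu
      simp only [Geo.nbB, Finset.mem_filter]
      refine ⟨Finset.mem_image_of_mem _ (mem_full.mpr (Or.inl hw)), ?_, ?_⟩
      · rw [Finset.mem_image] at hw
        obtain ⟨i, hi, rfl⟩ := hw
        exact hadj i hi
      · rw [hh.kind w (hRE hw), HG_kind, hR w hw]
        rfl
    have h7 := Finset.card_le_card h6
    rw [Finset.card_image_of_injOn, hRcard] at h7
    · exact h7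
    · exact fun u hu v hv huv => hh.inj (hRE hu) (hRE hv) huv
  have h6 : G.ed (G.nbC X Z) (G.nbB (!false) X Z) = 0 := by
    rw [h4]
    simp [Geo.ed]
  rw [h6, h4, hδ] at h3
  simp only [Finset.card_empty] at h3
  have h7 : (12 : ℤ) ≤ ((G.nbB (!false) X Z).card : ℤ) := by exact_mod_cast h5
  have h8 : (0 : ℤ) ≤ ((G.nbP X Z).card : ℤ) := by positivity
  push_cast at h3
  linarith

end Half

open Half HV in
theorem exists_half {G : Geo ℕ} {F : ℕ → Finset ℕ} (hG : Generic G F) :
    ∃ p q p' q' : Fin 11 → PV G,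
    rkT G F p' q' = rkT G F p' (Fin.elim0 : Fin 0 → PV G) ∧ TRel G F q q' ∧
    (∀ K : ℕ, ∃ a b : Fin K → Fin 11 → PV G, ∀ i j,
      (i < j → TRel G F (Sum.elim (a i) (b j)) (Sum.elim p q)) ∧
      (¬ i < j → TRel G F (Sum.elim (a i) (b j)) (Sum.elim p' q'))) ∧
    (∀ K : ℕ, ∃ b : Fin K → Fin 11 → PV G, (∀ i, TRel G F (b i) q) ∧
      (∀ (m : ℕ) (s t : Fin m → Fin K), Function.Injective s → Function.Injective t →
        TRel G F (fun x : Fin m × Fin 11 => b (s x.1) x.2) (fun x => b (t x.1) x.2)) ∧
      ∀ I : Finset (Fin K), I.card = 12 →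
        ¬ ∃ a : Fin 11 → PV G, ∀ i ∈ I, TRel G F (Sum.elim a (b i)) (Sum.elim p q)) := by
  obtain ⟨g, hg, hs⟩ := exists_emb hG (inK_D 2)
  let P : Bool → Fin 2 → Fin 11 → PV G := fun s i t =>
    ⟨g (HV.p s i t), kind_P hg (p_mem_D.mpr i.2) rfl⟩
  have hP : ∀ s i t, (P s i t).1 = g (HV.p s i t) := fun _ _ _ => rfl
  have hsb : ∀ s (i : Fin 2), HG.StrongIn (D 2) (full {HV.b s i}) := fun s i => strong_b i.2
  refine ⟨P false 0, P true 1, P false 1, P true 0, ?_, ?_, ?_, ?_⟩
  · -- the rank
    have h1 := cl_xzc hG hg hs (i := 1) (j := 0) (by norm_num) (hsb false 1) (hsb true 0)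
      (strong_xzc (by norm_num) (by norm_num)) (v := P false 1) (w := P true 0)
      (fun t => rfl) (fun t => rfl)
    have h2 := cl_b hG hg hs (s := true) (i := 0) (hsb true 0) (v := P true 0) (fun t => rfl)
    have h3 := cl_b hG hg hs (s := false) (i := 1) (hsb false 1) (v := P false 1) (fun t => rfl)
    have h4 : rg (Fin.elim0 : Fin 0 → PV G) = ∅ := by
      ext a
      rw [mem_rg]
      simp only [Finset.notMem_empty, iff_false]
      rintro ⟨i, -⟩
      exact i.elim0
    have h5 : clM G F ∅ = ∅ := clM_eq hG (SM.empty hG)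
    have h6 : HG.StrongIn (D 2) (full {HV.b true 0}) := hsb true 0
    have h7 : HG.StrongIn (D 2) (full {HV.b false 1}) := hsb false 1
    unfold rkT
    rw [h4, Finset.union_empty, h5, h1, h2, h3,
      delta_g hg (strong_xzc (by norm_num) (by norm_num)) (noP_xzc 1 0), delta_xzc,
      delta_g hg h6 (noP_b _ _), delta_g hg h7 (noP_b _ _), delta_b,
      delta_b, Geo.delta_empty]
    norm_num
  · -- `q` and `q'`
    refine trel hG hg hs hg hs (R := {HV.b true 1}) (R' := {HV.b true 0}) (noP_b _ _)
      (hsb true 1) (hsb true 0) (fun _ _ => 0) ?_ ?_ ?_ (fun t => HV.p true 1 t)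
      (fun t => p_mem_full t (by simp)) (fun t => rfl) (fun t => rfl)
    · intro s i j hi hj _
      simp only [Finset.mem_singleton, HV.b.injEq] at hi hj
      rw [hi.2, hj.2]
    · intro i j hi hj
      simp at hi
    · simp [rx]
  · -- the half graph
    intro K
    obtain ⟨g', hg', hs'⟩ := exists_emb hG (inK_D K)
    refine ⟨fun i t => ⟨g' (HV.p false i t), kind_P hg' (p_mem_D.mpr i.2) rfl⟩,
      fun j t => ⟨g' (HV.p true j t), kind_P hg' (p_mem_D.mpr j.2) rfl⟩, fun i j => ⟨?_, ?_⟩⟩
    · intro hij
      refine trel hG hg' hs' hg hs (R := {HV.b false i, HV.b true j})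
        (R' := {HV.b false 0, HV.b true 1}) (noP_xz _ _) (strong_xz i.2 j.2 hij)
        (strong_xz (by norm_num) (by norm_num) (by norm_num)) (fun s _ => if s then 1 else 0)
        ?_ ?_ ?_ (Sum.elim (fun t => HV.p false i t) (fun t => HV.p true j t)) ?_ ?_ ?_
      · intro s i' j' hi hj _
        cases s <;> simp at hi hj <;> rw [hi, hj]
      · intro i' j' hi hj
        simp at hi hj
        subst hi hj
        simpa using hij
      · simp [rx, Finset.image_insert]
      · rintro (t | t)
        · exact p_mem_full t (by simp)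
        · exact p_mem_full t (by simp)
      · rintro (t | t) <;> rfl
      · rintro (t | t) <;> rfl
    · intro hij
      refine trel hG hg' hs' hg hs (R := {HV.c, HV.b false i, HV.b true j})
        (R' := {HV.c, HV.b false 1, HV.b true 0}) (noP_xzc _ _) (strong_xzc i.2 j.2)
        (strong_xzc (by norm_num) (by norm_num)) (fun s _ => if s then 0 else 1)
        ?_ ?_ ?_ (Sum.elim (fun t => HV.p false i t) (fun t => HV.p true j t)) ?_ ?_ ?_
      · intro s i' j' hi hj _
        cases s <;> simp at hi hj <;> rw [hi, hj]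
      · intro i' j' hi hj
        simp at hi hj
        subst hi hj
        simpa using hij
      · simp [rx, Finset.image_insert]
      · rintro (t | t)
        · exact p_mem_full t (by simp)
        · exact p_mem_full t (by simp)
      · rintro (t | t) <;> rfl
      · rintro (t | t) <;> rfl
  · -- dividing
    intro K
    obtain ⟨h, hh, hsh⟩ := exists_emb hG (inK_E K)
    refine ⟨fun i t => ⟨h (HV.p true i t), kind_P hh (p_mem_E.mpr ⟨rfl, i.2⟩) rfl⟩, ?_, ?_, ?_⟩
    · intro i
      refine trel hG hh hsh hg hs (R := {HV.b true i}) (R' := {HV.b true 1}) (noP_b _ _)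
        (strong_b_E i.2) (hsb true 1) (fun _ _ => 1) ?_ ?_ ?_ (fun t => HV.p true i t)
        (fun t => p_mem_full t (by simp)) (fun t => rfl) (fun t => rfl)
      · intro s i' j' hi hj _
        simp only [Finset.mem_singleton, HV.b.injEq] at hi hj
        rw [hi.2, hj.2]
      · intro i' j' hi hj
        simp at hi
      · simp [rx]
    · intro m s t hsi hti
      classical
      obtain ⟨α, hα⟩ : ∃ α : Bool → ℕ → ℕ, ∀ b (j : Fin m), α b (s j) = t j := by
        refine ⟨fun _ n =>
          if hn : ∃ j : Fin m, ((s j : Fin K) : ℕ) = n then (t hn.choose : Fin K) else 0, ?_⟩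
        intro b j
        have hn : ∃ j' : Fin m, ((s j' : Fin K) : ℕ) = s j := ⟨j, rfl⟩
        simp only [dif_pos hn]
        rw [hsi (Fin.ext hn.choose_spec)]
      let R : Finset HV := Finset.univ.image fun j : Fin m => HV.b true (s j)
      let R' : Finset HV := Finset.univ.image fun j : Fin m => HV.b true (t j)
      have hk : ∀ u : Fin m → Fin K, ∀ v ∈ (Finset.univ.image fun j : Fin m => HV.b true (u j)),
          kd v = .B true ∧ v.isP = false ∧ v ∈ E K := by
        intro u v hv
        rw [Finset.mem_image] at hv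
        obtain ⟨j, -, rfl⟩ := hv
        exact ⟨rfl, rfl, b_mem_E.mpr ⟨rfl, (u j).2⟩⟩
      refine trel hG hh hsh hh hsh (R := R) (R' := R') (fun v hv => (hk s v hv).2.1)
        (strong_E (fun v hv => (hk s v hv).1) (fun v hv => (hk s v hv).2.2))
        (strong_E (fun v hv => (hk t v hv).1) (fun v hv => (hk t v hv).2.2)) α ?_ ?_ ?_
        (fun x => HV.p true (s x.1) x.2) ?_ (fun x => rfl) ?_
      · intro s' i' j' hi hj hij
        simp only [R, Finset.mem_image, Finset.mem_univ, true_and, HV.b.injEq] at hi hj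
        obtain ⟨j1, rfl, rfl⟩ := hi
        obtain ⟨j2, -, rfl⟩ := hj
        rw [hα, hα] at hij
        rw [hti (Fin.ext hij)]
      · intro i' j' hi hj
        simp [R] at hi
      · ext v
        simp only [R, R', Finset.mem_image, Finset.mem_univ, true_and, exists_exists_eq_and]
        constructor
        · rintro ⟨j, rfl⟩
          exact ⟨j, by simp only [rx]; rw [hα]⟩
        · rintro ⟨j, rfl⟩
          exact ⟨j, by simp only [rx]; rw [hα]⟩
      · intro x
        apply p_mem_full
        exact Finset.mem_image_of_mem _ (Finset.mem_univ _)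
      · intro x
        simp only [rx]
        rw [hα]
    · rintro I hI ⟨a, ha⟩
      have hIne : I.Nonempty := by
        rw [← Finset.card_pos, hI]
        norm_num
      have hxz := cl_xz hG hg hs (i := 0) (j := 1) (hsb false 0) (hsb true 1)
        (strong_xz (by norm_num) (by norm_num) (by norm_num)) (v := P false 0) (w := P true 1)
        (fun t => rfl) (fun t => rfl)
      have hcx := cl_b hG hg hs (s := false) (i := 0) (hsb false 0) (v := P false 0) (fun t => rfl)
      have hcz := cl_b hG hg hs (s := true) (i := 1) (hsb true 1) (v := P true 1) (fun t => rfl)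
      have hsm := sm_full hG hg hs (strong_xz (m := 2) (i := 0) (j := 1) (by norm_num)
        (by norm_num) (by norm_num))
      have hsubp : rg (P false 0) ⊆ (full {HV.b false 0, HV.b true 1}).image g :=
        rg_sub (s := false) (i := 0) (fun t => rfl) (by simp)
      have hsubq : rg (P true 1) ⊆ (full {HV.b false 0, HV.b true 1}).image g :=
        rg_sub (s := true) (i := 1) (fun t => rfl) (by simp)
      have key : ∀ i ∈ I, ∃ f : ℕ → ℕ, Emb G ((full {HV.b false 0, HV.b true 1}).image g) G f ∧
          clM G F (rg a) = ((full {HV.b false 0}).image g).image f ∧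
          f (g (HV.b true 1)) = h (HV.b true i) := by
        intro i hi
        obtain ⟨f, hf1, hf2, hf3⟩ := TRel.symm hG (ha i hi)
        rw [rg_sum, hxz] at hf1 hf2
        have hfs : SM G F (((full {HV.b false 0, HV.b true 1}).image g).image f) := by
          rw [hf2]
          exact clM_strong hG _
        have hap : (rg (P false 0)).image f = rg a := by
          ext x
          rw [Finset.mem_image, mem_rg]
          constructor
          · rintro ⟨y, hy, rfl⟩
            rw [mem_rg] at hy
            obtain ⟨t, rfl⟩ := hy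
            exact ⟨t, (hf3 (Sum.inl t)).symm⟩
          · rintro ⟨t, rfl⟩
            exact ⟨_, (mem_rg _ _).mpr ⟨t, rfl⟩, hf3 (Sum.inl t)⟩
        have hbq : (rg (P true 1)).image f = rg (fun t : Fin 11 =>
            (⟨h (HV.p true i t), kind_P hh (p_mem_E.mpr ⟨rfl, i.2⟩) rfl⟩ : PV G)) := by
          ext x
          rw [Finset.mem_image, mem_rg]
          constructor
          · rintro ⟨y, hy, rfl⟩
            rw [mem_rg] at hy
            obtain ⟨t, rfl⟩ := hy
            exact ⟨t, (hf3 (Sum.inr t)).symm⟩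
          · rintro ⟨t, rfl⟩
            exact ⟨_, (mem_rg _ _).mpr ⟨t, rfl⟩, hf3 (Sum.inr t)⟩
        refine ⟨f, hf1, ?_, ?_⟩
        · rw [← hap, clM_image hG hsm hf1 hfs hsubp, hcx]
        · have h1 := clM_image hG hsm hf1 hfs hsubq
          rw [hbq, hcz, cl_b hG hh hsh (s := true) (i := i) (strong_b_E i.2) (fun t => rfl)] at h1
          have h2 : f (g (HV.b true 1)) ∈ (full {HV.b true i}).image h := by
            rw [h1]
            exact Finset.mem_image_of_mem _ (Finset.mem_image_of_mem _ (b_mem_full (by simp)))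
          rw [Finset.mem_image] at h2
          obtain ⟨u, hu, hu2⟩ := h2
          rcases mem_full_b hu with rfl | ⟨t, rfl⟩
          · exact hu2.symm
          · exfalso
            have h3 : G.kind (f (g (HV.b true 1))) = .B true := by
              rw [hf1.kind _ (Finset.mem_image_of_mem _ (b_mem_full (by simp))),
                hg.kind _ (b_mem_D.mpr (by norm_num))]
              rfl
            rw [← hu2, kind_P hh (p_mem_E.mpr ⟨rfl, i.2⟩) rfl] at h3
            simp at h3
      obtain ⟨i0, hi0⟩ := hIne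
      obtain ⟨f0, hf01, hf02, -⟩ := key i0 hi0
      have hmemx : g (HV.b false 0) ∈ (full {HV.b false 0, HV.b true 1}).image g :=
        Finset.mem_image_of_mem _ (b_mem_full (by simp))
      have hmemz : g (HV.b true 1) ∈ (full {HV.b false 0, HV.b true 1}).image g :=
        Finset.mem_image_of_mem _ (b_mem_full (by simp))
      have hkx : ∀ f : ℕ → ℕ, Emb G ((full {HV.b false 0, HV.b true 1}).image g) G f →
          G.kind (f (g (HV.b false 0))) = .B false := by
        intro f hf
        rw [hf.kind _ hmemx, hg.kind _ (b_mem_D.mpr (by norm_num))]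
        rfl
      refine no_common hG hh hsh I hI (f0 (g (HV.b false 0))) (hkx f0 hf01) ?_
      intro i hi
      obtain ⟨f, hf1, hf2, hf3⟩ := key i hi
      have h1 : f (g (HV.b false 0)) = f0 (g (HV.b false 0)) := by
        have h2 : f (g (HV.b false 0)) ∈ clM G F (rg a) := by
          rw [hf2]
          exact Finset.mem_image_of_mem _ (Finset.mem_image_of_mem _ (b_mem_full (by simp)))
        rw [hf02, Finset.mem_image] at h2
        obtain ⟨y, hy, hy2⟩ := h2
        rw [Finset.mem_image] at hy
        obtain ⟨u, hu, rfl⟩ := hy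
        rcases mem_full_b hu with rfl | ⟨t, rfl⟩
        · exact hy2.symm
        · exfalso
          have h3 := hkx f hf1
          rw [← hy2, hf01.kind _ (Finset.mem_image_of_mem _ (p_mem_full t (by simp))),
            kind_P hg (p_mem_D.mpr (by norm_num)) rfl] at h3
          simp at h3
      rw [← h1, ← hf3, hf1.adj _ hmemx _ hmemz, hg.adj _ (b_mem_D.mpr (by norm_num)) _
        (b_mem_D.mpr (by norm_num))]
      exact Or.inl ⟨rfl, rfl, by norm_num⟩

end Pool.Agent.SF
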