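import Pool.Agent.SF.NoFork
import Pool.Agent.SF.AlgFork
import Pool.Agent.SF.Div1

/-!
# 1-types have stable forking, some `n`-types do not
-/

set_option autoImplicit false

namespace Pool.Agent.SF

open FirstOrder FirstOrder.Language TypeSpace Div1

variable {M : Type} {X : TypeSpace M}

private theorem rk_elim0 (D : ForkData X) {ι κ : Type} [Finite ι] [Finite κ] (a : ι → M)
    (b : κ → M) : D.rk a (Sum.elim b (Fin.elim0 : Fin 0 → M)) = D.rk a b := by
  apply le_antisymm
  · exact D.rk_mono a (Sum.elim b (Fin.elim0 : Fin 0 → M)) (fun t => Sum.inl t)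
  · have h := D.rk_mono a b (Sum.elim id fun j : Fin 0 => j.elim0)
    have e : b ∘ (Sum.elim id fun j : Fin 0 => j.elim0) = Sum.elim b (Fin.elim0 : Fin 0 → M) := by
      funext x
      rcases x with x | x
      · rfl
      · exact x.elim0
    rwa [e] at h

theorem ForkData.hasSF_one (D : ForkData X) : HasSF X.th 1 := by
  classical
  intro N A B hAB a hfork
  obtain ⟨m, φ, b, hb, hφ, hF⟩ := hfork
  have hN : N ⊨ X.th := N.is_model
  have ha : a = fun _ => a 0 := funext fun x => by rw [Subsingleton.elim x 0]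
  by_cases h1 : ∃ (l : ℕ) (c : Fin l → N), (∀ j, c j ∈ A) ∧ MAlg D c (a 0)
  · obtain ⟨l, c, hc, a₀, c₀, hs, hA⟩ := h1
    refine absurd hF (D.not_forks_of_alg hN hc hA hs ?_)
    rw [ha] at hφ
    exact hφ
  · by_cases h2 : ∃ (m : ℕ) (b : Fin m → N), (∀ j, b j ∈ B) ∧ MAlg D b (a 0)
    · obtain ⟨m, b, hb, a₀, b₀, hs, hB⟩ := h2
      obtain ⟨m', φ', b', h3, h4, h5, h6⟩ := D.exists_stable N hAB (a 0)
        (fun l c hc a₁ c₁ hs₁ hA₁ => h1 ⟨l, c, hc, a₁, c₁, hs₁, hA₁⟩) hb hs hB
      exact ⟨m', φ', b', h3, by rw [ha]; exact h4, h5, h6⟩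
    · exfalso
      obtain ⟨u, hu⟩ := exists_same (X := X) hN model_self (Sum.elim b fun _ : Unit => a 0)
      have hs : X.Same (Sum.elim (fun i => u (Sum.inl i)) fun _ : Unit => u (Sum.inr ()))
          (Sum.elim b fun _ : Unit => a 0) :=
        same_of hu id (by rintro (x | x) <;> rfl) (by rintro (x | x) <;> rfl)
      have hn : ¬ D.Alg (fun i => u (Sum.inl i)) (u (Sum.inr ())) :=
        fun h => h2 ⟨m, b, hb, _, _, hs, h⟩
      have hrk := D.alg_rk hn
      refine D.not_forks hN (A := A) (c := (Fin.elim0 : Fin 0 → N)) (fun j => j.elim0)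
        (a₀ := fun _ : Fin 1 => u (Sum.inr ())) (b₀ := fun i => u (Sum.inl i))
        (c₀ := (Fin.elim0 : Fin 0 → M)) ?_ ?_ ?_ hF
      · exact same_of hs (Sum.elim (fun i => Sum.inl i) fun j : Fin 0 => j.elim0)
          (by rintro (x | x)
              · rfl
              · exact x.elim0)
          (by rintro (x | x)
              · rfl
              · exact x.elim0)
      · rw [rk_elim0]
        exact hrk
      · have h3 : X.Same (Sum.elim (fun _ : Fin 1 => u (Sum.inr ())) fun i => u (Sum.inl i))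
            (Sum.elim a b) :=
          same_of hs (Sum.elim (fun _ => Sum.inr ()) fun i => Sum.inl i)
            (by rintro (x | x) <;> rfl)
            (by rintro (x | x)
                · exact congrArg a (Subsingleton.elim x 0)
                · rfl)
        exact (h3.realize model_self hN φ).2 hφ

/-! ### compactness for the second part -/

/-- half graphs of all finite lengths give an infinite half graph -/
private theorem not_stable_of_finite [Nonempty M] {n m : ℕ} (φ : X.lang.Formula (Fin n ⊕ Fin m))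
    (h : ∀ K : ℕ, ∃ (a : Fin K → Fin n → M) (b : Fin K → Fin m → M), ∀ i j,
      φ.Realize (Sum.elim (a i) (b j)) ↔ i < j) : ¬ StableFormula X.th φ := by
  classical
  intro hst
  -- the formulas
  let gp : ℕ → ℕ → X.lang.Formula (M ⊕ ((ℕ × Fin n) ⊕ (ℕ × Fin m))) := fun i j =>
    φ.relabel (Sum.elim (fun t => Sum.inr (Sum.inl (i, t))) fun t => Sum.inr (Sum.inr (j, t)))
  have hgp : ∀ {P : Type} [X.lang.Structure P] (e : M → P) (v : (ℕ × Fin n) ⊕ (ℕ × Fin m) → P)
      (i j : ℕ), (gp i j).Realize (Sum.elim e v) ↔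
        φ.Realize (Sum.elim (fun t => v (Sum.inl (i, t))) fun t => v (Sum.inr (j, t))) := by
    intro P _ e v i j
    have : Sum.elim e v ∘ (Sum.elim (fun t : Fin n => Sum.inr (Sum.inl (i, t)))
        fun t : Fin m => Sum.inr (Sum.inr (j, t))) =
        Sum.elim (fun t => v (Sum.inl (i, t))) fun t => v (Sum.inr (j, t)) := by
      funext x
      rcases x with x | x <;> rfl
    simp only [gp, Formula.realize_relabel, this]
  let Γ : Set (X.lang.Formula (M ⊕ ((ℕ × Fin n) ⊕ (ℕ × Fin m)))) :=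
    {χ | ∃ i j : ℕ, (i < j ∧ χ = gp i j) ∨ (¬ i < j ∧ χ = ∼(gp i j))}
  have hfin : ∀ Δ : Finset (X.lang.Formula (M ⊕ ((ℕ × Fin n) ⊕ (ℕ × Fin m)))),
      (Δ : Set (X.lang.Formula (M ⊕ ((ℕ × Fin n) ⊕ (ℕ × Fin m))))) ⊆ Γ →
      ∃ K : ℕ, ∀ v : (ℕ × Fin n) ⊕ (ℕ × Fin m) → M,
        (∀ i < K, ∀ j < K,
          (φ.Realize (Sum.elim (fun t => v (Sum.inl (i, t))) fun t => v (Sum.inr (j, t)))
            ↔ i < j)) → ∀ χ ∈ Δ, χ.Realize (Sum.elim id v) := by
    intro Δ
    induction Δ using Finset.induction_on with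
    | empty => exact fun _ => ⟨0, fun v _ χ hχ => by simp at hχ⟩
    | insert χ Δ _ ih =>
      intro hΔ
      rw [Finset.coe_insert] at hΔ
      obtain ⟨K, hK⟩ := ih fun x hx => hΔ (Set.mem_insert_of_mem _ hx)
      obtain ⟨i, j, hij⟩ := hΔ (Set.mem_insert _ _)
      refine ⟨max K (max (i + 1) (j + 1)), fun v hv χ' hχ' => ?_⟩
      rcases Finset.mem_insert.1 hχ' with rfl | hχ'
      · have h1 := hv i (by omega) j (by omega)
        rcases hij with ⟨h2, rfl⟩ | ⟨h2, rfl⟩
        · rw [hgp]; exact h1.2 h2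
        · rw [Formula.realize_not, hgp]
          exact fun h3 => h2 (h1.1 h3)
      · exact hK v (fun i hi j hj => hv i (by omega) j (by omega)) χ' hχ'
  obtain ⟨N', iN', e, v, hv⟩ := exists_elementary_realizing (L := X.lang) (N := M) Γ (by
    intro Δ hΔ
    obtain ⟨K, hK⟩ := hfin Δ hΔ
    obtain ⟨a, b, hab⟩ := h K
    obtain ⟨x₀⟩ := ‹Nonempty M›
    refine ⟨Sum.elim (fun p => if hp : p.1 < K then a ⟨p.1, hp⟩ p.2 else x₀)
      (fun p => if hp : p.1 < K then b ⟨p.1, hp⟩ p.2 else x₀), hK _ ?_⟩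
    intro i hi j hj
    have := hab ⟨i, hi⟩ ⟨j, hj⟩
    simp only [Sum.elim_inl, Sum.elim_inr, dif_pos hi, dif_pos hj]
    exact this.trans (by simp))
  have hN' : N' ⊨ X.th := model_of_elementary model_self e
  haveI : Nonempty N' := ⟨e (Classical.arbitrary M)⟩
  haveI : N' ⊨ X.th := hN'
  refine hst ⟨FirstOrder.Language.Theory.ModelType.of X.th N',
    fun i t => v (Sum.inl (i, t)), fun j t => v (Sum.inr (j, t)), ?_⟩
  intro i j
  constructor
  · intro h1
    by_contra h2
    have := hv (∼(gp i j)) ⟨i, j, Or.inr ⟨h2, rfl⟩⟩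
    rw [Formula.realize_not, hgp] at this
    exact this h1
  · intro h1
    have := hv (gp i j) ⟨i, j, Or.inl ⟨h1, rfl⟩⟩
    rw [hgp] at this
    exact this

private theorem divides_of_finite [Nonempty M] {n m : ℕ} (φ : X.lang.Formula (Fin n ⊕ Fin m))
    (q : Fin m → M) (k : ℕ)
    (h : ∀ K : ℕ, ∃ b : Fin K → Fin m → M, (∀ i, X.R (b i) q) ∧
      ∀ I : Finset (Fin K), I.card = k →
        ¬ ∃ a : Fin n → M, ∀ i ∈ I, φ.Realize (Sum.elim a (b i))) : Divides φ q ∅ := by
  classical
  let gx : ℕ → X.lang.Formula ((M ⊕ (ℕ × Fin m)) ⊕ Fin n) := fun i =>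
    φ.relabel (Sum.elim (fun t => Sum.inr t) fun t => Sum.inl (Sum.inr (i, t)))
  have hgx : ∀ {P : Type} [X.lang.Structure P] (e : M → P) (v : ℕ × Fin m → P) (x : Fin n → P)
      (i : ℕ), (gx i).Realize (Sum.elim (Sum.elim e v) x) ↔
        φ.Realize (Sum.elim x fun t => v (i, t)) := by
    intro P _ e v x i
    have : Sum.elim (Sum.elim e v) x ∘ (Sum.elim (fun t : Fin n => Sum.inr t)
        fun t : Fin m => Sum.inl (Sum.inr (i, t))) = Sum.elim x fun t => v (i, t) := by
      funext x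
      rcases x with x | x <;> rfl
    simp only [gx, Formula.realize_relabel, this]
  let gI : Finset ℕ → X.lang.Formula (M ⊕ (ℕ × Fin m)) := fun I =>
    ∼(Formula.iExs (Fin n) (Formula.iInf fun i : {x // x ∈ I} => gx i.1))
  have hgI : ∀ {P : Type} [X.lang.Structure P] (e : M → P) (v : ℕ × Fin m → P) (I : Finset ℕ),
      (gI I).Realize (Sum.elim e v) ↔
        ¬ ∃ x : Fin n → P, ∀ i ∈ I, φ.Realize (Sum.elim x fun t => v (i, t)) := by
    intro P _ e v I
    simp only [gI, Formula.realize_not, Formula.realize_iExs, Formula.realize_iInf, hgx,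
      Subtype.forall]
  let Γ : Set (X.lang.Formula (M ⊕ (ℕ × Fin m))) :=
    {χ | (∃ (i : ℕ) (ψ : X.lang.Formula (Fin m ⊕ Fin 0)),
        ψ.Realize (Sum.elim q (Fin.elim0 : Fin 0 → M)) ∧ χ = fT i 0 ψ Fin.elim0) ∨
      ∃ I : Finset ℕ, I.card = k ∧ χ = gI I}
  have hfin : ∀ Δ : Finset (X.lang.Formula (M ⊕ (ℕ × Fin m))),
      (Δ : Set (X.lang.Formula (M ⊕ (ℕ × Fin m)))) ⊆ Γ →
      ∃ K : ℕ, ∀ v : ℕ × Fin m → M, (∀ i < K, X.Same (fun t => v (i, t)) q) →
        (∀ I : Finset ℕ, I.card = k → (∀ i ∈ I, i < K) →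
          ¬ ∃ x : Fin n → M, ∀ i ∈ I, φ.Realize (Sum.elim x fun t => v (i, t))) →
        ∀ χ ∈ Δ, χ.Realize (Sum.elim id v) := by
    intro Δ
    induction Δ using Finset.induction_on with
    | empty => exact fun _ => ⟨0, fun v _ _ χ hχ => by simp at hχ⟩
    | insert χ Δ _ ih =>
      intro hΔ
      rw [Finset.coe_insert] at hΔ
      obtain ⟨K, hK⟩ := ih fun x hx => hΔ (Set.mem_insert_of_mem _ hx)
      rcases hΔ (Set.mem_insert _ _) with ⟨i, ψ, hψ, rfl⟩ | ⟨I, hI, rfl⟩
      · refine ⟨max K (i + 1), fun v hv1 hv2 χ' hχ' => ?_⟩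
        rcases Finset.mem_insert.1 hχ' with rfl | hχ'
        · rw [realize_fT]
          have h1 : X.Same (Sum.elim (fun t => v (i, t)) (id ∘ (Fin.elim0 : Fin 0 → M)))
              (Sum.elim q (Fin.elim0 : Fin 0 → M)) :=
            same_of (hv1 i (by omega)) (Sum.elim id fun j : Fin 0 => j.elim0)
              (by rintro (x | x)
                  · rfl
                  · exact x.elim0)
              (by rintro (x | x)
                  · rfl
                  · exact x.elim0)
          exact (h1.realize model_self model_self ψ).2 hψ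
        · exact hK v (fun i hi => hv1 i (by omega))
            (fun I hI hIK => hv2 I hI fun i hi => lt_of_lt_of_le (hIK i hi) (le_max_left _ _))
            χ' hχ'
      · refine ⟨max K (I.sup id + 1), fun v hv1 hv2 χ' hχ' => ?_⟩
        rcases Finset.mem_insert.1 hχ' with rfl | hχ'
        · rw [hgI]
          refine hv2 I hI fun i hi => ?_
          have : i ≤ I.sup id := Finset.le_sup (f := id) hi
          omega
        · exact hK v (fun i hi => hv1 i (by omega))
            (fun I hI hIK => hv2 I hI fun i hi => lt_of_lt_of_le (hIK i hi) (le_max_left _ _))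
            χ' hχ'
  obtain ⟨N', iN', e, v, hv⟩ := exists_elementary_realizing (L := X.lang) (N := M) Γ (by
    intro Δ hΔ
    obtain ⟨K, hK⟩ := hfin Δ hΔ
    obtain ⟨b, hb1, hb2⟩ := h K
    refine ⟨fun p => if hp : p.1 < K then b ⟨p.1, hp⟩ p.2 else q p.2, hK _ ?_ ?_⟩
    · intro i hi
      simp only [dif_pos hi]
      exact same_iff.2 (hb1 ⟨i, hi⟩)
    · rintro I hI hIK ⟨x, hx⟩
      refine hb2 (I.attachFin hIK) (by rw [Finset.card_attachFin, hI]) ⟨x, ?_⟩
      intro i hi
      have h1 : (i : ℕ) ∈ I := Finset.mem_attachFin hIK |>.1 hi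
      have h2 := hx i h1
      simp only [dif_pos i.2] at h2
      exact h2)
  refine ⟨N', iN', e, k, fun i t => v (i, t), ?_, ?_⟩
  · intro i l ψ a ha
    have hl : l = 0 := by
      by_contra hl
      exact absurd (ha ⟨0, Nat.pos_of_ne_zero hl⟩) (Set.notMem_empty _)
    subst hl
    have ea : a = Fin.elim0 := funext fun j => j.elim0
    subst ea
    have key : ∀ ψ : X.lang.Formula (Fin m ⊕ Fin 0),
        ψ.Realize (Sum.elim q (Fin.elim0 : Fin 0 → M)) →
        ψ.Realize (Sum.elim (fun t => v (i, t)) (e ∘ (Fin.elim0 : Fin 0 → M))) := by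
      intro ψ hψ
      have := hv (fT i 0 ψ Fin.elim0) (Or.inl ⟨i, ψ, hψ, rfl⟩)
      rwa [realize_fT] at this
    constructor
    · intro h1
      by_contra hcon
      have := key (∼ψ) (by rwa [Formula.realize_not])
      rw [Formula.realize_not] at this
      exact this h1
    · exact key ψ
  · intro I hI
    have := hv (gI I) (Or.inr ⟨I, hI, rfl⟩)
    rwa [hgI] at this

theorem ForkData.not_hasSF (D : ForkData X) [Nonempty M] (n k : ℕ) (p q p' q' : Fin n → M)
    (hInd : D.rk p' q' = D.rk p' (Fin.elim0 : Fin 0 → M)) (hqq : X.R q q')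
    (half : ∀ K : ℕ, ∃ a b : Fin K → Fin n → M, ∀ i j,
      (i < j → X.R (Sum.elim (a i) (b j)) (Sum.elim p q)) ∧
      (¬ i < j → X.R (Sum.elim (a i) (b j)) (Sum.elim p' q')))
    (div : ∀ K : ℕ, ∃ b : Fin K → Fin n → M, (∀ i, X.R (b i) q) ∧
      ∀ I : Finset (Fin K), I.card = k →
        ¬ ∃ a : Fin n → M, ∀ i ∈ I, X.R (Sum.elim a (b i)) (Sum.elim p q)) :
    ¬ HasSF X.th n := by
  classical
  intro hSF
  haveI : M ⊨ X.th := model_self
  obtain ⟨φR, hφR⟩ := exists_isolating X (Sum.elim p q)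
  have hφR' : ∀ v : Fin n ⊕ Fin n → M, φR.Realize v ↔ X.R v (Sum.elim p q) := by
    intro v
    rw [hφR M model_self v]
    exact ⟨fun h => same_iff.1 h.symm, fun h => (same_iff.2 h).symm⟩
  have hdiv : Divides φR q ∅ := by
    apply divides_of_finite φR q k
    intro K
    obtain ⟨b, hb1, hb2⟩ := div K
    refine ⟨b, hb1, fun I hI => ?_⟩
    simp only [hφR']
    exact hb2 I hI
  obtain ⟨m, φ, b, hb, hφ, hF, hst⟩ := hSF (FirstOrder.Language.Theory.ModelType.of X.th M) ∅
    (Set.range q) (Set.empty_subset _) p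
    ⟨n, φR, q, fun i => ⟨i, rfl⟩, (hφR' _).2 (X.refl _), forks_of_divides hdiv⟩
  choose f hf using hb
  have hbf : b = q ∘ f := funext fun j => (hf j).symm
  subst hbf
  have hφ' : φ.Realize (Sum.elim p' (q' ∘ f)) := by
    by_contra hcon
    refine not_stable_of_finite φ ?_ hst
    intro K
    obtain ⟨a, b, hab⟩ := half K
    refine ⟨a, fun j => b j ∘ f, fun i j => ⟨fun h1 => ?_, fun h1 => ?_⟩⟩
    · by_contra h2
      have h3 : X.Same (Sum.elim (a i) (b j ∘ f)) (Sum.elim p' (q' ∘ f)) :=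
        same_of (same_iff.2 ((hab i j).2 h2)) (Sum.map id f) (by rintro (x | x) <;> rfl)
          (by rintro (x | x) <;> rfl)
      exact hcon ((h3.realize model_self model_self φ).1 h1)
    · have h3 : X.Same (Sum.elim (a i) (b j ∘ f)) (Sum.elim p (q ∘ f)) :=
        same_of (same_iff.2 ((hab i j).1 h1)) (Sum.map id f) (by rintro (x | x) <;> rfl)
          (by rintro (x | x) <;> rfl)
      exact (h3.realize model_self model_self φ).2 hφ
  refine D.not_forks (N := M) model_self (A := ∅) (c := (Fin.elim0 : Fin 0 → M))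
    (fun j => j.elim0) (a₀ := p') (b₀ := q' ∘ f) (c₀ := (Fin.elim0 : Fin 0 → M)) ?_ ?_ hφ' hF
  · exact same_of (same_iff.2 (X.symm hqq)) (Sum.elim f fun j : Fin 0 => j.elim0)
      (by rintro (x | x)
          · rfl
          · exact x.elim0)
      (by rintro (x | x)
          · rfl
          · exact x.elim0)
  · rw [rk_elim0]
    apply le_antisymm
    · have h1 := D.rk_mono p' (q' ∘ f) (Fin.elim0 : Fin 0 → Fin m)
      have e : (q' ∘ f) ∘ (Fin.elim0 : Fin 0 → Fin m) = Fin.elim0 := funext fun j => j.elim0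
      rwa [e] at h1
    · rw [← hInd]
      exact D.rk_mono p' q' f

end Pool.Agent.SF
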