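import Pool.Agent.SF.Gen
import Pool.Agent.SF.TSp
import Pool.Agent.SF.FD1
import Pool.Agent.SF.FD2
import Pool.Agent.SF.Half2
import Pool.Agent.SF.SF

/-!
# The counterexample to stable forking
-/

set_option autoImplicit false

namespace Pool.Agent.SF

variable {G : Geo ℕ} {F : ℕ → Finset ℕ}

/-- the forking data of the generic structure -/
noncomputable def forkData (hG : Generic G F) : ForkData (typeSpace hG) where
  rk := fun a b => rkT G F a b
  rk_inv := rkT_inv hG
  rk_mono := rkT_mono hG
  rk_ext := rkT_ext hG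
  nd := fun h w hw k => rkT_nd hG h w hw k
  Alg := fun b a => AlgT G F b a
  alg_inv := AlgT.inv hG
  alg_mono := AlgT.mono hG
  alg_fin := fun κ _ => AlgT.fin hG κ
  alg_rk := AlgT.rk hG
  free := AlgT.free hG

/-- There is a complete theory all of whose 1-types have stable forking while some type in 11
variables has not. -/
theorem exists_theory : ∃ (L : FirstOrder.Language.{0, 0}) (T : L.Theory), T.IsComplete ∧
    HasSF T 1 ∧ ¬ HasSF T 11 := by
  obtain ⟨G, F, hG⟩ := exists_generic
  haveI : Infinite (PV G) := infinite_PV hG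
  obtain ⟨p, q, p', q', h1, h2, h3, h4⟩ := exists_half hG
  refine ⟨(typeSpace hG).lang, (typeSpace hG).th, TypeSpace.th_isComplete,
    (forkData hG).hasSF_one, (forkData hG).not_hasSF 11 12 p q p' q' h1 h2 h3 fun K => ?_⟩
  obtain ⟨b, hb1, -, hb2⟩ := h4 K
  exact ⟨b, hb1, hb2⟩

end Pool.Agent.SF
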