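import Mathlib

/-!
# Forking, stable formulas and stable forking
-/

set_option autoImplicit false

namespace Pool.Agent.SF

open FirstOrder FirstOrder.Language

section Forking

variable {L : FirstOrder.Language.{0, 0}}

/-- The formula `φ(x, b)` divides over the set `A ⊆ N`: there are a number `k` and, in some
elementary extension `N'` of `N`, an infinite sequence `c₀, c₁, ...` of tuples with the same type
over `A` as `b`, such that no `k` of the formulas `φ(x, cᵢ)` have a common solution. -/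
def Divides {N : Type} [L.Structure N] {n m : ℕ} (φ : L.Formula (Fin n ⊕ Fin m))
    (b : Fin m → N) (A : Set N) : Prop :=
  ∃ (N' : Type) (_ : L.Structure N') (e : N ↪ₑ[L] N') (k : ℕ) (c : ℕ → Fin m → N'),
    (∀ i, ∀ (l : ℕ) (ψ : L.Formula (Fin m ⊕ Fin l)) (a : Fin l → N), (∀ j, a j ∈ A) →
      (ψ.Realize (Sum.elim (c i) (e ∘ a)) ↔ ψ.Realize (Sum.elim b a))) ∧
    ∀ I : Finset ℕ, I.card = k → ¬ ∃ x : Fin n → N', ∀ i ∈ I, φ.Realize (Sum.elim x (c i))

/-- The formula `φ(x, b)` forks over `A`: in some elementary extension it implies a finite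
disjunction of formulas that divide over `A`. -/
def Forks {N : Type} [L.Structure N] {n m : ℕ} (φ : L.Formula (Fin n ⊕ Fin m))
    (b : Fin m → N) (A : Set N) : Prop :=
  ∃ (N' : Type) (_ : L.Structure N') (e : N ↪ₑ[L] N') (r : ℕ) (l : Fin r → ℕ)
    (ψ : ∀ j, L.Formula (Fin n ⊕ Fin (l j))) (c : ∀ j, Fin (l j) → N'),
    (∀ j, Divides (ψ j) (c j) (e '' A)) ∧
    ∀ x : Fin n → N', φ.Realize (Sum.elim x (e ∘ b)) → ∃ j, (ψ j).Realize (Sum.elim x (c j))

/-- A formula is stable in `T` if it does not order an infinite sequence in a model of `T`. -/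
def StableFormula (T : L.Theory) {n m : ℕ} (φ : L.Formula (Fin n ⊕ Fin m)) : Prop :=
  ¬ ∃ (N : FirstOrder.Language.Theory.ModelType.{0, 0, 0} T) (a : ℕ → Fin n → N) (b : ℕ → Fin m → N),
    ∀ i j, φ.Realize (Sum.elim (a i) (b j)) ↔ i < j

/-- All complete types in `n` variables have stable forking: whenever the type of the `n`-tuple
`a` over `B` contains a formula that forks over `A ⊆ B`, it contains a formula `φ(x, b)` that
forks over `A` with `φ(x, y)` stable. -/
def HasSF (T : L.Theory) (n : ℕ) : Prop :=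
  ∀ (N : FirstOrder.Language.Theory.ModelType.{0, 0, 0} T) (A B : Set N), A ⊆ B → ∀ a : Fin n → N,
    (∃ (m : ℕ) (φ : L.Formula (Fin n ⊕ Fin m)) (b : Fin m → N), (∀ i, b i ∈ B) ∧
      φ.Realize (Sum.elim a b) ∧ Forks φ b A) →
    ∃ (m : ℕ) (φ : L.Formula (Fin n ⊕ Fin m)) (b : Fin m → N), (∀ i, b i ∈ B) ∧
      φ.Realize (Sum.elim a b) ∧ Forks φ b A ∧ StableFormula T φ

end Forking

end Pool.Agent.SF
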