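import Pool.Agent.SF.GenDefs
import Pool.Agent.SF.Delta
import Pool.Agent.SF.Emb
import Pool.Agent.SF.Strong
import Pool.Agent.SF.Glue

/-!
# Existence of the generic structure
-/

set_option autoImplicit false

namespace Pool.Agent.SF

/-! ### auxiliary facts on embeddings -/

theorem Emb.gen_congr {V V' : Type*} {G : Geo V} {H : Geo V'} {A : Finset V} {f f' : V → V'}
    (h : Emb G A H f) (hf : ∀ a ∈ A, f a = f' a) : Emb G A H f' where
  inj := by
    intro a ha b hb hab
    apply h.inj ha hb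
    rw [hf a ha, hf b hb, hab]
  kind := fun u hu => by rw [← hf u hu]; exact h.kind u hu
  adj := fun u hu v hv => by rw [← hf u hu, ← hf v hv]; exact h.adj u hu v hv

theorem Emb.gen_refl {V : Type*} (G : Geo V) (A : Finset V) : Emb G A G id where
  inj := Function.injective_id.injOn
  kind := fun _ _ => rfl
  adj := fun _ _ _ _ => Iff.rfl

theorem Emb.gen_symm_id {V : Type*} {G H : Geo V} {A : Finset V} (h : Emb G A H id) :
    Emb H A G id where
  inj := Function.injective_id.injOn
  kind := fun u hu => (h.kind u hu).symm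
  adj := fun u hu v hv => (h.adj u hu v hv).symm

theorem Emb.gen_trans_id {V : Type*} [DecidableEq V] {G H K : Geo V} {A B : Finset V}
    (h : Emb G A H id) (h' : Emb H B K id) (hAB : A ⊆ B) : Emb G A K id where
  inj := Function.injective_id.injOn
  kind := fun u hu => (h'.kind u (hAB hu)).trans (h.kind u hu)
  adj := fun u hu v hv => (h'.adj u (hAB hu) v (hAB hv)).trans (h.adj u hu v hv)

/-- transport of a finite structure along an injective map -/
theorem gen_exists_push {V V' : Type} [DecidableEq V] (D : Geo V) (E : Finset V) (e : V → V')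
    (he : Set.InjOn e (E : Set V)) : ∃ G : Geo V', Emb D E G e := by
  classical
  let inv : V' → Option V := fun y => if h : ∃ x ∈ E, e x = y then some h.choose else none
  have hinv : ∀ x ∈ E, inv (e x) = some x := by
    intro x hx
    have h : ∃ x' ∈ E, e x' = e x := ⟨x, hx, rfl⟩
    simp only [inv, dif_pos h]
    congr 1
    exact he h.choose_spec.1 hx h.choose_spec.2
  refine ⟨{ kind := fun y => match inv y with
              | some x => D.kind x
              | none => .P
            adj := fun y z => ∃ u v, inv y = some u ∧ inv z = some v ∧ D.adj u v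
            symm := ?_
            compat := ?_ }, he, ?_, ?_⟩
  · rintro y z ⟨u, v, hu, hv, h⟩
    exact ⟨v, u, hv, hu, D.symm _ _ h⟩
  · rintro y z ⟨u, v, hu, hv, h⟩
    simp only [hu, hv]
    exact D.compat _ _ h
  · intro u hu
    simp only [hinv u hu]
  · intro u hu v hv
    constructor
    · rintro ⟨u', v', hu', hv', h⟩
      rw [hinv u hu] at hu'
      rw [hinv v hv] at hv'
      rw [Option.some_inj] at hu' hv'
      rw [hu', hv']
      exact h
    · intro h
      exact ⟨u, v, hinv u hu, hinv v hv, h⟩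

/-- a finite set embeds into the natural numbers above `N` -/
theorem gen_exists_inj_nat {V : Type} (E : Finset V) (N : ℕ) :
    ∃ e : V → ℕ, Set.InjOn e (E : Set V) ∧ ∀ x, N ≤ e x := by
  classical
  obtain ⟨f, hf⟩ := Set.countable_iff_exists_injOn.1 (E.finite_toSet.countable)
  exact ⟨fun x => N + f x, fun a ha b hb hab => hf ha hb (Nat.add_left_cancel hab),
    fun x => Nat.le_add_right _ _⟩

/-- the result of an amalgamation is realised on the natural numbers -/
theorem gen_exists_realize {δ : Type} [DecidableEq δ] (G : Geo ℕ) (F : Finset ℕ) (D : Geo δ)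
    (E : Finset δ) (jA : ℕ → δ) (hj : Emb G F D jA) (hjE : F.image jA ⊆ E) (hK : D.InK E)
    (hS : D.StrongIn E (F.image jA)) (e0 : δ → ℕ)
    (he0 : Set.InjOn e0 ((E \ F.image jA : Finset δ) : Set δ))
    (he1 : ∀ x ∈ E \ F.image jA, e0 x ∉ F) :
    ∃ (G' : Geo ℕ) (e : δ → ℕ), Emb D E G' e ∧ (∀ a ∈ F, e (jA a) = a) ∧
      (∀ x ∈ E \ F.image jA, e x = e0 x) ∧ F ⊆ E.image e ∧ Emb G F G' id ∧
      G'.InK (E.image e) ∧ G'.StrongIn (E.image e) F := by
  classical
  let e : δ → ℕ := fun x => if h : ∃ a ∈ F, jA a = x then h.choose else e0 x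
  have hea : ∀ a ∈ F, e (jA a) = a := by
    intro a ha
    have h : ∃ a' ∈ F, jA a' = jA a := ⟨a, ha, rfl⟩
    simp only [e, dif_pos h]
    exact hj.inj h.choose_spec.1 ha h.choose_spec.2
  have heo : ∀ x, x ∉ F.image jA → e x = e0 x := by
    intro x hx
    have h : ¬ ∃ a ∈ F, jA a = x := by
      rintro ⟨a, ha, rfl⟩
      exact hx (Finset.mem_image_of_mem _ ha)
    simp only [e, dif_neg h]
  have heF : ∀ x ∈ F.image jA, e x ∈ F := by
    intro x hx
    obtain ⟨a, ha, rfl⟩ := Finset.mem_image.1 hx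
    rw [hea a ha]
    exact ha
  have hinj : Set.InjOn e (E : Set δ) := by
    intro x hx y hy hxy
    by_cases hx1 : x ∈ F.image jA
    · by_cases hy1 : y ∈ F.image jA
      · obtain ⟨a, ha, rfl⟩ := Finset.mem_image.1 hx1
        obtain ⟨b, hb, rfl⟩ := Finset.mem_image.1 hy1
        rw [hea a ha, hea b hb] at hxy
        rw [hxy]
      · exfalso
        have h1 := heF x hx1
        rw [hxy, heo y hy1] at h1
        exact he1 y (Finset.mem_sdiff.2 ⟨hy, hy1⟩) h1
    · by_cases hy1 : y ∈ F.image jA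
      · exfalso
        have h1 := heF y hy1
        rw [← hxy, heo x hx1] at h1
        exact he1 x (Finset.mem_sdiff.2 ⟨hx, hx1⟩) h1
      · rw [heo x hx1, heo y hy1] at hxy
        exact he0 (by simpa using ⟨hx, by simpa using hx1⟩) (by simpa using ⟨hy, by simpa using hy1⟩)
          hxy
  obtain ⟨G', hG'⟩ := gen_exists_push D E e hinj
  have himg : (F.image jA).image e = F := by
    ext a
    simp only [Finset.mem_image]
    constructor
    · rintro ⟨x, ⟨b, hb, rfl⟩, rfl⟩
      rw [hea b hb]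
      exact hb
    · intro ha
      exact ⟨jA a, ⟨a, ha, rfl⟩, hea a ha⟩
  refine ⟨G', e, hG', hea, fun x hx => heo x (Finset.mem_sdiff.1 hx).2, ?_, ?_, ?_, ?_⟩
  · intro a ha
    exact Finset.mem_image.2 ⟨jA a, hjE (Finset.mem_image_of_mem _ ha), hea a ha⟩
  · have h1 := hj.comp (hG'.mono hjE)
    exact h1.gen_congr (fun a ha => hea a ha)
  · exact hG'.inK_iff.2 hK
  · have h1 := (hG'.strongIn_iff hjE).2 hS
    rwa [himg] at h1

/-- a task for the construction -/
structure GTask where
  A : Finset ℕ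
  B : Finset ℕ
  H : Geo ℕ
  f : ℕ → ℕ

/-- validity of a task -/
structure GTask.Valid (T : GTask) (G : Geo ℕ) (F : Finset ℕ) : Prop where
  sA : G.StrongIn F T.A
  emb : Emb G T.A T.H T.f
  inK : T.H.InK T.B
  sB : T.H.StrongIn T.B (T.A.image T.f)

/-- the task is done -/
def GTask.Done (T : GTask) (G : Geo ℕ) (F : Finset ℕ) : Prop :=
  ∃ g : ℕ → ℕ, Emb T.H T.B G g ∧ (∀ a ∈ T.A, g (T.f a) = a) ∧ G.StrongIn F (T.B.image g)

/-- one step: a task -/
theorem gen_exists_step1 (G : Geo ℕ) (F : Finset ℕ) (hK : G.InK F) (T : GTask) (hT : T.Valid G F) :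
    ∃ (G' : Geo ℕ) (F' : Finset ℕ), F ⊆ F' ∧ Emb G F G' id ∧ G'.InK F' ∧ G'.StrongIn F' F ∧
      T.Done G' F' := by
  obtain ⟨δ, hδ, D, jA, jB, h1, h2, h3, h4, h5, h6, h7, h8⟩ :=
    amalg2 hK hT.inK hT.emb hT.sA hT.sB
  obtain ⟨e0, he0, he1⟩ := gen_exists_inj_nat (F.image jA ∪ T.B.image jB) (F.sup id + 1)
  obtain ⟨G', e, g1, g2, g3, g4, g5, g6, g7⟩ := gen_exists_realize G F D
    (F.image jA ∪ T.B.image jB) jA h1 Finset.subset_union_left h5 h6 e0
    (fun a ha b hb hab => he0 (by
      have := ha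
      simp only [Finset.coe_sdiff, Set.mem_sdiff, Finset.mem_coe] at this
      exact this.1) (by
      have := hb
      simp only [Finset.coe_sdiff, Set.mem_sdiff, Finset.mem_coe] at this
      exact this.1) hab)
    (fun x _ hx => by
      have h9 := Finset.le_sup (f := id) hx
      have h10 := he1 x
      simp only [id] at h9
      omega)
  refine ⟨G', _, g4, g5, g6, g7, e ∘ jB, h2.comp (g1.mono Finset.subset_union_right), ?_, ?_⟩
  · intro a ha
    have haF : a ∈ F := hT.sA.closed.sub ha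
    simp only [Function.comp]
    rw [h3 a ha, g2 a haF]
  · have h9 := (g1.strongIn_iff Finset.subset_union_right).2 h7
    rwa [Finset.image_image] at h9

/-- the one point structure of kind `P` -/
def genOnePt : Geo ℕ where
  kind := fun _ => .P
  adj := fun _ _ => False
  symm := fun _ _ h => h
  compat := fun _ _ h => h.elim

theorem genOnePt_inK (m : ℕ) : genOnePt.InK {m} where
  lin := by
    intro σ u _ v _ hu
    exact absurd hu (by simp [genOnePt])
  res := by
    intro v _ σ hv
    exact absurd hv (by simp [genOnePt])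
  pos := by
    intro Q hQ hne
    have h1 : Q = {m} := Finset.Nonempty.subset_singleton_iff hne |>.1 hQ.sub
    have h2 : genOnePt.delta Q = 1 := by
      rw [Geo.delta_allP (G := genOnePt) (fun v _ => rfl), h1]
      simp
    rw [h2, h1]
    simp

/-- one step: add a vertex -/
theorem gen_exists_step2 (G : Geo ℕ) (F : Finset ℕ) (hK : G.InK F) (m : ℕ) :
    ∃ (G' : Geo ℕ) (F' : Finset ℕ), F ⊆ F' ∧ Emb G F G' id ∧ G'.InK F' ∧ G'.StrongIn F' F ∧
      m ∈ F' := by
  by_cases hm : m ∈ F
  · exact ⟨G, F, Finset.Subset.refl _, Emb.gen_refl G F, hK, Geo.StrongIn.refl, hm⟩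
  have hemb : Emb G ∅ genOnePt (id : ℕ → ℕ) := ⟨by simp, by simp, by simp⟩
  obtain ⟨δ, hδ, D, jA, jB, h1, h2, h3, h4, h5, h6, h7, h8⟩ :=
    amalg2 hK (genOnePt_inK m) hemb (Geo.strongIn_empty hK)
      (by rw [Finset.image_empty]; exact Geo.strongIn_empty (genOnePt_inK m))
  have hjm : jB m ∉ F.image jA := by
    intro h
    have h9 : jB m ∈ F.image jA ∩ ({m} : Finset ℕ).image jB :=
      Finset.mem_inter.2 ⟨h, by simp⟩
    rw [h4] at h9
    simp at h9
  have hx : ∀ x ∈ (F.image jA ∪ ({m} : Finset ℕ).image jB) \ F.image jA, x = jB m := by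
    intro x hx
    rw [Finset.mem_sdiff, Finset.mem_union] at hx
    rcases hx with ⟨hx | hx, hx'⟩
    · exact absurd hx hx'
    · simpa using hx
  obtain ⟨G', e, g1, g2, g3, g4, g5, g6, g7⟩ := gen_exists_realize G F D
    (F.image jA ∪ ({m} : Finset ℕ).image jB) jA h1 Finset.subset_union_left h5 h6 (fun _ => m)
    (fun a ha b hb _ => by
      rw [hx a (by exact_mod_cast ha), hx b (by exact_mod_cast hb)])
    (fun x _ => hm)
  refine ⟨G', _, g4, g5, g6, g7, ?_⟩
  have hmem : jB m ∈ F.image jA ∪ ({m} : Finset ℕ).image jB :=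
    Finset.mem_union_right _ (by simp)
  refine Finset.mem_image.2 ⟨jB m, hmem, ?_⟩
  exact g3 (jB m) (Finset.mem_sdiff.2 ⟨hmem, hjm⟩)

/-- one step of the construction -/
theorem gen_exists_step (G : Geo ℕ) (F : Finset ℕ) (hK : G.InK F) (T : GTask) (m : ℕ) :
    ∃ (G' : Geo ℕ) (F' : Finset ℕ), F ⊆ F' ∧ Emb G F G' id ∧ G'.InK F' ∧ G'.StrongIn F' F ∧
      m ∈ F' ∧ (T.Valid G F → T.Done G' F') := by
  classical
  by_cases hT : T.Valid G F
  · obtain ⟨G1, F1, a1, a2, a3, a4, g, b1, b2, b3⟩ := gen_exists_step1 G F hK T hT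
    obtain ⟨G2, F2, c1, c2, c3, c4, c5⟩ := gen_exists_step2 G1 F1 a3 m
    have hBF : T.B.image g ⊆ F1 := b3.closed.sub
    have hst : ∀ X, G1.StrongIn F1 X → G2.StrongIn F2 X := by
      intro X hX
      have h1 := (c2.strongIn_iff hX.closed.sub).2 hX
      rw [Finset.image_id, Finset.image_id] at h1
      exact Geo.StrongIn.trans c3 h1 c4
    refine ⟨G2, F2, a1.trans c1, a2.gen_trans_id c2 a1, c3, hst F a4, c5, fun _ =>
      ⟨g, ?_, b2, hst _ b3⟩⟩
    have h1 := b1.comp (c2.mono hBF)
    exact h1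
  · obtain ⟨G2, F2, c1, c2, c3, c4, c5⟩ := gen_exists_step2 G F hK m
    exact ⟨G2, F2, c1, c2, c3, c4, c5, fun h => absurd h hT⟩

/-! ### enumeration of the tasks -/

theorem Kind.gen_idx_inj {a b : Kind} (h : a.idx = b.idx) : a = b := by
  rcases a with _ | a | _ <;> rcases b with _ | b | _ <;> try rcases a with _ | _
  all_goals try rcases b with _ | _
  all_goals first | rfl | (simp [Kind.idx] at h)

open scoped Classical in
/-- a code of a task -/
noncomputable def GTask.code (T : GTask) :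
    Finset ℕ × Finset ℕ × Finset (ℕ × ℕ) × Finset (ℕ × ℕ) × Finset (ℕ × ℕ) :=
  (T.A, T.B, T.A.image (fun a => (a, T.f a)), T.B.image (fun b => (b, (T.H.kind b).idx)),
    (T.B ×ˢ T.B).filter (fun e => T.H.adj e.1 e.2))

theorem GTask.of_code {T T' : GTask} (h : T.code = T'.code) :
    T.A = T'.A ∧ T.B = T'.B ∧ (∀ a ∈ T'.A, T.f a = T'.f a) ∧ Emb T'.H T'.B T.H id := by
  simp only [GTask.code, Prod.mk.injEq] at h
  obtain ⟨h1, h2, h3, h4, h5⟩ := h
  refine ⟨h1, h2, ?_, Function.injective_id.injOn, ?_, ?_⟩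
  · intro a ha
    have h6 : (a, T'.f a) ∈ T.A.image (fun a => (a, T.f a)) := by
      rw [h3]
      exact Finset.mem_image.2 ⟨a, ha, rfl⟩
    obtain ⟨b, hb, hb2⟩ := Finset.mem_image.1 h6
    simp only [Prod.mk.injEq] at hb2
    rw [← hb2.2, hb2.1]
  · intro a ha
    have h6 : (a, (T'.H.kind a).idx) ∈ T.B.image (fun b => (b, (T.H.kind b).idx)) := by
      rw [h4]
      exact Finset.mem_image.2 ⟨a, ha, rfl⟩
    obtain ⟨b, hb, hb2⟩ := Finset.mem_image.1 h6
    simp only [Prod.mk.injEq] at hb2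
    apply Kind.gen_idx_inj
    rw [← hb2.2, hb2.1]
    rfl
  · intro u hu v hv
    have h6 := congrArg (fun S => (u, v) ∈ S) h5
    simp only [Finset.mem_filter, Finset.mem_product, h2, hu, hv, true_and, and_self] at h6
    exact Iff.of_eq h6

theorem gen_exists_tasks : ∃ 𝒯 : ℕ → GTask, ∀ T : GTask, ∃ n, (𝒯 n).A = T.A ∧ (𝒯 n).B = T.B ∧
    (∀ a ∈ T.A, (𝒯 n).f a = T.f a) ∧ Emb T.H T.B (𝒯 n).H id := by
  classical
  refine ⟨fun n => if h : ∃ T : GTask, Encodable.encode T.code = n then h.choose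
    else ⟨∅, ∅, genOnePt, id⟩, fun T => ⟨Encodable.encode T.code, ?_⟩⟩
  have h : ∃ T' : GTask, Encodable.encode T'.code = Encodable.encode T.code := ⟨T, rfl⟩
  simp only [dif_pos h]
  exact GTask.of_code (Encodable.encode_injective h.choose_spec)

/-! ### the chain -/

/-- states of the construction -/
structure GState where
  G : Geo ℕ
  F : Finset ℕ
  inK : G.InK F

theorem genOnePt_inK_empty : genOnePt.InK ∅ where
  lin := by
    intro σ u hu
    simp at hu
  res := by
    intro v hv
    simp at hv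
  pos := by
    intro Q hQ hne
    have h1 : Q = ∅ := Finset.subset_empty.1 hQ.sub
    rw [h1] at hne
    simp at hne

theorem GState.exists_next (s : GState) (T : GTask) (m : ℕ) :
    ∃ s' : GState, s.F ⊆ s'.F ∧ Emb s.G s.F s'.G id ∧ s'.G.StrongIn s'.F s.F ∧
      m ∈ s'.F ∧ (T.Valid s.G s.F → T.Done s'.G s'.F) := by
  obtain ⟨G', F', h1, h2, h3, h4, h5, h6⟩ := gen_exists_step s.G s.F s.inK T m
  exact ⟨⟨G', F', h3⟩, h1, h2, h4, h5, h6⟩

theorem gen_exists_chain (𝒯 : ℕ → GTask) : ∃ st : ℕ → GState, ∀ m, (st m).F ⊆ (st (m + 1)).F ∧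
    Emb (st m).G (st m).F (st (m + 1)).G id ∧ (st (m + 1)).G.StrongIn (st (m + 1)).F (st m).F ∧
      m ∈ (st (m + 1)).F ∧ ((𝒯 m).Valid (st m).G (st m).F → (𝒯 m).Done (st (m + 1)).G
        (st (m + 1)).F) := by
  choose nx hnx using fun (s : GState) (m : ℕ) => s.exists_next (𝒯 m) m
  exact ⟨fun m => Nat.rec ⟨genOnePt, ∅, genOnePt_inK_empty⟩ (fun m s => nx s m) m,
    fun m => hnx _ m⟩

theorem exists_generic : ∃ (G : Geo ℕ) (F : ℕ → Finset ℕ), Generic G F := by
  classical
  obtain ⟨𝒯, h𝒯⟩ := gen_exists_tasks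
  obtain ⟨st, hst⟩ := gen_exists_chain (fun m => 𝒯 (Nat.unpair m).1)
  -- monotonicity
  have hmono : ∀ k l, k ≤ l → (st k).F ⊆ (st l).F ∧ Emb (st k).G (st k).F (st l).G id := by
    intro k l hkl
    induction l, hkl using Nat.le_induction with
    | base => exact ⟨Finset.Subset.refl _, Emb.gen_refl _ _⟩
    | succ l _ ih =>
      exact ⟨ih.1.trans (hst l).1, ih.2.gen_trans_id (hst l).2.1 ih.1⟩
  have hmem : ∀ v k, v < k → v ∈ (st k).F := fun v k hvk =>
    (hmono (v + 1) k hvk).1 (hst v).2.2.2.1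
  -- the limit
  let G : Geo ℕ :=
    { kind := fun v => (st (v + 1)).G.kind v
      adj := fun u v => (st (max u v + 1)).G.adj u v
      symm := fun u v h => by
        rw [max_comm]
        exact (st (max u v + 1)).G.symm _ _ h
      compat := fun u v h => by
        have h1 := (hmono (u + 1) (max u v + 1) (by omega)).2.kind u (hmem u _ (by omega))
        have h2 := (hmono (v + 1) (max u v + 1) (by omega)).2.kind v (hmem v _ (by omega))
        simp only [id] at h1 h2
        rw [← h1, ← h2]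
        exact (st (max u v + 1)).G.compat _ _ h }
  have hlim : ∀ k, Emb (st k).G (st k).F G id := by
    intro k
    refine ⟨Function.injective_id.injOn, ?_, ?_⟩
    · intro v hv
      have h1 := (hmono k (max k (v + 1)) (le_max_left _ _)).2.kind v hv
      have h2 := (hmono (v + 1) (max k (v + 1)) (le_max_right _ _)).2.kind v
        (hmem v _ (Nat.lt_succ_self v))
      simp only [id] at h1 h2 ⊢
      show (st (v + 1)).G.kind v = _
      rw [← h1, ← h2]
    · intro u hu v hv
      have h1 := (hmono k (max k (max u v + 1)) (le_max_left _ _)).2.adj u hu v hv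
      have h2 := (hmono (max u v + 1) (max k (max u v + 1)) (le_max_right _ _)).2.adj u
        (hmem u _ (by omega)) v (hmem v _ (by omega))
      simp only [id] at h1 h2 ⊢
      show (st (max u v + 1)).G.adj u v ↔ _
      rw [← h1, ← h2]
  have hstr : ∀ k X, (st k).G.StrongIn (st k).F X → G.StrongIn (st k).F X := by
    intro k X hX
    have h1 := ((hlim k).strongIn_iff hX.closed.sub).2 hX
    rwa [Finset.image_id, Finset.image_id] at h1
  have hstr' : ∀ k X, G.StrongIn (st k).F X → (st k).G.StrongIn (st k).F X := by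
    intro k X hX
    have h1 := ((hlim k).strongIn_iff (A := X) hX.closed.sub).1
    rw [Finset.image_id, Finset.image_id] at h1
    exact h1 hX
  have hinK : ∀ k, G.InK (st k).F := by
    intro k
    have h1 := (hlim k).inK_iff.2 (st k).inK
    rwa [Finset.image_id] at h1
  have hs : ∀ k, G.StrongIn (st (k + 1)).F (st k).F := fun k => hstr _ _ (hst k).2.2.1
  have hsl : ∀ k l, k ≤ l → ∀ X, G.StrongIn (st k).F X → G.StrongIn (st l).F X := by
    intro k l hkl
    induction l, hkl using Nat.le_induction with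
    | base => exact fun X hX => hX
    | succ l _ ih =>
      intro X hX
      exact Geo.StrongIn.trans (hinK (l + 1)) (ih X hX) (hs l)
  refine ⟨G, fun k => (st k).F, hinK, hs, fun v => ⟨v + 1, hmem v _ (Nat.lt_succ_self v)⟩, ?_⟩
  intro k A hA β hβ H B f hf hK hS
  -- move `H` to the natural numbers
  obtain ⟨ι, hι, -⟩ := gen_exists_inj_nat B 0
  obtain ⟨H', hH'⟩ := gen_exists_push H B ι hι
  have hAB : A.image f ⊆ B := hS.closed.sub
  obtain ⟨n, t1, t2, t3, t4⟩ := h𝒯 ⟨A, B.image ι, H', ι ∘ f⟩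
  simp only at t1 t2 t3 t4
  have hHT : Emb H B (𝒯 n).H ι := by
    have h1 := hH'.comp t4
    simpa using h1
  have hm : k ≤ Nat.pair n k := Nat.right_le_pair n k
  have hval : (𝒯 n).Valid (st (Nat.pair n k)).G (st (Nat.pair n k)).F := by
    refine ⟨?_, ?_, ?_, ?_⟩
    · rw [t1]
      exact hstr' _ _ (hsl k _ hm A hA)
    · rw [t1]
      have hAk : A ⊆ (st (Nat.pair n k)).F := hA.closed.sub.trans (hmono k _ hm).1
      have h1 : Emb (st (Nat.pair n k)).G A G id := (hlim _).mono hAk
      have h2 : Emb G A (𝒯 n).H (ι ∘ f) := hf.comp (hHT.mono hAB)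
      have h3 : Emb (st (Nat.pair n k)).G A (𝒯 n).H ((ι ∘ f) ∘ id) := by
        refine h1.comp ?_
        rw [Finset.image_id]
        exact h2
      exact h3.gen_congr (fun a ha => (t3 a ha).symm)
    · rw [t2]
      exact hHT.inK_iff.2 hK
    · rw [t1, t2]
      have h1 := (hHT.strongIn_iff hAB).2 hS
      have h2 : A.image (𝒯 n).f = (A.image f).image ι := by
        rw [Finset.image_image]
        exact Finset.image_congr (fun a ha => t3 a ha)
      rw [h2]
      exact h1
  have hdone := (hst (Nat.pair n k)).2.2.2.2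
  rw [Nat.unpair_pair] at hdone
  obtain ⟨g, g1, g2, g3⟩ := hdone hval
  rw [t1] at g2
  rw [t2] at g1 g3
  refine ⟨Nat.pair n k + 1, g ∘ ι, ?_, ?_, ?_⟩
  · have h1 : Emb (𝒯 n).H (B.image ι) G (id ∘ g) := g1.comp ((hlim _).mono g3.closed.sub)
    exact hHT.comp h1
  · intro a ha
    have h1 := g2 a ha
    rw [t3 a ha] at h1
    exact h1
  · have h1 := hstr _ _ g3
    rwa [Finset.image_image] at h1

end Pool.Agent.SF
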