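import Pool.Agent.SF.Defs

/-!
# The generic structure: definitions
-/

set_option autoImplicit false

namespace Pool.Agent.SF

/-- `G` is the generic structure on `ℕ`, the union of the chain `F` of finite strong sets. -/
structure Generic (G : Geo ℕ) (F : ℕ → Finset ℕ) : Prop where
  inK : ∀ k, G.InK (F k)
  strong : ∀ k, G.StrongIn (F (k + 1)) (F k)
  exh : ∀ v, ∃ k, v ∈ F k
  ext : ∀ k A, G.StrongIn (F k) A → ∀ (β : Type) [DecidableEq β] (H : Geo β) (B : Finset β)
    (f : ℕ → β), Emb G A H f → H.InK B → H.StrongIn B (A.image f) →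
      ∃ (l : ℕ) (g : β → ℕ), Emb H B G g ∧ (∀ a ∈ A, g (f a) = a) ∧ G.StrongIn (F l) (B.image g)

/-- strong finite subsets of the generic structure -/
def SM (G : Geo ℕ) (F : ℕ → Finset ℕ) (A : Finset ℕ) : Prop := ∃ k, G.StrongIn (F k) A

/-- `E` is the smallest strong finite set containing `S` -/
structure IsClM (G : Geo ℕ) (F : ℕ → Finset ℕ) (S E : Finset ℕ) : Prop where
  strong : SM G F E
  sub : S ⊆ E
  least : ∀ A, SM G F A → S ⊆ A → E ⊆ A
  min : ∀ k Y, G.ClosedIn (F k) Y → S ⊆ Y → G.delta E ≤ G.delta Y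

open scoped Classical in
/-- the closure -/
noncomputable def clM (G : Geo ℕ) (F : ℕ → Finset ℕ) (S : Finset ℕ) : Finset ℕ :=
  if h : ∃ E, IsClM G F S E then h.choose else ∅

/-- the vertices of kind `P` -/
abbrev PV (G : Geo ℕ) := {v : ℕ // G.kind v = .P}

/-- the range of a tuple of vertices of kind `P` -/
noncomputable def rg {G : Geo ℕ} {ι : Type} [Finite ι] (v : ι → PV G) : Finset ℕ :=
  (Set.finite_range fun i => (v i).1).toFinset

/-- two tuples of vertices of kind `P` have isomorphic closures -/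
def TRel (G : Geo ℕ) (F : ℕ → Finset ℕ) {ι : Type} [Finite ι] (v w : ι → PV G) : Prop :=
  ∃ f : ℕ → ℕ, Emb G (clM G F (rg v)) G f ∧ (clM G F (rg v)).image f = clM G F (rg w) ∧
    ∀ i, f (v i).1 = (w i).1

/-- the rank of `a` over `b` -/
noncomputable def rkT (G : Geo ℕ) (F : ℕ → Finset ℕ) {ι κ : Type} [Finite ι] [Finite κ]
    (a : ι → PV G) (b : κ → PV G) : ℕ :=
  (G.delta (clM G F (rg a ∪ rg b)) - G.delta (clM G F (rg b))).toNat

/-- algebraicity -/
def AlgT (G : Geo ℕ) (F : ℕ → Finset ℕ) {κ : Type} [Finite κ]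
    (b : κ → PV G) (a : PV G) : Prop := a.1 ∈ clM G F (rg b)

end Pool.Agent.SF
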