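import Pool.Agent.SF.ModelDefs

/-!
# A1 LANG: the canonical structure of a type space (MP_715629_lc)

Quantifier elimination by back-and-forth, `ω`-categoricity facts.
-/

set_option autoImplicit false

namespace Pool.Agent.SF

open FirstOrder FirstOrder.Language

namespace TypeSpace

variable {M : Type} (X : TypeSpace M)

/-- types of `m`-tuples -/
def stp (m : ℕ) : Setoid (Fin m → M) := ⟨fun v w => X.R v w, ⟨X.refl, X.symm, X.trans⟩⟩

/-- the canonical language -/
def lang : FirstOrder.Language.{0, 0} := ⟨fun _ => Empty, fun m => Quotient (X.stp m)⟩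

instance str : X.lang.Structure M :=
  ⟨fun f => Empty.elim f, fun {m} q v => Quotient.mk (X.stp m) v = q⟩

/-- the theory of the canonical structure -/
def th : X.lang.Theory := X.lang.completeTheory M

/-- two tuples (in possibly different structures) satisfy the same relation symbols -/
def Same {N N' : Type} [X.lang.Structure N] [X.lang.Structure N'] {ι : Type} (v : ι → N)
    (v' : ι → N') : Prop :=
  ∀ (m : ℕ) (f : Fin m → ι) (q : X.lang.Relations m),
    Structure.RelMap q (v ∘ f) ↔ Structure.RelMap q (v' ∘ f)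

section
variable {X}
variable {N N' N'' : Type} [X.lang.Structure N] [X.lang.Structure N'] [X.lang.Structure N'']

theorem Same.refl {ι : Type} (v : ι → N) : X.Same v v := fun _ _ _ => Iff.rfl

theorem Same.symm {ι : Type} {v : ι → N} {v' : ι → N'} (h : X.Same v v') : X.Same v' v :=
  fun m f q => (h m f q).symm

theorem Same.trans {ι : Type} {v : ι → N} {v' : ι → N'} {v'' : ι → N''} (h : X.Same v v')
    (h' : X.Same v' v'') : X.Same v v'' := fun m f q => (h m f q).trans (h' m f q)

theorem Same.comp {ι κ : Type} {v : ι → N} {v' : ι → N'} (h : X.Same v v') (f : κ → ι) :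
    X.Same (v ∘ f) (v' ∘ f) := fun m g q => h m (f ∘ g) q

/-! #### auxiliary lemmas -/

/-- the relation symbol of the class of a tuple -/
def mkr {m : ℕ} (w : Fin m → M) : X.lang.Relations m := Quotient.mk (X.stp m) w

theorem exists_mkr {m : ℕ} (q : X.lang.Relations m) : ∃ w : Fin m → M, q = mkr w := by
  obtain ⟨u, hu⟩ := Quotient.exists_rep (s := X.stp m) q
  exact ⟨u, Eq.symm hu⟩

theorem relMap_mk {m : ℕ} {v w : Fin m → M} :
    Structure.RelMap (mkr w : X.lang.Relations m) v ↔ X.R v w :=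
  Quotient.eq (r := X.stp m)

theorem same_iff {ι : Type} [Finite ι] {v w : ι → M} : X.Same v w ↔ X.R v w := by
  constructor
  · intro h
    obtain ⟨m, ⟨e⟩⟩ := Finite.exists_equiv_fin ι
    have h1 := (h m e.symm (mkr (v ∘ e.symm))).1 (relMap_mk.2 (X.refl _))
    have h2 := X.reindex e (relMap_mk.1 h1)
    have e1 : (w ∘ e.symm) ∘ e = w := by funext i; simp
    have e2 : (v ∘ e.symm) ∘ e = v := by funext i; simp
    rw [e1, e2] at h2
    exact X.symm h2
  · intro h m f q
    obtain ⟨u, rfl⟩ := exists_mkr q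
    have h1 := X.reindex f h
    exact ⟨fun h2 => relMap_mk.2 (X.trans (X.symm h1) (relMap_mk.1 h2)),
      fun h2 => relMap_mk.2 (X.trans h1 (relMap_mk.1 h2))⟩

/-- the formula `q(x ∘ f)` -/
def rf {ι : Type} {m : ℕ} (q : X.lang.Relations m) (f : Fin m → ι) : X.lang.Formula ι :=
  Relations.formula q fun i => Term.var (f i)

theorem realize_rf {ι : Type} {m : ℕ} (q : X.lang.Relations m) (f : Fin m → ι) (v : ι → N) :
    (rf q f).Realize v ↔ Structure.RelMap q (v ∘ f) := by
  rw [rf, Formula.realize_rel]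
  rfl

/-- transfer of universally valid formulas -/
theorem transfer (hN : N ⊨ X.th) {ι : Type} [Finite ι] (φ : X.lang.Formula ι)
    (h : ∀ v : ι → M, φ.Realize v) (v : ι → N) : φ.Realize v := by
  let σ : X.lang.Sentence := (φ.relabel (Sum.inr : ι → Empty ⊕ ι)).iAlls ι
  have h1 : M ⊨ σ := by
    change Formula.Realize _ _
    rw [Formula.realize_iAlls]
    intro i
    rw [Formula.realize_relabel]
    exact h _
  have h2 : N ⊨ σ := by
    have : N ⊨ X.lang.completeTheory M := hN
    exact (realize_iff_of_model_completeTheory M N σ).2 h1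
  change Formula.Realize _ _ at h2
  rw [Formula.realize_iAlls] at h2
  have h3 := h2 v
  rw [Formula.realize_relabel] at h3
  exact h3

/-- transfer of satisfiability to `M` -/
theorem transfer_ex (hN : N ⊨ X.th) {ι : Type} [Finite ι] (φ : X.lang.Formula ι)
    (v : ι → N) (h : φ.Realize v) : ∃ v : ι → M, φ.Realize v := by
  by_contra hcon
  push Not at hcon
  have := transfer hN φ.not (fun v => by rw [Formula.realize_not]; exact hcon v) v
  rw [Formula.realize_not] at this
  exact this h

instance (m : ℕ) : Finite (X.lang.Relations m) := by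
  obtain ⟨s, hs, h⟩ := X.fin (Fin m)
  have : Finite s := hs
  refine Finite.of_surjective (fun w : s => (mkr w.1 : X.lang.Relations m)) ?_
  intro q
  obtain ⟨u, rfl⟩ := exists_mkr q
  obtain ⟨w, hw, huw⟩ := h u
  exact ⟨⟨w, hw⟩, Quotient.sound (s := X.stp m) (X.symm huw)⟩

/-- every tuple satisfies a relation symbol -/
theorem exists_rel (hN : N ⊨ X.th) {m : ℕ} (v : Fin m → N) :
    ∃ q : X.lang.Relations m, Structure.RelMap q v := by
  have := transfer hN (Formula.iSup fun q : X.lang.Relations m => rf q (id : Fin m → Fin m))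
    (fun v => by
      rw [Formula.realize_iSup]
      exact ⟨mkr v, by rw [realize_rf]; exact relMap_mk.2 (X.refl _)⟩) v
  rw [Formula.realize_iSup] at this
  obtain ⟨q, hq⟩ := this
  rw [realize_rf] at hq
  exact ⟨q, hq⟩

/-- the full relation symbol of a tuple determines all others -/
theorem same_of_rel (hN : N ⊨ X.th) (hN' : N' ⊨ X.th) {ι : Type} [Finite ι] {m : ℕ}
    (e : Fin m ≃ ι) (q : X.lang.Relations m) {v : ι → N} {v' : ι → N'}
    (h : Structure.RelMap q (v ∘ e)) (h' : Structure.RelMap q (v' ∘ e)) : X.Same v v' := by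
  intro k f p
  obtain ⟨u, rfl⟩ := exists_mkr q
  have key : ∀ x : ι → M,
      Structure.RelMap (mkr u : X.lang.Relations m) (x ∘ e) →
      X.R x (u ∘ e.symm) := by
    intro x hx
    have h1 := X.reindex e.symm (relMap_mk.1 hx)
    have e1 : (x ∘ e) ∘ e.symm = x := by funext i; simp
    rwa [e1] at h1
  by_cases hp : Structure.RelMap p ((u ∘ e.symm) ∘ f)
  · have hM : ∀ x : ι → M, ((rf (mkr u : X.lang.Relations m) e).imp
        (rf p f)).Realize x := by
      intro x
      rw [Formula.realize_imp, realize_rf, realize_rf]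
      intro hx
      exact ((same_iff.2 (key x hx)) k f p).2 hp
    have h1 := transfer hN _ hM v
    have h2 := transfer hN' _ hM v'
    rw [Formula.realize_imp, realize_rf, realize_rf] at h1 h2
    exact ⟨fun _ => h2 h', fun _ => h1 h⟩
  · have hM : ∀ x : ι → M, ((rf (mkr u : X.lang.Relations m) e).imp
        (rf p f).not).Realize x := by
      intro x
      rw [Formula.realize_imp, Formula.realize_not, realize_rf, realize_rf]
      intro hx hx'
      exact hp (((same_iff.2 (key x hx)) k f p).1 hx')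
    have h1 := transfer hN _ hM v
    have h2 := transfer hN' _ hM v'
    rw [Formula.realize_imp, Formula.realize_not, realize_rf, realize_rf] at h1 h2
    exact ⟨fun h3 => absurd h3 (h1 h), fun h3 => absurd h3 (h2 h')⟩

/-! #### main facts -/

theorem Same.eq (hN : N ⊨ X.th) (hN' : N' ⊨ X.th) {ι : Type} {v : ι → N} {v' : ι → N'}
    (h : X.Same v v') (i j : ι) : v i = v j ↔ v' i = v' j := by
  let f : Fin 2 → ι := ![i, j]
  obtain ⟨q, hq⟩ := exists_rel hN (v ∘ f)
  have hq' := (h 2 f q).1 hq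
  obtain ⟨u, rfl⟩ := exists_mkr q
  let eqf : X.lang.Formula (Fin 2) := Term.equal (Term.var 0) (Term.var 1)
  have heqf : ∀ {P : Type} [X.lang.Structure P] (x : Fin 2 → P), eqf.Realize x ↔ x 0 = x 1 := by
    intro P _ x
    rw [Formula.realize_equal]; rfl
  by_cases hu : u 0 = u 1
  · have hM : ∀ x : Fin 2 → M, ((rf (mkr u : X.lang.Relations 2) id).imp
        eqf).Realize x := by
      intro x
      rw [Formula.realize_imp, realize_rf, heqf]
      intro hx
      exact X.eq (X.symm (relMap_mk.1 hx)) 0 1 hu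
    have h1 := transfer hN _ hM (v ∘ f)
    have h2 := transfer hN' _ hM (v' ∘ f)
    rw [Formula.realize_imp, realize_rf, heqf] at h1 h2
    exact ⟨fun _ => h2 hq', fun _ => h1 hq⟩
  · have hM : ∀ x : Fin 2 → M, ((rf (mkr u : X.lang.Relations 2) id).imp
        eqf.not).Realize x := by
      intro x
      rw [Formula.realize_imp, Formula.realize_not, realize_rf, heqf]
      intro hx hx'
      exact hu (X.eq (relMap_mk.1 hx) 0 1 hx')
    have h1 := transfer hN _ hM (v ∘ f)
    have h2 := transfer hN' _ hM (v' ∘ f)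
    rw [Formula.realize_imp, Formula.realize_not, realize_rf, heqf] at h1 h2
    exact ⟨fun h3 => absurd h3 (h1 hq), fun h3 => absurd h3 (h2 hq')⟩

theorem Same.ext (hN : N ⊨ X.th) (hN' : N' ⊨ X.th) {ι κ : Type} [Finite ι] [Finite κ]
    {v : ι → N} {v' : ι → N'} (h : X.Same v v') (a : κ → N) :
    ∃ b : κ → N', X.Same (Sum.elim v a) (Sum.elim v' b) := by
  obtain ⟨m, ⟨e⟩⟩ := Finite.exists_equiv_fin (ι ⊕ κ)
  obtain ⟨n, ⟨e'⟩⟩ := Finite.exists_equiv_fin ι
  obtain ⟨q, hq⟩ := exists_rel hN (Sum.elim v a ∘ e.symm)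
  obtain ⟨q0, hq0⟩ := exists_rel hN (v ∘ e'.symm)
  have hq0' := (h n e'.symm q0).1 hq0
  -- a realization in `M`
  obtain ⟨x0, hx0⟩ := transfer_ex hN
    ((rf q e.symm) ⊓ (rf q0 (Sum.inl ∘ e'.symm) : X.lang.Formula (ι ⊕ κ))) (Sum.elim v a) (by
      rw [Formula.realize_inf, realize_rf, realize_rf]
      exact ⟨hq, hq0⟩)
  rw [Formula.realize_inf, realize_rf, realize_rf] at hx0
  obtain ⟨hx1, hx2⟩ := hx0
  have hM : ∀ x : ι → M, ((rf q0 e'.symm).imp ((rf q e.symm).iExs κ)).Realize x := by
    intro x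
    rw [Formula.realize_imp, realize_rf, Formula.realize_iExs]
    intro hx
    have h1 : X.R (x0 ∘ Sum.inl) x := by
      obtain ⟨u, rfl⟩ := exists_mkr q0
      have h2 := X.trans (relMap_mk.1 hx2) (X.symm (relMap_mk.1 hx))
      have h3 := X.reindex e' h2
      have e1 : (x0 ∘ Sum.inl ∘ e'.symm) ∘ e' = x0 ∘ Sum.inl := by funext i; simp
      have e2 : (x ∘ e'.symm) ∘ e' = x := by funext i; simp
      rwa [e1, e2] at h3
    obtain ⟨y, hy⟩ := X.bf h1 (x0 ∘ Sum.inr)
    refine ⟨y, ?_⟩
    rw [realize_rf]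
    rw [Sum.elim_comp_inl_inr] at hy
    exact ((same_iff.2 hy) m e.symm q).1 hx1
  have h1 := transfer hN' _ hM v'
  rw [Formula.realize_imp, realize_rf, Formula.realize_iExs] at h1
  obtain ⟨b, hb⟩ := h1 hq0'
  rw [realize_rf] at hb
  exact ⟨b, same_of_rel hN hN' e.symm q hq hb⟩

/-- reindexing for one more variable -/
def snocMap (ι : Type) (n : ℕ) : ι ⊕ Fin (n + 1) → (ι ⊕ Fin n) ⊕ Fin 1 :=
  Sum.elim (fun i => Sum.inl (Sum.inl i))
    (Fin.snoc (α := fun _ => (ι ⊕ Fin n) ⊕ Fin 1) (fun k => Sum.inl (Sum.inr k)) (Sum.inr 0))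

theorem elim_snoc {P : Type} {ι : Type} {n : ℕ} (v : ι → P) (xs : Fin n → P) (a : Fin 1 → P) :
    Sum.elim v (Fin.snoc (α := fun _ => P) xs (a 0)) =
      Sum.elim (Sum.elim v xs) a ∘ snocMap ι n := by
  funext i
  rcases i with i | i
  · rfl
  · refine Fin.lastCases ?_ (fun k => ?_) i
    · simp [snocMap]
    · simp [snocMap]

theorem realize_aux (hN : N ⊨ X.th) (hN' : N' ⊨ X.th) {ι : Type} [Finite ι] {n : ℕ}
    (φ : X.lang.BoundedFormula ι n) : ∀ {v : ι → N} {v' : ι → N'} {xs : Fin n → N}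
    {xs' : Fin n → N'} (_ : X.Same (Sum.elim v xs) (Sum.elim v' xs')),
    φ.Realize v xs ↔ φ.Realize v' xs' := by
  have hterm : ∀ (k : ℕ) (t : X.lang.Term (ι ⊕ Fin k)), ∃ i, t = Term.var i := by
    intro k t
    cases t with
    | var i => exact ⟨i, rfl⟩
    | func f _ => exact Empty.elim f
  induction φ with
  | falsum => intro v v' xs xs' _; exact Iff.rfl
  | equal t₁ t₂ =>
    intro v v' xs xs' h
    obtain ⟨i, rfl⟩ := hterm _ t₁
    obtain ⟨j, rfl⟩ := hterm _ t₂
    exact h.eq hN hN' i j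
  | rel R ts =>
    intro v v' xs xs' h
    choose f hf using fun i => hterm _ (ts i)
    have h1 := h _ f R
    change Structure.RelMap R _ ↔ Structure.RelMap R _
    have e1 : (fun i => (ts i).realize (Sum.elim v xs)) = Sum.elim v xs ∘ f := by
      funext i; rw [hf]; rfl
    have e2 : (fun i => (ts i).realize (Sum.elim v' xs')) = Sum.elim v' xs' ∘ f := by
      funext i; rw [hf]; rfl
    rw [e1, e2]; exact h1
  | imp φ ψ ih1 ih2 =>
    intro v v' xs xs' h
    rw [BoundedFormula.realize_imp, BoundedFormula.realize_imp, ih1 h, ih2 h]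
  | all φ ih =>
    intro v v' xs xs' h
    rw [BoundedFormula.realize_all, BoundedFormula.realize_all]
    constructor
    · intro H b
      obtain ⟨a, ha⟩ := h.symm.ext hN' hN (fun _ : Fin 1 => b)
      have h1 := ha.symm.comp (snocMap ι _)
      rw [← elim_snoc, ← elim_snoc] at h1
      exact (ih h1).1 (H _)
    · intro H a
      obtain ⟨b, hb⟩ := h.ext hN hN' (fun _ : Fin 1 => a)
      have h1 := hb.comp (snocMap ι _)
      rw [← elim_snoc, ← elim_snoc] at h1
      exact (ih h1).2 (H _)

theorem Same.realize (hN : N ⊨ X.th) (hN' : N' ⊨ X.th) {ι : Type} {v : ι → N} {v' : ι → N'}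
    (h : X.Same v v') (φ : X.lang.Formula ι) : φ.Realize v ↔ φ.Realize v' := by
  classical
  have h1 : φ.Realize v ↔ (BoundedFormula.restrictFreeVar φ id).Realize
      (v ∘ ((↑) : BoundedFormula.freeVarFinset φ → ι)) (default : Fin 0 → N) :=
    (BoundedFormula.realize_restrictFreeVar v (by simp)).symm
  have h2 : φ.Realize v' ↔ (BoundedFormula.restrictFreeVar φ id).Realize
      (v' ∘ ((↑) : BoundedFormula.freeVarFinset φ → ι)) (default : Fin 0 → N') :=
    (BoundedFormula.realize_restrictFreeVar v' (by simp)).symm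
  rw [h1, h2]
  refine realize_aux hN hN' _ ?_
  have h3 := h.comp (Sum.elim (fun i : BoundedFormula.freeVarFinset φ => (i : ι)) Fin.elim0)
  have e1 : v ∘ Sum.elim (fun i : BoundedFormula.freeVarFinset φ => (i : ι)) Fin.elim0 =
      Sum.elim (v ∘ ((↑) : BoundedFormula.freeVarFinset φ → ι)) (default : Fin 0 → N) := by
    funext i
    rcases i with i | i
    · rfl
    · exact Fin.elim0 i
  have e2 : v' ∘ Sum.elim (fun i : BoundedFormula.freeVarFinset φ => (i : ι)) Fin.elim0 =
      Sum.elim (v' ∘ ((↑) : BoundedFormula.freeVarFinset φ → ι)) (default : Fin 0 → N') := by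
    funext i
    rcases i with i | i
    · rfl
    · exact Fin.elim0 i
  rwa [e1, e2] at h3

/-- equality of all first-order formulas implies `Same` -/
theorem same_of_realize {ι : Type} {v : ι → N} {v' : ι → N'}
    (h : ∀ φ : X.lang.Formula ι, φ.Realize v ↔ φ.Realize v') : X.Same v v' := by
  intro m f q
  have := h (rf q f)
  rwa [realize_rf, realize_rf] at this

theorem exists_same (hN : N ⊨ X.th) (hN' : N' ⊨ X.th) {ι : Type} [Finite ι] (v : ι → N) :
    ∃ u : ι → N', X.Same u v := by
  have h0 : X.Same (Fin.elim0 : Fin 0 → N) (Fin.elim0 : Fin 0 → N') := by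
    obtain ⟨q, hq⟩ := exists_rel hN (Fin.elim0 : Fin 0 → N)
    obtain ⟨q', hq'⟩ := exists_rel hN' (Fin.elim0 : Fin 0 → N')
    have : q = q' := by
      obtain ⟨u, rfl⟩ := exists_mkr q
      obtain ⟨u', rfl⟩ := exists_mkr q'
      rw [Subsingleton.elim u u']
    subst this
    refine same_of_rel hN hN' (Equiv.refl (Fin 0)) q ?_ ?_
    · exact hq
    · exact hq'
  obtain ⟨b, hb⟩ := h0.ext hN hN' v
  refine ⟨b, ?_⟩
  have := hb.comp (Sum.inr : ι → Fin 0 ⊕ ι)
  exact this.symm

theorem exists_same_nat (hN : N ⊨ X.th) (hN' : N' ⊨ X.th) (v : ℕ → N) :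
    ∃ u : ℕ → N', X.Same u v := by
  -- one step
  have step : ∀ (n : ℕ) (u : Fin n → N'), X.Same u (fun i : Fin n => v i) →
      ∃ y : N', X.Same (Fin.snoc (α := fun _ => N') u y) (fun i : Fin (n + 1) => v i) := by
    intro n u hu
    obtain ⟨b, hb⟩ := hu.symm.ext hN hN' (fun _ : Fin 1 => v n)
    refine ⟨b 0, ?_⟩
    let g : Fin (n + 1) → Fin n ⊕ Fin 1 :=
      Fin.snoc (α := fun _ => Fin n ⊕ Fin 1) (fun k => Sum.inl k) (Sum.inr 0)
    have h1 := hb.symm.comp g
    have e1 : Sum.elim u b ∘ g = Fin.snoc (α := fun _ => N') u (b 0) := by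
      funext i
      refine Fin.lastCases ?_ (fun k => ?_) i
      · simp [g]
      · simp [g]
    have e2 : Sum.elim (fun i : Fin n => v i) (fun _ : Fin 1 => v n) ∘ g =
        fun i : Fin (n + 1) => v i := by
      funext i
      refine Fin.lastCases ?_ (fun k => ?_) i
      · simp [g]
      · simp [g]
    rwa [e1, e2] at h1
  choose next hnext using step
  obtain ⟨u0, hu0⟩ := exists_same hN hN' (fun i : Fin 0 => v i)
  let S : ∀ n : ℕ, {u : Fin n → N' // X.Same u (fun i : Fin n => v i)} := fun n =>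
    Nat.rec (motive := fun n => {u : Fin n → N' // X.Same u (fun i : Fin n => v i)})
      ⟨u0, hu0⟩ (fun n u => ⟨Fin.snoc (α := fun _ => N') u.1 (next n u.1 u.2),
        hnext n u.1 u.2⟩) n
  have hS : ∀ n, (S (n + 1)).1 = Fin.snoc (α := fun _ => N') (S n).1 (next n (S n).1 (S n).2) :=
    fun n => rfl
  let u : ℕ → N' := fun n => (S (n + 1)).1 (Fin.last n)
  have hSu : ∀ n (i : Fin n), (S n).1 i = u i := by
    intro n
    induction n with
    | zero => intro i; exact Fin.elim0 i
    | succ n ih =>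
      intro i
      refine Fin.lastCases ?_ (fun k => ?_) i
      · rfl
      · rw [hS, Fin.snoc_castSucc, ih k]
        rfl
  refine ⟨u, fun m f q => ?_⟩
  obtain ⟨n, hn⟩ : ∃ n, ∀ i, f i < n := by
    obtain ⟨n, hn⟩ := (Set.finite_range f).bddAbove
    exact ⟨n + 1, fun i => Nat.lt_succ_of_le (hn ⟨i, rfl⟩)⟩
  have h1 := (S n).2 m (fun i => ⟨f i, hn i⟩) q
  have e1 : (S n).1 ∘ (fun i => (⟨f i, hn i⟩ : Fin n)) = u ∘ f := by
    funext i
    exact hSu n _
  have e2 : (fun i : Fin n => v i) ∘ (fun i => (⟨f i, hn i⟩ : Fin n)) = v ∘ f := rfl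
  rwa [e1, e2] at h1

theorem exists_same_countable (hN : N ⊨ X.th) (hN' : N' ⊨ X.th) {ι : Type} [Countable ι]
    (v : ι → N) : ∃ u : ι → N', X.Same u v := by
  rcases isEmpty_or_nonempty ι with hι | hι
  · exact exists_same hN hN' v
  · obtain ⟨g, hg⟩ := exists_surjective_nat ι
    obtain ⟨s, hs⟩ := hg.hasRightInverse
    obtain ⟨u0, hu0⟩ := exists_same_nat hN hN' (v ∘ g)
    refine ⟨u0 ∘ s, ?_⟩
    have := hu0.comp s
    have e : (v ∘ g) ∘ s = v := by funext i; simp [hs i]
    rwa [e] at this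

theorem model_self : M ⊨ X.th := by
  unfold th
  infer_instance

theorem model_of_elementary (hN : N ⊨ X.th) (e : N ↪ₑ[X.lang] N') : N' ⊨ X.th :=
  (e.theory_model_iff X.th).1 hN

theorem same_elementary (e : N ↪ₑ[X.lang] N') {ι : Type} (v : ι → N) : X.Same v (e ∘ v) := by
  intro m f q
  exact (e.map_rel q (v ∘ f)).symm

/-- a formula isolating the type of a finite tuple -/
theorem exists_isolating (X : TypeSpace M) {ι : Type} [Finite ι] (u : ι → M) :
    ∃ φ : X.lang.Formula ι, ∀ (N : Type) [X.lang.Structure N], N ⊨ X.th → ∀ v : ι → N,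
      φ.Realize v ↔ X.Same u v := by
  obtain ⟨m, ⟨e⟩⟩ := Finite.exists_equiv_fin ι
  refine ⟨rf (mkr (u ∘ e.symm)) e.symm, fun N _ hN v => ?_⟩
  rw [realize_rf]
  constructor
  · intro h
    exact same_of_rel model_self hN e.symm _ (relMap_mk.2 (X.refl _)) h
  · intro h
    exact (h m e.symm _).1 (relMap_mk.2 (X.refl _))

theorem th_isComplete [Nonempty M] : X.th.IsComplete := completeTheory.isComplete _ _

end

end TypeSpace

end Pool.Agent.SF
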