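import Pool.Agent.SF.Emb
import Pool.Agent.SF.Clm

/-!
# M13 ND: `IndM.indep`, ND1, ND2
-/

set_option autoImplicit false

namespace Pool.Agent.SF

section M

variable {G : Geo ℕ} {F : ℕ → Finset ℕ} {A B E S S' Y : Finset ℕ}

/-- independence of two strong sets in the generic structure -/
structure IndM (G : Geo ℕ) (F : ℕ → Finset ℕ) (A B : Finset ℕ) : Prop where
  s₁ : SM G F A
  s₂ : SM G F B
  eq : G.delta (clM G F (A ∪ B)) + G.delta (A ∩ B) = G.delta A + G.delta B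

theorem IndM.indep (hG : Generic G F) (h : IndM G F A B) {W : Finset ℕ} (hW : SM G F W)
    (hAW : A ⊆ W) (hBW : B ⊆ W) : G.Indep W A B where
  c₁ := (SM.strongIn hG h.s₁ hW hAW).closed
  c₂ := (SM.strongIn hG h.s₂ hW hBW).closed
  min := by
    intro Y hY hAY hBY
    have h1 := clM_min hG hW hY (Finset.union_subset hAY hBY)
    have h2 := h.eq
    linarith

/-- an infinite pigeonhole principle -/
theorem nd_pigeonhole {α : Type*} {I : Set ℕ} (hI : I.Infinite) (f : ℕ → α) {s : Set α}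
    (hs : s.Finite) (hf : ∀ i ∈ I, f i ∈ s) : ∃ t ∈ s, {i ∈ I | f i = t}.Infinite := by
  by_contra hcon
  push Not at hcon
  apply hI
  have h1 : I ⊆ ⋃ t ∈ s, {i ∈ I | f i = t} := by
    intro i hi
    simp only [Set.mem_iUnion]
    exact ⟨f i, hf i hi, hi, rfl⟩
  exact (hs.biUnion (fun t ht => hcon t ht)).subset h1

/-- the dimension over a larger set is smaller -/
theorem nd_dim_anti (hG : Generic G F) {N₀ N₁ X : Finset ℕ} (h₀ : SM G F N₀) (h₁ : SM G F N₁)
    (h : N₀ ⊆ N₁) :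
    G.delta (clM G F (N₁ ∪ X)) - G.delta N₁ ≤ G.delta (clM G F (N₀ ∪ X)) - G.delta N₀ := by
  have h2 := clM_submod hG h₁ (clM_strong hG (N₀ ∪ X))
  have h3 : G.delta (clM G F (N₁ ∪ X)) ≤ G.delta (clM G F (N₁ ∪ clM G F (N₀ ∪ X))) := by
    apply SM.delta_mono hG (clM_strong hG _) (clM_strong hG _)
    apply clM_mono hG
    apply Finset.union_subset_union (Finset.Subset.refl _)
    exact (Finset.subset_union_right).trans (subset_clM hG (N₀ ∪ X))
  have h4 : G.delta N₀ ≤ G.delta (N₁ ∩ clM G F (N₀ ∪ X)) := by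
    apply SM.delta_mono hG h₀ (SM.inter hG h₁ (clM_strong hG _))
    apply Finset.subset_inter h
    exact (Finset.subset_union_left).trans (subset_clM hG (N₀ ∪ X))
  linarith

theorem nd_dim_nonneg (hG : Generic G F) {N X : Finset ℕ} (h : SM G F N) :
    0 ≤ G.delta (clM G F (N ∪ X)) - G.delta N := by
  have h1 := SM.delta_mono hG h (clM_strong hG (N ∪ X))
    ((Finset.subset_union_left).trans (subset_clM hG (N ∪ X)))
  linarith

theorem nd_dim_le (hG : Generic G F) {N X : Finset ℕ} (h : SM G F N) (hX : SM G F X) :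
    G.delta (clM G F (N ∪ X)) - G.delta N ≤ G.delta X := by
  have h1 := clM_submod hG h hX
  have h2 := SM.delta_nonneg hG (SM.inter hG h hX)
  linarith

/-- ND1: a strong set `N₀` and an infinite set of indices such that the closures of
`N₀ ∪ σ i B` are independent over `N₀` from any given strong set, up to finitely many indices. -/
theorem nd1 (hG : Generic G F) (hB : SM G F B) (σ : ℕ → ℕ → ℕ)
    (hσ : ∀ i, Emb G B G (σ i)) (hσ' : ∀ i, SM G F (B.image (σ i)))
    (hA : SM G F A) (hAB : A ⊆ B) (hA' : ∀ i j, ∀ a ∈ A, σ i a = σ j a) :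
    ∃ (N₀ : Finset ℕ) (I : Set ℕ), SM G F N₀ ∧ I.Infinite ∧ A.image (σ 0) ⊆ N₀ ∧
      ∀ N₁, SM G F N₁ → N₀ ⊆ N₁ →
        {i ∈ I | ¬ (IndM G F N₁ (clM G F (N₀ ∪ B.image (σ i))) ∧
          N₁ ∩ clM G F (N₀ ∪ B.image (σ i)) = N₀)}.Finite := by
  classical
  set d : Finset ℕ → ℕ → ℕ := fun N i =>
    (G.delta (clM G F (N ∪ B.image (σ i))) - G.delta N).toNat with hd
  have hdc : ∀ N i, SM G F N → (d N i : ℤ) = G.delta (clM G F (N ∪ B.image (σ i))) - G.delta N := by
    intro N i hN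
    exact Int.toNat_of_nonneg (nd_dim_nonneg hG hN)
  let T : ℕ → Prop := fun t => ∃ (N₀ : Finset ℕ) (I : Set ℕ), SM G F N₀ ∧ I.Infinite ∧
    A.image (σ 0) ⊆ N₀ ∧ ∀ i ∈ I, d N₀ i = t
  have hT : ∃ t, T t := by
    obtain ⟨t, _, ht⟩ := nd_pigeonhole (I := Set.univ) Set.infinite_univ
      (d (B.image (σ 0))) (s := Set.Iic (G.delta B).toNat) (Set.finite_Iic _) (by
        intro i _
        rw [Set.mem_Iic, hd]
        apply Int.toNat_le_toNat
        have h1 := nd_dim_le hG (hσ' 0) (hσ' i)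
        rwa [(hσ i).delta_image (Finset.Subset.refl _)] at h1)
    exact ⟨t, B.image (σ 0), _, hσ' 0, ht, Finset.image_subset_image hAB, fun i hi => hi.2⟩
  obtain ⟨N₀, I, hN₀, hI, hAN, hd₀⟩ := Nat.find_spec hT
  set t := Nat.find hT with htdef
  refine ⟨N₀, I, hN₀, hI, hAN, ?_⟩
  intro N₁ hN₁ h₀₁
  have hfin : {i ∈ I | d N₁ i < t}.Finite := by
    by_contra hinf
    obtain ⟨t', ht', hJ⟩ := nd_pigeonhole (I := {i ∈ I | d N₁ i < t}) hinf (d N₁)
      (s := Set.Iio t) (Set.finite_Iio t) (fun i hi => hi.2)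
    exact Nat.find_min hT ht' ⟨N₁, _, hN₁, hJ, hAN.trans h₀₁, fun i hi => hi.2⟩
  refine hfin.subset ?_
  rintro i ⟨hi, hni⟩
  refine ⟨hi, ?_⟩
  by_contra hlt
  push Not at hlt
  apply hni
  set Ni := clM G F (N₀ ∪ B.image (σ i)) with hNi
  have hNis : SM G F Ni := clM_strong hG _
  have h0Ni : N₀ ⊆ Ni := (Finset.subset_union_left).trans (subset_clM hG _)
  have e0 : (t : ℤ) = G.delta Ni - G.delta N₀ := by
    rw [← hd₀ i hi]
    exact hdc N₀ i hN₀
  have e1 : (t : ℤ) ≤ G.delta (clM G F (N₁ ∪ B.image (σ i))) - G.delta N₁ := by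
    rw [← hdc N₁ i hN₁]
    exact_mod_cast hlt
  have h3 : G.delta (clM G F (N₁ ∪ B.image (σ i))) ≤ G.delta (clM G F (N₁ ∪ Ni)) := by
    apply SM.delta_mono hG (clM_strong hG _) (clM_strong hG _)
    apply clM_mono hG
    apply Finset.union_subset_union (Finset.Subset.refl _)
    exact (Finset.subset_union_right).trans (subset_clM hG (N₀ ∪ B.image (σ i)))
  have h4 := clM_submod hG hN₁ hNis
  have h5 : N₀ ⊆ N₁ ∩ Ni := Finset.subset_inter h₀₁ h0Ni
  have h6 : N₁ ∩ Ni = N₀ := by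
    by_contra hne
    have h7 : N₀ ⊂ N₁ ∩ Ni := Finset.ssubset_iff_subset_ne.2 ⟨h5, Ne.symm hne⟩
    have h8 := SM.delta_lt hG hN₀ (SM.inter hG hN₁ hNis) h7
    linarith
  refine ⟨⟨hN₁, hNis, ?_⟩, h6⟩
  rw [h6] at h4 ⊢
  linarith

theorem nd_idx_injective : Function.Injective Kind.idx := by
  intro a b h
  rcases a with _ | (_ | _) | _ <;> rcases b with _ | (_ | _) | _ <;> simp_all [Kind.idx]

theorem nd_kind_finite : Finite Kind := by
  have h : Set.InjOn Kind.idx (Set.univ : Set Kind) := nd_idx_injective.injOn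
  have h2 : (Kind.idx '' (Set.univ : Set Kind)).Finite := by
    apply (Set.finite_Iic 3).subset
    rintro _ ⟨a, _, rfl⟩
    rcases a with _ | (_ | _) | _ <;> simp [Kind.idx]
  exact Set.finite_univ_iff.1 (Set.Finite.of_finite_image h2 h)

/-- ND2: constant isomorphism type -/
theorem nd2 (hG : Generic G F) (hB : SM G F B) (σ : ℕ → ℕ → ℕ)
    (hσ : ∀ i, Emb G B G (σ i)) (hσ' : ∀ i, SM G F (B.image (σ i)))
    {N₀ : Finset ℕ} {I : Set ℕ} (hN₀ : SM G F N₀) (hI : I.Infinite) :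
    ∃ (i₀ : ℕ) (I' : Set ℕ) (θ : ℕ → ℕ → ℕ), i₀ ∈ I ∧ I' ⊆ I ∧ I'.Infinite ∧ ∀ i ∈ I',
      Emb G (clM G F (N₀ ∪ B.image (σ i₀))) G (θ i) ∧
      (clM G F (N₀ ∪ B.image (σ i₀))).image (θ i) = clM G F (N₀ ∪ B.image (σ i)) ∧
      (∀ v ∈ N₀, θ i v = v) ∧ ∀ b ∈ B, θ i (σ i₀ b) = σ i b := by
  classical
  have := nd_kind_finite
  set C : ℕ → Finset ℕ := fun i => clM G F (N₀ ∪ B.image (σ i)) with hC
  have hCs : ∀ i, SM G F (C i) := fun i => clM_strong hG _
  have hNC : ∀ i, N₀ ⊆ C i := fun i => (Finset.subset_union_left).trans (subset_clM hG _)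
  have hBC : ∀ i, B.image (σ i) ⊆ C i := fun i => (Finset.subset_union_right).trans (subset_clM hG _)
  -- bounded cardinality
  have hcard : ∀ i, (C i).card ≤ 3 ^ (G.delta N₀ + G.delta B).toNat := by
    intro i
    have h1 := SM.card_le hG (hCs i)
    have h2 := nd_dim_le hG hN₀ (hσ' i)
    rw [(hσ i).delta_image (Finset.Subset.refl _)] at h2
    have h3 : G.delta (C i) ≤ G.delta N₀ + G.delta B := by
      have : G.delta (C i) = G.delta (clM G F (N₀ ∪ B.image (σ i))) := rfl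
      linarith
    have h4 : (3 : ℤ) ^ (G.delta (C i)).toNat ≤ 3 ^ (G.delta N₀ + G.delta B).toNat :=
      pow_le_pow_right₀ (by norm_num) (Int.toNat_le_toNat h3)
    exact_mod_cast h1.trans h4
  obtain ⟨n, _, hJ⟩ := nd_pigeonhole hI (fun i => (C i).card)
    (s := Set.Iic (3 ^ (G.delta N₀ + G.delta B).toNat)) (Set.finite_Iic _) (fun i _ => hcard i)
  set J := {i ∈ I | (C i).card = n} with hJdef
  -- enumerations
  have henum : ∀ i, ∃ e : Fin n → ℕ, i ∈ J → (Function.Injective e ∧ ∀ v, v ∈ C i ↔ ∃ k, e k = v) := by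
    intro i
    by_cases hi : i ∈ J
    · have hi' := hi.2
      refine ⟨fun k => ((C i).equivFinOfCardEq hi').symm k, fun _ => ⟨?_, ?_⟩⟩
      · intro k l hkl
        exact ((C i).equivFinOfCardEq hi').symm.injective (Subtype.ext hkl)
      · intro v
        constructor
        · intro hv
          exact ⟨(C i).equivFinOfCardEq hi' ⟨v, hv⟩, by simp⟩
        · rintro ⟨k, rfl⟩
          exact (((C i).equivFinOfCardEq hi').symm k).2
    · exact ⟨fun _ => 0, fun h => absurd h hi⟩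
  choose e he using henum
  have hpN : ∀ i, ∃ g : N₀ → Option (Fin n), i ∈ J → ∀ v : N₀, ∃ k, g v = some k ∧ e i k = v := by
    intro i
    by_cases hi : i ∈ J
    · have h1 : ∀ v : N₀, ∃ k, e i k = v := fun v => ((he i hi).2 v).1 (hNC i v.2)
      choose g hg using h1
      exact ⟨fun v => some (g v), fun _ v => ⟨g v, rfl, hg v⟩⟩
    · exact ⟨fun _ => none, fun h => absurd h hi⟩
  choose gN hgN using hpN
  have hpB : ∀ i, ∃ g : B → Option (Fin n), i ∈ J → ∀ b : B, ∃ k, g b = some k ∧ e i k = σ i b := by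
    intro i
    by_cases hi : i ∈ J
    · have h1 : ∀ b : B, ∃ k, e i k = σ i b := fun b =>
        ((he i hi).2 _).1 (hBC i (Finset.mem_image_of_mem _ b.2))
      choose g hg using h1
      exact ⟨fun v => some (g v), fun _ v => ⟨g v, rfl, hg v⟩⟩
    · exact ⟨fun _ => none, fun h => absurd h hi⟩
  choose gB hgB using hpB
  obtain ⟨c, _, hK⟩ := nd_pigeonhole hJ
    (fun i => ((fun k => G.kind (e i k) : Fin n → Kind),
      (fun k l => G.adj (e i k) (e i l) : Fin n → Fin n → Prop), gN i, gB i))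
    (s := Set.univ) (Set.toFinite _) (fun i _ => Set.mem_univ _)
  obtain ⟨i₀, hi₀⟩ := hK.nonempty
  obtain ⟨θ, hθ⟩ : ∃ θ : ℕ → ℕ → ℕ, ∀ i, θ i = Function.extend (e i₀) (e i) id := ⟨_, fun _ => rfl⟩
  refine ⟨i₀, _, θ, hi₀.1.1, ?_, hK, ?_⟩
  · intro i hi
    exact hi.1.1
  · intro i hi
    have hiJ := hi.1
    have hi0J := hi₀.1
    have hcode := hi.2.trans hi₀.2.symm
    rw [Prod.mk.injEq, Prod.mk.injEq, Prod.mk.injEq] at hcode
    obtain ⟨hk, ha, hgn, hgb⟩ := hcode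
    obtain ⟨hinj0, hmem0⟩ := he i₀ hi0J
    obtain ⟨hinj, hmem⟩ := he i hiJ
    have hval : ∀ k, θ i (e i₀ k) = e i k := by
      intro k
      rw [hθ]
      exact hinj0.extend_apply _ _ k
    refine ⟨⟨?_, ?_, ?_⟩, ?_, ?_, ?_⟩
    · intro u hu v hv huv
      obtain ⟨k, rfl⟩ := (hmem0 u).1 hu
      obtain ⟨l, rfl⟩ := (hmem0 v).1 hv
      rw [hval, hval] at huv
      rw [hinj huv]
    · intro u hu
      obtain ⟨k, rfl⟩ := (hmem0 u).1 hu
      rw [hval]
      exact congrFun hk k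
    · intro u hu v hv
      obtain ⟨k, rfl⟩ := (hmem0 u).1 hu
      obtain ⟨l, rfl⟩ := (hmem0 v).1 hv
      rw [hval, hval]
      exact iff_of_eq (congrFun (congrFun ha k) l)
    · ext v
      rw [Finset.mem_image]
      constructor
      · rintro ⟨u, hu, rfl⟩
        obtain ⟨k, rfl⟩ := (hmem0 u).1 hu
        rw [hval]
        exact (hmem _).2 ⟨k, rfl⟩
      · intro hv
        obtain ⟨k, rfl⟩ := (hmem v).1 hv
        exact ⟨e i₀ k, (hmem0 _).2 ⟨k, rfl⟩, hval k⟩
    · intro v hv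
      obtain ⟨k, hk1, hk2⟩ := hgN i₀ hi0J ⟨v, hv⟩
      obtain ⟨l, hl1, hl2⟩ := hgN i hiJ ⟨v, hv⟩
      rw [hgn, hk1, Option.some.injEq] at hl1
      subst hl1
      simp only at hk2 hl2
      calc θ i v = θ i (e i₀ k) := by rw [hk2]
        _ = e i k := hval k
        _ = v := hl2
    · intro b hb
      obtain ⟨k, hk1, hk2⟩ := hgB i₀ hi0J ⟨b, hb⟩
      obtain ⟨l, hl1, hl2⟩ := hgB i hiJ ⟨b, hb⟩
      rw [hgb, hk1, Option.some.injEq] at hl1
      subst hl1
      simp only at hk2 hl2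
      calc θ i (σ i₀ b) = θ i (e i₀ k) := by rw [hk2]
        _ = e i k := hval k
        _ = σ i b := hl2

end M

end Pool.Agent.SF
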