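import Pool.Agent.SF.Lang

/-!
Module A3 NOFORK: a formula true of a tuple of the same rank over `(b, c)` as over `c` does not fork
over `A ∋ c`.
-/

set_option autoImplicit false

namespace Pool.Agent.SF

open FirstOrder FirstOrder.Language TypeSpace

variable {M : Type} {X : TypeSpace M}

/-- if `a₀` has the same rank over `(b₀, c₀)` as over `c₀`, where `(b, c)` has the type of `(b₀, c₀)` and
`c` is a tuple of `A`, then no formula `φ(x, b)` true of `a₀` (over `b₀`) forks over `A`. -/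
theorem ForkData.not_forks (D : ForkData X) {N : Type} [X.lang.Structure N] (hN : N ⊨ X.th)
    {n m l : ℕ} {φ : X.lang.Formula (Fin n ⊕ Fin m)} {b : Fin m → N} {c : Fin l → N} {A : Set N}
    (hc : ∀ j, c j ∈ A) {a₀ : Fin n → M} {b₀ : Fin m → M} {c₀ : Fin l → M}
    (hbc : X.Same (Sum.elim b₀ c₀) (Sum.elim b c)) (hI : D.rk a₀ (Sum.elim b₀ c₀) = D.rk a₀ c₀)
    (h : φ.Realize (Sum.elim a₀ b₀)) : ¬ Forks φ b A := by
  rintro ⟨N', iN', e, r, ll, ψ, cc, hdiv, hcov⟩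
  have hM : M ⊨ X.th := model_self
  have hN' : N' ⊨ X.th := model_of_elementary hN e
  have h1 : X.Same (Sum.elim b₀ c₀) (Sum.elim (e ∘ b) (e ∘ c)) := by
    have := hbc.trans (same_elementary e (Sum.elim b c))
    rwa [Sum.comp_elim] at this
  obtain ⟨d₀, h2⟩ := Same.ext hN' hM h1.symm (fun p : Σ j, Fin (ll j) => cc p.1 p.2)
  obtain ⟨a', h3, h4⟩ := D.rk_ext a₀ (Sum.elim b₀ c₀) d₀
  have h3' := (same_iff (X := X)).2 h3
  have h5 : φ.Realize (Sum.elim a' b₀) := by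
    have h5' := h3'.comp (Sum.map id Sum.inl)
    rw [Sum.elim_comp_map, Sum.elim_comp_map] at h5'
    exact (Same.realize hM hM h5' φ).2 h
  obtain ⟨x, h6⟩ := Same.ext hM hN' h2.symm a'
  have h6a : X.Same (Sum.elim a' b₀) (Sum.elim x (e ∘ b)) := by
    have h6' := h6.comp (Sum.elim Sum.inr (Sum.inl ∘ Sum.inl ∘ Sum.inl))
    convert h6' using 1 <;> · ext (i | i) <;> rfl
  obtain ⟨j, h7⟩ := hcov x ((Same.realize hM hN' h6a φ).1 h5)
  have h6b : X.Same (Sum.elim a' (fun t => d₀ ⟨j, t⟩)) (Sum.elim x (cc j)) := by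
    have h6' := h6.comp (Sum.elim Sum.inr (fun t => Sum.inl (Sum.inr ⟨j, t⟩)))
    convert h6' using 1 <;> · ext (i | i) <;> rfl
  have h7' : (ψ j).Realize (Sum.elim a' (fun t => d₀ ⟨j, t⟩)) :=
    (Same.realize hM hN' h6b _).2 h7
  -- the rank
  have hrk : D.rk a' (Sum.elim (fun t => d₀ ⟨j, t⟩) c₀) = D.rk a' c₀ := by
    have r1 : D.rk a' c₀ = D.rk a₀ c₀ := by
      apply D.rk_inv
      have := X.reindex (Sum.map id Sum.inr) h3
      rwa [Sum.elim_comp_map, Sum.elim_comp_map] at this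
    have r2 := D.rk_mono a' (Sum.elim (Sum.elim b₀ c₀) d₀)
      (Sum.elim (fun t : Fin (ll j) => Sum.inr ⟨j, t⟩) (fun t => Sum.inl (Sum.inr t)))
    have r3 : Sum.elim (Sum.elim b₀ c₀) d₀ ∘
        (Sum.elim (fun t : Fin (ll j) => Sum.inr ⟨j, t⟩) (fun t => Sum.inl (Sum.inr t))) =
        Sum.elim (fun t => d₀ ⟨j, t⟩) c₀ := by
      ext (i | i) <;> rfl
    rw [r3] at r2
    have r4 := D.rk_mono a' (Sum.elim (fun t => d₀ ⟨j, t⟩) c₀) Sum.inr
    rw [Sum.elim_comp_inr] at r4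
    omega
  -- the dividing sequence
  obtain ⟨N2, iN2, e2, k, dd, hdd, hinc⟩ := hdiv j
  have hN2 : N2 ⊨ X.th := model_of_elementary hN' e2
  have h8 : ∀ i, X.Same (Sum.elim (dd i) (e2 ∘ e ∘ c)) (Sum.elim (cc j) (e ∘ c)) := fun i =>
    same_of_realize (fun χ => hdd i l χ (e ∘ c) (fun t => ⟨c t, hc t, rfl⟩))
  obtain ⟨u, hu⟩ := exists_same_countable hN2 hM
    (Sum.elim (fun p : ℕ × Fin (ll j) => dd p.1 p.2) (e2 ∘ e ∘ c))
  have h9 : ∀ i, X.Same (Sum.elim (fun t => u (Sum.inl (i, t))) (fun t => u (Sum.inr t)))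
      (Sum.elim (dd i) (e2 ∘ e ∘ c)) := by
    intro i
    have h9' := hu.comp (Sum.map (fun t : Fin (ll j) => (i, t)) id)
    convert h9' using 1 <;> · ext (i | i) <;> rfl
  have h10 : X.Same (Sum.elim (cc j) (e ∘ c)) (Sum.elim (fun t => d₀ ⟨j, t⟩) c₀) := by
    have h10' := h2.comp (Sum.elim (fun t : Fin (ll j) => Sum.inr ⟨j, t⟩)
      (fun t => Sum.inl (Sum.inr t)))
    convert h10' using 1 <;> · ext (i | i) <;> rfl
  have h11 : ∀ i, X.R (Sum.elim (fun t => u (Sum.inl (i, t))) (fun t => u (Sum.inr t)))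
      (Sum.elim (fun t => d₀ ⟨j, t⟩) c₀) := fun i =>
    (same_iff (X := X)).1 ((h9 i).trans ((h8 i).trans h10))
  obtain ⟨a1, h12⟩ := X.bf (X.symm (h11 0)) a'
  have h13 : X.R (Sum.elim a' (Sum.elim (fun t => d₀ ⟨j, t⟩) c₀))
      (Sum.elim a1 (Sum.elim (fun t => u (Sum.inl (0, t))) (fun t => u (Sum.inr t)))) := by
    have := X.reindex (Sum.elim Sum.inr Sum.inl) h12
    convert this using 1 <;> · ext (i | i) <;> rfl
  have hrk1 : D.rk a1 (Sum.elim (fun t => u (Sum.inl (0, t))) (fun t => u (Sum.inr t))) =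
      D.rk a1 (fun t => u (Sum.inr t)) := by
    rw [← D.rk_inv h13, hrk]
    apply D.rk_inv
    have := X.reindex (Sum.map id Sum.inr) h13
    rwa [Sum.elim_comp_map, Sum.elim_comp_map] at this
  obtain ⟨I, a2, hcard, h14⟩ := D.nd hrk1 (fun i t => u (Sum.inl (i, t)))
    (fun i => X.trans (h11 i) (X.symm (h11 0))) k
  have h15 : ∀ i ∈ I, (ψ j).Realize (Sum.elim a2 (fun t => u (Sum.inl (i, t)))) := by
    intro i hi
    have g1 := ((same_iff (X := X)).2 (X.trans h13 (X.symm (h14 i hi)))).comp (Sum.map id Sum.inl)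
    rw [Sum.elim_comp_map, Sum.elim_comp_map] at g1
    exact (Same.realize hM hM g1 _).1 h7'
  have h16 : X.Same (fun p : I × Fin (ll j) => u (Sum.inl (p.1, p.2)))
      (fun p : I × Fin (ll j) => dd p.1 p.2) :=
    hu.comp (fun p : I × Fin (ll j) => Sum.inl (p.1, p.2))
  obtain ⟨x2, h17⟩ := Same.ext hM hN2 h16 a2
  refine hinc I hcard ⟨x2, fun i hi => ?_⟩
  have h18 := h17.comp (Sum.elim Sum.inr (fun t => Sum.inl (⟨i, hi⟩, t)))
  have h19 : X.Same (Sum.elim a2 (fun t => u (Sum.inl (i, t)))) (Sum.elim x2 (dd i)) := by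
    convert h18 using 1 <;> · ext (i | i) <;> rfl
  exact (Same.realize hM hN2 h19 _).1 (h15 i hi)

end Pool.Agent.SF
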